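import Pool.Agent.HRJ.Defs

/-!
# HRJ-A1: recurrences, parity, values of the Gegenbauer polynomials

PROOF PLAN.  `gP_succ2` is `rfl`-like (unfold).  `t_gP`: solve the recurrence for `t * gP p (l + 1) t` (`p ≥ 3`, the denominators are
positive).  `nN_succ` is the definition; `t_gK`: multiply `t_gP` by `nN p (l + 1)` and use `nN_succ` twice.  The others: induction with
the recurrence (two-step induction), `gP_zero_val`: `gP p (2h+2) 0 = -(2h+1)/(2h+p-1) gP p (2h) 0`.  `gP_poly`: the polynomials of even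
degree are polynomials in `t^2`: prove simultaneously `gP p (2h) t = r(t^2)` and `gP p (2h+1) t = t * r'(t^2)`.
-/

set_option autoImplicit false

namespace Pool.Agent.HRJ

open MeasureTheory ProbabilityTheory Set Filter Topology Metric
open Pool.Agent.HP89 Pool.Agent.FI75 Pool.Agent.PBL
open scoped RealInnerProductSpace ENNReal

theorem gP_zero (p : ℕ) (t : ℝ) : gP p 0 t = 1 := rfl

theorem gP_one (p : ℕ) (t : ℝ) : gP p 1 t = t := rfl

theorem gP_succ2 (p l : ℕ) (t : ℝ) : gP p (l + 2) t =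
    ((2 * (l : ℝ) + p) * t * gP p (l + 1) t - ((l : ℝ) + 1) * gP p l t) / ((l : ℝ) + p - 1) := rfl

theorem t_gP {p : ℕ} (hp : 3 ≤ p) (l : ℕ) (t : ℝ) : t * gP p (l + 1) t =
    (((l : ℝ) + p - 1) * gP p (l + 2) t + ((l : ℝ) + 1) * gP p l t) / (2 * (l : ℝ) + p) := by
  have hp' : (3 : ℝ) ≤ p := by exact_mod_cast hp
  have hl : (0 : ℝ) ≤ l := Nat.cast_nonneg l
  have h1 : (l : ℝ) + p - 1 ≠ 0 := by linarith
  have h2 : 2 * (l : ℝ) + p ≠ 0 := by linarith
  rw [gP_succ2, mul_div_cancel₀ _ h1, eq_div_iff h2]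
  ring

private theorem nN_succ' (p l : ℕ) : nN p (l + 1) =
    nN p l * (((l : ℝ) + p - 2) * (2 * (l : ℝ) + p)) / (((l : ℝ) + 1) * (2 * (l : ℝ) + p - 2)) := rfl

theorem nN_pos {p : ℕ} (hp : 3 ≤ p) (l : ℕ) : 0 < nN p l := by
  have hp' : (3 : ℝ) ≤ p := by exact_mod_cast hp
  induction l with
  | zero => exact one_pos
  | succ l ih =>
    have hl : (0 : ℝ) ≤ l := Nat.cast_nonneg l
    rw [nN_succ']
    have h1 : 0 < (l : ℝ) + p - 2 := by linarith
    have h2 : 0 < 2 * (l : ℝ) + p := by linarith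
    have h3 : 0 < 2 * (l : ℝ) + p - 2 := by linarith
    positivity

theorem t_gK_zero {p : ℕ} (hp : 3 ≤ p) (t : ℝ) : t * gK p 0 t = 1 / (p : ℝ) * gK p 1 t := by
  have hp' : (3 : ℝ) ≤ p := by exact_mod_cast hp
  have h1 : nN p 1 = p := by
    rw [nN_succ' p 0]
    have h0 : nN p 0 = 1 := rfl
    have h2 : (p : ℝ) - 2 ≠ 0 := by linarith
    rw [h0, Nat.cast_zero]
    have h3 : ((0 : ℝ) + 1) * (2 * 0 + p - 2) ≠ 0 := by
      rw [zero_add, one_mul, mul_zero, zero_add]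
      exact h2
    rw [div_eq_iff h3]
    ring
  have h2 : (p : ℝ) ≠ 0 := by linarith
  unfold gK
  rw [h1, gP_zero, gP_one]
  have h0 : nN p 0 = 1 := rfl
  rw [h0]
  field_simp

theorem t_gK {p : ℕ} (hp : 3 ≤ p) (l : ℕ) (t : ℝ) : t * gK p (l + 1) t =
    ((l : ℝ) + 2) / (2 * (l : ℝ) + p + 2) * gK p (l + 2) t +
      ((l : ℝ) + p - 2) / (2 * (l : ℝ) + p - 2) * gK p l t := by
  have hp' : (3 : ℝ) ≤ p := by exact_mod_cast hp
  have hl : (0 : ℝ) ≤ l := Nat.cast_nonneg l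
  have h1 : (l : ℝ) + p - 2 ≠ 0 := by linarith
  have h2 : 2 * (l : ℝ) + p ≠ 0 := by linarith
  have h3 : 2 * (l : ℝ) + p - 2 ≠ 0 := by linarith
  have h4 : (l : ℝ) + 1 ≠ 0 := by linarith
  have h5 : (l : ℝ) + 2 ≠ 0 := by linarith
  have h6 : 2 * (l : ℝ) + p + 2 ≠ 0 := by linarith
  have e1 : nN p (l + 1) * (((l : ℝ) + 1) * (2 * (l : ℝ) + p - 2)) =
      nN p l * (((l : ℝ) + p - 2) * (2 * (l : ℝ) + p)) := by
    rw [nN_succ', div_mul_cancel₀ _ (mul_ne_zero h4 h3)]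
  have e2 : nN p (l + 2) * (((l : ℝ) + 2) * (2 * (l : ℝ) + p)) =
      nN p (l + 1) * (((l : ℝ) + p - 1) * (2 * (l : ℝ) + p + 2)) := by
    rw [show l + 2 = (l + 1) + 1 from rfl, nN_succ' p (l + 1), Nat.cast_add, Nat.cast_one]
    have h7 : ((l : ℝ) + 1 + 1) * (2 * ((l : ℝ) + 1) + p - 2) ≠ 0 := by
      refine mul_ne_zero (by linarith) ?_
      have : 2 * ((l : ℝ) + 1) + p - 2 = 2 * (l : ℝ) + p := by ring
      rw [this]; exact h2
    rw [div_mul_eq_mul_div, div_eq_iff h7]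
    ring
  have e3 := t_gP hp l t
  rw [eq_div_iff h2] at e3
  unfold gK
  rw [div_mul_eq_mul_div, div_mul_eq_mul_div, div_add_div _ _ h6 h3, eq_div_iff (mul_ne_zero h6 h3)]
  have e4 : (2 * (l : ℝ) + p) * (t * (nN p (l + 1) * gP p (l + 1) t) *
      ((2 * (l : ℝ) + p + 2) * (2 * (l : ℝ) + p - 2))) = (2 * (l : ℝ) + p) *
      (((l : ℝ) + 2) * (nN p (l + 2) * gP p (l + 2) t) * (2 * (l : ℝ) + p - 2) +
        (2 * (l : ℝ) + p + 2) * (((l : ℝ) + p - 2) * (nN p l * gP p l t))) := by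
    linear_combination (nN p (l + 1) * ((2 * (l : ℝ) + p + 2) * (2 * (l : ℝ) + p - 2))) * e3 -
      (gP p (l + 2) t * (2 * (l : ℝ) + p - 2)) * e2 + (gP p l t * (2 * (l : ℝ) + p + 2)) * e1
  exact mul_left_cancel₀ h2 e4

theorem continuous_gP (p l : ℕ) : Continuous (gP p l) := by
  have h : Continuous (gP p l) ∧ Continuous (gP p (l + 1)) := by
    induction l with
    | zero => exact ⟨continuous_const, continuous_id⟩
    | succ l ih =>
      refine ⟨ih.2, ?_⟩
      have h0 : gP p (l + 1 + 1) = fun t => ((2 * (l : ℝ) + p) * t * gP p (l + 1) t - ((l : ℝ) + 1) * gP p l t) /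
        ((l : ℝ) + p - 1) := rfl
      rw [h0]
      exact ((((continuous_const.mul continuous_id).mul ih.2).sub (continuous_const.mul ih.1))).div_const _
  exact h.1

theorem gP_neg (p l : ℕ) (t : ℝ) : gP p l (-t) = (-1) ^ l * gP p l t := by
  have h : gP p l (-t) = (-1) ^ l * gP p l t ∧ gP p (l + 1) (-t) = (-1) ^ (l + 1) * gP p (l + 1) t := by
    induction l with
    | zero => constructor <;> simp [gP_zero, gP_one]
    | succ l ih =>
      refine ⟨ih.2, ?_⟩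
      rw [show l + 1 + 1 = l + 2 from rfl, gP_succ2, gP_succ2, ih.1, ih.2, mul_div_assoc', pow_succ (-1 : ℝ) (l + 1),
        pow_succ (-1 : ℝ) l]
      congr 1
      ring
  exact h.1

theorem gP_one_val {p : ℕ} (hp : 3 ≤ p) (l : ℕ) : gP p l 1 = 1 := by
  have hp' : (3 : ℝ) ≤ p := by exact_mod_cast hp
  have h : gP p l 1 = 1 ∧ gP p (l + 1) 1 = 1 := by
    induction l with
    | zero => exact ⟨rfl, rfl⟩
    | succ l ih =>
      refine ⟨ih.2, ?_⟩
      have hl : (0 : ℝ) ≤ l := Nat.cast_nonneg l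
      have h1 : (l : ℝ) + p - 1 ≠ 0 := by linarith
      rw [show l + 1 + 1 = l + 2 from rfl, gP_succ2, ih.1, ih.2, div_eq_iff h1]
      ring
  exact h.1

theorem gP_zero_val {p : ℕ} (hp : 3 ≤ p) (h : ℕ) : gP p (2 * h) 0 = rR p h := by
  have hp' : (3 : ℝ) ≤ p := by exact_mod_cast hp
  induction h with
  | zero => simp [gP_zero, rR]
  | succ h ih =>
    have hl : (0 : ℝ) ≤ h := Nat.cast_nonneg h
    have h1 : 2 * (h : ℝ) + p - 1 ≠ 0 := by linarith
    rw [show 2 * (h + 1) = 2 * h + 2 from rfl, gP_succ2, ih]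
    unfold rR
    rw [Finset.prod_range_succ, pow_succ, Nat.cast_mul, Nat.cast_ofNat, div_eq_iff h1]
    have h2 : (2 * (h : ℝ) + 1) / (2 * (h : ℝ) + p - 1) * (2 * (h : ℝ) + p - 1) = 2 * (h : ℝ) + 1 :=
      div_mul_cancel₀ _ h1
    linear_combination ((-1 : ℝ) ^ h * ∏ i ∈ Finset.range h, (2 * (i : ℝ) + 1) / (2 * (i : ℝ) + p - 1)) * h2

theorem gP_zero_odd (p h : ℕ) : gP p (2 * h + 1) 0 = 0 := by
  induction h with
  | zero => rfl
  | succ h ih =>
    rw [show 2 * (h + 1) + 1 = (2 * h + 1) + 2 from rfl, gP_succ2, ih]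
    simp

theorem gP_poly (p h : ℕ) : ∃ r : Polynomial ℝ, r.natDegree ≤ h ∧ ∀ t : ℝ, gP p (2 * h) t = r.eval (t ^ 2) := by
  have key : ∃ r r' : Polynomial ℝ, (r.natDegree ≤ h ∧ r'.natDegree ≤ h) ∧ ∀ t : ℝ,
      gP p (2 * h) t = r.eval (t ^ 2) ∧ gP p (2 * h + 1) t = t * r'.eval (t ^ 2) := by
    induction h with
    | zero =>
      refine ⟨1, 1, ⟨by simp, by simp⟩, fun t => ⟨?_, ?_⟩⟩
      · simp [gP_zero]
      · simp [gP_one]
    | succ h ih =>
      obtain ⟨r, r', ⟨h1, h2⟩, h3⟩ := ih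
      obtain ⟨s, hs, hs'⟩ : ∃ s : Polynomial ℝ, s.natDegree ≤ h + 1 ∧ ∀ t : ℝ,
          gP p (2 * (h + 1)) t = s.eval (t ^ 2) := by
        refine ⟨Polynomial.C (1 / (((2 * h : ℕ) : ℝ) + p - 1)) *
          (Polynomial.C (2 * ((2 * h : ℕ) : ℝ) + p) * (Polynomial.X * r') -
            Polynomial.C (((2 * h : ℕ) : ℝ) + 1) * r), ?_, fun t => ?_⟩
        · refine (Polynomial.natDegree_C_mul_le _ _).trans ((Polynomial.natDegree_sub_le _ _).trans
            (max_le ?_ ?_))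
          · refine (Polynomial.natDegree_C_mul_le _ _).trans ((Polynomial.natDegree_mul_le).trans ?_)
            rw [Polynomial.natDegree_X]
            omega
          · exact (Polynomial.natDegree_C_mul_le _ _).trans (by omega)
        · rw [show 2 * (h + 1) = 2 * h + 2 from rfl, gP_succ2, (h3 t).1, (h3 t).2]
          simp only [Polynomial.eval_mul, Polynomial.eval_sub, Polynomial.eval_C, Polynomial.eval_X]
          ring
      refine ⟨s, Polynomial.C (1 / (((2 * h + 1 : ℕ) : ℝ) + p - 1)) *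
          (Polynomial.C (2 * ((2 * h + 1 : ℕ) : ℝ) + p) * s -
            Polynomial.C (((2 * h + 1 : ℕ) : ℝ) + 1) * r'), ⟨hs, ?_⟩, fun t => ⟨hs' t, ?_⟩⟩
      · refine (Polynomial.natDegree_C_mul_le _ _).trans ((Polynomial.natDegree_sub_le _ _).trans
            (max_le ?_ ?_))
        · exact (Polynomial.natDegree_C_mul_le _ _).trans hs
        · exact (Polynomial.natDegree_C_mul_le _ _).trans (by omega)
      · rw [show 2 * (h + 1) + 1 = (2 * h + 1) + 2 from rfl, gP_succ2,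
          show 2 * h + 1 + 1 = 2 * (h + 1) from rfl, hs' t, (h3 t).2]
        simp only [Polynomial.eval_mul, Polynomial.eval_sub, Polynomial.eval_C]
        ring
  obtain ⟨r, r', ⟨h1, _⟩, h3⟩ := key
  exact ⟨r, h1, fun t => (h3 t).1⟩

end Pool.Agent.HRJ
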