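import Pool.Agent.HRJ.A1

/-!
# HRJ-A2: the explicit formula

PROOF PLAN.  Let `c l k = (-1)^k * (l.choose (2k)) * kq (p-1) k` and `D t l = ∑ k ∈ range (l+1), c l k * t^(l-2k) * (1-t^2)^k` (the terms with
`2k > l` vanish since the binomial coefficient does).  `D` satisfies the recurrence of `gP`: multiply `D t l` by `1 = t^2 + (1-t^2)`; comparing the
coefficients of `t^(l+2-2k) (1-t^2)^k` it remains to check
`(l+p-1) c (l+2) k = (2l+p) c (l+1) k - (l+1) (c l k + c l (k-1))`, a consequence of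
`(l+2).choose (2k)` etc. and `kq (p-1) k = kq (p-1) (k-1) * (2k-1)/(2k+p-3)`.  Two-step induction.
-/

set_option autoImplicit false

namespace Pool.Agent.HRJ

open MeasureTheory ProbabilityTheory Set Filter Topology Metric
open Pool.Agent.HP89 Pool.Agent.FI75 Pool.Agent.PBL
open scoped RealInnerProductSpace ENNReal

private noncomputable def ce (p l k : ℕ) : ℝ := (-1) ^ k * (l.choose (2 * k) : ℝ) * kq (p - 1) k

private theorem A2_chooseR (l m : ℕ) :
    (l.choose (m + 1) : ℝ) * ((m : ℝ) + 1) = (l.choose m : ℝ) * ((l : ℝ) - m) := by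
  rcases le_or_gt m l with h | h
  · have h1 := Nat.choose_succ_right_eq l m
    have h2 : ((l.choose (m + 1) * (m + 1) : ℕ) : ℝ) = ((l.choose m * (l - m) : ℕ) : ℝ) := by
      rw [h1]
    push_cast [Nat.cast_sub h] at h2
    exact h2
  · rw [Nat.choose_eq_zero_of_lt h, Nat.choose_eq_zero_of_lt (show l < m + 1 by omega)]
    simp

private theorem A2_kq {p : ℕ} (hp : 3 ≤ p) (k : ℕ) :
    kq (p - 1) (k + 1) * (2 * (k : ℝ) + p - 1) = kq (p - 1) k * (2 * (k : ℝ) + 1) := by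
  have hq : ((p - 1 : ℕ) : ℝ) = (p : ℝ) - 1 := by
    rw [Nat.cast_sub (by omega)]
    simp
  have hp' : (3 : ℝ) ≤ p := by exact_mod_cast hp
  have hk : (0 : ℝ) ≤ k := Nat.cast_nonneg k
  have hne : 2 * (k : ℝ) + ((p : ℝ) - 1) ≠ 0 := by
    have : 0 < 2 * (k : ℝ) + ((p : ℝ) - 1) := by linarith
    exact this.ne'
  have h1 : kq (p - 1) (k + 1) = kq (p - 1) k * ((2 * (k : ℝ) + 1) / (2 * (k : ℝ) + ((p : ℝ) - 1))) := by
    unfold kq
    rw [Finset.prod_range_succ, hq]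
  rw [h1]
  field_simp
  ring

private theorem A2_coef {p : ℕ} (hp : 3 ≤ p) (l k : ℕ) :
    ((l : ℝ) + p - 1) * ce p (l + 2) (k + 1) =
      (2 * (l : ℝ) + p) * ce p (l + 1) (k + 1) - ((l : ℝ) + 1) * (ce p l (k + 1) + ce p l k) := by
  have hA := A2_chooseR l (2 * k)
  have hK := A2_kq hp k
  have e1 : (((l + 2).choose (2 * (k + 1)) : ℕ) : ℝ) =
      (l.choose (2 * k) : ℝ) + 2 * (l.choose (2 * k + 1) : ℝ) + (l.choose (2 * k + 2) : ℝ) := by
    rw [show 2 * (k + 1) = 2 * k + 1 + 1 by ring, Nat.choose_succ_succ' (l + 1) (2 * k + 1),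
      Nat.choose_succ_succ' l (2 * k), Nat.choose_succ_succ' l (2 * k + 1)]
    push_cast
    ring
  have e2 : (((l + 1).choose (2 * (k + 1)) : ℕ) : ℝ) =
      (l.choose (2 * k + 1) : ℝ) + (l.choose (2 * k + 2) : ℝ) := by
    rw [show 2 * (k + 1) = 2 * k + 1 + 1 by ring, Nat.choose_succ_succ' l (2 * k + 1)]
    push_cast
    ring
  have e3 : ((l.choose (2 * (k + 1)) : ℕ) : ℝ) = (l.choose (2 * k + 2) : ℝ) := by
    rw [show 2 * (k + 1) = 2 * k + 2 by ring]
  unfold ce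
  rw [e1, e2, e3, pow_succ]
  push_cast at hA
  have hp' : (3 : ℝ) ≤ p := by exact_mod_cast hp
  have hk : (0 : ℝ) ≤ k := Nat.cast_nonneg k
  have hne : 2 * (k : ℝ) + p - 1 ≠ 0 := by
    have : 0 < 2 * (k : ℝ) + p - 1 := by linarith
    exact this.ne'
  have hKe : kq (p - 1) k * (2 * (k : ℝ) + 1) = kq (p - 1) (k + 1) * (2 * (k : ℝ) + p - 1) := hK.symm
  have h2k : (2 * (k : ℝ) + 1) ≠ 0 := by positivity
  refine mul_left_cancel₀ h2k ?_
  linear_combination (-(-1 : ℝ) ^ k * kq (p - 1) (k + 1) * ((p : ℝ) - 2)) * hA +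
    (-1 : ℝ) ^ k * ((l : ℝ) + 1) * (l.choose (2 * k) : ℝ) * hKe

private noncomputable def De (p l : ℕ) (t : ℝ) : ℝ :=
  ∑ k ∈ Finset.range (l + 1), ce p l k * t ^ (l - 2 * k) * (1 - t ^ 2) ^ k

private theorem A2_ce0 (p : ℕ) {l k : ℕ} (h : l < 2 * k) : ce p l k = 0 := by
  unfold ce
  rw [Nat.choose_eq_zero_of_lt h]
  simp

private theorem A2_ext (p l : ℕ) (t : ℝ) {N : ℕ} (hN : l + 1 ≤ N) :
    De p l t = ∑ k ∈ Finset.range N, ce p l k * t ^ (l - 2 * k) * (1 - t ^ 2) ^ k := by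
  unfold De
  refine Finset.sum_subset (Finset.range_mono hN) ?_
  intro k _ hk
  rw [Finset.mem_range, not_lt] at hk
  rw [A2_ce0 p (show l < 2 * k by omega)]
  simp

private theorem A2_rec {p : ℕ} (hp : 3 ≤ p) (l : ℕ) (t : ℝ) :
    ((l : ℝ) + p - 1) * De p (l + 2) t =
      (2 * (l : ℝ) + p) * t * De p (l + 1) t - ((l : ℝ) + 1) * De p l t := by
  have h2 : De p (l + 2) t = ∑ k ∈ Finset.range (l + 2 + 1),
      ce p (l + 2) k * (t ^ (l + 2 - 2 * k) * (1 - t ^ 2) ^ k) := by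
    unfold De
    exact Finset.sum_congr rfl fun k _ => by ring
  have h1 : t * De p (l + 1) t = ∑ k ∈ Finset.range (l + 2 + 1),
      ce p (l + 1) k * (t ^ (l + 2 - 2 * k) * (1 - t ^ 2) ^ k) := by
    rw [A2_ext p (l + 1) t (N := l + 2 + 1) (by omega), Finset.mul_sum]
    refine Finset.sum_congr rfl fun k _ => ?_
    rcases Nat.lt_or_ge (l + 1) (2 * k) with h | h
    · rw [A2_ce0 p h]
      simp
    · rw [show l + 2 - 2 * k = (l + 1 - 2 * k) + 1 by omega, pow_succ]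
      ring
  have h0a : De p l t * t ^ 2 = ∑ k ∈ Finset.range (l + 2 + 1),
      ce p l k * (t ^ (l + 2 - 2 * k) * (1 - t ^ 2) ^ k) := by
    rw [A2_ext p l t (N := l + 2 + 1) (by omega), Finset.sum_mul]
    refine Finset.sum_congr rfl fun k _ => ?_
    rcases Nat.lt_or_ge l (2 * k) with h | h
    · rw [A2_ce0 p h]
      simp
    · rw [show l + 2 - 2 * k = (l - 2 * k) + 2 by omega, pow_add]
      ring
  have h0b : De p l t * (1 - t ^ 2) = ∑ k ∈ Finset.range (l + 2),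
      ce p l k * (t ^ (l + 2 - 2 * (k + 1)) * (1 - t ^ 2) ^ (k + 1)) := by
    rw [A2_ext p l t (N := l + 2) (by omega), Finset.sum_mul]
    refine Finset.sum_congr rfl fun k _ => ?_
    rw [show l + 2 - 2 * (k + 1) = l - 2 * k by omega, pow_succ]
    ring
  have key : ∀ k ∈ Finset.range (l + 2),
      ((l : ℝ) + p - 1) * (ce p (l + 2) (k + 1) *
        (t ^ (l + 2 - 2 * (k + 1)) * (1 - t ^ 2) ^ (k + 1))) =
      (2 * (l : ℝ) + p) * (ce p (l + 1) (k + 1) *
        (t ^ (l + 2 - 2 * (k + 1)) * (1 - t ^ 2) ^ (k + 1))) -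
      ((l : ℝ) + 1) * (ce p l (k + 1) * (t ^ (l + 2 - 2 * (k + 1)) * (1 - t ^ 2) ^ (k + 1)) +
        ce p l k * (t ^ (l + 2 - 2 * (k + 1)) * (1 - t ^ 2) ^ (k + 1))) := by
    intro k _
    linear_combination (t ^ (l + 2 - 2 * (k + 1)) * (1 - t ^ 2) ^ (k + 1)) * A2_coef hp l k
  have hs := Finset.sum_congr rfl key
  rw [← Finset.mul_sum, Finset.sum_sub_distrib, ← Finset.mul_sum, ← Finset.mul_sum,
    Finset.sum_add_distrib, ← h0b] at hs
  rw [Finset.sum_range_succ'] at h2 h1 h0a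
  have c0 : ∀ m : ℕ, ce p m 0 = 1 := fun m => by simp [ce, kq]
  rw [c0] at h2 h1 h0a
  have h3 : De p l t = De p l t * t ^ 2 + De p l t * (1 - t ^ 2) := by ring
  rw [h2]
  linear_combination hs - (2 * (l : ℝ) + p) * h1 + ((l : ℝ) + 1) * h0a

theorem gP_explicit {p : ℕ} (hp : 3 ≤ p) (l : ℕ) (t : ℝ) : gP p l t =
    ∑ k ∈ Finset.range (l + 1), (-1) ^ k * (l.choose (2 * k) : ℝ) * kq (p - 1) k * t ^ (l - 2 * k) *
      (1 - t ^ 2) ^ k := by
  have hp' : (3 : ℝ) ≤ p := by exact_mod_cast hp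
  have main : ∀ m : ℕ, gP p m t = De p m t ∧ gP p (m + 1) t = De p (m + 1) t := by
    intro m
    induction m with
    | zero =>
      constructor
      · simp [gP, De, ce, kq]
      · rw [De, Finset.sum_range_succ, Finset.sum_range_succ]
        simp [gP, ce, kq]
    | succ m ih =>
      refine ⟨ih.2, ?_⟩
      have hm : (0 : ℝ) ≤ m := Nat.cast_nonneg m
      have hne : (m : ℝ) + p - 1 ≠ 0 := by
        have : 0 < (m : ℝ) + p - 1 := by linarith
        exact this.ne'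
      have h1 := A2_rec hp m t
      have h2 : gP p (m + 1 + 1) t =
          ((2 * (m : ℝ) + p) * t * gP p (m + 1) t - ((m : ℝ) + 1) * gP p m t) /
            ((m : ℝ) + p - 1) := rfl
      rw [h2, ih.1, ih.2, ← h1, mul_div_cancel_left₀ _ hne]
  rw [(main l).1]
  rfl

end Pool.Agent.HRJ
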