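import Pool.Agent.HRJ.A1

/-!
# HRJ-A3: the connection formula between the dimensions `d > p`

PROOF PLAN.  `aC_pos`: `Real.Gamma_pos_of_pos`.  All degrees at once: `gK d l t = ∑ n ∈ range (l/2+1), aC d p n (l-2n) * gK p (l-2n) t` by two-step
induction on `l` with `t_gK` in the dimensions `d` and `p`: with `a(l, m) = aC d p ((l-m)/2) m` one needs (for `l - m` odd, `m ≤ l+1`)
`(l+1)/(2l+d) a(l+1, m) + (l+d-3)/(2l+d-4) a(l-1, m) = m/(2m+p-2) a(l, m-1) + (m+p-2)/(2m+p-2) a(l, m+1)`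
(`a = 0` if `m > l` or `m < 0`), which is a rational identity after division by a common product of Gamma values
(`Real.Gamma_add_one`): with `l = m + 2n - 1` the four terms are `aC d p n m`, `aC d p (n-1) m`, `aC d p n (m-1)`, `aC d p (n-1) (m+1)`.
Numerically checked.  Then take `l = 2h`: all `l - 2n` are even; reindex `m = h - n`.
-/

set_option autoImplicit false

namespace Pool.Agent.HRJ

open MeasureTheory ProbabilityTheory Set Filter Topology Metric
open Pool.Agent.HP89 Pool.Agent.FI75 Pool.Agent.PBL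
open scoped RealInnerProductSpace ENNReal

private noncomputable def aR (d p : ℝ) (n : ℕ) (x : ℝ) : ℝ :=
  Real.Gamma ((n : ℝ) + (d - p) / 2) / ((n.factorial : ℝ) * Real.Gamma ((d - p) / 2)) *
    (Real.Gamma (p / 2) / Real.Gamma (d / 2)) *
    ((x + 2 * n + d / 2 - 1) * Real.Gamma (x + n + d / 2 - 1) / Real.Gamma (x + n + p / 2))

private theorem aC_eq (d p n m : ℕ) : aC d p n m = aR d p n m := rfl

private theorem i_one {d p : ℝ} (hp : 3 ≤ p) (hpd : p < d) (n : ℕ) {x : ℝ} (hx : 0 ≤ x) :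
    (x + 2 * n + 2) / (2 * x + 4 * n + d + 2) * aR d p (n + 1) x +
      (x + 2 * n + d - 2) / (2 * x + 4 * n + d - 2) * aR d p n x =
    x / (2 * x + p - 2) * aR d p (n + 1) (x - 1) +
      (x + p - 2) / (2 * x + p - 2) * aR d p n (x + 1) := by
  have hn : (0 : ℝ) ≤ n := n.cast_nonneg
  have hδ : 0 < (d - p) / 2 := by linarith
  have g1 : Real.Gamma (((n + 1 : ℕ) : ℝ) + (d - p) / 2) =
      ((n : ℝ) + (d - p) / 2) * Real.Gamma ((n : ℝ) + (d - p) / 2) := by
    rw [← Real.Gamma_add_one (by positivity)]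
    congr 1
    push_cast
    ring
  have g2 : Real.Gamma (x + ((n + 1 : ℕ) : ℝ) + d / 2 - 1) =
      (x + n + d / 2 - 1) * Real.Gamma (x + n + d / 2 - 1) := by
    rw [← Real.Gamma_add_one (by linarith)]
    congr 1
    push_cast
    ring
  have g3 : Real.Gamma (x + ((n + 1 : ℕ) : ℝ) + p / 2) =
      (x + n + p / 2) * Real.Gamma (x + n + p / 2) := by
    rw [← Real.Gamma_add_one (by linarith)]
    congr 1
    push_cast
    ring
  have g4 : Real.Gamma (x - 1 + ((n + 1 : ℕ) : ℝ) + d / 2 - 1) = Real.Gamma (x + n + d / 2 - 1) := by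
    congr 1
    push_cast
    ring
  have g5 : Real.Gamma (x - 1 + ((n + 1 : ℕ) : ℝ) + p / 2) = Real.Gamma (x + n + p / 2) := by
    congr 1
    push_cast
    ring
  have g6 : Real.Gamma (x + 1 + (n : ℝ) + d / 2 - 1) =
      (x + n + d / 2 - 1) * Real.Gamma (x + n + d / 2 - 1) := by
    rw [← Real.Gamma_add_one (by linarith)]
    congr 1
    ring
  have g7 : Real.Gamma (x + 1 + (n : ℝ) + p / 2) =
      (x + n + p / 2) * Real.Gamma (x + n + p / 2) := by
    rw [← Real.Gamma_add_one (by linarith)]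
    congr 1
    ring
  have hf : (((n + 1).factorial : ℕ) : ℝ) = ((n : ℝ) + 1) * (n.factorial : ℝ) := by
    rw [Nat.factorial_succ]
    push_cast
    ring
  unfold aR
  rw [g1, g2, g3, g4, g5, g6, g7, hf]
  have p1 : Real.Gamma ((d - p) / 2) ≠ 0 := (Real.Gamma_pos_of_pos hδ).ne'
  have p2 : Real.Gamma (d / 2) ≠ 0 := (Real.Gamma_pos_of_pos (by linarith)).ne'
  have p3 : Real.Gamma (x + n + p / 2) ≠ 0 := (Real.Gamma_pos_of_pos (by linarith)).ne'
  have p4 : (n.factorial : ℝ) ≠ 0 := by positivity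
  generalize Real.Gamma ((d - p) / 2) = G1 at *
  generalize Real.Gamma (d / 2) = G2 at *
  generalize Real.Gamma (x + n + p / 2) = G3 at *
  generalize (n.factorial : ℝ) = G4 at *
  generalize Real.Gamma ((n : ℝ) + (d - p) / 2) = G5 at *
  generalize Real.Gamma (p / 2) = G6 at *
  generalize Real.Gamma (x + n + d / 2 - 1) = G7 at *
  have q1 : 2 * x + 4 * n + d + 2 ≠ 0 := by linarith
  have q2 : 2 * x + 4 * n + d - 2 ≠ 0 := by linarith
  have q3 : 2 * x + p - 2 ≠ 0 := by linarith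
  have q4 : (n : ℝ) + 1 ≠ 0 := by positivity
  have q5 : x + n + p / 2 ≠ 0 := by linarith
  have r1 : x + 2 * ((n + 1 : ℕ) : ℝ) + d / 2 - 1 = (2 * x + 4 * n + d + 2) / 2 := by push_cast; ring
  have r2 : x + 2 * (n : ℝ) + d / 2 - 1 = (2 * x + 4 * n + d - 2) / 2 := by ring
  have r3 : x - 1 + 2 * ((n + 1 : ℕ) : ℝ) + d / 2 - 1 = x + 2 * n + d / 2 := by push_cast; ring
  have r4 : x + 1 + 2 * (n : ℝ) + d / 2 - 1 = x + 2 * n + d / 2 := by ring
  rw [r1, r2, r3, r4]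
  have s1 : (x + 2 * n + 2) / (2 * x + 4 * n + d + 2) * (((n : ℝ) + (d - p) / 2) * G5 / (((n : ℝ) + 1) * G4 * G1) *
      (G6 / G2) * ((2 * x + 4 * n + d + 2) / 2 * ((x + n + d / 2 - 1) * G7) / ((x + n + p / 2) * G3))) =
      (x + 2 * n + 2) * ((n : ℝ) + (d - p) / 2) * (x + n + d / 2 - 1) /
        (2 * ((n : ℝ) + 1) * (x + n + p / 2)) * (G5 * G6 * G7 / (G1 * G2 * G3 * G4)) := by
    generalize 2 * x + 4 * n + d + 2 = A at *
    generalize x + n + p / 2 = B at *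
    generalize (n : ℝ) + 1 = C at *
    field_simp
  have s2 : (x + 2 * n + d - 2) / (2 * x + 4 * n + d - 2) * (G5 / (G4 * G1) * (G6 / G2) *
      ((2 * x + 4 * n + d - 2) / 2 * G7 / G3)) =
      (x + 2 * n + d - 2) / 2 * (G5 * G6 * G7 / (G1 * G2 * G3 * G4)) := by
    generalize 2 * x + 4 * n + d - 2 = A at *
    field_simp
  have s3 : x / (2 * x + p - 2) * (((n : ℝ) + (d - p) / 2) * G5 / (((n : ℝ) + 1) * G4 * G1) * (G6 / G2) *
      ((x + 2 * n + d / 2) * G7 / G3)) =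
      x * ((n : ℝ) + (d - p) / 2) * (x + 2 * n + d / 2) / ((2 * x + p - 2) * ((n : ℝ) + 1)) *
        (G5 * G6 * G7 / (G1 * G2 * G3 * G4)) := by
    generalize 2 * x + p - 2 = A at *
    generalize (n : ℝ) + 1 = C at *
    field_simp
  have s4 : (x + p - 2) / (2 * x + p - 2) * (G5 / (G4 * G1) * (G6 / G2) *
      ((x + 2 * n + d / 2) * ((x + n + d / 2 - 1) * G7) / ((x + n + p / 2) * G3))) =
      (x + p - 2) * (x + 2 * n + d / 2) * (x + n + d / 2 - 1) / ((2 * x + p - 2) * (x + n + p / 2)) *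
        (G5 * G6 * G7 / (G1 * G2 * G3 * G4)) := by
    generalize 2 * x + p - 2 = A at *
    generalize x + n + p / 2 = B at *
    field_simp
  rw [s1, s2, s3, s4, ← add_mul, ← add_mul]
  congr 1
  have hB : ∃ B, B = x + n + p / 2 := ⟨_, rfl⟩
  obtain ⟨B, hB⟩ := hB
  obtain ⟨A, hA⟩ : ∃ A, A = 2 * x + p - 2 := ⟨_, rfl⟩
  obtain ⟨C, hC⟩ : ∃ C, C = (n : ℝ) + 1 := ⟨_, rfl⟩
  rw [← hB, ← hA, ← hC]
  rw [← hB] at q5
  rw [← hA] at q3
  rw [← hC] at q4
  rw [div_add_div _ _ (by positivity) two_ne_zero, div_add_div _ _ (by positivity) (by positivity),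
    div_eq_div_iff (by positivity) (by positivity)]
  rw [hA, hB, hC]
  ring

private theorem i_zero {d p : ℝ} (hp : 3 ≤ p) (hpd : p < d) {x : ℝ} (hx : 0 ≤ x) :
    (x + 1) / (2 * x + d) * aR d p 0 (x + 1) = (x + 1) / (2 * x + p) * aR d p 0 x := by
  have g6 : Real.Gamma (x + 1 + ((0 : ℕ) : ℝ) + d / 2 - 1) =
      (x + ((0 : ℕ) : ℝ) + d / 2 - 1) * Real.Gamma (x + ((0 : ℕ) : ℝ) + d / 2 - 1) := by
    rw [← Real.Gamma_add_one (by push_cast; linarith)]
    congr 1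
    ring
  have g7 : Real.Gamma (x + 1 + ((0 : ℕ) : ℝ) + p / 2) =
      (x + ((0 : ℕ) : ℝ) + p / 2) * Real.Gamma (x + ((0 : ℕ) : ℝ) + p / 2) := by
    rw [← Real.Gamma_add_one (by push_cast; linarith)]
    congr 1
    ring
  unfold aR
  rw [g6, g7]
  have hδ : 0 < (d - p) / 2 := by linarith
  have p1 : Real.Gamma ((d - p) / 2) ≠ 0 := (Real.Gamma_pos_of_pos hδ).ne'
  have p2 : Real.Gamma (d / 2) ≠ 0 := (Real.Gamma_pos_of_pos (by linarith)).ne'
  have p3 : Real.Gamma (x + ((0 : ℕ) : ℝ) + p / 2) ≠ 0 :=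
    (Real.Gamma_pos_of_pos (by push_cast; linarith)).ne'
  have p4 : ((Nat.factorial 0 : ℕ) : ℝ) ≠ 0 := by positivity
  generalize Real.Gamma ((d - p) / 2) = G1 at *
  generalize Real.Gamma (d / 2) = G2 at *
  generalize Real.Gamma (x + ((0 : ℕ) : ℝ) + p / 2) = G3 at *
  generalize ((Nat.factorial 0 : ℕ) : ℝ) = G4 at *
  generalize Real.Gamma (((0 : ℕ) : ℝ) + (d - p) / 2) = G5 at *
  generalize Real.Gamma (p / 2) = G6 at *
  generalize Real.Gamma (x + ((0 : ℕ) : ℝ) + d / 2 - 1) = G7 at *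
  have q1 : 2 * x + d ≠ 0 := by linarith
  have q2 : 2 * x + p ≠ 0 := by linarith
  have r1 : x + 1 + 2 * ((0 : ℕ) : ℝ) + d / 2 - 1 = (2 * x + d) / 2 := by push_cast; ring
  have r2 : x + ((0 : ℕ) : ℝ) + p / 2 = (2 * x + p) / 2 := by push_cast; ring
  have r3 : x + ((0 : ℕ) : ℝ) + d / 2 - 1 = x + 2 * ((0 : ℕ) : ℝ) + d / 2 - 1 := by push_cast; ring
  rw [r1, r2, r3]
  generalize 2 * x + d = A at *
  generalize 2 * x + p = B at *
  field_simp

private theorem conn {d p : ℕ} (hp : 3 ≤ p) (hpd : p < d) (t : ℝ) (h : ℕ) :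
    (gK d (2 * h) t = ∑ x ∈ Finset.HasAntidiagonal.antidiagonal h, aC d p x.1 (2 * x.2) * gK p (2 * x.2) t) ∧
    (gK d (2 * h + 1) t =
      ∑ x ∈ Finset.HasAntidiagonal.antidiagonal h, aC d p x.1 (2 * x.2 + 1) * gK p (2 * x.2 + 1) t) := by
  have hp' : (3 : ℝ) ≤ p := by exact_mod_cast hp
  have hpd' : (p : ℝ) < d := by exact_mod_cast hpd
  have hd : 3 ≤ d := hp.trans hpd.le
  induction h with
  | zero =>
    have a0 : aC d p 0 0 = 1 := by
      rw [aC_eq]
      unfold aR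
      have hδ : (0 : ℝ) < ((d : ℝ) - p) / 2 := by linarith
      have p1 : Real.Gamma (((d : ℝ) - p) / 2) ≠ 0 := (Real.Gamma_pos_of_pos hδ).ne'
      have p2 : Real.Gamma ((d : ℝ) / 2) ≠ 0 := (Real.Gamma_pos_of_pos (by linarith)).ne'
      have p3 : Real.Gamma ((p : ℝ) / 2) ≠ 0 := (Real.Gamma_pos_of_pos (by linarith)).ne'
      have e1 : ((d : ℝ) / 2 - 1) * Real.Gamma ((d : ℝ) / 2 - 1) = Real.Gamma ((d : ℝ) / 2) := by
        rw [← Real.Gamma_add_one (by linarith)]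
        congr 1
        ring
      simp only [Nat.cast_zero, zero_add, mul_zero, Nat.factorial_zero, Nat.cast_one, one_mul]
      rw [e1]
      field_simp
    have a1 : aC d p 0 1 = (d : ℝ) / p := by
      have := i_zero hp' hpd' (x := 0) le_rfl
      rw [aC_eq] at a0
      rw [aC_eq]
      simp only [Nat.cast_zero, Nat.cast_one] at a0 ⊢
      simp only [mul_zero, zero_add, a0] at this
      have hd0 : (d : ℝ) ≠ 0 := by linarith
      have hp0 : (p : ℝ) ≠ 0 := by linarith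
      field_simp at this ⊢
      linarith
    have hd0 : (d : ℝ) ≠ 0 := by linarith
    have hp0 : (p : ℝ) ≠ 0 := by linarith
    constructor
    · simp [a0, gK, nN, gP]
    · have e1 := t_gK_zero hd t
      have e2 := t_gK_zero hp t
      have e3 : gK d 0 t = gK p 0 t := by simp [gK, nN, gP]
      rw [e3, e2] at e1
      simp only [Nat.mul_zero, Finset.Nat.antidiagonal_zero, Finset.sum_singleton, zero_add, a1]
      field_simp at e1 ⊢
      linarith
  | succ h ih =>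
    obtain ⟨ih1, ih2⟩ := ih
    have hh : (0 : ℝ) ≤ h := h.cast_nonneg
    have hE : gK d (2 * (h + 1)) t =
        ∑ x ∈ Finset.HasAntidiagonal.antidiagonal (h + 1), aC d p x.1 (2 * x.2) * gK p (2 * x.2) t := by
      have r := t_gK hd (2 * h) t
      push_cast at r
      have hc : (2 * (h : ℝ) + 2) / (2 * (2 * (h : ℝ)) + d + 2) ≠ 0 := by
        apply ne_of_gt
        apply div_pos <;> linarith
      apply mul_left_cancel₀ hc
      rw [Finset.mul_sum]
      have key : ∀ x ∈ Finset.HasAntidiagonal.antidiagonal (h + 1),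
          (2 * (h : ℝ) + 2) / (2 * (2 * (h : ℝ)) + d + 2) * (aC d p x.1 (2 * x.2) * gK p (2 * x.2) t) =
          (2 * (x.2 : ℝ)) / (2 * (2 * (x.2 : ℝ)) + p - 2) * aR d p x.1 (2 * (x.2 : ℝ) - 1) * gK p (2 * x.2) t +
          (if x.1 = 0 then 0 else ((2 * (x.2 : ℝ) + p - 2) / (2 * (2 * (x.2 : ℝ)) + p - 2) *
              aC d p (x.1 - 1) (2 * x.2 + 1) -
            (2 * (h : ℝ) + d - 2) / (2 * (2 * (h : ℝ)) + d - 2) * aC d p (x.1 - 1) (2 * x.2)) *
              gK p (2 * x.2) t) := by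
        rintro ⟨n, m⟩ hx
        rw [Finset.HasAntidiagonal.mem_antidiagonal] at hx
        simp only at hx ⊢
        rcases n with _ | n
        · simp only [if_true]
          have hm : m = h + 1 := by omega
          subst hm
          have e := i_zero hp' hpd' (x := 2 * (h : ℝ) + 1) (by linarith)
          rw [aC_eq]
          push_cast
          rw [show 2 * ((h : ℝ) + 1) = 2 * (h : ℝ) + 1 + 1 by ring,
            show 2 * (h : ℝ) + 1 + 1 - 1 = 2 * (h : ℝ) + 1 by ring]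
          rw [show (2 * (h : ℝ) + 2) / (2 * (2 * (h : ℝ)) + d + 2) =
            (2 * (h : ℝ) + 1 + 1) / (2 * (2 * (h : ℝ) + 1) + d) by congr 1 <;> ring,
            ← mul_assoc, e]
          rw [show 2 * (2 * (h : ℝ) + 1 + 1) + (p : ℝ) - 2 = 2 * (2 * (h : ℝ) + 1) + p by ring]
          ring
        · simp only [Nat.succ_ne_zero, if_false, Nat.add_sub_cancel]
          have hm : h = n + m := by omega
          have hm' : (h : ℝ) = n + m := by exact_mod_cast hm
          have e := i_one hp' hpd' n (x := 2 * (m : ℝ)) (by positivity)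
          rw [aC_eq, aC_eq, aC_eq]
          push_cast
          rw [hm']
          rw [show 2 * ((n : ℝ) + m) + 2 = 2 * (m : ℝ) + 2 * n + 2 by ring,
            show 2 * (2 * ((n : ℝ) + m)) + (d : ℝ) + 2 = 2 * (2 * (m : ℝ)) + 4 * n + d + 2 by ring,
            show 2 * ((n : ℝ) + m) + (d : ℝ) - 2 = 2 * (m : ℝ) + 2 * n + d - 2 by ring,
            show 2 * (2 * ((n : ℝ) + m)) + (d : ℝ) - 2 = 2 * (2 * (m : ℝ)) + 4 * n + d - 2 by ring]
          have e' : (2 * (m : ℝ) + 2 * n + 2) / (2 * (2 * (m : ℝ)) + 4 * n + d + 2) * aR d p (n + 1) (2 * (m : ℝ)) =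
            2 * (m : ℝ) / (2 * (2 * (m : ℝ)) + p - 2) * aR d p (n + 1) (2 * (m : ℝ) - 1) +
              (2 * (m : ℝ) + p - 2) / (2 * (2 * (m : ℝ)) + p - 2) * aR d p n (2 * (m : ℝ) + 1) -
            (2 * (m : ℝ) + 2 * n + d - 2) / (2 * (2 * (m : ℝ)) + 4 * n + d - 2) * aR d p n (2 * (m : ℝ)) := by
            linarith
          rw [← mul_assoc, e']
          ring
      rw [Finset.sum_congr rfl key, Finset.sum_add_distrib]
      rw [Finset.Nat.sum_antidiagonal_succ' (f := fun x : ℕ × ℕ =>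
        (2 * (x.2 : ℝ)) / (2 * (2 * (x.2 : ℝ)) + p - 2) * aR d p x.1 (2 * (x.2 : ℝ) - 1) * gK p (2 * x.2) t)]
      rw [Finset.Nat.sum_antidiagonal_succ]
      simp only [Nat.cast_zero, mul_zero, zero_div, zero_mul, zero_add, if_true, Nat.succ_ne_zero,
        if_false, Nat.add_sub_cancel]
      have e1 : (2 * (h : ℝ) + 2) / (2 * (2 * (h : ℝ)) + d + 2) * gK d (2 * (h + 1)) t =
          t * gK d (2 * h + 1) t - (2 * (h : ℝ) + d - 2) / (2 * (2 * (h : ℝ)) + d - 2) * gK d (2 * h) t := by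
        rw [r]
        rw [show 2 * (h + 1) = 2 * h + 2 by ring]
        ring
      rw [e1, ih1, ih2, Finset.mul_sum, Finset.mul_sum, ← Finset.sum_sub_distrib, ← Finset.sum_add_distrib]
      refine Finset.sum_congr rfl ?_
      rintro ⟨n, m⟩ -
      simp only
      have r2 := t_gK hp (2 * m) t
      rw [mul_left_comm t, r2]
      rw [aC_eq d p n (2 * m + 1)]
      push_cast
      rw [show 2 * ((m : ℝ) + 1) - 1 = 2 * (m : ℝ) + 1 by ring,
        show 2 * ((m : ℝ) + 1) = 2 * (m : ℝ) + 2 by ring,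
        show 2 * (2 * (m : ℝ) + 2) + (p : ℝ) - 2 = 2 * (2 * (m : ℝ)) + p + 2 by ring,
        show 2 * (m + 1) = 2 * m + 2 by ring]
      ring
    refine ⟨hE, ?_⟩
    have r := t_gK hd (2 * h + 1) t
    push_cast at r
    have hc : (2 * (h : ℝ) + 1 + 2) / (2 * (2 * (h : ℝ) + 1) + d + 2) ≠ 0 := by
      apply ne_of_gt
      apply div_pos <;> linarith
    apply mul_left_cancel₀ hc
    rw [Finset.mul_sum]
    have key : ∀ x ∈ Finset.HasAntidiagonal.antidiagonal (h + 1),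
        (2 * (h : ℝ) + 1 + 2) / (2 * (2 * (h : ℝ) + 1) + d + 2) *
          (aC d p x.1 (2 * x.2 + 1) * gK p (2 * x.2 + 1) t) =
        (2 * (x.2 : ℝ) + 1) / (2 * (2 * (x.2 : ℝ)) + p) * aC d p x.1 (2 * x.2) * gK p (2 * x.2 + 1) t +
        (if x.1 = 0 then 0 else ((2 * (x.2 : ℝ) + p - 1) / (2 * (2 * (x.2 : ℝ)) + p) *
            aC d p (x.1 - 1) (2 * x.2 + 2) -
          (2 * (h : ℝ) + 1 + d - 2) / (2 * (2 * (h : ℝ) + 1) + d - 2) * aC d p (x.1 - 1) (2 * x.2 + 1)) *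
            gK p (2 * x.2 + 1) t) := by
      rintro ⟨n, m⟩ hx
      rw [Finset.HasAntidiagonal.mem_antidiagonal] at hx
      simp only at hx ⊢
      rcases n with _ | n
      · simp only [if_true]
        have hm : m = h + 1 := by omega
        subst hm
        have e := i_zero hp' hpd' (x := 2 * (h : ℝ) + 2) (by linarith)
        rw [aC_eq, aC_eq]
        push_cast
        rw [show 2 * ((h : ℝ) + 1) = 2 * (h : ℝ) + 2 by ring]
        rw [show (2 * (h : ℝ) + 1 + 2) / (2 * (2 * (h : ℝ) + 1) + d + 2) =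
          (2 * (h : ℝ) + 2 + 1) / (2 * (2 * (h : ℝ) + 2) + d) by congr 1 <;> ring,
          ← mul_assoc, e]
        ring
      · simp only [Nat.succ_ne_zero, if_false, Nat.add_sub_cancel]
        have hm : h = n + m := by omega
        have hm' : (h : ℝ) = n + m := by exact_mod_cast hm
        have e := i_one hp' hpd' n (x := 2 * (m : ℝ) + 1) (by positivity)
        rw [aC_eq, aC_eq, aC_eq, aC_eq]
        push_cast
        rw [hm']
        rw [show 2 * ((n : ℝ) + m) + 1 + 2 = 2 * (m : ℝ) + 1 + 2 * n + 2 by ring,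
          show 2 * (2 * ((n : ℝ) + m) + 1) + (d : ℝ) + 2 = 2 * (2 * (m : ℝ) + 1) + 4 * n + d + 2 by ring,
          show 2 * ((n : ℝ) + m) + 1 + (d : ℝ) - 2 = 2 * (m : ℝ) + 1 + 2 * n + d - 2 by ring,
          show 2 * (2 * ((n : ℝ) + m) + 1) + (d : ℝ) - 2 = 2 * (2 * (m : ℝ) + 1) + 4 * n + d - 2 by ring]
        rw [show 2 * (m : ℝ) + 1 - 1 = 2 * (m : ℝ) by ring,
          show 2 * (2 * (m : ℝ) + 1) + (p : ℝ) - 2 = 2 * (2 * (m : ℝ)) + p by ring,
          show 2 * (m : ℝ) + 1 + (p : ℝ) - 2 = 2 * (m : ℝ) + p - 1 by ring,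
          show 2 * (m : ℝ) + 1 + 1 = 2 * (m : ℝ) + 2 by ring] at e
        rw [← mul_assoc]
        linear_combination gK p (2 * m + 1) t * e
    rw [Finset.sum_congr rfl key, Finset.sum_add_distrib]
    rw [Finset.Nat.sum_antidiagonal_succ (f := fun x : ℕ × ℕ =>
      (if x.1 = 0 then 0 else ((2 * (x.2 : ℝ) + p - 1) / (2 * (2 * (x.2 : ℝ)) + p) *
            aC d p (x.1 - 1) (2 * x.2 + 2) -
          (2 * (h : ℝ) + 1 + d - 2) / (2 * (2 * (h : ℝ) + 1) + d - 2) * aC d p (x.1 - 1) (2 * x.2 + 1)) *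
            gK p (2 * x.2 + 1) t))]
    simp only [zero_add, if_true, Nat.succ_ne_zero, if_false, Nat.add_sub_cancel]
    have e1 : (2 * (h : ℝ) + 1 + 2) / (2 * (2 * (h : ℝ) + 1) + d + 2) * gK d (2 * (h + 1) + 1) t =
        t * gK d (2 * (h + 1)) t -
          (2 * (h : ℝ) + 1 + d - 2) / (2 * (2 * (h : ℝ) + 1) + d - 2) * gK d (2 * h + 1) t := by
      rw [show 2 * (h + 1) = 2 * h + 1 + 1 by ring, r]
      ring
    rw [e1, ih2, hE, Finset.mul_sum, Finset.mul_sum]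
    rw [Finset.Nat.sum_antidiagonal_succ' (f := fun x : ℕ × ℕ =>
      t * (aC d p x.1 (2 * x.2) * gK p (2 * x.2) t)),
      Finset.Nat.sum_antidiagonal_succ' (f := fun x : ℕ × ℕ =>
      (2 * (x.2 : ℝ) + 1) / (2 * (2 * (x.2 : ℝ)) + p) * aC d p x.1 (2 * x.2) * gK p (2 * x.2 + 1) t)]
    have e2 : t * (aC d p (h + 1) (2 * 0) * gK p (2 * 0) t) =
        (2 * ((0 : ℕ) : ℝ) + 1) / (2 * (2 * ((0 : ℕ) : ℝ)) + p) * aC d p (h + 1) (2 * 0) *
          gK p (2 * 0 + 1) t := by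
      simp only [Nat.cast_zero, mul_zero, zero_add]
      rw [mul_left_comm, t_gK_zero hp]
      ring
    have hs : (∑ x ∈ Finset.HasAntidiagonal.antidiagonal h,
        t * (aC d p x.1 (2 * (x.2 + 1)) * gK p (2 * (x.2 + 1)) t)) -
        (∑ x ∈ Finset.HasAntidiagonal.antidiagonal h,
          (2 * (h : ℝ) + 1 + d - 2) / (2 * (2 * (h : ℝ) + 1) + d - 2) *
            (aC d p x.1 (2 * x.2 + 1) * gK p (2 * x.2 + 1) t)) =
        (∑ x ∈ Finset.HasAntidiagonal.antidiagonal h,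
          (2 * ((x.2 + 1 : ℕ) : ℝ) + 1) / (2 * (2 * ((x.2 + 1 : ℕ) : ℝ)) + p) *
            aC d p x.1 (2 * (x.2 + 1)) * gK p (2 * (x.2 + 1) + 1) t) +
        ∑ x ∈ Finset.HasAntidiagonal.antidiagonal h,
          ((2 * (x.2 : ℝ) + p - 1) / (2 * (2 * (x.2 : ℝ)) + p) * aC d p x.1 (2 * x.2 + 2) -
            (2 * (h : ℝ) + 1 + d - 2) / (2 * (2 * (h : ℝ) + 1) + d - 2) * aC d p x.1 (2 * x.2 + 1)) *
              gK p (2 * x.2 + 1) t := by
      rw [← Finset.sum_sub_distrib, ← Finset.sum_add_distrib]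
      refine Finset.sum_congr rfl ?_
      rintro ⟨n, m⟩ -
      simp only
      have r2 := t_gK hp (2 * m + 1) t
      rw [show 2 * (m + 1) = 2 * m + 1 + 1 by ring, mul_left_comm t, r2]
      push_cast
      rw [show 2 * (2 * (m : ℝ) + 1) + (p : ℝ) + 2 = 2 * (2 * ((m : ℝ) + 1)) + p by ring,
        show 2 * (2 * (m : ℝ) + 1) + (p : ℝ) - 2 = 2 * (2 * (m : ℝ)) + p by ring,
        show 2 * (m : ℝ) + 1 + (p : ℝ) - 2 = 2 * (m : ℝ) + p - 1 by ring,
        show 2 * (m : ℝ) + 1 + 2 = 2 * ((m : ℝ) + 1) + 1 by ring]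
      ring
    simp only at e2 hs ⊢
    linear_combination e2 + hs

theorem aC_pos {d p : ℕ} (hp : 3 ≤ p) (hpd : p < d) (n m : ℕ) : 0 < aC d p n m := by
  have hp' : (3 : ℝ) ≤ p := by exact_mod_cast hp
  have hpd' : (p : ℝ) < d := by exact_mod_cast hpd
  have hn : (0 : ℝ) ≤ n := n.cast_nonneg
  have hm : (0 : ℝ) ≤ m := m.cast_nonneg
  unfold aC
  have h1 : 0 < Real.Gamma ((n : ℝ) + ((d : ℝ) - p) / 2) := Real.Gamma_pos_of_pos (by linarith)
  have h2 : 0 < Real.Gamma (((d : ℝ) - p) / 2) := Real.Gamma_pos_of_pos (by linarith)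
  have h3 : 0 < Real.Gamma ((p : ℝ) / 2) := Real.Gamma_pos_of_pos (by linarith)
  have h4 : 0 < Real.Gamma ((d : ℝ) / 2) := Real.Gamma_pos_of_pos (by linarith)
  have h5 : 0 < Real.Gamma ((m : ℝ) + n + (d : ℝ) / 2 - 1) := Real.Gamma_pos_of_pos (by linarith)
  have h6 : 0 < Real.Gamma ((m : ℝ) + n + (p : ℝ) / 2) := Real.Gamma_pos_of_pos (by linarith)
  have h7 : 0 < (m : ℝ) + 2 * n + (d : ℝ) / 2 - 1 := by linarith
  have h8 : (0 : ℝ) < n.factorial := by positivity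
  positivity

theorem aa_nonneg {d p : ℕ} (hp : 3 ≤ p) (hpd : p < d) (h m : ℕ) : 0 ≤ aa d p h m := by
  unfold aa
  split_ifs
  · exact (aC_pos hp hpd _ _).le
  · exact le_rfl

theorem gK_conn {d p : ℕ} (hp : 3 ≤ p) (hpd : p < d) (h : ℕ) (t : ℝ) :
    gK d (2 * h) t = ∑ m ∈ Finset.range (h + 1), aa d p h m * gK p (2 * m) t := by
  rw [(conn hp hpd t h).1]
  rw [← Finset.Nat.sum_antidiagonal_swap]
  rw [Finset.Nat.sum_antidiagonal_eq_sum_range_succ_mk]
  refine Finset.sum_congr rfl fun m hm => ?_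
  have hm' : m ≤ h := Nat.lt_succ_iff.1 (Finset.mem_range.1 hm)
  simp only [Prod.swap, aa, if_pos hm']

end Pool.Agent.HRJ
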