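import Pool.Agent.HRJ.Defs

/-!
# HRJ-A4: signs of the multipliers

PROOF PLAN.  `rR p (h+1) = - rR p h * (2h+1)/(2h+p-1)`, `tT p (h+1) = - tT p h * (2h-1)/(2h+p+1)` (`Finset.prod_range_succ`); inductions.
`rR_eq`: `rR p h = - nn p h * tT p h` by induction (`nn p (h+1)/nn p h = (2h+1)(2h+p+1)/((2h-1)(2h+p-1))`).
`rR_four_le`: `rR p (2(r+1))` is decreasing in `r`, `rR p 2 = 3/((p-1)(p+1))`.
-/

set_option autoImplicit false

namespace Pool.Agent.HRJ

open MeasureTheory ProbabilityTheory Set Filter Topology Metric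
open Pool.Agent.HP89 Pool.Agent.FI75 Pool.Agent.PBL
open scoped RealInnerProductSpace ENNReal

theorem rR_zero (p : ℕ) : rR p 0 = 1 := by
  simp [rR]

theorem tT_zero (p : ℕ) : tT p 0 = 1 := by
  simp [tT]

private theorem a4_rR_succ (p h : ℕ) :
    rR p (h + 1) = -(rR p h * ((2 * (h : ℝ) + 1) / (2 * (h : ℝ) + p - 1))) := by
  unfold rR
  rw [Finset.prod_range_succ, pow_succ]
  ring

private theorem a4_tT_succ (p h : ℕ) :
    tT p (h + 1) = -(tT p h * ((2 * (h : ℝ) - 1) / (2 * (h : ℝ) + p + 1))) := by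
  unfold tT
  rw [Finset.prod_range_succ, pow_succ]
  ring

private theorem a4_cast {p : ℕ} (hp : 3 ≤ p) : (3 : ℝ) ≤ p := by exact_mod_cast hp

theorem nn_zero {p : ℕ} (hp : 3 ≤ p) : nn p 0 = -1 := by
  have h3 := a4_cast hp
  have h4 : (p : ℝ) - 1 ≠ 0 := by
    intro h
    linarith
  unfold nn
  rw [div_eq_iff h4]
  push_cast
  ring

theorem rR_eq {p : ℕ} (hp : 3 ≤ p) (h : ℕ) : rR p h = -(nn p h) * tT p h := by
  induction h with
  | zero => rw [rR_zero, tT_zero, nn_zero hp]; norm_num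
  | succ h ih =>
    have h3 := a4_cast hp
    have h0 : (0 : ℝ) ≤ h := Nat.cast_nonneg h
    have h4 : (p : ℝ) - 1 ≠ 0 := by
      intro h
      linarith
    have h5 : 2 * (h : ℝ) + p - 1 ≠ 0 := by
      intro h'
      linarith
    have h6 : 2 * (h : ℝ) + p + 1 ≠ 0 := by
      intro h'
      linarith
    rw [a4_rR_succ, a4_tT_succ, ih]
    unfold nn
    push_cast
    have h7 : 2 * ((h : ℝ) + 1) + p - 1 = 2 * (h : ℝ) + p + 1 := by ring
    rw [h7]
    field_simp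
    ring

theorem nn_pos {p : ℕ} (hp : 3 ≤ p) {h : ℕ} (hh : 1 ≤ h) : 0 < nn p h := by
  have h3 := a4_cast hp
  have h1 : (1 : ℝ) ≤ h := by exact_mod_cast hh
  unfold nn
  apply div_pos (mul_pos (by linarith) (by linarith)) (by linarith)

private noncomputable def a4P (p h : ℕ) : ℝ :=
  ∏ i ∈ Finset.range h, (2 * (i : ℝ) + 1) / (2 * (i : ℝ) + p - 1)

private theorem a4P_pos {p : ℕ} (hp : 3 ≤ p) (h : ℕ) : 0 < a4P p h := by
  have h3 := a4_cast hp
  refine Finset.prod_pos (fun i _ => ?_)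
  have h0 : (0 : ℝ) ≤ i := Nat.cast_nonneg i
  exact div_pos (by linarith) (by linarith)

private theorem a4P_anti {p : ℕ} (hp : 3 ≤ p) (h n : ℕ) : a4P p (h + n) ≤ a4P p h := by
  induction n with
  | zero => exact le_rfl
  | succ n ih =>
    have h3 := a4_cast hp
    have h0 : (0 : ℝ) ≤ ((h + n : ℕ) : ℝ) := Nat.cast_nonneg _
    refine le_trans ?_ ih
    rw [← add_assoc]
    unfold a4P
    rw [Finset.prod_range_succ]
    refine mul_le_of_le_one_right (a4P_pos hp _).le ?_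
    rw [div_le_one (by linarith)]
    linarith

private theorem a4_rR_even (p r : ℕ) : rR p (2 * (r + 1)) = a4P p (2 * (r + 1)) := by
  unfold rR a4P
  rw [pow_mul]
  norm_num

private theorem a4_rR_odd (p r : ℕ) : rR p (2 * r + 1) = -a4P p (2 * r + 1) := by
  unfold rR a4P
  rw [pow_succ, pow_mul]
  norm_num

theorem rR_four {p : ℕ} (hp : 3 ≤ p) (r : ℕ) : 0 < rR p (2 * (r + 1)) := by
  rw [a4_rR_even]
  exact a4P_pos hp _

theorem rR_two {p : ℕ} (hp : 3 ≤ p) (r : ℕ) : rR p (2 * r + 1) < 0 := by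
  rw [a4_rR_odd]
  exact neg_neg_of_pos (a4P_pos hp _)

/-- degrees divisible by four: `T < 0 < R < 1` -/
theorem tT_four {p : ℕ} (hp : 3 ≤ p) (r : ℕ) : tT p (2 * (r + 1)) < 0 := by
  have h1 := rR_four hp r
  have h2 := nn_pos hp (h := 2 * (r + 1)) (by omega)
  rw [rR_eq hp] at h1
  by_contra hc
  have hc' : 0 ≤ tT p (2 * (r + 1)) := not_lt.mp hc
  have := mul_nonneg h2.le hc'
  linarith

theorem rR_four_le {p : ℕ} (hp : 3 ≤ p) (r : ℕ) : rR p (2 * (r + 1)) ≤ 3 / ((p : ℝ) ^ 2 - 1) := by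
  have h3 := a4_cast hp
  rw [a4_rR_even, show 2 * (r + 1) = 2 + 2 * r by ring]
  refine (a4P_anti hp 2 (2 * r)).trans (le_of_eq ?_)
  have h4 : (p : ℝ) - 1 ≠ 0 := by
    intro h
    linarith
  have h5 : (p : ℝ) + 1 ≠ 0 := by
    intro h
    linarith
  have h6 : (p : ℝ) ^ 2 - 1 ≠ 0 := by
    have : (p : ℝ) ^ 2 - 1 = (p - 1) * (p + 1) := by ring
    rw [this]
    exact mul_ne_zero h4 h5
  unfold a4P
  rw [Finset.prod_range_succ, Finset.prod_range_succ, Finset.prod_range_zero]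
  push_cast
  have h7 : 2 * (1 : ℝ) + p - 1 = p + 1 := by ring
  have h8 : 2 * (0 : ℝ) + p - 1 = p - 1 := by ring
  rw [h7, h8]
  field_simp
  ring

/-- degrees `2 mod 4`: `R < 0 < T` -/
theorem tT_two {p : ℕ} (hp : 3 ≤ p) (r : ℕ) : 0 < tT p (2 * r + 1) := by
  have h1 := rR_two hp r
  have h2 := nn_pos hp (h := 2 * r + 1) (by omega)
  rw [rR_eq hp] at h1
  by_contra hc
  have hc' : tT p (2 * r + 1) ≤ 0 := not_lt.mp hc
  have := mul_nonneg_of_nonpos_of_nonpos (neg_nonpos.mpr h2.le) hc'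
  linarith

theorem lam_pos {d : ℕ} (hd : 3 ≤ d) (r : ℕ) : 0 < lam d r := by
  have h3 := a4_cast hd
  have h1 := rR_four_le hd r
  have h2 := tT_four hd r
  have h4 : 3 / ((d : ℝ) ^ 2 - 1) < 1 := by
    rw [div_lt_one (by nlinarith)]
    nlinarith
  unfold lam
  exact mul_pos (by linarith) (by linarith)

end Pool.Agent.HRJ
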