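import Pool.Agent.HRJ.Defs
import Pool.Agent.PBL.C0
import Pool.Agent.PBL.C3
import Pool.Agent.PBL.D0a

/-!
# HRJ-B1: uniform measures on spheres; the decomposition `w = t v + √(1 - t²) η`

PROOF PLAN.  `measurable_nrm` (PBL.B3a).  `ms_unit`: `ae_proj_ne` (PBL.C0), `‖nrm x‖ = 1` for `x ≠ 0`, `nrm (P_E g) ∈ E`.
`ms_sb`: `finrank_sb` (PBL.C5) gives `finrank (sb E v) = finrank E - 1 ≥ 1`; `ms_unit`, `inner_sb`.
`nu_abs`: `|x| ≤ √(x² + ‖y‖²)`.
`ms_disint`: put `F = sb E v`.  By `map_split_sub` (HP89.A3a, `e = v`) the law of `P_E g` is the law of `x v + ort v (P_E h)`, `(x, h) ~ N(0,1) ⊗ γ`, and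
`ort v (P_E h) = P_F h` (`sb_proj`, `P_E v = v`).  For `a = ‖P_F h‖`, `η = nrm (P_F h)`: `nrm (x v + P_F h) = t v + √(1-t²) η` with `t = x/√(x²+a²)`
(if `P_F h ≠ 0`, almost everywhere).  For a measurable `Φ : V → ℝ≥0∞`: `∫⁻ Φ d(ms E) = ∫⁻ x ∫⁻ h Φ(T(x,a) v + √(1-T²) η)`; by `rad_sub` (PBL.C0; apply it
to functions of (norm, direction): first to products, i.e. use that `(a, η)` are independent: `PBL.C0` proves `IndepFun`, and
`(γ.map (a, η)) = (γ.map a).prod (γ.map η)`, `indepFun_iff_map_prod_eq_prod_map_map`) this is `∫⁻ x ∫⁻ h ∫⁻ η Φ(T(x,a(h)) v + ..) d(ms F) dγ dx`, and the law of `‖P_F h‖` under `γ` is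
the law of `‖y‖`, `y ~ stdGaussian (EuclideanSpace ℝ (Fin (p-1)))` (`HP89.map_starProjection`, an isometry `F ≃ₗᵢ EuclideanSpace` and
`stdGaussian_map`), `p - 1 = finrank F`.
`ms_inner`: from `ms_disint`, `⟪t v + √.. η, v⟫ = t` a.e.  `mm_eq`: `av_abs` (PBL.C3) for `V = EuclideanSpace ℝ (Fin p)`, `E = ⊤`, and `ms_inner`.
-/

set_option autoImplicit false

namespace Pool.Agent.HRJ

open MeasureTheory ProbabilityTheory Set Filter Topology Metric
open Pool.Agent.HP89 Pool.Agent.FI75 Pool.Agent.PBL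
open scoped RealInnerProductSpace ENNReal

private theorem B1_meas_nu (p : ℕ) : Measurable
    (fun q : ℝ × EuclideanSpace ℝ (Fin (p - 1)) => q.1 / √(q.1 ^ 2 + ‖q.2‖ ^ 2)) := by
  fun_prop

theorem nu_prob (p : ℕ) : IsProbabilityMeasure (nu p) := by
  unfold nu
  exact Measure.isProbabilityMeasure_map (B1_meas_nu p).aemeasurable

theorem nu_abs (p : ℕ) : ∀ᵐ t ∂(nu p), |t| ≤ 1 := by
  unfold nu
  rw [ae_map_iff (B1_meas_nu p).aemeasurable (measurableSet_le (by fun_prop) measurable_const)]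
  refine Filter.Eventually.of_forall fun q => ?_
  rw [abs_div, abs_of_nonneg (Real.sqrt_nonneg _)]
  refine div_le_one_of_le₀ ?_ (Real.sqrt_nonneg _)
  refine Real.abs_le_sqrt ?_
  nlinarith [sq_nonneg ‖q.2‖]

variable {V : Type*} [NormedAddCommGroup V] [InnerProductSpace ℝ V] [FiniteDimensional ℝ V]
  [MeasurableSpace V] [BorelSpace V]

private theorem B1_meas (E : Submodule ℝ V) :
    Measurable (fun g : V => nrm (E.starProjection g)) := by
  have hP : Measurable (fun g : V => E.starProjection g) := by fun_prop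
  exact measurable_nrm.comp hP

theorem ms_prob (E : Submodule ℝ V) : IsProbabilityMeasure (ms E) := by
  unfold ms
  exact Measure.isProbabilityMeasure_map (B1_meas E).aemeasurable

theorem ms_integral (E : Submodule ℝ V) {φ : V → ℝ} (hφ : Measurable φ) : ∫ w, φ w ∂(ms E) = av E φ := by
  unfold ms av
  rw [integral_map (B1_meas E).aemeasurable hφ.aestronglyMeasurable]

theorem ms_unit (E : Submodule ℝ V) (hE : 1 ≤ Module.finrank ℝ E) : ∀ᵐ w ∂(ms E), ‖w‖ = 1 ∧ w ∈ E := by
  unfold ms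
  have hm : MeasurableSet {w : V | ‖w‖ = 1 ∧ w ∈ E} := by
    have h1 : MeasurableSet {w : V | ‖w‖ = 1} :=
      measurableSet_eq_fun measurable_norm measurable_const
    have h2 : MeasurableSet (E : Set V) := E.closed_of_finiteDimensional.measurableSet
    exact h1.inter h2
  rw [ae_map_iff (B1_meas E).aemeasurable hm]
  filter_upwards [ae_proj_ne E hE] with g hg
  refine ⟨?_, ?_⟩
  · rw [nrm, norm_smul, norm_inv, norm_norm]
    exact inv_mul_cancel₀ (norm_ne_zero_iff.2 hg)
  · rw [nrm]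
    exact E.smul_mem _ (Submodule.starProjection_apply_mem _ _)

theorem ms_neg (E : Submodule ℝ V) : (ms E).map (fun w => -w) = ms E := by
  have h0 : (stdGaussian V).map (LinearIsometryEquiv.neg ℝ (E := V)) = stdGaussian V :=
    stdGaussian_map (LinearIsometryEquiv.neg ℝ (E := V))
  unfold ms
  rw [Measure.map_map (by fun_prop) (B1_meas E)]
  conv_rhs => rw [← h0]
  rw [Measure.map_map (B1_meas E) (by fun_prop)]
  congr 1
  funext g
  simp only [Function.comp_apply, LinearIsometryEquiv.coe_neg, map_neg, nrm, norm_neg, smul_neg]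

theorem finrank_sb' {E : Submodule ℝ V} {v : V} (hv : v ∈ E) (hv1 : ‖v‖ = 1) :
    Module.finrank ℝ (sb E v) + 1 = Module.finrank ℝ E := by
  apply finrank_sb
  rw [Submodule.starProjection_eq_self_iff.mpr hv]
  intro h
  rw [h, norm_zero] at hv1
  exact zero_ne_one hv1

theorem ms_sb {E : Submodule ℝ V} {v : V} (hv : v ∈ E) (hv1 : ‖v‖ = 1) (hE : 2 ≤ Module.finrank ℝ E) :
    ∀ᵐ η ∂(ms (sb E v)), ‖η‖ = 1 ∧ η ∈ E ∧ ⟪η, v⟫ = 0 := by
  have h1 := finrank_sb' hv hv1
  filter_upwards [ms_unit (sb E v) (by omega)] with η hη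
  exact ⟨hη.1, (Submodule.mem_inf.mp hη.2).1, inner_sb hη.2⟩

theorem mm_pos {p : ℕ} (hp : 1 ≤ p) : 0 < mm p := by
  unfold mm
  have h1 := mG_pos hp
  have h2 := Real.pi_pos
  positivity

/-- `∫ |⟪a, w⟫| d(ms E) = m_p ‖P_E a‖` -/
theorem ms_abs (E : Submodule ℝ V) (hE : 1 ≤ Module.finrank ℝ E) (a : V) :
    ∫ w, |⟪a, w⟫| ∂(ms E) = mm (Module.finrank ℝ E) * ‖E.starProjection a‖ := by
  rw [ms_integral E (by fun_prop)]
  have h1 := av_abs E hE a
  have h2 := mG_pos hE
  have h3 : av E (fun w => |⟪a, w⟫|) = av E (fun w => |⟪w, a⟫|) := by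
    congr 1
    funext w
    rw [real_inner_comm]
  rw [h3, mm, div_mul_eq_mul_div, ← h1]
  field_simp

/-- the mean of `‖P_F b‖` over the unit sphere -/
theorem ms_norm (F : Submodule ℝ V) (hV : 1 ≤ Module.finrank ℝ V) :
    ∫ b, ‖F.starProjection b‖ ∂(ms (⊤ : Submodule ℝ V)) = mG (Module.finrank ℝ F) / mG (Module.finrank ℝ V) := by
  classical
  have hT : Module.finrank ℝ (⊤ : Submodule ℝ V) = Module.finrank ℝ V := finrank_top ℝ V
  have hmn : Measurable (fun x : V => ‖F.starProjection x‖) := by fun_prop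
  have hφ : Measurable (fun x : V => if ‖x‖ ≤ 1 then ‖F.starProjection x‖ else 0) :=
    Measurable.ite (measurableSet_le measurable_norm measurable_const) hmn measurable_const
  have hC : ∀ x : V, |if ‖x‖ ≤ 1 then ‖F.starProjection x‖ else 0| ≤ 1 := by
    intro x
    split_ifs with hx
    · rw [abs_of_nonneg (norm_nonneg _)]
      exact (F.norm_starProjection_apply_le x).trans hx
    · rw [abs_zero]
      exact zero_le_one
  have hint : Integrable (fun g : V => (fun t : ℝ => t) ‖(⊤ : Submodule ℝ V).starProjection g‖)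
      (stdGaussian V) := by
    refine Integrable.mono' (integrable_norm_gaussian (V := V)) ?_ ?_
    · exact ((⊤ : Submodule ℝ V).starProjection.continuous.norm).aestronglyMeasurable
    · refine Filter.Eventually.of_forall fun g => ?_
      rw [norm_norm]
      exact Submodule.norm_starProjection_apply_le _ g
  have h1 := rad_real (⊤ : Submodule ℝ V) (by rw [hT]; exact hV) (f := fun t : ℝ => t)
    measurable_id hint hφ hC
  have h2 : av (⊤ : Submodule ℝ V) (fun x => if ‖x‖ ≤ 1 then ‖F.starProjection x‖ else 0) =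
      av (⊤ : Submodule ℝ V) (fun x => ‖F.starProjection x‖) := by
    unfold av
    refine integral_congr_ae (Filter.Eventually.of_forall fun g => ?_)
    simp only
    rw [if_pos (norm_nrm_le _)]
  rw [h2, integral_norm_proj, hT] at h1
  have h3 : ∀ g : V, ‖(⊤ : Submodule ℝ V).starProjection g‖ *
      (if ‖nrm ((⊤ : Submodule ℝ V).starProjection g)‖ ≤ 1 then
        ‖F.starProjection (nrm ((⊤ : Submodule ℝ V).starProjection g))‖ else 0) =
      ‖F.starProjection g‖ := by
    intro g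
    have hg : (⊤ : Submodule ℝ V).starProjection g = g :=
      Submodule.starProjection_eq_self_iff.mpr Submodule.mem_top
    rw [if_pos (norm_nrm_le _), hg]
    by_cases h0 : g = 0
    · rw [h0]
      simp
    · have hn : ‖g‖ ≠ 0 := norm_ne_zero_iff.2 h0
      rw [nrm, map_smul, norm_smul, norm_inv, norm_norm]
      field_simp
  simp only [h3] at h1
  rw [integral_norm_proj] at h1
  rw [ms_integral _ hmn, h1]
  have h4 := mG_pos hV
  field_simp

end Pool.Agent.HRJ
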