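import Pool.Agent.HRJ.B1

/-!
# HRJ-B1d: uniform measures on spheres; the decomposition `w = t v + √(1 - t²) η`

`ms_disint`: put `F = sb E v`.  By `map_split_sub` (HP89.A3a, `e = v`) the law of `P_E g` is the law of `x v + P_F h`,
`(x, h) ~ N(0,1) ⊗ γ`; the norm and the direction of `P_F h` are independent (`rad_sub`).
-/

set_option autoImplicit false

namespace Pool.Agent.HRJ

open MeasureTheory ProbabilityTheory Set Filter Topology Metric
open Pool.Agent.HP89 Pool.Agent.FI75 Pool.Agent.PBL
open scoped RealInnerProductSpace ENNReal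

variable {V : Type*} [NormedAddCommGroup V] [InnerProductSpace ℝ V] [FiniteDimensional ℝ V]
  [MeasurableSpace V] [BorelSpace V]

private theorem B1d_indep (E : Submodule ℝ V) (hE : 1 ≤ Module.finrank ℝ E) :
    IndepFun (fun g : V => ‖E.starProjection g‖) (fun g : V => nrm (E.starProjection g))
      (stdGaussian V) := by
  rw [indepFun_iff_measure_inter_preimage_eq_mul]
  intro s t hs ht
  have hP : Measurable (fun g : V => E.starProjection g) := by fun_prop
  have hn : Measurable (nrm : V → V) := measurable_nrm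
  have hX : Measurable (fun g : V => ‖E.starProjection g‖) := measurable_norm.comp hP
  have hY : Measurable (fun g : V => nrm (E.starProjection g)) := hn.comp hP
  have h1 := rad_sub E hE (f := s.indicator 1) (measurable_one.indicator hs)
    (φ := t.indicator 1) (measurable_one.indicator ht)
  have h2 : ∫⁻ g, s.indicator (1 : ℝ → ℝ≥0∞) ‖E.starProjection g‖ ∂(stdGaussian V) =
      stdGaussian V ((fun g : V => ‖E.starProjection g‖) ⁻¹' s) := by
    rw [← lintegral_indicator_one (hX hs)]
    rfl
  have h3 : ∫⁻ g, t.indicator (1 : V → ℝ≥0∞) (nrm (E.starProjection g)) ∂(stdGaussian V) =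
      stdGaussian V ((fun g : V => nrm (E.starProjection g)) ⁻¹' t) := by
    rw [← lintegral_indicator_one (hY ht)]
    rfl
  have h4 : ∫⁻ g, s.indicator (1 : ℝ → ℝ≥0∞) ‖E.starProjection g‖ *
      t.indicator (1 : V → ℝ≥0∞) (nrm (E.starProjection g)) ∂(stdGaussian V) =
      stdGaussian V ((fun g : V => ‖E.starProjection g‖) ⁻¹' s ∩
        (fun g : V => nrm (E.starProjection g)) ⁻¹' t) := by
    rw [← lintegral_indicator_one ((hX hs).inter (hY ht))]
    apply lintegral_congr
    intro g
    by_cases hg1 : ‖E.starProjection g‖ ∈ s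
    · by_cases hg2 : nrm (E.starProjection g) ∈ t
      · rw [Set.indicator_of_mem hg1, Set.indicator_of_mem hg2,
          Set.indicator_of_mem (show g ∈ _ ∩ _ from ⟨hg1, hg2⟩)]
        simp
      · rw [Set.indicator_of_notMem hg2, mul_zero,
          Set.indicator_of_notMem (fun h => hg2 h.2)]
    · rw [Set.indicator_of_notMem hg1, zero_mul,
        Set.indicator_of_notMem (fun h => hg1 h.1)]
  rw [← h4, h1, h2, h3]

private theorem B1d_joint (F : Submodule ℝ V) (hF : 1 ≤ Module.finrank ℝ F) :
    (stdGaussian V).map (fun g => (‖F.starProjection g‖, nrm (F.starProjection g))) =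
      ((stdGaussian V).map (fun g => ‖F.starProjection g‖)).prod (ms F) := by
  have hP : Measurable (fun g : V => F.starProjection g) := by fun_prop
  have hn : Measurable (nrm : V → V) := measurable_nrm
  have h := (indepFun_iff_map_prod_eq_prod_map_map
    (measurable_norm.comp hP).aemeasurable (hn.comp hP).aemeasurable).1 (B1d_indep F hF)
  exact h

private theorem B1d_norm (F : Submodule ℝ V) {q : ℕ} (hF : Module.finrank ℝ F = q) :
    (stdGaussian V).map (fun g => ‖F.starProjection g‖) =
      (stdGaussian (EuclideanSpace ℝ (Fin q))).map (fun x => ‖x‖) := by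
  have hP : Measurable (fun g : V => F.starProjection g) := by fun_prop
  have h1 : (stdGaussian V).map (fun g => ‖F.starProjection g‖) =
      ((stdGaussian V).map (fun g => F.starProjection g)).map (fun x => ‖x‖) := by
    rw [Measure.map_map measurable_norm hP]
    rfl
  rw [h1, map_starProjection, Measure.map_map measurable_norm measurable_subtype_coe]
  let e : F ≃ₗᵢ[ℝ] EuclideanSpace ℝ (Fin q) :=
    ((stdOrthonormalBasis ℝ F).reindex (finCongr hF)).repr
  have h2 : (stdGaussian F).map e = stdGaussian (EuclideanSpace ℝ (Fin q)) := stdGaussian_map e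
  rw [← h2, Measure.map_map measurable_norm e.continuous.measurable]
  congr 1
  funext x
  simp only [Function.comp_apply, LinearIsometryEquiv.norm_map]
  rfl

private noncomputable def B1d_T (q : ℝ × ℝ) : ℝ := q.1 / √(q.1 ^ 2 + q.2 ^ 2)

private theorem B1d_T_meas : Measurable B1d_T := by
  unfold B1d_T
  fun_prop

private theorem B1d_nu (p : ℕ) :
    nu p = ((gaussianReal 0 1).prod ((stdGaussian (EuclideanSpace ℝ (Fin (p - 1)))).map (fun x => ‖x‖))).map B1d_T := by
  have h1 : (gaussianReal 0 1).prod ((stdGaussian (EuclideanSpace ℝ (Fin (p - 1)))).map (fun x => ‖x‖)) =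
      ((gaussianReal 0 1).prod (stdGaussian (EuclideanSpace ℝ (Fin (p - 1))))).map
        (Prod.map id (fun x => ‖x‖)) := by
    rw [← Measure.map_prod_map _ _ measurable_id measurable_norm, Measure.map_id]
  rw [h1, Measure.map_map B1d_T_meas (measurable_id.prodMap measurable_norm)]
  rfl

private theorem B1d_alg {v y : V} (hv : ‖v‖ = 1) (hy : ⟪v, y⟫ = 0) (hy0 : y ≠ 0) (x : ℝ) :
    nrm (x • v + y) = B1d_T (x, ‖y‖) • v + √(1 - B1d_T (x, ‖y‖) ^ 2) • nrm y := by
  have ha : 0 < ‖y‖ := norm_pos_iff.2 hy0
  have hs : 0 < x ^ 2 + ‖y‖ ^ 2 := by positivity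
  have hS : 0 < √(x ^ 2 + ‖y‖ ^ 2) := Real.sqrt_pos.2 hs
  have hSS : √(x ^ 2 + ‖y‖ ^ 2) ^ 2 = x ^ 2 + ‖y‖ ^ 2 := Real.sq_sqrt hs.le
  have hn : ‖x • v + y‖ = √(x ^ 2 + ‖y‖ ^ 2) := by
    have h1 : ‖x • v + y‖ ^ 2 = x ^ 2 + ‖y‖ ^ 2 := by
      rw [norm_add_sq_real, real_inner_smul_left, hy, norm_smul, hv, mul_one, Real.norm_eq_abs, sq_abs]
      ring
    rw [← h1, Real.sqrt_sq (norm_nonneg _)]
  have hT : √(1 - B1d_T (x, ‖y‖) ^ 2) = ‖y‖ / √(x ^ 2 + ‖y‖ ^ 2) := by
    have h2 : 1 - B1d_T (x, ‖y‖) ^ 2 = (‖y‖ / √(x ^ 2 + ‖y‖ ^ 2)) ^ 2 := by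
      unfold B1d_T
      simp only
      rw [div_pow, div_pow, hSS]
      field_simp
      ring
    rw [h2, Real.sqrt_sq (by positivity)]
  rw [hT]
  unfold nrm B1d_T
  simp only
  rw [hn, smul_add, smul_smul, smul_smul]
  congr 1
  · congr 1
    field_simp
  · congr 1
    field_simp

theorem ms_disint {E : Submodule ℝ V} {v : V} (hv : v ∈ E) (hv1 : ‖v‖ = 1) (hE : 2 ≤ Module.finrank ℝ E) :
    ms E = ((nu (Module.finrank ℝ E)).prod (ms (sb E v))).map (fun q => q.1 • v + √(1 - q.1 ^ 2) • q.2) := by
  have hfin := finrank_sb' hv hv1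
  have hF1 : 1 ≤ Module.finrank ℝ (sb E v) := by omega
  have hFq : Module.finrank ℝ (sb E v) = Module.finrank ℝ E - 1 := by omega
  have hpv : E.starProjection v = v := Submodule.starProjection_eq_self_iff.2 hv
  have hn : Measurable (nrm : V → V) := measurable_nrm
  have hPE : Measurable (fun g : V => E.starProjection g) := by fun_prop
  have hPF : Measurable (fun g : V => (sb E v).starProjection g) := by fun_prop
  have hproj : ∀ g, ort v (E.starProjection g) = (sb E v).starProjection g := by
    intro g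
    rw [sb_proj, hpv]
  have hprob := ms_prob (sb E v)
  have hsm : Measurable (fun p : ℝ × V => p.1 • v + (sb E v).starProjection p.2) := by fun_prop
  -- the law of `P_E g`
  have h1 : ms E = ((gaussianReal 0 1).prod (stdGaussian V)).map
      (fun p => nrm (p.1 • v + (sb E v).starProjection p.2)) := by
    have h := map_split_sub E hv1 hv
    simp only [hproj] at h
    have h2 : ms E = ((stdGaussian V).map (fun g => E.starProjection g)).map nrm := by
      rw [Measure.map_map hn hPE]
      rfl
    rw [h2, ← h, Measure.map_map hn hsm]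
    rfl
  have hPsi : Measurable (fun q : ℝ × V => q.1 • v + √(1 - q.1 ^ 2) • q.2) := by fun_prop
  have hR : Measurable (fun q : ℝ × V => (B1d_T (q.1, ‖(sb E v).starProjection q.2‖),
      nrm ((sb E v).starProjection q.2))) := by
    refine Measurable.prodMk (B1d_T_meas.comp ?_) (hn.comp (hPF.comp measurable_snd))
    exact measurable_fst.prodMk (measurable_norm.comp (hPF.comp measurable_snd))
  have h2 : ((gaussianReal 0 1).prod (stdGaussian V)).map
      (fun p => nrm (p.1 • v + (sb E v).starProjection p.2)) =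
      (((gaussianReal 0 1).prod (stdGaussian V)).map (fun q : ℝ × V =>
        (B1d_T (q.1, ‖(sb E v).starProjection q.2‖), nrm ((sb E v).starProjection q.2)))).map
        (fun q => q.1 • v + √(1 - q.1 ^ 2) • q.2) := by
    rw [Measure.map_map hPsi hR]
    refine Measure.map_congr ?_
    have h3 : ∀ᵐ q ∂((gaussianReal 0 1).prod (stdGaussian V)), (sb E v).starProjection q.2 ≠ 0 := by
      have h4 := ae_proj_ne (sb E v) hF1
      exact (Measure.quasiMeasurePreserving_snd (μ := gaussianReal 0 1) (ν := stdGaussian V)).ae h4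
    filter_upwards [h3] with q hq
    have h5 : ⟪v, (sb E v).starProjection q.2⟫ = 0 := by
      rw [real_inner_comm]
      exact inner_sb (Submodule.starProjection_apply_mem _ _)
    exact B1d_alg hv1 h5 hq q.1
  have h6 : ((gaussianReal 0 1).prod (stdGaussian V)).map (fun q : ℝ × V =>
        (B1d_T (q.1, ‖(sb E v).starProjection q.2‖), nrm ((sb E v).starProjection q.2))) =
      (nu (Module.finrank ℝ E)).prod (ms (sb E v)) := by
    have hJ : Measurable (fun g : V => (‖(sb E v).starProjection g‖, nrm ((sb E v).starProjection g))) :=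
      (measurable_norm.comp hPF).prodMk (hn.comp hPF)
    have hG : Measurable (fun z : ℝ × (ℝ × V) => (B1d_T (z.1, z.2.1), z.2.2)) := by
      refine Measurable.prodMk (B1d_T_meas.comp ?_) (measurable_snd.comp measurable_snd)
      exact measurable_fst.prodMk (measurable_fst.comp measurable_snd)
    have h7 : ((gaussianReal 0 1).prod (stdGaussian V)).map (fun q : ℝ × V =>
        (B1d_T (q.1, ‖(sb E v).starProjection q.2‖), nrm ((sb E v).starProjection q.2))) =
        ((gaussianReal 0 1).prod ((stdGaussian V).map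
          (fun g => (‖(sb E v).starProjection g‖, nrm ((sb E v).starProjection g))))).map
          (fun z : ℝ × (ℝ × V) => (B1d_T (z.1, z.2.1), z.2.2)) := by
      have h8 : (gaussianReal 0 1).prod ((stdGaussian V).map
          (fun g => (‖(sb E v).starProjection g‖, nrm ((sb E v).starProjection g)))) =
          ((gaussianReal 0 1).prod (stdGaussian V)).map (Prod.map id
            (fun g => (‖(sb E v).starProjection g‖, nrm ((sb E v).starProjection g)))) := by
        rw [← Measure.map_prod_map _ _ measurable_id hJ, Measure.map_id]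
      rw [h8, Measure.map_map hG (measurable_id.prodMap hJ)]
      rfl
    have hprobA : IsProbabilityMeasure ((stdGaussian V).map (fun g => ‖(sb E v).starProjection g‖)) :=
      Measure.isProbabilityMeasure_map (measurable_norm.comp hPF).aemeasurable
    rw [h7, B1d_joint (sb E v) hF1]
    have h9 := Measure.prodAssoc_prod (μ := gaussianReal 0 1)
      (ν := (stdGaussian V).map (fun g => ‖(sb E v).starProjection g‖)) (τ := ms (sb E v))
    rw [← h9, Measure.map_map hG MeasurableEquiv.prodAssoc.measurable]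
    have h10 : ((fun z : ℝ × (ℝ × V) => (B1d_T (z.1, z.2.1), z.2.2)) ∘ MeasurableEquiv.prodAssoc) =
        Prod.map B1d_T (id : V → V) := by
      funext z
      rfl
    rw [h10, ← Measure.map_prod_map _ _ B1d_T_meas measurable_id, Measure.map_id, B1d_norm (sb E v) hFq,
      B1d_nu]
  rw [h1, h2, h6]

theorem ms_inner {E : Submodule ℝ V} {v : V} (hv : v ∈ E) (hv1 : ‖v‖ = 1) (hE : 2 ≤ Module.finrank ℝ E) :
    (ms E).map (fun w => ⟪w, v⟫) = nu (Module.finrank ℝ E) := by
  have hprob := ms_prob (sb E v)
  have hnu := nu_prob (Module.finrank ℝ E)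
  have hPsi : Measurable (fun q : ℝ × V => q.1 • v + √(1 - q.1 ^ 2) • q.2) := by fun_prop
  rw [ms_disint hv hv1 hE, Measure.map_map (by fun_prop) hPsi]
  have h1 : ∀ᵐ q ∂((nu (Module.finrank ℝ E)).prod (ms (sb E v))), ⟪q.2, v⟫ = 0 := by
    have h2 : ∀ᵐ η ∂(ms (sb E v)), ⟪η, v⟫ = 0 := (ms_sb hv hv1 hE).mono fun η h => h.2.2
    exact (Measure.quasiMeasurePreserving_snd (μ := nu (Module.finrank ℝ E)) (ν := ms (sb E v))).ae h2
  have h3 : ((nu (Module.finrank ℝ E)).prod (ms (sb E v))).map
      ((fun w : V => ⟪w, v⟫) ∘ (fun q : ℝ × V => q.1 • v + √(1 - q.1 ^ 2) • q.2)) =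
      ((nu (Module.finrank ℝ E)).prod (ms (sb E v))).map Prod.fst := by
    refine Measure.map_congr ?_
    filter_upwards [h1] with q hq
    simp only [Function.comp_apply]
    rw [inner_add_left, real_inner_smul_left, real_inner_smul_left, hq, real_inner_self_eq_norm_sq, hv1]
    ring
  rw [h3, Measure.map_fst_prod, measure_univ, one_smul]

theorem mm_eq {p : ℕ} (hp : 2 ≤ p) : ∫ t, |t| ∂(nu p) = mm p := by
  have hfin : Module.finrank ℝ (⊤ : Submodule ℝ (EuclideanSpace ℝ (Fin p))) = p := by
    rw [finrank_top, finrank_euclideanSpace_fin]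
  let v : EuclideanSpace ℝ (Fin p) := EuclideanSpace.single (⟨0, by omega⟩ : Fin p) (1 : ℝ)
  have hv1 : ‖v‖ = 1 := by simp [v]
  have h1 := ms_inner (E := (⊤ : Submodule ℝ (EuclideanSpace ℝ (Fin p)))) (v := v) Submodule.mem_top hv1
    (by rw [hfin]; exact hp)
  have h2 := ms_abs (⊤ : Submodule ℝ (EuclideanSpace ℝ (Fin p))) (by rw [hfin]; omega) v
  rw [hfin] at h1 h2
  rw [← h1, integral_map (by fun_prop) (by fun_prop)]
  have h3 : (⊤ : Submodule ℝ (EuclideanSpace ℝ (Fin p))).starProjection v = v :=
    Submodule.starProjection_eq_self_iff.2 Submodule.mem_top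
  rw [h3, hv1, mul_one] at h2
  rw [← h2]
  congr 1
  funext w
  rw [real_inner_comm]

end Pool.Agent.HRJ
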