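import Pool.Agent.HRJ.B1d

/-!
# HRJ-B2: moments of linear forms on the sphere, also with complex coefficients

PROOF PLAN.  `ms_mom_real`: odd `n`: `ms_neg`.  `n = 2k`: `q = finrank F`.  For `g ~ γ`: `⟪a, P_F g⟫ ~ N(0, ‖P_F a‖²)`, so
`E ⟪a, P_F g⟫^(2k) = ‖P_F a‖^(2k) ∏_{i<k} (2i+1)`, and by `rad_real` (PBL.C0, `f r = r^(2k)`) it is `E ‖P_F g‖^(2k) * ∫ ⟪a, η⟫^(2k) d(ms F)`, with
`E ‖P_F g‖^(2k) = ∏_{i<k} (2i+q)` (norm moments of a Gaussian vector of dimension `q`: `HP89.map_starProjection`, `integral_gaussian`, polar coordinates and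
`Irad_succ` in HP89.A4; or see `int_norm_four` in PBL.C0, FI75.NM).
`ms_mom`: for real `s` apply `ms_mom_real` to `a + s b`: `∑_j C(n,j) s^j ∫ ⟪a,η⟫^(n-j) ⟪b,η⟫^j = kq (‖P a‖² + 2 s ⟪P a, P b⟫ + s² ‖P b‖²)^(n/2)` for all real
`s`: an identity of real polynomials in `s` (`Polynomial.funext`), map it to `ℂ` and evaluate at `s = I`.
-/

set_option autoImplicit false

namespace Pool.Agent.HRJ

open MeasureTheory ProbabilityTheory Set Filter Topology Metric
open Pool.Agent.HP89 Pool.Agent.FI75 Pool.Agent.PBL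
open scoped RealInnerProductSpace ENNReal

variable {V : Type*} [NormedAddCommGroup V] [InnerProductSpace ℝ V] [FiniteDimensional ℝ V]
  [MeasurableSpace V] [BorelSpace V]

private theorem B2_prod (n k : ℕ) : Irad (n + 2 * k) =
    (∏ i ∈ Finset.range k, (2 * (i : ℝ) + ((n + 1 : ℕ) : ℝ))) * Irad n := by
  induction k with
  | zero => simp
  | succ k ih =>
    have h1 : n + 2 * (k + 1) = (n + 2 * k) + 2 := by ring
    rw [h1, Irad_succ, ih, Finset.prod_range_succ]
    push_cast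
    ring

private theorem B2_full (hd : 1 ≤ Module.finrank ℝ V) (k : ℕ) :
    ∫ g : V, ‖g‖ ^ (2 * k) ∂(stdGaussian V) =
      ∏ i ∈ Finset.range k, (2 * (i : ℝ) + (Module.finrank ℝ V : ℝ)) := by
  have : Nontrivial V := Module.nontrivial_of_finrank_pos (R := ℝ) (by omega)
  obtain ⟨n, hn⟩ : ∃ n, Module.finrank ℝ V = n + 1 := ⟨Module.finrank ℝ V - 1, by omega⟩
  obtain ⟨c, hc⟩ : ∃ c : ℝ, c = cG V * ((n + 1 : ℕ) * (volume : Measure V).real (ball 0 1)) :=
    ⟨_, rfl⟩
  have h1 : ∫ g : V, ‖g‖ ^ (2 * k) ∂(stdGaussian V) = c * Irad (n + 2 * k) := by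
    rw [HP89.integral_gaussian]
    have h2 := integral_fun_norm_addHaar (volume : Measure V)
      (fun y : ℝ => Real.exp (-(1 / 2) * y ^ 2) * y ^ (2 * k))
    rw [h2, hn, hc, nsmul_eq_mul, smul_eq_mul, Nat.add_sub_cancel]
    have h3 : ∫ y in Ioi (0 : ℝ), y ^ n • (Real.exp (-(1 / 2) * y ^ 2) * y ^ (2 * k)) =
        Irad (n + 2 * k) := by
      unfold Irad
      refine setIntegral_congr_fun measurableSet_Ioi (fun y _ => ?_)
      rw [smul_eq_mul, pow_add]
      ring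
    rw [h3]
    ring
  have h4 : (1 : ℝ) = c * Irad n := by
    have h5 : ∫ g : V, (1 : ℝ) ∂(stdGaussian V) = c * Irad n := by
      rw [HP89.integral_gaussian]
      have h2 := integral_fun_norm_addHaar (volume : Measure V)
        (fun y : ℝ => Real.exp (-(1 / 2) * y ^ 2) * 1)
      rw [h2, hn, hc, nsmul_eq_mul, smul_eq_mul, Nat.add_sub_cancel]
      have h3 : ∫ y in Ioi (0 : ℝ), y ^ n • (Real.exp (-(1 / 2) * y ^ 2) * 1) = Irad n := by
        unfold Irad
        refine setIntegral_congr_fun measurableSet_Ioi (fun y _ => ?_)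
        rw [smul_eq_mul, mul_one]
      rw [h3]
      ring
    rw [← h5, integral_const, smul_eq_mul, mul_one]
    simp
  rw [h1, B2_prod, hn]
  calc c * ((∏ i ∈ Finset.range k, (2 * (i : ℝ) + ((n + 1 : ℕ) : ℝ))) * Irad n)
      = (∏ i ∈ Finset.range k, (2 * (i : ℝ) + ((n + 1 : ℕ) : ℝ))) * (c * Irad n) := by ring
    _ = _ := by rw [← h4, mul_one]

private theorem B2_pos (q k : ℕ) (hq : 1 ≤ q) :
    0 < ∏ i ∈ Finset.range k, (2 * (i : ℝ) + (q : ℝ)) := by
  refine Finset.prod_pos fun i _ => ?_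
  have h1 : (1 : ℝ) ≤ q := by exact_mod_cast hq
  have h2 : (0 : ℝ) ≤ i := i.cast_nonneg
  linarith

private theorem B2_norm (E : Submodule ℝ V) (hE : 1 ≤ Module.finrank ℝ E) (k : ℕ) :
    Integrable (fun g => ‖E.starProjection g‖ ^ (2 * k)) (stdGaussian V) ∧
    ∫ g, ‖E.starProjection g‖ ^ (2 * k) ∂(stdGaussian V) =
      ∏ i ∈ Finset.range k, (2 * (i : ℝ) + (Module.finrank ℝ E : ℝ)) := by
  have hval : ∫ g, ‖E.starProjection g‖ ^ (2 * k) ∂(stdGaussian V) =
      ∏ i ∈ Finset.range k, (2 * (i : ℝ) + (Module.finrank ℝ E : ℝ)) := by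
    have h1 : ∫ g, ‖E.starProjection g‖ ^ (2 * k) ∂(stdGaussian V) =
        ∫ x, ‖x‖ ^ (2 * k) ∂((stdGaussian V).map (fun g => E.starProjection g)) := by
      rw [integral_map (by fun_prop) (by fun_prop)]
    have h2 : ∫ x, ‖x‖ ^ (2 * k) ∂((stdGaussian E).map (fun x : E => (x : V))) =
        ∫ x : E, ‖(x : V)‖ ^ (2 * k) ∂(stdGaussian E) := by
      rw [integral_map (by fun_prop) (by fun_prop)]
    rw [h1, map_starProjection, h2, ← B2_full (V := E) hE k]
    rfl
  refine ⟨Integrable.of_integral_ne_zero ?_, hval⟩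
  rw [hval]
  exact (B2_pos _ _ hE).ne'

private theorem B2_inner (b : V) (k : ℕ) :
    ∫ g, ⟪b, g⟫ ^ (2 * k) ∂(stdGaussian V) =
      (∏ i ∈ Finset.range k, (2 * (i : ℝ) + 1)) * ‖b‖ ^ (2 * k) := by
  rcases eq_or_ne b 0 with rfl | hb
  · rcases Nat.eq_zero_or_pos k with rfl | hk
    · simp
    · have h1 : 2 * k ≠ 0 := by omega
      simp [h1]
  · have h1 : Module.finrank ℝ (ℝ ∙ b) = 1 := finrank_span_singleton hb
    obtain ⟨_, h3⟩ := B2_norm (ℝ ∙ b) h1.ge k
    have hn : ‖b‖ ≠ 0 := norm_ne_zero_iff.2 hb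
    have h4 : ∀ g : V, ⟪b, g⟫ ^ (2 * k) = ‖(ℝ ∙ b).starProjection g‖ ^ (2 * k) * ‖b‖ ^ (2 * k) := by
      intro g
      rw [Submodule.starProjection_singleton, norm_smul, ← mul_pow, pow_mul, pow_mul]
      congr 1
      rw [mul_assoc, norm_div, mul_pow, div_pow, Real.norm_eq_abs, sq_abs]
      simp only [RCLike.ofReal_real_eq_id, id_eq, norm_pow, norm_norm]
      field_simp
    simp only [h4]
    rw [integral_mul_const, h3, h1]
    push_cast
    rfl

private theorem B2_prob (F : Submodule ℝ V) : IsProbabilityMeasure (ms F) := ms_prob F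

theorem ms_mom_real (F : Submodule ℝ V) (hF : 1 ≤ Module.finrank ℝ F) (a : V) (n : ℕ) :
    ∫ η, ⟪a, η⟫ ^ n ∂(ms F) =
      if Even n then kq (Module.finrank ℝ F) (n / 2) * ‖F.starProjection a‖ ^ n else 0 := by
  by_cases he : Even n
  · rw [if_pos he]
    obtain ⟨k, hk⟩ := he
    have hk2 : n = 2 * k := by omega
    subst hk2
    have hd : 2 * k / 2 = k := by omega
    rw [hd]
    obtain ⟨hi, hv⟩ := B2_norm F hF k
    have hm : Measurable (fun x : V => if ‖x‖ ≤ 1 then ⟪a, x⟫ ^ (2 * k) else 0) :=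
      Measurable.ite (measurableSet_le measurable_norm measurable_const) (by fun_prop)
        measurable_const
    have hC : ∀ x : V, |if ‖x‖ ≤ 1 then ⟪a, x⟫ ^ (2 * k) else 0| ≤ ‖a‖ ^ (2 * k) := by
      intro x
      split_ifs with hx
      · rw [abs_pow]
        refine pow_le_pow_left₀ (abs_nonneg _) ?_ _
        calc |⟪a, x⟫| ≤ ‖a‖ * ‖x‖ := abs_real_inner_le_norm a x
          _ ≤ ‖a‖ * 1 := mul_le_mul_of_nonneg_left hx (norm_nonneg _)
          _ = ‖a‖ := mul_one _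
      · rw [abs_zero]
        positivity
    have h1 := rad_real F hF (f := fun t : ℝ => t ^ (2 * k)) (by fun_prop) hi hm hC
    have h2 : av F (fun x => if ‖x‖ ≤ 1 then ⟪a, x⟫ ^ (2 * k) else 0) =
        ∫ η, ⟪a, η⟫ ^ (2 * k) ∂(ms F) := by
      rw [ms_integral F (by fun_prop)]
      unfold av
      refine integral_congr_ae (Filter.Eventually.of_forall fun g => ?_)
      simp only
      rw [if_pos (norm_nrm_le _)]
    rw [h2] at h1
    rw [hv] at h1
    have h3 : ∀ g : V, ‖F.starProjection g‖ ^ (2 * k) *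
        (if ‖nrm (F.starProjection g)‖ ≤ 1 then ⟪a, nrm (F.starProjection g)⟫ ^ (2 * k) else 0) =
        ⟪F.starProjection a, g⟫ ^ (2 * k) := by
      intro g
      rw [if_pos (norm_nrm_le _), F.inner_starProjection_left_eq_right a g, ← mul_pow]
      congr 1
      by_cases h0 : F.starProjection g = 0
      · rw [h0]
        simp
      · have hn : ‖F.starProjection g‖ ≠ 0 := norm_ne_zero_iff.2 h0
        rw [nrm, real_inner_smul_right]
        field_simp
    have h6 : ∫ g, ⟪F.starProjection a, g⟫ ^ (2 * k) ∂(stdGaussian V) =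
        (∏ i ∈ Finset.range k, (2 * (i : ℝ) + (Module.finrank ℝ F : ℝ))) *
          ∫ η, ⟪a, η⟫ ^ (2 * k) ∂(ms F) := by
      rw [← h1]
      refine integral_congr_ae (Filter.Eventually.of_forall fun g => ?_)
      exact (h3 g).symm
    rw [B2_inner] at h6
    have h4 : kq (Module.finrank ℝ F) k = (∏ i ∈ Finset.range k, (2 * (i : ℝ) + 1)) /
        ∏ i ∈ Finset.range k, (2 * (i : ℝ) + (Module.finrank ℝ F : ℝ)) := by
      unfold kq
      rw [Finset.prod_div_distrib]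
    have h5 := (B2_pos (Module.finrank ℝ F) k hF).ne'
    rw [h4, div_mul_eq_mul_div, h6]
    field_simp
  · rw [if_neg he]
    have ho : Odd n := Nat.not_even_iff_odd.mp he
    have h1 : ∫ η, ⟪a, η⟫ ^ n ∂((ms F).map (fun w => -w)) = ∫ η, ⟪a, -η⟫ ^ n ∂(ms F) := by
      rw [integral_map (by fun_prop) (by fun_prop)]
    rw [ms_neg] at h1
    have h2 : ∀ η : V, ⟪a, -η⟫ ^ n = -(⟪a, η⟫ ^ n) := by
      intro η
      rw [inner_neg_right, ho.neg_pow]
    simp only [h2] at h1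
    rw [integral_neg] at h1
    linarith

private theorem B2_int (F : Submodule ℝ V) (hF : 1 ≤ Module.finrank ℝ F) (a b : V) (i j : ℕ) :
    Integrable (fun η => ⟪a, η⟫ ^ i * ⟪b, η⟫ ^ j) (ms F) := by
  have := B2_prob F
  refine Integrable.of_bound (by fun_prop) (‖a‖ ^ i * ‖b‖ ^ j) ?_
  filter_upwards [ms_unit F hF] with η hη
  rw [norm_mul, norm_pow, norm_pow]
  have h1 : ‖(⟪a, η⟫ : ℝ)‖ ≤ ‖a‖ := by
    calc ‖(⟪a, η⟫ : ℝ)‖ ≤ ‖a‖ * ‖η‖ := norm_inner_le_norm a η
      _ = ‖a‖ := by rw [hη.1, mul_one]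
  have h2 : ‖(⟪b, η⟫ : ℝ)‖ ≤ ‖b‖ := by
    calc ‖(⟪b, η⟫ : ℝ)‖ ≤ ‖b‖ * ‖η‖ := norm_inner_le_norm b η
      _ = ‖b‖ := by rw [hη.1, mul_one]
  exact mul_le_mul (pow_le_pow_left₀ (norm_nonneg _) h1 _) (pow_le_pow_left₀ (norm_nonneg _) h2 _)
    (by positivity) (by positivity)

theorem ms_mom (F : Submodule ℝ V) (hF : 1 ≤ Module.finrank ℝ F) (a b : V) (n : ℕ) :
    ∫ η, (((⟪a, η⟫ : ℝ) : ℂ) + Complex.I * ((⟪b, η⟫ : ℝ) : ℂ)) ^ n ∂(ms F) =
      if Even n then (kq (Module.finrank ℝ F) (n / 2) : ℂ) *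
        (((‖F.starProjection a‖ ^ 2 - ‖F.starProjection b‖ ^ 2 : ℝ) : ℂ) +
          2 * Complex.I * ((⟪F.starProjection a, F.starProjection b⟫ : ℝ) : ℂ)) ^ (n / 2) else 0 := by
  obtain ⟨m, hm⟩ : ∃ m : ℕ → ℝ, m = fun j => ∫ η, ⟪a, η⟫ ^ (n - j) * ⟪b, η⟫ ^ j ∂(ms F) :=
    ⟨_, rfl⟩
  obtain ⟨p, hp⟩ : ∃ p : Polynomial ℝ, p = ∑ j ∈ Finset.range (n + 1),
      Polynomial.C (m j * (n.choose j : ℝ)) * Polynomial.X ^ j := ⟨_, rfl⟩
  obtain ⟨q, hq⟩ : ∃ q : Polynomial ℝ, q = if Even n then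
      Polynomial.C (kq (Module.finrank ℝ F) (n / 2)) *
        (Polynomial.C (‖F.starProjection a‖ ^ 2) +
          Polynomial.C (2 * ⟪F.starProjection a, F.starProjection b⟫) * Polynomial.X +
          Polynomial.C (‖F.starProjection b‖ ^ 2) * Polynomial.X ^ 2) ^ (n / 2) else 0 := ⟨_, rfl⟩
  have hpq : p = q := by
    apply Polynomial.funext
    intro s
    have h1 : p.eval s = ∫ η, ⟪a + s • b, η⟫ ^ n ∂(ms F) := by
      have h2 : ∀ η : V, ⟪a + s • b, η⟫ ^ n = ∑ j ∈ Finset.range (n + 1),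
          (⟪a, η⟫ ^ (n - j) * ⟪b, η⟫ ^ j) * ((n.choose j : ℝ) * s ^ j) := by
        intro η
        rw [inner_add_left, real_inner_smul_left, add_comm, add_pow]
        refine Finset.sum_congr rfl fun j _ => ?_
        rw [mul_pow]
        ring
      simp only [h2]
      rw [integral_finsetSum _ (fun j _ => (B2_int F hF a b (n - j) j).mul_const _), hp,
        Polynomial.eval_finsetSum]
      refine Finset.sum_congr rfl fun j _ => ?_
      rw [integral_mul_const, hm]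
      simp only [Polynomial.eval_mul, Polynomial.eval_C, Polynomial.eval_pow, Polynomial.eval_X]
      ring
    rw [h1, ms_mom_real F hF, hq]
    by_cases he : Even n
    · rw [if_pos he, if_pos he]
      simp only [Polynomial.eval_mul, Polynomial.eval_C, Polynomial.eval_pow, Polynomial.eval_X,
        Polynomial.eval_add]
      obtain ⟨k, hk⟩ := he
      have hk2 : n = 2 * k := by omega
      have hd : n / 2 = k := by omega
      rw [hd, hk2, pow_mul]
      congr 2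
      rw [map_add, map_smul, @norm_add_sq_real, norm_smul, real_inner_smul_right, mul_pow,
        Real.norm_eq_abs, sq_abs]
      ring
    · rw [if_neg he, if_neg he, Polynomial.eval_zero]
  have h3 : Polynomial.aeval Complex.I p =
      ∫ η, (((⟪a, η⟫ : ℝ) : ℂ) + Complex.I * ((⟪b, η⟫ : ℝ) : ℂ)) ^ n ∂(ms F) := by
    have h2 : ∀ η : V, (((⟪a, η⟫ : ℝ) : ℂ) + Complex.I * ((⟪b, η⟫ : ℝ) : ℂ)) ^ n =
        ∑ j ∈ Finset.range (n + 1),
          ((⟪a, η⟫ ^ (n - j) * ⟪b, η⟫ ^ j : ℝ) : ℂ) * ((n.choose j : ℂ) * Complex.I ^ j) := by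
      intro η
      rw [add_comm, add_pow]
      refine Finset.sum_congr rfl fun j _ => ?_
      push_cast
      rw [mul_pow]
      ring
    simp only [h2]
    rw [integral_finsetSum _ (fun j _ => ((B2_int F hF a b (n - j) j).ofReal).mul_const _), hp,
      map_sum]
    refine Finset.sum_congr rfl fun j _ => ?_
    rw [integral_mul_const, integral_complex_ofReal, hm]
    simp only [map_mul, Polynomial.aeval_C, map_pow, Polynomial.aeval_X, Complex.coe_algebraMap]
    push_cast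
    ring
  rw [← h3, hpq, hq]
  by_cases he : Even n
  · rw [if_pos he, if_pos he]
    simp only [map_mul, Polynomial.aeval_C, map_pow, Polynomial.aeval_X, Complex.coe_algebraMap,
      map_add]
    congr 2
    rw [Complex.I_sq]
    push_cast
    ring
  · rw [if_neg he, if_neg he, map_zero]

end Pool.Agent.HRJ
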