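import Pool.Agent.HRJ.A2
import Pool.Agent.HRJ.B2

/-!
# HRJ-B3: Laplace's formula and the product formula

PROOF PLAN.  `laplace`: expand `(⟪u,x⟫ + I ⟪ω,x⟫)^l` by the binomial theorem and integrate over `ω`: `ms_mom_real` for `F = sb E u`, `a = x`,
`‖P_F x‖² = 1 - ⟪u,x⟫²` (`P_F x = ort u x`, `norm_ort_sq` of HP89.A1a), `finrank F = p - 1`; compare with `gP_explicit`.
`cond`: `z = u + I ω` with `u, ω ∈ E`, `‖u‖ = ‖ω‖ = 1`, `⟪u, ω⟫ = 0`; `F = sb E v`: `P_F u = u - ⟪u,v⟫ v` etc., so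
`‖P_F u‖² - ‖P_F ω‖² + 2 I ⟪P_F u, P_F ω⟫ = - (⟪u,v⟫ + I ⟪ω,v⟫)²`; expand
`(t z_v + √(1-t²) ⟪z, η⟫)^l` (`z_v = ⟪u,v⟫ + I ⟪ω,v⟫`), integrate over `η` with `ms_mom`, compare with `gP_explicit`.
`prod_formula`: insert `laplace` for `x = t v + √(1-t²) η` (a unit vector of `E` for a.e. `η`), Fubini, `cond` for a.e. `ω`, and `laplace` for `x = v`.
`gP_abs_le`: `laplace` in `E = ⊤`, `V = EuclideanSpace ℝ (Fin p)`: `|⟪u,x⟫ + I ⟪ω,x⟫| ≤ 1`.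
-/

set_option autoImplicit false

namespace Pool.Agent.HRJ

open MeasureTheory ProbabilityTheory Set Filter Topology Metric
open Pool.Agent.HP89 Pool.Agent.FI75 Pool.Agent.PBL
open scoped RealInnerProductSpace ENNReal

variable {V : Type*} [NormedAddCommGroup V] [InnerProductSpace ℝ V] [FiniteDimensional ℝ V]
  [MeasurableSpace V] [BorelSpace V]

private theorem B3_pair (h : ℕ → ℂ) (n : ℕ) :
    ∑ m ∈ Finset.range (2 * n), h m = ∑ k ∈ Finset.range n, (h (2 * k) + h (2 * k + 1)) := by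
  induction n with
  | zero => simp
  | succ n ih =>
    rw [show 2 * (n + 1) = 2 * n + 1 + 1 by ring, Finset.sum_range_succ, Finset.sum_range_succ, ih,
      Finset.sum_range_succ]
    ring

private theorem B3_even (h : ℕ → ℂ) (l : ℕ) (h1 : ∀ m, ¬ Even m → h m = 0) (h2 : ∀ m, l < m → h m = 0) :
    ∑ m ∈ Finset.range (l + 1), h m = ∑ k ∈ Finset.range (l + 1), h (2 * k) := by
  have e1 : ∑ m ∈ Finset.range (l + 1), h m = ∑ m ∈ Finset.range (2 * (l + 1)), h m := by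
    refine Finset.sum_subset (Finset.range_mono (by omega)) ?_
    intro m _ hm
    rw [Finset.mem_range, not_lt] at hm
    exact h2 m (by omega)
  rw [e1, B3_pair]
  refine Finset.sum_congr rfl fun k _ => ?_
  rw [h1 (2 * k + 1) (by simp), add_zero]

private theorem B3_bd (F : Submodule ℝ V) (hF : 1 ≤ Module.finrank ℝ F) (a b : V) (m : ℕ) :
    Integrable (fun η : V => (((⟪a, η⟫ : ℝ) : ℂ) + Complex.I * ((⟪b, η⟫ : ℝ) : ℂ)) ^ m) (ms F) := by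
  have := ms_prob F
  refine Integrable.of_bound (by fun_prop) ((‖a‖ + ‖b‖) ^ m) ?_
  filter_upwards [ms_unit F hF] with η hη
  rw [norm_pow]
  refine pow_le_pow_left₀ (norm_nonneg _) ?_ m
  refine (norm_add_le _ _).trans ?_
  rw [norm_mul, Complex.norm_I, one_mul, Complex.norm_real, Complex.norm_real]
  have h1 : ‖(⟪a, η⟫ : ℝ)‖ ≤ ‖a‖ := by
    calc ‖(⟪a, η⟫ : ℝ)‖ ≤ ‖a‖ * ‖η‖ := norm_inner_le_norm a η
      _ = ‖a‖ := by rw [hη.1, mul_one]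
  have h2 : ‖(⟪b, η⟫ : ℝ)‖ ≤ ‖b‖ := by
    calc ‖(⟪b, η⟫ : ℝ)‖ ≤ ‖b‖ * ‖η‖ := norm_inner_le_norm b η
      _ = ‖b‖ := by rw [hη.1, mul_one]
  exact add_le_add h1 h2

private theorem B3_core (F : Submodule ℝ V) (hF : 1 ≤ Module.finrank ℝ F) (a b : V) (α β : ℂ) (l : ℕ) :
    ∫ η, (α + β * (((⟪a, η⟫ : ℝ) : ℂ) + Complex.I * ((⟪b, η⟫ : ℝ) : ℂ))) ^ l ∂(ms F) =
      ∑ k ∈ Finset.range (l + 1), (l.choose (2 * k) : ℂ) * α ^ (l - 2 * k) * β ^ (2 * k) *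
        ((kq (Module.finrank ℝ F) k : ℂ) *
          (((‖F.starProjection a‖ ^ 2 - ‖F.starProjection b‖ ^ 2 : ℝ) : ℂ) +
            2 * Complex.I * ((⟪F.starProjection a, F.starProjection b⟫ : ℝ) : ℂ)) ^ k) := by
  have h1 : ∀ η : V, (α + β * (((⟪a, η⟫ : ℝ) : ℂ) + Complex.I * ((⟪b, η⟫ : ℝ) : ℂ))) ^ l =
      ∑ m ∈ Finset.range (l + 1), ((l.choose m : ℂ) * α ^ (l - m) * β ^ m) *
        (((⟪a, η⟫ : ℝ) : ℂ) + Complex.I * ((⟪b, η⟫ : ℝ) : ℂ)) ^ m := by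
    intro η
    rw [add_comm, add_pow]
    refine Finset.sum_congr rfl fun m _ => ?_
    rw [mul_pow]
    ring
  simp only [h1]
  rw [integral_finsetSum _ (fun m _ => (B3_bd F hF a b m).const_mul _)]
  have h2 : ∀ m ∈ Finset.range (l + 1),
      ∫ η, ((l.choose m : ℂ) * α ^ (l - m) * β ^ m) *
        (((⟪a, η⟫ : ℝ) : ℂ) + Complex.I * ((⟪b, η⟫ : ℝ) : ℂ)) ^ m ∂(ms F) =
      (fun m : ℕ => ((l.choose m : ℂ) * α ^ (l - m) * β ^ m) *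
        (if Even m then (kq (Module.finrank ℝ F) (m / 2) : ℂ) *
        (((‖F.starProjection a‖ ^ 2 - ‖F.starProjection b‖ ^ 2 : ℝ) : ℂ) +
          2 * Complex.I * ((⟪F.starProjection a, F.starProjection b⟫ : ℝ) : ℂ)) ^ (m / 2) else 0)) m := by
    intro m _
    rw [integral_const_mul, ms_mom F hF]
  rw [Finset.sum_congr rfl h2, B3_even]
  · refine Finset.sum_congr rfl fun k _ => ?_
    rw [if_pos (even_two_mul k), Nat.mul_div_cancel_left k two_pos]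
  · intro m hm
    rw [if_neg hm, mul_zero]
  · intro m hm
    rw [Nat.choose_eq_zero_of_lt hm]
    simp

private theorem B3_proj {E : Submodule ℝ V} {v : V} (hv : v ∈ E) (hv1 : ‖v‖ = 1) {x : V} (hx : x ∈ E) :
    (sb E v).starProjection x = x - ⟪v, x⟫ • v := by
  rw [sb_proj, Submodule.starProjection_eq_self_iff.mpr hv, Submodule.starProjection_eq_self_iff.mpr hx,
    ort, hv1]
  simp

private theorem B3_norm {v x : V} (hv1 : ‖v‖ = 1) (hx1 : ‖x‖ = 1) :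
    ‖x - ⟪v, x⟫ • v‖ ^ 2 = 1 - ⟪v, x⟫ ^ 2 := by
  rw [norm_sub_sq_real, norm_smul, hv1, hx1, real_inner_smul_right, real_inner_comm, Real.norm_eq_abs]
  rw [mul_one, sq_abs]
  ring

theorem laplace {E : Submodule ℝ V} (hE : 3 ≤ Module.finrank ℝ E) {u x : V} (hu : u ∈ E) (hu1 : ‖u‖ = 1)
    (hx : x ∈ E) (hx1 : ‖x‖ = 1) (l : ℕ) :
    ∫ ω, (((⟪u, x⟫ : ℝ) : ℂ) + Complex.I * ((⟪ω, x⟫ : ℝ) : ℂ)) ^ l ∂(ms (sb E u)) =
      ((gP (Module.finrank ℝ E) l ⟪u, x⟫ : ℝ) : ℂ) := by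
  have hf := finrank_sb' hu hu1
  have hF : 1 ≤ Module.finrank ℝ (sb E u) := by omega
  have hq : Module.finrank ℝ (sb E u) = Module.finrank ℝ E - 1 := by omega
  have h1 := B3_core (sb E u) hF x 0 ((⟪u, x⟫ : ℝ) : ℂ) Complex.I l
  have h2 : ∀ ω : V, ((((⟪u, x⟫ : ℝ) : ℂ)) + Complex.I * (((⟪x, ω⟫ : ℝ) : ℂ) +
      Complex.I * ((⟪(0 : V), ω⟫ : ℝ) : ℂ))) ^ l =
      (((⟪u, x⟫ : ℝ) : ℂ) + Complex.I * ((⟪ω, x⟫ : ℝ) : ℂ)) ^ l := by
    intro ω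
    rw [inner_zero_left, real_inner_comm ω x]
    simp
  simp only [h2] at h1
  rw [h1, gP_explicit hE]
  push_cast
  refine Finset.sum_congr rfl fun k _ => ?_
  rw [map_zero, norm_zero, inner_zero_right, B3_proj hu hu1 hx, ← Complex.ofReal_pow ‖_‖ 2,
    B3_norm hu1 hx1, hq, pow_mul Complex.I, Complex.I_sq]
  push_cast
  ring

theorem cond {E : Submodule ℝ V} (hE : 3 ≤ Module.finrank ℝ E) {u ω v : V} (hu : u ∈ E) (hu1 : ‖u‖ = 1)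
    (hω : ω ∈ E) (hω1 : ‖ω‖ = 1) (huω : ⟪u, ω⟫ = 0) (hv : v ∈ E) (hv1 : ‖v‖ = 1) (l : ℕ) {t : ℝ} (ht : |t| ≤ 1) :
    ∫ η, (((⟪u, t • v + √(1 - t ^ 2) • η⟫ : ℝ) : ℂ) +
        Complex.I * ((⟪ω, t • v + √(1 - t ^ 2) • η⟫ : ℝ) : ℂ)) ^ l ∂(ms (sb E v)) =
      ((gP (Module.finrank ℝ E) l t : ℝ) : ℂ) * (((⟪u, v⟫ : ℝ) : ℂ) + Complex.I * ((⟪ω, v⟫ : ℝ) : ℂ)) ^ l := by
  have hf := finrank_sb' hv hv1
  have hF : 1 ≤ Module.finrank ℝ (sb E v) := by omega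
  have hq : Module.finrank ℝ (sb E v) = Module.finrank ℝ E - 1 := by omega
  have h1 := B3_core (sb E v) hF u ω ((t : ℂ) * (((⟪u, v⟫ : ℝ) : ℂ) + Complex.I * ((⟪ω, v⟫ : ℝ) : ℂ)))
    ((√(1 - t ^ 2) : ℝ) : ℂ) l
  have h2 : ∀ η : V, (((t : ℂ) * (((⟪u, v⟫ : ℝ) : ℂ) + Complex.I * ((⟪ω, v⟫ : ℝ) : ℂ))) +
      ((√(1 - t ^ 2) : ℝ) : ℂ) * (((⟪u, η⟫ : ℝ) : ℂ) + Complex.I * ((⟪ω, η⟫ : ℝ) : ℂ))) ^ l =
      (((⟪u, t • v + √(1 - t ^ 2) • η⟫ : ℝ) : ℂ) +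
        Complex.I * ((⟪ω, t • v + √(1 - t ^ 2) • η⟫ : ℝ) : ℂ)) ^ l := by
    intro η
    rw [inner_add_right, inner_add_right, real_inner_smul_right, real_inner_smul_right,
      real_inner_smul_right, real_inner_smul_right]
    push_cast
    ring
  simp only [h2] at h1
  rw [h1, gP_explicit hE]
  push_cast
  rw [Finset.sum_mul]
  refine Finset.sum_congr rfl fun k _ => ?_
  have hs : ((√(1 - t ^ 2) : ℝ) : ℂ) ^ 2 = 1 - (t : ℂ) ^ 2 := by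
    have h3 : 0 ≤ 1 - t ^ 2 := by
      have h4 : t ^ 2 ≤ 1 := by
        rw [← sq_abs]
        exact pow_le_one₀ (abs_nonneg _) ht
      linarith
    rw [← Complex.ofReal_pow, Real.sq_sqrt h3]
    push_cast
    rfl
  have h5 : ⟪u - ⟪v, u⟫ • v, ω - ⟪v, ω⟫ • v⟫ = -(⟪v, u⟫ * ⟪v, ω⟫) := by
    rw [inner_sub_left, inner_sub_right, inner_sub_right, real_inner_smul_left, real_inner_smul_left,
      real_inner_smul_right, real_inner_smul_right, huω, real_inner_self_eq_norm_sq, hv1,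
      real_inner_comm u v]
    ring
  rw [B3_proj hv hv1 hu, B3_proj hv hv1 hω, ← Complex.ofReal_pow ‖_‖ 2, ← Complex.ofReal_pow ‖_‖ 2,
    B3_norm hv1 hu1, B3_norm hv1 hω1, h5, hq, pow_mul ((√(1 - t ^ 2) : ℝ) : ℂ), hs,
    real_inner_comm u v, real_inner_comm ω v]
  obtain ⟨A, hA⟩ : ∃ A : ℂ, A = ((⟪u, v⟫ : ℝ) : ℂ) := ⟨_, rfl⟩
  obtain ⟨B, hB⟩ : ∃ B : ℂ, B = ((⟪ω, v⟫ : ℝ) : ℂ) := ⟨_, rfl⟩
  have hQ : (((1 - ⟪u, v⟫ ^ 2 : ℝ) : ℂ) - ((1 - ⟪ω, v⟫ ^ 2 : ℝ) : ℂ)) +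
      2 * Complex.I * ((-(⟪u, v⟫ * ⟪ω, v⟫) : ℝ) : ℂ) = -1 * (A + Complex.I * B) ^ 2 := by
    push_cast
    rw [← hA, ← hB]
    linear_combination B ^ 2 * Complex.I_sq
  rw [hQ, ← hA, ← hB, mul_pow (-1 : ℂ), ← pow_mul, mul_pow]
  rcases Nat.lt_or_ge l (2 * k) with h | h
  · rw [Nat.choose_eq_zero_of_lt h]
    simp
  · have h6 : (A + Complex.I * B) ^ l = (A + Complex.I * B) ^ (l - 2 * k) * (A + Complex.I * B) ^ (2 * k) := by
      rw [← pow_add, Nat.sub_add_cancel h]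
    rw [h6]
    ring

private theorem B3_bessel {u w x : V} (hu1 : ‖u‖ = 1) (hw1 : ‖w‖ = 1) (huw : ⟪w, u⟫ = 0) :
    ⟪u, x⟫ ^ 2 + ⟪w, x⟫ ^ 2 ≤ ‖x‖ ^ 2 := by
  have h1 : 0 ≤ ‖x - ⟪u, x⟫ • u - ⟪w, x⟫ • w‖ ^ 2 := sq_nonneg _
  have h2 : ‖x - ⟪u, x⟫ • u - ⟪w, x⟫ • w‖ ^ 2 = ‖x‖ ^ 2 - ⟪u, x⟫ ^ 2 - ⟪w, x⟫ ^ 2 := by
    have e1 : ⟪x, u⟫ = ⟪u, x⟫ := real_inner_comm _ _
    have e2 : ⟪x, w⟫ = ⟪w, x⟫ := real_inner_comm _ _
    have e3 : ⟪u, w⟫ = 0 := by rw [real_inner_comm, huw]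
    rw [norm_sub_sq_real, norm_sub_sq_real, norm_smul, norm_smul, hu1, hw1, real_inner_smul_right,
      real_inner_smul_right, inner_sub_left, real_inner_smul_left, e3, e1, e2, Real.norm_eq_abs,
      Real.norm_eq_abs, mul_one, mul_one, sq_abs, sq_abs]
    ring
  linarith

theorem prod_formula {E : Submodule ℝ V} (hE : 3 ≤ Module.finrank ℝ E) {u v : V} (hu : u ∈ E) (hu1 : ‖u‖ = 1)
    (hv : v ∈ E) (hv1 : ‖v‖ = 1) (l : ℕ) {t : ℝ} (ht : |t| ≤ 1) :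
    ∫ η, gP (Module.finrank ℝ E) l ⟪u, t • v + √(1 - t ^ 2) • η⟫ ∂(ms (sb E v)) =
      gP (Module.finrank ℝ E) l t * gP (Module.finrank ℝ E) l ⟪u, v⟫ := by
  have hpv := ms_prob (sb E v)
  have hpu := ms_prob (sb E u)
  have h3 : 0 ≤ 1 - t ^ 2 := by
    have h4 : t ^ 2 ≤ 1 := by
      rw [← sq_abs]
      exact pow_le_one₀ (abs_nonneg _) ht
    linarith
  obtain ⟨f, hf⟩ : ∃ f : V → V → ℂ, f = fun η ω => (((⟪u, t • v + √(1 - t ^ 2) • η⟫ : ℝ) : ℂ) +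
    Complex.I * ((⟪ω, t • v + √(1 - t ^ 2) • η⟫ : ℝ) : ℂ)) ^ l := ⟨_, rfl⟩
  have hunit : ∀ η : V, ‖η‖ = 1 → ⟪η, v⟫ = 0 → ‖t • v + √(1 - t ^ 2) • η‖ = 1 := by
    intro η h1 h2
    have h4 : ‖t • v + √(1 - t ^ 2) • η‖ ^ 2 = 1 := by
      rw [norm_add_sq_real, norm_smul, norm_smul, hv1, h1, real_inner_smul_left,
        real_inner_smul_right, real_inner_comm, h2, Real.norm_eq_abs, Real.norm_eq_abs, mul_one, mul_one,
        sq_abs, sq_abs, Real.sq_sqrt h3]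
      ring
    exact (pow_eq_one_iff_of_nonneg (norm_nonneg _) two_ne_zero).1 h4
  have hcu := ms_sb hu hu1 (show 2 ≤ Module.finrank ℝ E by omega)
  have hcv := ms_sb hv hv1 (show 2 ≤ Module.finrank ℝ E by omega)
  have hint : Integrable (Function.uncurry f) ((ms (sb E v)).prod (ms (sb E u))) := by
    refine Integrable.of_bound ?_ 1 ?_
    · rw [hf]
      have hc : Continuous (Function.uncurry fun η ω : V =>
          (((⟪u, t • v + √(1 - t ^ 2) • η⟫ : ℝ) : ℂ) +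
            Complex.I * ((⟪ω, t • v + √(1 - t ^ 2) • η⟫ : ℝ) : ℂ)) ^ l) := by
        unfold Function.uncurry
        fun_prop
      exact hc.aestronglyMeasurable
    · filter_upwards [Measure.quasiMeasurePreserving_fst.ae hcv,
        Measure.quasiMeasurePreserving_snd.ae hcu] with q hq1 hq2
      rw [hf]
      simp only [Function.uncurry]
      rw [norm_pow]
      refine pow_le_one₀ (norm_nonneg _) ?_
      have h5 := B3_bessel (x := t • v + √(1 - t ^ 2) • q.1) hu1 hq2.1 hq2.2.2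
      rw [hunit q.1 hq1.1 hq1.2.2, one_pow] at h5
      have h6 : ‖(((⟪u, t • v + √(1 - t ^ 2) • q.1⟫ : ℝ) : ℂ) +
            Complex.I * ((⟪q.2, t • v + √(1 - t ^ 2) • q.1⟫ : ℝ) : ℂ))‖ ^ 2 ≤ 1 := by
        rw [mul_comm Complex.I, ← Complex.normSq_eq_norm_sq, Complex.normSq_add_mul_I]
        exact h5
      exact (sq_le_one_iff₀ (norm_nonneg _)).1 h6
  have hswap := integral_integral_swap hint
  have hL : ∫ η, ∫ ω, f η ω ∂(ms (sb E u)) ∂(ms (sb E v)) =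
      ((∫ η, gP (Module.finrank ℝ E) l ⟪u, t • v + √(1 - t ^ 2) • η⟫ ∂(ms (sb E v)) : ℝ) : ℂ) := by
    rw [← integral_complex_ofReal]
    refine integral_congr_ae ?_
    filter_upwards [hcv] with η hη
    rw [hf]
    exact laplace hE hu hu1 (E.add_mem (E.smul_mem _ hv) (E.smul_mem _ hη.2.1)) (hunit η hη.1 hη.2.2) l
  have hR : ∫ ω, ∫ η, f η ω ∂(ms (sb E v)) ∂(ms (sb E u)) =
      ((gP (Module.finrank ℝ E) l t * gP (Module.finrank ℝ E) l ⟪u, v⟫ : ℝ) : ℂ) := by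
    have h7 : ∫ ω, ∫ η, f η ω ∂(ms (sb E v)) ∂(ms (sb E u)) =
        ∫ ω, ((gP (Module.finrank ℝ E) l t : ℝ) : ℂ) *
          (((⟪u, v⟫ : ℝ) : ℂ) + Complex.I * ((⟪ω, v⟫ : ℝ) : ℂ)) ^ l ∂(ms (sb E u)) := by
      refine integral_congr_ae ?_
      filter_upwards [hcu] with ω hω
      rw [hf]
      exact cond hE hu hu1 hω.2.1 hω.1 (by rw [real_inner_comm]; exact hω.2.2) hv hv1 l ht
    rw [h7, integral_const_mul, laplace hE hu hu1 hv hv1]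
    push_cast
    rfl
  rw [hL, hR] at hswap
  exact_mod_cast hswap

theorem gP_abs_le {p : ℕ} (hp : 3 ≤ p) (l : ℕ) {t : ℝ} (ht : |t| ≤ 1) : |gP p l t| ≤ 1 := by
  have h3 : 0 ≤ 1 - t ^ 2 := by
    have h4 : t ^ 2 ≤ 1 := by
      rw [← sq_abs]
      exact pow_le_one₀ (abs_nonneg _) ht
    linarith
  have hd : Module.finrank ℝ (⊤ : Submodule ℝ (EuclideanSpace ℝ (Fin p))) = p := by simp
  obtain ⟨i, j, hij⟩ : ∃ i j : Fin p, i ≠ j :=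
    ⟨⟨0, by omega⟩, ⟨1, by omega⟩, by simp [Fin.ext_iff]⟩
  obtain ⟨u, hu⟩ : ∃ u : EuclideanSpace ℝ (Fin p), u = EuclideanSpace.single i (1 : ℝ) := ⟨_, rfl⟩
  obtain ⟨w, hw⟩ : ∃ w : EuclideanSpace ℝ (Fin p), w = EuclideanSpace.single j (1 : ℝ) := ⟨_, rfl⟩
  have hu1 : ‖u‖ = 1 := by rw [hu]; simp
  have hw1 : ‖w‖ = 1 := by rw [hw]; simp
  have huw : ⟪u, w⟫ = 0 := by
    rw [hu, hw, EuclideanSpace.inner_single_left]
    simp [hij]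
  obtain ⟨x, hx⟩ : ∃ x : EuclideanSpace ℝ (Fin p), x = t • u + √(1 - t ^ 2) • w := ⟨_, rfl⟩
  have hx1 : ‖x‖ ^ 2 = 1 := by
    rw [hx, norm_add_sq_real, norm_smul, norm_smul, hu1, hw1, real_inner_smul_left,
      real_inner_smul_right, huw, Real.norm_eq_abs, Real.norm_eq_abs, mul_one, mul_one,
      sq_abs, sq_abs, Real.sq_sqrt h3]
    ring
  have hx1' : ‖x‖ = 1 := (pow_eq_one_iff_of_nonneg (norm_nonneg _) two_ne_zero).1 hx1
  have hux : ⟪u, x⟫ = t := by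
    rw [hx, inner_add_right, real_inner_smul_right, real_inner_smul_right, huw,
      real_inner_self_eq_norm_sq, hu1]
    ring
  have hL := laplace (E := (⊤ : Submodule ℝ (EuclideanSpace ℝ (Fin p)))) (by rw [hd]; exact hp)
    (u := u) (x := x) Submodule.mem_top hu1 Submodule.mem_top hx1' l
  rw [hd, hux] at hL
  have hpr := ms_prob (sb (⊤ : Submodule ℝ (EuclideanSpace ℝ (Fin p))) u)
  have hn : ‖((gP p l t : ℝ) : ℂ)‖ ≤ 1 := by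
    rw [← hL]
    refine (norm_integral_le_of_norm_le_const (C := 1) ?_).trans (by simp)
    filter_upwards [ms_sb (E := (⊤ : Submodule ℝ (EuclideanSpace ℝ (Fin p)))) Submodule.mem_top hu1
      (by rw [hd]; omega)] with ω hω
    rw [norm_pow]
    refine pow_le_one₀ (norm_nonneg _) ?_
    have h5 := B3_bessel (x := x) hu1 hω.1 hω.2.2
    rw [hx1, hux] at h5
    have h6 : ‖((t : ℂ) + Complex.I * ((⟪ω, x⟫ : ℝ) : ℂ))‖ ^ 2 ≤ 1 := by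
      rw [mul_comm Complex.I, ← Complex.normSq_eq_norm_sq, Complex.normSq_add_mul_I]
      exact h5
    exact (sq_le_one_iff₀ (norm_nonneg _)).1 h6
  rwa [Complex.norm_real, Real.norm_eq_abs] at hn

end Pool.Agent.HRJ
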