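import Pool.Agent.HRJ.B3

/-!
# HRJ-B4: Funk-Hecke formulas

PROOF PLAN.  `fh`: `ms_disint` for `v` (`integral_map`, `integral_prod`; everything is bounded a.e. since `|t| ≤ 1` a.e., `gP_abs_le`), for a.e. `η`:
`⟪t v + √.. η, v⟫ = t`; the inner integral is `prod_formula`.  `fh_sb`: `prod_formula` for `t = 0`, `gP_zero_val`.
-/

set_option autoImplicit false

namespace Pool.Agent.HRJ

open MeasureTheory ProbabilityTheory Set Filter Topology Metric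
open Pool.Agent.HP89 Pool.Agent.FI75 Pool.Agent.PBL
open scoped RealInnerProductSpace ENNReal

variable {V : Type*} [NormedAddCommGroup V] [InnerProductSpace ℝ V] [FiniteDimensional ℝ V]
  [MeasurableSpace V] [BorelSpace V]

omit [FiniteDimensional ℝ V] [MeasurableSpace V] [BorelSpace V] in
private theorem B4_unit {v η : V} (hv1 : ‖v‖ = 1) (hη1 : ‖η‖ = 1) (hηv : ⟪η, v⟫ = 0) {t : ℝ} (ht : |t| ≤ 1) :
    ‖t • v + √(1 - t ^ 2) • η‖ = 1 ∧ ⟪t • v + √(1 - t ^ 2) • η, v⟫ = t := by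
  have h1 : 0 ≤ 1 - t ^ 2 := by
    have := sq_abs t
    have h2 := abs_nonneg t
    nlinarith
  have h3 : √(1 - t ^ 2) ^ 2 = 1 - t ^ 2 := Real.sq_sqrt h1
  have h4 : ⟪v, η⟫ = 0 := by rw [real_inner_comm]; exact hηv
  have h5 : ⟪v, v⟫ = 1 := by rw [real_inner_self_eq_norm_sq, hv1, one_pow]
  have h6 : ⟪η, η⟫ = 1 := by rw [real_inner_self_eq_norm_sq, hη1, one_pow]
  constructor
  · have h7 : ‖t • v + √(1 - t ^ 2) • η‖ ^ 2 = 1 := by
      rw [← real_inner_self_eq_norm_sq]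
      simp only [inner_add_left, inner_add_right, inner_smul_left, inner_smul_right, h4, hηv, h5, h6,
        RCLike.conj_to_real]
      nlinarith
    have h8 : (‖t • v + √(1 - t ^ 2) • η‖) = 1 := by
      have h9 := norm_nonneg (t • v + √(1 - t ^ 2) • η)
      nlinarith
    exact h8
  · simp only [inner_add_left, inner_smul_left, hηv, h5, RCLike.conj_to_real]
    ring

theorem fh {E : Submodule ℝ V} (hE : 3 ≤ Module.finrank ℝ E) {u v : V} (hu : u ∈ E) (hu1 : ‖u‖ = 1)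
    (hv : v ∈ E) (hv1 : ‖v‖ = 1) {f : ℝ → ℝ} (hf : Measurable f) {C : ℝ} (hC : ∀ t, |t| ≤ 1 → |f t| ≤ C) (l : ℕ) :
    ∫ w, f ⟪w, v⟫ * gP (Module.finrank ℝ E) l ⟪u, w⟫ ∂(ms E) =
      mu (Module.finrank ℝ E) l f * gP (Module.finrank ℝ E) l ⟪u, v⟫ := by
  set p := Module.finrank ℝ E with hp
  have hE2 : 2 ≤ Module.finrank ℝ E := by omega
  have := nu_prob p
  have := ms_prob (sb E v)
  have hC0 : 0 ≤ C := (abs_nonneg _).trans (hC 0 (by simp))
  have hg : Measurable (gP p l) := (continuous_gP p l).measurable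
  have hmap : Measurable (fun q : ℝ × V => q.1 • v + √(1 - q.1 ^ 2) • q.2) := by fun_prop
  have hFm : Measurable (fun w : V => f ⟪w, v⟫ * gP p l ⟪u, w⟫) := by
    have h1 : Measurable (fun w : V => (⟪w, v⟫ : ℝ)) := by fun_prop
    have h2 : Measurable (fun w : V => (⟪u, w⟫ : ℝ)) := by fun_prop
    exact (hf.comp h1).mul (hg.comp h2)
  have hd := ms_disint hv hv1 hE2
  rw [← hp] at hd
  rw [hd, integral_map hmap.aemeasurable hFm.aestronglyMeasurable]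
  have hae : ∀ᵐ q ∂((nu p).prod (ms (sb E v))), |q.1| ≤ 1 ∧ (‖q.2‖ = 1 ∧ q.2 ∈ E ∧ ⟪q.2, v⟫ = 0) := by
    have h1 : ∀ᵐ q ∂((nu p).prod (ms (sb E v))), |q.1| ≤ 1 :=
      Measure.quasiMeasurePreserving_fst.ae (nu_abs p)
    have h2 : ∀ᵐ q ∂((nu p).prod (ms (sb E v))), ‖q.2‖ = 1 ∧ q.2 ∈ E ∧ ⟪q.2, v⟫ = 0 :=
      Measure.quasiMeasurePreserving_snd.ae (ms_sb hv hv1 hE2)
    filter_upwards [h1, h2] with q a b
    exact ⟨a, b⟩
  have hint : Integrable (fun q : ℝ × V => f ⟪q.1 • v + √(1 - q.1 ^ 2) • q.2, v⟫ *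
      gP p l ⟪u, q.1 • v + √(1 - q.1 ^ 2) • q.2⟫) ((nu p).prod (ms (sb E v))) := by
    refine Integrable.mono' (integrable_const C) (hFm.comp hmap).aestronglyMeasurable ?_
    filter_upwards [hae] with q hq
    obtain ⟨hq1, hq2, hq3, hq4⟩ := hq
    obtain ⟨e1, e2⟩ := B4_unit hv1 hq2 hq4 hq1
    rw [e2, Real.norm_eq_abs, abs_mul]
    have h3 : |gP p l ⟪u, q.1 • v + √(1 - q.1 ^ 2) • q.2⟫| ≤ 1 := by
      apply gP_abs_le (by rw [hp]; exact hE)
      have := abs_real_inner_le_norm u (q.1 • v + √(1 - q.1 ^ 2) • q.2)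
      rwa [hu1, e1, one_mul] at this
    calc |f q.1| * |gP p l ⟪u, q.1 • v + √(1 - q.1 ^ 2) • q.2⟫| ≤ C * 1 :=
          mul_le_mul (hC _ hq1) h3 (abs_nonneg _) hC0
      _ = C := mul_one C
  rw [integral_prod _ hint]
  unfold mu
  rw [← integral_mul_const]
  refine integral_congr_ae ?_
  filter_upwards [nu_abs p] with t ht
  have h1 : ∫ η, f ⟪t • v + √(1 - t ^ 2) • η, v⟫ * gP p l ⟪u, t • v + √(1 - t ^ 2) • η⟫ ∂(ms (sb E v)) =
      ∫ η, f t * gP p l ⟪u, t • v + √(1 - t ^ 2) • η⟫ ∂(ms (sb E v)) := by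
    refine integral_congr_ae ?_
    filter_upwards [ms_sb hv hv1 hE2] with η hη
    obtain ⟨_, e2⟩ := B4_unit hv1 hη.1 hη.2.2 ht
    rw [e2]
  rw [h1, integral_const_mul, hp, prod_formula hE hu hu1 hv hv1 l ht]
  ring

theorem fh_sb {E : Submodule ℝ V} (hE : 3 ≤ Module.finrank ℝ E) {u v : V} (hu : u ∈ E) (hu1 : ‖u‖ = 1)
    (hv : v ∈ E) (hv1 : ‖v‖ = 1) (h : ℕ) :
    ∫ η, gP (Module.finrank ℝ E) (2 * h) ⟪u, η⟫ ∂(ms (sb E v)) =
      rR (Module.finrank ℝ E) h * gP (Module.finrank ℝ E) (2 * h) ⟪u, v⟫ := by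
  have h1 := prod_formula hE hu hu1 hv hv1 (2 * h) (t := 0) (by simp)
  rw [gP_zero_val hE] at h1
  rw [← h1]
  refine integral_congr_ae (Filter.Eventually.of_forall fun η => ?_)
  simp

end Pool.Agent.HRJ
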