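import Pool.Agent.HRJ.B5b

/-!
# HRJ-B5: orthogonality, norms, monomials

PROOF PLAN.  `gP_int`: `fh` with `f = 1`, `E = ⊤` in `EuclideanSpace ℝ (Fin p)`, fixed `u`: the left side does not depend on `v`; `v = u` gives `mu p l 1` (`gP_one_val`), and a `v ⊥ u`
gives `mu p l 1 * gP p l 0` with `gP p l 0 ≠ 1` for `l ≥ 1` (`gP_zero_val`: `|rR p h| < 1` for `h ≥ 1`, `gP_zero_odd`); so it is `0`.
`mu_pow_zero`, `mu_pow_nonneg`: induction on `n` for all `l`, with `t * gP p l t = α gP p (l+1) t + β gP p (l-1) t`, `α, β ≥ 0` (`t_gP`; `l = 0`: `t = gP p 1 t`).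
`mu_pow_odd`: the same induction (or the parity).
`nu_orth`: for `l < m`: `∫ t^n gP p l t gP p m t = 0` for `n + l < m` by two-step induction on `l` (recurrence `gP_succ2`), base `mu_pow_zero`.
`nu_norm`: `(l+p-1) ∫ (gP (l+2))² = (2l+p) ∫ t gP(l+1) gP(l+2)` and `0 = ∫ gP (l+3) gP (l+1) → (2l+2+p) ∫ t gP(l+2) gP(l+1) = (l+2) ∫ (gP (l+1))²`; compare with `nN`; base cases
`l = 0, 1` (`∫ t² dν = 1/p`, from `0 = ∫ gP 2 * 1`).
`pow_expand`: for all `n`: `t^n = ∑_{l ≤ n} mu p l (·^n) gK p l t` by induction on `n` with `t_gK`, `t_gK_zero` and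
`mu p m (·^(n+1)) = (m+p-2)/(2m+p-2) mu p (m+1) (·^n) + m/(2m+p-2) mu p (m-1) (·^n)` (from `t_gP`); then `n` even, `mu_pow_odd`.
`poly_expand`: linear combination (`Polynomial.eval_eq_sum_range'`), `mu` is linear, `mu_pow_zero`.
-/

set_option autoImplicit false

namespace Pool.Agent.HRJ

open MeasureTheory ProbabilityTheory Set Filter Topology Metric
open Pool.Agent.HP89 Pool.Agent.FI75 Pool.Agent.PBL
open scoped RealInnerProductSpace ENNReal

private theorem B5_int {p : ℕ} {f : ℝ → ℝ} (hf : Continuous f) : Integrable f (nu p) := by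
  obtain ⟨C, hC⟩ := isCompact_Icc.exists_bound_of_continuousOn (s := Icc (-1 : ℝ) 1) hf.continuousOn
  exact integrable_nu hf.measurable (C := C) fun t ht => hC t (abs_le.1 ht)

private theorem B5_mu0 (p n : ℕ) : mu p 0 (fun s => s ^ (n + 1)) = mu p 1 (fun s => s ^ n) := by
  rw [mu, mu]
  refine integral_congr_ae (Eventually.of_forall fun t => ?_)
  simp only [gP_zero, gP_one, mul_one]
  ring

private theorem B5_muS {p : ℕ} (hp : 3 ≤ p) (n l : ℕ) : mu p (l + 1) (fun s => s ^ (n + 1)) =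
    ((l : ℝ) + p - 1) / (2 * (l : ℝ) + p) * mu p (l + 2) (fun s => s ^ n) +
      ((l : ℝ) + 1) / (2 * (l : ℝ) + p) * mu p l (fun s => s ^ n) := by
  have hp' : (3:ℝ) ≤ p := by exact_mod_cast hp
  have hl : (0:ℝ) ≤ l := by positivity
  have hne : 2 * (l : ℝ) + p ≠ 0 := by positivity
  rw [mu, mu, mu, ← integral_const_mul, ← integral_const_mul, ← integral_add]
  · refine integral_congr_ae (Eventually.of_forall fun t => ?_)
    have h1 : t ^ (n + 1) * gP p (l + 1) t = t ^ n * (t * gP p (l + 1) t) := by ring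
    change t ^ (n + 1) * gP p (l + 1) t = _
    rw [h1, t_gP hp]
    field_simp
  · exact (B5_int ((continuous_pow n).mul (continuous_gP p _))).const_mul _
  · exact (B5_int ((continuous_pow n).mul (continuous_gP p _))).const_mul _

private theorem B5_step {p : ℕ} (hp : 3 ≤ p) (n : ℕ) (t : ℝ) (N : ℕ) :
    t * ∑ l ∈ Finset.range (N + 1), mu p l (fun s => s ^ n) * gK p l t =
      ∑ l ∈ Finset.range (N + 1), mu p l (fun s => s ^ (n + 1)) * gK p l t +
        ((N : ℝ) + 1) / (2 * (N : ℝ) + p) * mu p N (fun s => s ^ n) * gK p (N + 1) t -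
        ((N : ℝ) + p - 2) / (2 * (N : ℝ) + p - 2) * mu p (N + 1) (fun s => s ^ n) * gK p N t := by
  have hp' : (3:ℝ) ≤ p := by exact_mod_cast hp
  induction N with
  | zero =>
    have hne : (p : ℝ) - 2 ≠ 0 := by
      intro h0
      linarith
    have h2 : ((0 : ℕ) : ℝ) + p - 2 = (p : ℝ) - 2 := by norm_num
    have h3 : 2 * ((0 : ℕ) : ℝ) + p - 2 = (p : ℝ) - 2 := by norm_num
    have h4 : (((0 : ℕ) : ℝ) + 1) / (2 * ((0 : ℕ) : ℝ) + p) = 1 / (p : ℝ) := by norm_num
    have h1 := t_gK_zero hp t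
    rw [Finset.sum_range_one, Finset.sum_range_one, B5_mu0, h2, h3, div_self hne, h4]
    linear_combination mu p 0 (fun s => s ^ n) * h1
  | succ N ih =>
    have hN : (0:ℝ) ≤ N := by positivity
    have h1 := t_gK hp N t
    have h2 := B5_muS hp n N
    rw [Finset.sum_range_succ, mul_add, ih, Finset.sum_range_succ _ (N + 1)]
    rw [h2]
    have e1 : ((N + 1 : ℕ) : ℝ) + p - 2 = (N : ℝ) + p - 1 := by
      push_cast
      ring
    have e2 : 2 * ((N + 1 : ℕ) : ℝ) + p - 2 = 2 * (N : ℝ) + p := by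
      push_cast
      ring
    have e3 : ((N + 1 : ℕ) : ℝ) + 1 = (N : ℝ) + 2 := by
      push_cast
      ring
    have e4 : 2 * ((N + 1 : ℕ) : ℝ) + p = 2 * (N : ℝ) + p + 2 := by
      push_cast
      ring
    rw [e1, e2, e3, e4]
    linear_combination mu p (N + 1) (fun s => s ^ n) * h1

private theorem B5_all {p : ℕ} (hp : 3 ≤ p) (n : ℕ) (t : ℝ) :
    t ^ n = ∑ l ∈ Finset.range (n + 1), mu p l (fun s => s ^ n) * gK p l t := by
  have hp' : (3:ℝ) ≤ p := by exact_mod_cast hp
  have hpr : IsProbabilityMeasure (nu p) := nu_prob p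
  induction n with
  | zero =>
    have h1 : mu p 0 (fun s => s ^ 0) = 1 := by
      rw [mu]
      simp [gP_zero]
    rw [Finset.sum_range_one, h1, gK, gP_zero, nN]
    norm_num
  | succ n ih =>
    have h1 := B5_step hp n t n
    rw [← ih, mu_pow_zero hp (l := n + 1) (n := n) (by omega)] at h1
    have h2 := B5_muS hp n n
    rw [mu_pow_zero hp (l := n + 2) (n := n) (by omega)] at h2
    rw [Finset.sum_range_succ _ (n + 1), h2]
    have h3 : t ^ (n + 1) = t * t ^ n := by ring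
    rw [h3, h1]
    ring

private theorem B5_split (f : ℕ → ℝ) (N : ℕ) : ∑ l ∈ Finset.range (2 * N + 1), f l =
    ∑ h ∈ Finset.range (N + 1), f (2 * h) + ∑ h ∈ Finset.range N, f (2 * h + 1) := by
  induction N with
  | zero => simp
  | succ N ih =>
    have e : 2 * (N + 1) + 1 = 2 * N + 1 + 1 + 1 := by ring
    have e2 : 2 * (N + 1) = 2 * N + 1 + 1 := by ring
    rw [e, Finset.sum_range_succ, Finset.sum_range_succ, ih, Finset.sum_range_succ (fun h => f (2 * h)) (N + 1),
      Finset.sum_range_succ (fun h => f (2 * h + 1)) N, e2]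
    ring

theorem pow_expand {p : ℕ} (hp : 3 ≤ p) (n : ℕ) (t : ℝ) :
    t ^ (2 * n) = ∑ h ∈ Finset.range (n + 1), mu p (2 * h) (fun s => s ^ (2 * n)) * gK p (2 * h) t := by
  rw [B5_all hp (2 * n) t, B5_split]
  have h1 : ∑ h ∈ Finset.range n, mu p (2 * h + 1) (fun s => s ^ (2 * n)) * gK p (2 * h + 1) t = 0 := by
    refine Finset.sum_eq_zero fun h _ => ?_
    rw [mu_pow_odd hp, zero_mul]
  rw [h1, add_zero]

theorem poly_expand {p : ℕ} (hp : 3 ≤ p) {n : ℕ} {r : Polynomial ℝ} (hr : r.natDegree ≤ n) (t : ℝ) :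
    r.eval (t ^ 2) = ∑ h ∈ Finset.range (n + 1), mu p (2 * h) (fun s => r.eval (s ^ 2)) * gK p (2 * h) t := by
  have h0 : ∀ s : ℝ, r.eval (s ^ 2) = ∑ k ∈ Finset.range (n + 1), r.coeff k * s ^ (2 * k) := by
    intro s
    rw [Polynomial.eval_eq_sum_range' (Nat.lt_succ_of_le hr)]
    refine Finset.sum_congr rfl fun k _ => ?_
    rw [← pow_mul]
  have h1 : ∀ h : ℕ, mu p (2 * h) (fun s => r.eval (s ^ 2)) =
      ∑ k ∈ Finset.range (n + 1), r.coeff k * mu p (2 * h) (fun s => s ^ (2 * k)) := by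
    intro h
    have h2 : ∀ k : ℕ, r.coeff k * mu p (2 * h) (fun s => s ^ (2 * k)) =
        ∫ s, r.coeff k * (s ^ (2 * k) * gP p (2 * h) s) ∂(nu p) := by
      intro k
      rw [mu, integral_const_mul]
    rw [Finset.sum_congr rfl fun k _ => h2 k, ← integral_finsetSum, mu]
    · refine integral_congr_ae (Eventually.of_forall fun s => ?_)
      change r.eval (s ^ 2) * gP p (2 * h) s = _
      rw [h0 s, Finset.sum_mul]
      refine Finset.sum_congr rfl fun k _ => ?_
      ring
    · intro k _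
      exact (B5_int ((continuous_pow _).mul (continuous_gP p _))).const_mul _
  have h3 : ∀ k ∈ Finset.range (n + 1), t ^ (2 * k) =
      ∑ h ∈ Finset.range (n + 1), mu p (2 * h) (fun s => s ^ (2 * k)) * gK p (2 * h) t := by
    intro k hk
    rw [pow_expand hp k t]
    refine Finset.sum_subset (Finset.range_mono (by have := Finset.mem_range.1 hk; omega)) fun h _ hh => ?_
    have hh' : k + 1 ≤ h := by
      by_contra hc
      exact hh (Finset.mem_range.2 (by omega))
    rw [mu_pow_zero hp (l := 2 * h) (n := 2 * k) (by omega), zero_mul]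
  rw [h0 t, Finset.sum_congr rfl fun k hk => by rw [h3 k hk]]
  simp_rw [h1, Finset.mul_sum, Finset.sum_mul]
  rw [Finset.sum_comm]
  refine Finset.sum_congr rfl fun h _ => Finset.sum_congr rfl fun k _ => ?_
  ring

end Pool.Agent.HRJ
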