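import Pool.Agent.HRJ.B4

/-!
# HRJ-B5a: orthogonality, norms, monomials

PROOF PLAN.  `gP_int`: `fh` with `f = 1`, `E = ⊤` in `EuclideanSpace ℝ (Fin p)`, fixed `u`: the left side does not depend on `v`; `v = u` gives `mu p l 1` (`gP_one_val`), and a `v ⊥ u`
gives `mu p l 1 * gP p l 0` with `gP p l 0 ≠ 1` for `l ≥ 1` (`gP_zero_val`: `|rR p h| < 1` for `h ≥ 1`, `gP_zero_odd`); so it is `0`.
`mu_pow_zero`, `mu_pow_nonneg`: induction on `n` for all `l`, with `t * gP p l t = α gP p (l+1) t + β gP p (l-1) t`, `α, β ≥ 0` (`t_gP`; `l = 0`: `t = gP p 1 t`).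
`mu_pow_odd`: the same induction (or the parity).
`nu_orth`: for `l < m`: `∫ t^n gP p l t gP p m t = 0` for `n + l < m` by two-step induction on `l` (recurrence `gP_succ2`), base `mu_pow_zero`.
`nu_norm`: `(l+p-1) ∫ (gP (l+2))² = (2l+p) ∫ t gP(l+1) gP(l+2)` and `0 = ∫ gP (l+3) gP (l+1) → (2l+2+p) ∫ t gP(l+2) gP(l+1) = (l+2) ∫ (gP (l+1))²`; compare with `nN`; base cases
`l = 0, 1` (`∫ t² dν = 1/p`, from `0 = ∫ gP 2 * 1`).
`pow_expand`: for all `n`: `t^n = ∑_{l ≤ n} mu p l (·^n) gK p l t` by induction on `n` with `t_gK`, `t_gK_zero` and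
`mu p m (·^(n+1)) = (m+p-2)/(2m+p-2) mu p (m+1) (·^n) + m/(2m+p-2) mu p (m-1) (·^n)` (from `t_gP`); then `n` even, `mu_pow_odd`.
`poly_expand`: linear combination (`Polynomial.eval_eq_sum_range'`), `mu` is linear, `mu_pow_zero`.
-/

set_option autoImplicit false

namespace Pool.Agent.HRJ

open MeasureTheory ProbabilityTheory Set Filter Topology Metric
open Pool.Agent.HP89 Pool.Agent.FI75 Pool.Agent.PBL
open scoped RealInnerProductSpace ENNReal

theorem integrable_nu {p : ℕ} {f : ℝ → ℝ} (hf : Measurable f) {C : ℝ} (hC : ∀ t, |t| ≤ 1 → |f t| ≤ C) :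
    Integrable f (nu p) := by
  haveI := nu_prob p
  refine Integrable.of_bound hf.aestronglyMeasurable C ?_
  filter_upwards [nu_abs p] with t ht
  rw [Real.norm_eq_abs]
  exact hC t ht

private theorem int_pow_gP {p : ℕ} (hp : 3 ≤ p) (l n : ℕ) : Integrable (fun t => t ^ n * gP p l t) (nu p) := by
  refine integrable_nu ((measurable_id.pow_const n).mul (continuous_gP p l).measurable) (C := 1) fun t ht => ?_
  rw [abs_mul, abs_pow]
  exact mul_le_one₀ (pow_le_one₀ (abs_nonneg t) ht) (abs_nonneg _) (gP_abs_le hp l ht)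

private theorem rR_ne {p : ℕ} (hp : 3 ≤ p) (h : ℕ) : rR p (h + 1) ≠ 1 := by
  have hp' : (3 : ℝ) ≤ p := by exact_mod_cast hp
  have h1 : |rR p (h + 1)| < 1 := by
    unfold rR
    rw [abs_mul, abs_pow, abs_neg, abs_one, one_pow, one_mul, Finset.abs_prod]
    have h2 : ∀ i ∈ Finset.range (h + 1), |(2 * (i : ℝ) + 1) / (2 * (i : ℝ) + p - 1)| < 1 := by
      intro i _
      have hi : (0 : ℝ) ≤ i := Nat.cast_nonneg i
      rw [abs_of_nonneg (div_nonneg (by linarith) (by linarith)), div_lt_one (by linarith)]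
      linarith
    rw [Finset.prod_range_succ]
    have h3 : ∏ i ∈ Finset.range h, |(2 * (i : ℝ) + 1) / (2 * (i : ℝ) + p - 1)| ≤ 1 :=
      Finset.prod_le_one (fun _ _ => abs_nonneg _) fun i hi =>
        (h2 i (Finset.mem_range.2 (by have := Finset.mem_range.1 hi; omega))).le
    have h4 := h2 h (Finset.mem_range.2 (by omega))
    calc _ ≤ 1 * |(2 * (h : ℝ) + 1) / (2 * (h : ℝ) + p - 1)| :=
          mul_le_mul_of_nonneg_right h3 (abs_nonneg _)
      _ < 1 := by rw [one_mul]; exact h4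
  intro h5
  rw [h5, abs_one] at h1
  exact lt_irrefl _ h1

private theorem gP_zero_ne {p : ℕ} (hp : 3 ≤ p) (l : ℕ) : gP p (l + 1) 0 ≠ 1 := by
  rcases Nat.even_or_odd' (l + 1) with ⟨h, hh | hh⟩
  · obtain ⟨h', rfl⟩ : ∃ h', h = h' + 1 := ⟨h - 1, by omega⟩
    rw [hh, gP_zero_val hp]
    exact rR_ne hp h'
  · rw [hh, gP_zero_odd]
    exact zero_ne_one

theorem gP_int {p : ℕ} (hp : 3 ≤ p) (l : ℕ) : ∫ t, gP p (l + 1) t ∂(nu p) = 0 := by
  have hfr : Module.finrank ℝ (⊤ : Submodule ℝ (EuclideanSpace ℝ (Fin p))) = p := by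
    rw [finrank_top, finrank_euclideanSpace_fin]
  set u : EuclideanSpace ℝ (Fin p) := EuclideanSpace.single ⟨0, by omega⟩ 1 with hu
  set v : EuclideanSpace ℝ (Fin p) := EuclideanSpace.single ⟨1, by omega⟩ 1 with hv
  have hu1 : ‖u‖ = 1 := by rw [hu]; simp
  have hv1 : ‖v‖ = 1 := by rw [hv]; simp
  have huv : ⟪u, v⟫ = 0 := by
    rw [hu, hv, EuclideanSpace.inner_single_left]
    simp
  have huu : ⟪u, u⟫ = 1 := by
    rw [real_inner_self_eq_norm_sq, hu1, one_pow]
  have h1 := fh (V := EuclideanSpace ℝ (Fin p)) (E := ⊤) (by rw [hfr]; exact hp) (u := u) (v := u)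
    Submodule.mem_top hu1 Submodule.mem_top hu1 (f := fun _ => 1) measurable_const (C := 1)
    (fun t _ => by simp) (l + 1)
  have h2 := fh (V := EuclideanSpace ℝ (Fin p)) (E := ⊤) (by rw [hfr]; exact hp) (u := u) (v := v)
    Submodule.mem_top hu1 Submodule.mem_top hv1 (f := fun _ => 1) measurable_const (C := 1)
    (fun t _ => by simp) (l + 1)
  rw [h1, hfr, huu, huv, gP_one_val hp] at h2
  have h3 : mu p (l + 1) (fun _ => 1) * (gP p (l + 1) 0 - 1) = 0 := by linarith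
  have h4 : mu p (l + 1) (fun _ => 1) = 0 :=
    (mul_eq_zero.1 h3).resolve_right (sub_ne_zero.2 (gP_zero_ne hp l))
  rw [← h4, mu]
  simp only [one_mul]

private theorem rec0 {p : ℕ} (n : ℕ) : mu p 0 (fun t => t ^ (n + 1)) = mu p 1 (fun t => t ^ n) := by
  unfold mu
  refine integral_congr_ae (Eventually.of_forall fun t => ?_)
  show t ^ (n + 1) * gP p 0 t = t ^ n * gP p 1 t
  rw [gP_zero, gP_one, mul_one, pow_succ]

private theorem rec1 {p : ℕ} (hp : 3 ≤ p) (l n : ℕ) : mu p (l + 1) (fun t => t ^ (n + 1)) =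
    (((l : ℝ) + p - 1) * mu p (l + 2) (fun t => t ^ n) + ((l : ℝ) + 1) * mu p l (fun t => t ^ n)) /
      (2 * (l : ℝ) + p) := by
  unfold mu
  rw [← integral_const_mul, ← integral_const_mul, ← integral_add ((int_pow_gP hp _ _).const_mul _)
    ((int_pow_gP hp _ _).const_mul _), ← integral_div]
  refine integral_congr_ae (Eventually.of_forall fun t => ?_)
  show t ^ (n + 1) * gP p (l + 1) t = (((l : ℝ) + p - 1) * (t ^ n * gP p (l + 2) t) +
    ((l : ℝ) + 1) * (t ^ n * gP p l t)) / (2 * (l : ℝ) + p)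
  rw [pow_succ, mul_assoc, t_gP hp]
  ring

private theorem mu_one {p : ℕ} (l : ℕ) : mu p l (fun t => t ^ 0) = ∫ t, gP p l t ∂(nu p) := by
  unfold mu
  simp only [pow_zero, one_mul]

theorem mu_pow_nonneg {p : ℕ} (hp : 3 ≤ p) (l n : ℕ) : 0 ≤ mu p l (fun t => t ^ n) := by
  have hp' : (3 : ℝ) ≤ p := by exact_mod_cast hp
  induction n generalizing l with
  | zero =>
    rw [mu_one]
    cases l with
    | zero =>
      haveI := nu_prob p
      simp [gP_zero]
    | succ l => rw [gP_int hp]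
  | succ n ih =>
    cases l with
    | zero =>
      rw [rec0]
      exact ih 1
    | succ l =>
      have hl : (0 : ℝ) ≤ l := Nat.cast_nonneg l
      rw [rec1 hp]
      refine div_nonneg (add_nonneg (mul_nonneg (by linarith) (ih _)) (mul_nonneg (by linarith) (ih _)))
        (by linarith)

theorem mu_pow_zero {p : ℕ} (hp : 3 ≤ p) {l n : ℕ} (h : n < l) : mu p l (fun t => t ^ n) = 0 := by
  induction n generalizing l with
  | zero =>
    obtain ⟨l', rfl⟩ : ∃ l', l = l' + 1 := ⟨l - 1, by omega⟩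
    rw [mu_one, gP_int hp]
  | succ n ih =>
    obtain ⟨l', rfl⟩ : ∃ l', l = l' + 1 := ⟨l - 1, by omega⟩
    rw [rec1 hp, ih (by omega), ih (by omega)]
    simp

private theorem mu_par {p : ℕ} (hp : 3 ≤ p) (l n : ℕ) (h : Odd (n + l)) : mu p l (fun t => t ^ n) = 0 := by
  induction n generalizing l with
  | zero =>
    obtain ⟨l', rfl⟩ : ∃ l', l = l' + 1 := by
      refine ⟨l - 1, ?_⟩
      rcases h with ⟨k, hk⟩
      omega
    rw [mu_one, gP_int hp]
  | succ n ih =>
    cases l with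
    | zero =>
      rw [rec0]
      exact ih 1 h
    | succ l =>
      rw [rec1 hp, ih (l + 2) (by rcases h with ⟨k, hk⟩; exact ⟨k, by omega⟩),
        ih l (by rcases h with ⟨k, hk⟩; exact ⟨k - 1, by omega⟩)]
      simp

theorem mu_pow_odd {p : ℕ} (hp : 3 ≤ p) (l n : ℕ) : mu p (2 * l + 1) (fun t => t ^ (2 * n)) = 0 :=
  mu_par hp _ _ ⟨n + l, by omega⟩

end Pool.Agent.HRJ
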