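import Pool.Agent.HRJ.B5a

/-!
# HRJ-B5b: orthogonality, norms, monomials

PROOF PLAN.  `gP_int`: `fh` with `f = 1`, `E = ⊤` in `EuclideanSpace ℝ (Fin p)`, fixed `u`: the left side does not depend on `v`; `v = u` gives `mu p l 1` (`gP_one_val`), and a `v ⊥ u`
gives `mu p l 1 * gP p l 0` with `gP p l 0 ≠ 1` for `l ≥ 1` (`gP_zero_val`: `|rR p h| < 1` for `h ≥ 1`, `gP_zero_odd`); so it is `0`.
`mu_pow_zero`, `mu_pow_nonneg`: induction on `n` for all `l`, with `t * gP p l t = α gP p (l+1) t + β gP p (l-1) t`, `α, β ≥ 0` (`t_gP`; `l = 0`: `t = gP p 1 t`).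
`mu_pow_odd`: the same induction (or the parity).
`nu_orth`: for `l < m`: `∫ t^n gP p l t gP p m t = 0` for `n + l < m` by two-step induction on `l` (recurrence `gP_succ2`), base `mu_pow_zero`.
`nu_norm`: `(l+p-1) ∫ (gP (l+2))² = (2l+p) ∫ t gP(l+1) gP(l+2)` and `0 = ∫ gP (l+3) gP (l+1) → (2l+2+p) ∫ t gP(l+2) gP(l+1) = (l+2) ∫ (gP (l+1))²`; compare with `nN`; base cases
`l = 0, 1` (`∫ t² dν = 1/p`, from `0 = ∫ gP 2 * 1`).
`pow_expand`: for all `n`: `t^n = ∑_{l ≤ n} mu p l (·^n) gK p l t` by induction on `n` with `t_gK`, `t_gK_zero` and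
`mu p m (·^(n+1)) = (m+p-2)/(2m+p-2) mu p (m+1) (·^n) + m/(2m+p-2) mu p (m-1) (·^n)` (from `t_gP`); then `n` even, `mu_pow_odd`.
`poly_expand`: linear combination (`Polynomial.eval_eq_sum_range'`), `mu` is linear, `mu_pow_zero`.
-/

set_option autoImplicit false

namespace Pool.Agent.HRJ

open MeasureTheory ProbabilityTheory Set Filter Topology Metric
open Pool.Agent.HP89 Pool.Agent.FI75 Pool.Agent.PBL
open scoped RealInnerProductSpace ENNReal

private theorem B5b_int {p : ℕ} {f : ℝ → ℝ} (hf : Continuous f) : Integrable f (nu p) := by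
  obtain ⟨C, hC⟩ := isCompact_Icc.exists_bound_of_continuousOn (s := Icc (-1 : ℝ) 1) hf.continuousOn
  exact integrable_nu hf.measurable (C := C) fun t ht => hC t (abs_le.1 ht)

private theorem B5b_c (p l : ℕ) : Continuous fun t => gP p l t := continuous_gP p l

private theorem B5b_comb {p : ℕ} {f g h : ℝ → ℝ} (hg : Continuous g) (hh : Continuous h) (a b : ℝ)
    (hfg : ∀ t, f t = a * g t + b * h t) : ∫ t, f t ∂(nu p) = a * ∫ t, g t ∂(nu p) + b * ∫ t, h t ∂(nu p) := by
  have h1 : (fun t => f t) = fun t => a * g t + b * h t := funext hfg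
  rw [h1, integral_add ((B5b_int hg).const_mul a) ((B5b_int hh).const_mul b), integral_const_mul, integral_const_mul]

private theorem B5b_low {p : ℕ} (hp : 3 ≤ p) (l : ℕ) : ∀ n m : ℕ, n + l < m →
    ∫ t, t ^ n * gP p l t * gP p m t ∂(nu p) = 0 := by
  induction l using Nat.twoStepInduction with
  | zero =>
    intro n m h
    have h1 := mu_pow_zero hp (l := m) (n := n) (by omega)
    rw [mu] at h1
    rw [← h1]
    refine integral_congr_ae (Eventually.of_forall fun t => ?_)
    simp only [gP_zero, mul_one]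
  | one =>
    intro n m h
    have h1 := mu_pow_zero hp (l := m) (n := n + 1) (by omega)
    rw [mu] at h1
    rw [← h1]
    refine integral_congr_ae (Eventually.of_forall fun t => ?_)
    simp only [gP_one]
    ring
  | more l ih1 ih2 =>
    intro n m h
    have hp' : (3:ℝ) ≤ p := by exact_mod_cast hp
    have hl : (0:ℝ) ≤ l := by positivity
    have hne : (l : ℝ) + p - 1 ≠ 0 := by
      intro h0
      linarith
    rw [B5b_comb (g := fun t => t ^ (n + 1) * gP p (l + 1) t * gP p m t) (h := fun t => t ^ n * gP p l t * gP p m t)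
      (((continuous_pow _).mul (B5b_c p _)).mul (B5b_c p _)) (((continuous_pow _).mul (B5b_c p _)).mul (B5b_c p _))
      ((2 * (l : ℝ) + p) / ((l : ℝ) + p - 1)) (-((l : ℝ) + 1) / ((l : ℝ) + p - 1)), ih2 (n + 1) m (by omega),
      ih1 n m (by omega)]
    · ring
    · intro t
      rw [gP_succ2]
      field_simp
      ring

private theorem B5b_lt {p : ℕ} (hp : 3 ≤ p) {l m : ℕ} (h : l < m) : ∫ t, gP p l t * gP p m t ∂(nu p) = 0 := by
  have h1 := B5b_low hp l 0 m (by omega)
  simpa using h1

theorem nu_orth {p : ℕ} (hp : 3 ≤ p) {l m : ℕ} (h : l ≠ m) : ∫ t, gP p l t * gP p m t ∂(nu p) = 0 := by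
  rcases lt_or_gt_of_ne h with h | h
  · exact B5b_lt hp h
  · rw [← B5b_lt hp h]
    refine integral_congr_ae (Eventually.of_forall fun t => ?_)
    exact mul_comm _ _

theorem nu_norm {p : ℕ} (hp : 3 ≤ p) (l : ℕ) : ∫ t, gP p l t * gP p l t ∂(nu p) = 1 / nN p l := by
  have hp' : (3:ℝ) ≤ p := by exact_mod_cast hp
  have hpr : IsProbabilityMeasure (nu p) := nu_prob p
  have hone : ∫ t, gP p 0 t * gP p 0 t ∂(nu p) = 1 := by
    simp [gP_zero]
  have hstep : ∀ l : ℕ, ∫ t, gP p (l + 2) t * gP p (l + 2) t ∂(nu p)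
      = (2 * (l : ℝ) + p) * ((l : ℝ) + 2) / (((l : ℝ) + p - 1) * (2 * (l : ℝ) + 2 + p))
        * ∫ t, gP p (l + 1) t * gP p (l + 1) t ∂(nu p) := by
    intro l
    have hl : (0:ℝ) ≤ l := by positivity
    have hne : (l : ℝ) + p - 1 ≠ 0 := by
      intro h0
      linarith
    have hne2 : 2 * (l : ℝ) + 2 + p ≠ 0 := by positivity
    have h1 := B5b_comb (p := p) (f := fun t => gP p (l + 2) t * gP p (l + 2) t)
      (g := fun t => t * gP p (l + 2) t * gP p (l + 1) t) (h := fun t => gP p l t * gP p (l + 2) t)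
      ((continuous_id.mul (B5b_c p _)).mul (B5b_c p _)) ((B5b_c p _).mul (B5b_c p _))
      ((2 * (l : ℝ) + p) / ((l : ℝ) + p - 1)) (-((l : ℝ) + 1) / ((l : ℝ) + p - 1)) (fun t => by
        have h2 := gP_succ2 p l t
        have h3 : ((l : ℝ) + p - 1) * gP p (l + 2) t = (2 * (l : ℝ) + p) * t * gP p (l + 1) t - ((l : ℝ) + 1) * gP p l t := by
          rw [h2]
          field_simp
        have h4 : gP p (l + 2) t * gP p (l + 2) t
            = (((l : ℝ) + p - 1) * gP p (l + 2) t) * gP p (l + 2) t / ((l : ℝ) + p - 1) := by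
          field_simp
        rw [h4, h3]
        field_simp
        ring)
    have h5 := B5b_comb (p := p) (f := fun t => t * gP p (l + 2) t * gP p (l + 1) t)
      (g := fun t => gP p (l + 1) t * gP p (l + 3) t) (h := fun t => gP p (l + 1) t * gP p (l + 1) t)
      ((B5b_c p _).mul (B5b_c p _)) ((B5b_c p _).mul (B5b_c p _))
      (((l : ℝ) + p) / (2 * (l : ℝ) + 2 + p)) (((l : ℝ) + 2) / (2 * (l : ℝ) + 2 + p)) (fun t => by
        have h2 := t_gP hp (l + 1) t
        push_cast at h2
        rw [h2]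
        have h6 : 2 * ((l : ℝ) + 1) + p = 2 * (l : ℝ) + 2 + p := by ring
        rw [h6]
        field_simp
        ring)
    rw [B5b_lt hp (l := l + 1) (m := l + 3) (by omega)] at h5
    rw [B5b_lt hp (l := l) (m := l + 2) (by omega), h5] at h1
    rw [h1]
    field_simp
    ring
  have key : ∀ l : ℕ, ∫ t, gP p (l + 1) t * gP p (l + 1) t ∂(nu p) = 1 / nN p (l + 1) := by
    intro l
    induction l with
    | zero =>
      have h1 := B5b_comb (p := p) (f := fun t => gP p 0 t * gP p 2 t)
        (g := fun t => gP p 1 t * gP p 1 t) (h := fun t => gP p 0 t * gP p 0 t)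
        ((B5b_c p _).mul (B5b_c p _)) ((B5b_c p _).mul (B5b_c p _)) ((p : ℝ) / (p - 1)) (-1 / (p - 1)) (fun t => by
          have h2 := gP_succ2 p 0 t
          have hne : (p : ℝ) - 1 ≠ 0 := by
            intro h0
            linarith
          have h3 : gP p 2 t = ((p : ℝ) * t * t - 1) / (p - 1) := by
            rw [h2, gP_zero]
            change ((2 * ((0 : ℕ) : ℝ) + p) * t * gP p 1 t - (((0 : ℕ) : ℝ) + 1) * 1) / (((0 : ℕ) : ℝ) + p - 1) = _
            rw [gP_one]
            norm_num
          rw [h3, gP_zero, gP_one]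
          field_simp
          ring)
      rw [B5b_lt hp (by omega), hone] at h1
      have hne : (p : ℝ) - 1 ≠ 0 := by
        intro h0
        linarith
      have hne1 : (p : ℝ) ≠ 0 := by
        intro h0
        linarith
      have hne2 : (p : ℝ) - 2 ≠ 0 := by
        intro h0
        linarith
      have h4 : nN p (0 + 1) = p := by
        simp only [nN, Nat.cast_zero, mul_zero, zero_add, one_mul]
        field_simp
      rw [h4]
      change ∫ t, gP p 1 t * gP p 1 t ∂(nu p) = 1 / (p : ℝ)
      generalize ∫ t, gP p 1 t * gP p 1 t ∂(nu p) = J at h1 ⊢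
      field_simp at h1
      rw [eq_div_iff hne1]
      linarith
    | succ l ih =>
      rw [hstep l, ih]
      have hl : (0:ℝ) ≤ l := by positivity
      have hN := nN_pos hp (l + 1)
      have h4 : nN p (l + 1 + 1) = nN p (l + 1) * (((l : ℝ) + p - 1) * (2 * (l : ℝ) + 2 + p))
          / (((l : ℝ) + 2) * (2 * (l : ℝ) + p)) := by
        rw [nN]
        push_cast
        congr 1
        · ring
        · ring
      rw [h4]
      have hne : (l : ℝ) + p - 1 ≠ 0 := by
        intro h0
        linarith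
      have hN' := hN.ne'
      field_simp
  rcases l with _ | l
  · rw [hone, nN]
    norm_num
  · exact key l

theorem mu_gK {p : ℕ} (hp : 3 ≤ p) (l m : ℕ) : mu p l (gK p m) = if l = m then 1 else 0 := by
  have h1 : mu p l (gK p m) = nN p m * ∫ t, gP p m t * gP p l t ∂(nu p) := by
    rw [mu, ← integral_const_mul]
    refine integral_congr_ae (Eventually.of_forall fun t => ?_)
    simp only [gK]
    ring
  rw [h1]
  split_ifs with h
  · subst h
    rw [nu_norm hp]
    have := (nN_pos hp l).ne'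
    field_simp
  · rw [nu_orth hp (Ne.symm h), mul_zero]

end Pool.Agent.HRJ
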