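import Pool.Agent.HRJ.A2
import Pool.Agent.HRJ.B1d

/-!
# HRJ-B6: the multipliers of the cosine transform

PROOF PLAN.  `J a k := ∫ |t|^(2a+1) (1-t²)^k dν_p = m_p a! ((p-1)/2)_k / ((p+1)/2)_(a+k)`: with `x ~ N(0,1)`, `y ~ stdGaussian (ℝ^(p-1))`, `r² = x² + ‖y‖²`, `t = x/r`:
`|x|^(2a+1) ‖y‖^(2k) = r^(2a+1+2k) |t|^(2a+1) (1-t²)^k`, `r` and `t` are independent: `(x, y)` is a standard Gaussian vector of a space of dimension `p`
(`map_split_sub` of HP89.A3a for `V = EuclideanSpace ℝ (Fin p)`, `F = ⊤`, `e` a unit vector, as in `ms_disint`, and `rad_real`/`radial` of PBL.C0); so it is better to work in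
`W = EuclideanSpace ℝ (Fin p)`: `∫ |t|^(2a+1) (1-t²)^k dν_p = ∫ |⟪w,e⟫|^(2a+1) ‖ort e w‖^(2k) d(ms ⊤)` (`ms_inner`), times `E ‖g‖^(2a+1+2k)` it is
`E |⟪g,e⟫|^(2a+1) ‖ort e g‖^(2k) = E |x|^(2a+1) E ‖y‖^(2k)` (`map_split`).
Norm moments: `E ‖g‖^(s+2) = (s + n) E ‖g‖^s` in dimension `n` (`HP89.A4`: `integral_gaussian`, polar coordinates, `Irad_succ`), `E |x|^(2a+1) = 2^a a! √(2/π)`, `E ‖g‖ = mG p`.
`mu_abs`: `gP_explicit` for `l = 2h`: `mu p (2h) |.| = ∑_k (-1)^k C(2h,2k) kq (p-1) k J (h-k) k`, `kq (p-1) k ((p-1)/2)_k = (1/2)_k`, hence it is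
`m_p / ((p+1)/2)_h * ∑_k (-1)^k C(2h,2k) (1/2)_k (h-k)! = m_p / ((p+1)/2)_h * (2h)!/4^h * ∑_k (-1)^k/(k! (1/2)_(h-k))`, and
`∑_{k≤h} (-1)^k/(k! (1/2)_(h-k)) = (3/2-h)_h/(h! (1/2)_h)` (the partial sums of `(c)_k/k!`, `c = 1/2-h`, are `(c+1)_n/n!`).
Check: `h = 1`: `mu = m_p/(p+1)`, `h = 2`: `- m_p/((p+1)(p+3))`.
-/

set_option autoImplicit false

namespace Pool.Agent.HRJ

open MeasureTheory ProbabilityTheory Set Filter Topology Metric
open Pool.Agent.HP89 Pool.Agent.FI75 Pool.Agent.PBL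
open scoped RealInnerProductSpace ENNReal

section hom
variable {V : Type*} [NormedAddCommGroup V] [InnerProductSpace ℝ V] [FiniteDimensional ℝ V]
  [MeasurableSpace V] [BorelSpace V]

private theorem hom_moment [Nontrivial V] {F : V → ℝ} {m : ℕ} (hm : 1 ≤ m)
    (hF : ∀ c : ℝ, 0 ≤ c → ∀ x, F (c • x) = c ^ m * F x) :
    (∫ g, F g ∂(stdGaussian V)) * Irad (Module.finrank ℝ V - 1) =
      (∫ g, F g / ‖g‖ ^ m ∂(stdGaussian V)) * Irad (Module.finrank ℝ V - 1 + m) := by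
  obtain ⟨G, hGdef⟩ : ∃ G : V → ℝ, ∀ x, G x = F x / ‖x‖ ^ m * ‖x‖ := ⟨_, fun _ => rfl⟩
  have hF0 : F 0 = 0 := by
    have := hF 0 le_rfl 0
    rw [zero_smul, zero_pow (by omega), zero_mul] at this
    exact this
  have hG : ∀ c : ℝ, 0 ≤ c → ∀ x, G (c • x) = c * G x := by
    intro c hc x
    rw [hGdef, hGdef, hF c hc, norm_smul, Real.norm_eq_abs, abs_of_nonneg hc, mul_pow]
    rcases eq_or_lt_of_le hc with h | h
    · rw [← h]; simp
    · have : c ^ m ≠ 0 := by positivity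
      rw [mul_div_mul_left _ _ this]
      ring
  have h1 : ∫ g, F g ∂(stdGaussian V) =
      cG V * ((∫ θ, G θ.1 ∂((volume : Measure V).toSphere)) * Irad (Module.finrank ℝ V - 1 + m)) := by
    rw [HP89.integral_gaussian]
    congr 1
    have e : ∀ x : V, Real.exp (-(1 / 2) * ‖x‖ ^ 2) * F x =
        (fun r : ℝ => Real.exp (-(1 / 2) * r ^ 2) * r ^ m / r) ‖x‖ * G x := by
      intro x
      simp only
      rw [hGdef]
      rcases eq_or_ne x 0 with h | h
      · rw [h, hF0]; simp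
      · have : ‖x‖ ≠ 0 := norm_ne_zero_iff.2 h
        field_simp
    rw [integral_congr_ae (Eventually.of_forall e),
      polar_hom hG (fun r : ℝ => Real.exp (-(1 / 2) * r ^ 2) * r ^ m / r)]
    congr 1
    unfold Irad
    refine setIntegral_congr_fun measurableSet_Ioi (fun x hx => ?_)
    have hx' : x ≠ 0 := ne_of_gt hx
    rw [pow_add]
    field_simp
  have h2 : ∫ g, F g / ‖g‖ ^ m ∂(stdGaussian V) =
      cG V * ((∫ θ, G θ.1 ∂((volume : Measure V).toSphere)) * Irad (Module.finrank ℝ V - 1)) := by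
    rw [HP89.integral_gaussian]
    congr 1
    have e : ∀ x : V, Real.exp (-(1 / 2) * ‖x‖ ^ 2) * (F x / ‖x‖ ^ m) =
        (fun r : ℝ => Real.exp (-(1 / 2) * r ^ 2) / r) ‖x‖ * G x := by
      intro x
      simp only
      rw [hGdef]
      rcases eq_or_ne x 0 with h | h
      · rw [h, hF0]; simp
      · have : ‖x‖ ≠ 0 := norm_ne_zero_iff.2 h
        field_simp
    rw [integral_congr_ae (Eventually.of_forall e),
      polar_hom hG (fun r : ℝ => Real.exp (-(1 / 2) * r ^ 2) / r)]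
    congr 1
    unfold Irad
    refine setIntegral_congr_fun measurableSet_Ioi (fun x hx => ?_)
    have hx' : x ≠ 0 := ne_of_gt hx
    field_simp
  rw [h1, h2]
  ring

private theorem norm_moment [Nontrivial V] (m : ℕ) :
    (∫ g : V, ‖g‖ ^ m ∂(stdGaussian V)) * Irad (Module.finrank ℝ V - 1) =
      Irad (Module.finrank ℝ V - 1 + m) := by
  rcases Nat.eq_zero_or_pos m with h | h
  · subst h; simp
  · have h1 := hom_moment (V := V) (F := fun g => ‖g‖ ^ m) h (by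
      intro c hc x
      rw [norm_smul, Real.norm_eq_abs, abs_of_nonneg hc, mul_pow])
    rw [h1]
    have h3 : ∫ g : V, ‖g‖ ^ m / ‖g‖ ^ m ∂(stdGaussian V) = 1 := by
      have hne : ∀ᵐ g : V ∂(stdGaussian V), ‖g‖ ^ m / ‖g‖ ^ m = 1 := by
        have h0 : (stdGaussian V) {(0 : V)} = 0 := by
          rw [stdGaussian_density, withDensity_apply _ (measurableSet_singleton _)]
          simp
        have : ∀ᵐ g : V ∂(stdGaussian V), g ≠ 0 := by
          rw [ae_iff]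
          simpa using h0
        filter_upwards [this] with g hg
        exact div_self (pow_ne_zero _ (norm_ne_zero_iff.2 hg))
      rw [integral_congr_ae hne]
      simp
    rw [h3, one_mul]

end hom

private theorem abs_moment (m : ℕ) :
    ∫ x, |x| ^ m ∂(gaussianReal 0 1) = √(2 / Real.pi) * Irad m := by
  rw [integral_gaussianReal_eq_integral_smul one_ne_zero]
  have h1 : ∀ x : ℝ, gaussianPDFReal 0 1 x • |x| ^ m =
      (√(2 * Real.pi))⁻¹ * (|x| ^ m * Real.exp (-(1 / 2) * |x| ^ 2)) := by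
    intro x
    rw [gaussianPDFReal, smul_eq_mul, sq_abs]
    simp only [NNReal.coe_one, mul_one, sub_zero]
    rw [show -(1 / 2) * x ^ 2 = -x ^ 2 / 2 by ring]
    ring
  simp_rw [h1]
  rw [integral_const_mul, integral_comp_abs (f := fun x => x ^ m * Real.exp (-(1 / 2) * x ^ 2))]
  change _ * (2 * Irad m) = _
  rw [Real.sqrt_div (by norm_num), Real.sqrt_mul (by norm_num)]
  have h6 : √2 * √2 = 2 := Real.mul_self_sqrt (by norm_num)
  have h7 : √2 ≠ 0 := by positivity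
  have h8 : √Real.pi ≠ 0 := by positivity
  field_simp
  rw [show √2 ^ 2 = 2 by rw [sq, h6]]

private theorem Irad_one : Irad 1 = 1 := by
  rw [Irad_eq]
  norm_num

private theorem Irad_odd (a : ℕ) : Irad (2 * a + 1) = 2 ^ a * (a.factorial : ℝ) := by
  induction a with
  | zero => simp [Irad_one]
  | succ a ih =>
    rw [show 2 * (a + 1) + 1 = (2 * a + 1) + 2 by ring, Irad_succ, ih, Nat.factorial_succ]
    push_cast
    ring

private theorem Irad_add (q k : ℕ) :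
    Irad (q + 2 * k) = Irad q * (2 ^ k * ∏ i ∈ Finset.range k, (((q : ℝ) + 1) / 2 + i)) := by
  induction k with
  | zero => simp
  | succ k ih =>
    rw [show q + 2 * (k + 1) = (q + 2 * k) + 2 by ring, Irad_succ, ih, Finset.prod_range_succ]
    push_cast
    ring

private theorem gauss_prod (n : ℕ) :
    stdGaussian (WithLp 2 (ℝ × EuclideanSpace ℝ (Fin n))) =
      ((gaussianReal 0 1).prod (stdGaussian (EuclideanSpace ℝ (Fin n)))).map (WithLp.toLp 2) := by
  have i2 : IsProbabilityMeasure (((gaussianReal 0 1).prod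
      (stdGaussian (EuclideanSpace ℝ (Fin n)))).map (WithLp.toLp 2)) :=
    Measure.isProbabilityMeasure_map (by fun_prop)
  apply Measure.ext_of_charFun
  funext t
  rw [charFun_stdGaussian, charFun_prod, charFun_stdGaussian, charFun_gaussianReal, ← Complex.exp_add]
  congr 1
  rw [← Complex.ofReal_pow, WithLp.prod_norm_sq_eq_of_L2]
  simp
  ring

private theorem fr_prod (n : ℕ) :
    Module.finrank ℝ (WithLp 2 (ℝ × EuclideanSpace ℝ (Fin (n + 1)))) = n + 2 := by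
  rw [(WithLp.linearEquiv 2 ℝ (ℝ × EuclideanSpace ℝ (Fin (n + 1)))).finrank_eq, Module.finrank_prod]
  simp
  ring

private theorem mom_two (n k : ℕ) : ∫ y : EuclideanSpace ℝ (Fin (n + 1)), ‖y‖ ^ (2 * k) ∂(stdGaussian _) =
    2 ^ k * ∏ i ∈ Finset.range k, (((n : ℝ) + 1) / 2 + i) := by
  have h := norm_moment (V := EuclideanSpace ℝ (Fin (n + 1))) (2 * k)
  rw [finrank_euclideanSpace, Fintype.card_fin, Nat.add_sub_cancel, Irad_add] at h
  have hp := Irad_pos n
  have : (∫ g : EuclideanSpace ℝ (Fin (n + 1)), ‖g‖ ^ (2 * k) ∂(stdGaussian _)) * Irad n =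
      (2 ^ k * ∏ i ∈ Finset.range k, (((n : ℝ) + 1) / 2 + i)) * Irad n := by rw [h]; ring
  exact mul_right_cancel₀ hp.ne' this

theorem nu_beta {p : ℕ} (hp : 3 ≤ p) (a k : ℕ) : ∫ t, |t| ^ (2 * a + 1) * (1 - t ^ 2) ^ k ∂(nu p) =
    mm p * ((a.factorial : ℝ) * ∏ i ∈ Finset.range k, (((p : ℝ) - 1) / 2 + i)) /
      ∏ i ∈ Finset.range (a + k), (((p : ℝ) + 1) / 2 + i) := by
  obtain ⟨n, rfl⟩ : ∃ n, p = n + 2 := ⟨p - 2, by omega⟩
  have hn : 1 ≤ n := by omega
  obtain ⟨m, hm⟩ : ∃ m, m = 2 * a + 1 + 2 * k := ⟨_, rfl⟩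
  -- push forward
  have e1 : ∫ t, |t| ^ (2 * a + 1) * (1 - t ^ 2) ^ k ∂(nu (n + 2)) =
      ∫ q : ℝ × EuclideanSpace ℝ (Fin (n + 1)), (|q.1| ^ (2 * a + 1) * ‖q.2‖ ^ (2 * k)) / √(q.1 ^ 2 + ‖q.2‖ ^ 2) ^ m
        ∂((gaussianReal 0 1).prod (stdGaussian (EuclideanSpace ℝ (Fin (n + 1))))) := by
    change ∫ t, |t| ^ (2 * a + 1) * (1 - t ^ 2) ^ k ∂(((gaussianReal 0 1).prod
      (stdGaussian (EuclideanSpace ℝ (Fin (n + 1))))).map
        (fun q => q.1 / √(q.1 ^ 2 + ‖q.2‖ ^ 2))) = _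
    rw [integral_map (by fun_prop) (by fun_prop)]
    refine integral_congr_ae (Eventually.of_forall fun q => ?_)
    simp only
    have hs : 0 ≤ q.1 ^ 2 + ‖q.2‖ ^ 2 := by positivity
    rcases eq_or_lt_of_le hs with h | h
    · have h1 : q.1 = 0 := by nlinarith [sq_nonneg q.1, sq_nonneg ‖q.2‖]
      rw [h1]
      simp
    · have hr : 0 < √(q.1 ^ 2 + ‖q.2‖ ^ 2) := Real.sqrt_pos.2 h
      have hr2 : √(q.1 ^ 2 + ‖q.2‖ ^ 2) ^ 2 = q.1 ^ 2 + ‖q.2‖ ^ 2 := Real.sq_sqrt hs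
      have h2 : 1 - (q.1 / √(q.1 ^ 2 + ‖q.2‖ ^ 2)) ^ 2 = ‖q.2‖ ^ 2 / √(q.1 ^ 2 + ‖q.2‖ ^ 2) ^ 2 := by
        rw [div_pow, hr2]
        field_simp
        ring
      rw [h2, abs_div, abs_of_pos hr, div_pow, div_pow, ← pow_mul, ← pow_mul, div_mul_div_comm,
        ← pow_add, hm]
  have hfr := fr_prod n
  have : Nontrivial (WithLp 2 (ℝ × EuclideanSpace ℝ (Fin (n + 1)))) := by
    refine Module.nontrivial_of_finrank_pos (R := ℝ) ?_
    rw [hfr]
    omega
  have h := hom_moment (V := WithLp 2 (ℝ × EuclideanSpace ℝ (Fin (n + 1))))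
    (F := fun w => |w.fst| ^ (2 * a + 1) * ‖w.snd‖ ^ (2 * k)) (m := m) (by omega) (by
      intro c hc x
      simp only [WithLp.smul_fst, WithLp.smul_snd, smul_eq_mul, abs_mul, norm_smul, Real.norm_eq_abs,
        abs_of_nonneg hc]
      rw [hm]
      ring)
  have hmf : Measurable (fun w : WithLp 2 (ℝ × EuclideanSpace ℝ (Fin (n + 1))) => w.fst) := by
    exact measurable_fst.comp (MeasurableEquiv.toLp 2 (ℝ × EuclideanSpace ℝ (Fin (n + 1)))).symm.measurable
  have hms : Measurable (fun w : WithLp 2 (ℝ × EuclideanSpace ℝ (Fin (n + 1))) => w.snd) := by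
    exact measurable_snd.comp (MeasurableEquiv.toLp 2 (ℝ × EuclideanSpace ℝ (Fin (n + 1)))).symm.measurable
  have hmea : AEStronglyMeasurable (fun g : WithLp 2 (ℝ × EuclideanSpace ℝ (Fin (n + 1))) =>
      |g.fst| ^ (2 * a + 1) * ‖g.snd‖ ^ (2 * k) / ‖g‖ ^ m)
      (Measure.map (WithLp.toLp 2) ((gaussianReal 0 1).prod (stdGaussian (EuclideanSpace ℝ (Fin (n + 1)))))) := by
    refine Measurable.aestronglyMeasurable ?_
    exact (((measurable_abs.comp hmf).pow_const _).mul (hms.norm.pow_const _)).div (measurable_norm.pow_const _)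
  rw [hfr, gauss_prod, integral_map (by fun_prop) (by fun_prop),
    integral_map (by fun_prop) hmea] at h
  simp only [WithLp.prod_norm_eq_of_L2, Real.norm_eq_abs, sq_abs] at h
  have e2 : ∫ q : ℝ × EuclideanSpace ℝ (Fin (n + 1)), |q.1| ^ (2 * a + 1) * ‖q.2‖ ^ (2 * k)
        ∂((gaussianReal 0 1).prod (stdGaussian (EuclideanSpace ℝ (Fin (n + 1))))) =
      (√(2 / Real.pi) * Irad (2 * a + 1)) * (2 ^ k * ∏ i ∈ Finset.range k, (((n : ℝ) + 1) / 2 + i)) := by
    rw [← abs_moment, ← mom_two, ← integral_prod_mul]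
  have e3 : n + 2 - 1 + m = (n + 2) + 2 * (a + k) := by omega
  rw [show n + 2 - 1 = n + 1 by omega, show n + 1 + m = (n + 2) + 2 * (a + k) by omega, Irad_add] at h
  change (∫ q : ℝ × EuclideanSpace ℝ (Fin (n + 1)), |q.1| ^ (2 * a + 1) * ‖q.2‖ ^ (2 * k)
        ∂((gaussianReal 0 1).prod (stdGaussian (EuclideanSpace ℝ (Fin (n + 1)))))) * _ =
        (∫ q : ℝ × EuclideanSpace ℝ (Fin (n + 1)), (|q.1| ^ (2 * a + 1) * ‖q.2‖ ^ (2 * k)) / √(q.1 ^ 2 + ‖q.2‖ ^ 2) ^ m
        ∂((gaussianReal 0 1).prod (stdGaussian (EuclideanSpace ℝ (Fin (n + 1)))))) * _ at h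
  rw [← e1, e2, Irad_odd] at h
  have hG := mG_mul_Irad (n + 1)
  have hG0 : 0 < mG (n + 1 + 1) := mG_pos (by omega)
  have hI1 := Irad_pos (n + 1)
  have hI2 := Irad_pos (n + 2)
  have hP : 0 < ∏ i ∈ Finset.range (a + k), ((((n + 2 : ℕ) : ℝ) + 1) / 2 + i) :=
    Finset.prod_pos fun i _ => by positivity
  rw [show n + 1 + 1 = n + 2 by ring] at hG hG0
  rw [← hG] at h
  have e4 : ∏ i ∈ Finset.range k, ((((n + 2 : ℕ) : ℝ) - 1) / 2 + i) =
      ∏ i ∈ Finset.range k, (((n : ℝ) + 1) / 2 + i) := by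
    refine Finset.prod_congr rfl fun i _ => ?_
    push_cast
    ring
  rw [e4, mm, eq_div_iff hP.ne']
  have h2 : (2 : ℝ) ^ (a + k) ≠ 0 := by positivity
  rw [pow_add] at h h2
  generalize ∏ i ∈ Finset.range (a + k), ((((n + 2 : ℕ) : ℝ) + 1) / 2 + i) = Q at *
  generalize ∏ i ∈ Finset.range k, (((n : ℝ) + 1) / 2 + i) = R at *
  generalize ∫ t, |t| ^ (2 * a + 1) * (1 - t ^ 2) ^ k ∂(nu (n + 2)) = J at *
  rw [div_mul_eq_mul_div, eq_div_iff hG0.ne']
  have h4 : (2 ^ a * 2 ^ k * Irad (n + 1)) ≠ 0 := by positivity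
  apply mul_left_cancel₀ h4
  linear_combination -h

/-! ### the sum -/

private theorem kq_prod {p : ℕ} (hp : 3 ≤ p) (k : ℕ) :
    kq (p - 1) k * ∏ i ∈ Finset.range k, (((p : ℝ) - 1) / 2 + i) =
      ∏ i ∈ Finset.range k, ((1 : ℝ) / 2 + i) := by
  have hp' : (3 : ℝ) ≤ p := by exact_mod_cast hp
  unfold kq
  rw [← Finset.prod_mul_distrib]
  refine Finset.prod_congr rfl fun i _ => ?_
  rw [Nat.cast_sub (by omega)]
  have : (0 : ℝ) ≤ i := i.cast_nonneg
  have h1 : (2 * (i : ℝ) + (p - (1 : ℕ))) ≠ 0 := by push_cast; linarith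
  field_simp
  push_cast
  ring

private noncomputable def b6t (h k : ℕ) : ℝ :=
  (-1) ^ k * ((2 * h).choose (2 * k) : ℝ) * (∏ i ∈ Finset.range k, ((1 : ℝ) / 2 + i)) * ((h - k).factorial : ℝ)

private theorem b6s_succ {h k : ℕ} (hk : k < h) :
    b6t h (k + 1) * ((k : ℝ) + 1) = b6t h k * (1 / 2 - h + k) := by
  obtain ⟨r, rfl⟩ : ∃ r, h = k + 1 + r := ⟨h - (k + 1), by omega⟩
  unfold b6t
  rw [Finset.prod_range_succ, show k + 1 + r - (k + 1) = r by omega, show k + 1 + r - k = r + 1 by omega,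
    Nat.factorial_succ, pow_succ]
  have hc1 : ((2 * (k + 1 + r)).choose (2 * k + 1) : ℝ) * ((2 * k : ℝ) + 1) =
      ((2 * (k + 1 + r)).choose (2 * k) : ℝ) * (2 * (r : ℝ) + 2) := by
    have := Nat.choose_succ_right_eq (2 * (k + 1 + r)) (2 * k)
    rw [show 2 * (k + 1 + r) - 2 * k = 2 * r + 2 by omega] at this
    exact_mod_cast this
  have hc2 : ((2 * (k + 1 + r)).choose (2 * (k + 1)) : ℝ) * ((2 * k : ℝ) + 2) =
      ((2 * (k + 1 + r)).choose (2 * k + 1) : ℝ) * (2 * (r : ℝ) + 1) := by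
    have := Nat.choose_succ_right_eq (2 * (k + 1 + r)) (2 * k + 1)
    rw [show 2 * (k + 1 + r) - (2 * k + 1) = 2 * r + 1 by omega, show 2 * k + 1 + 1 = 2 * (k + 1) by ring] at this
    have h2 : (((2 * (k + 1 + r)).choose (2 * (k + 1)) * (2 * (k + 1)) : ℕ) : ℝ) =
        (((2 * (k + 1 + r)).choose (2 * k + 1) * (2 * r + 1) : ℕ) : ℝ) := by rw [this]
    push_cast at h2
    linear_combination h2
  push_cast
  have hk1 : (2 * (k : ℝ) + 1) ≠ 0 := by positivity
  set A := ((2 * (k + 1 + r)).choose (2 * (k + 1)) : ℝ)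
  set B := ((2 * (k + 1 + r)).choose (2 * k + 1) : ℝ)
  set C := ((2 * (k + 1 + r)).choose (2 * k) : ℝ)
  set P := ∏ i ∈ Finset.range k, ((1 : ℝ) / 2 + i)
  have h3 : A * ((k : ℝ) + 1) * (1 / 2 + k) = C * ((r : ℝ) + 1) * ((r : ℝ) + 1 / 2) := by
    have h4 : (2 * (k : ℝ) + 1) * (A * ((2 * k : ℝ) + 2)) = (2 * r + 1) * (B * (2 * k + 1)) := by
      rw [hc2]; ring
    rw [hc1] at h4
    linear_combination (1 / 4) * h4
  linear_combination (-(-1) ^ k * P * (r.factorial : ℝ)) * h3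

private theorem b6t_eq (h k : ℕ) (hk : k ≤ h) :
    b6t h k * (k.factorial : ℝ) = (h.factorial : ℝ) * ∏ i ∈ Finset.range k, ((1 : ℝ) / 2 - h + i) := by
  induction k with
  | zero => simp [b6t]
  | succ k ih =>
    rw [Finset.prod_range_succ, ← mul_assoc, ← ih (by omega), Nat.factorial_succ]
    push_cast
    have := b6s_succ (h := h) (k := k) (by omega)
    linear_combination (k.factorial : ℝ) * this

private theorem b6s_sum (h n : ℕ) (hn : n ≤ h) :
    (∑ k ∈ Finset.range (n + 1), b6t h k) * (n.factorial : ℝ) =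
      (h.factorial : ℝ) * ∏ i ∈ Finset.range n, ((3 : ℝ) / 2 - h + i) := by
  induction n with
  | zero => simp [b6t]
  | succ n ih =>
    have h1 := ih (by omega)
    have h2 := b6t_eq h (n + 1) hn
    rw [Finset.prod_range_succ'] at h2
    have h3 : ∏ i ∈ Finset.range n, ((1 : ℝ) / 2 - h + ((i + 1 : ℕ) : ℝ)) =
        ∏ i ∈ Finset.range n, ((3 : ℝ) / 2 - h + i) := by
      refine Finset.prod_congr rfl fun i _ => ?_
      push_cast
      ring
    rw [h3] at h2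
    rw [Finset.sum_range_succ, Finset.prod_range_succ, add_mul, h2, Nat.factorial_succ]
    push_cast
    linear_combination ((n : ℝ) + 1) * h1

private theorem b6s_final (h : ℕ) :
    ∑ k ∈ Finset.range (h + 1), b6t h k = (-1) ^ h * ∏ i ∈ Finset.range h, ((i : ℝ) - 1 / 2) := by
  have h1 := b6s_sum h h le_rfl
  have h2 : (h.factorial : ℝ) ≠ 0 := by exact_mod_cast h.factorial_ne_zero
  have h3 : ∏ i ∈ Finset.range h, ((3 : ℝ) / 2 - h + i) = (-1) ^ h * ∏ i ∈ Finset.range h, ((i : ℝ) - 1 / 2) := by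
    rw [← Finset.prod_range_reflect, ← Finset.card_range h, ← Finset.prod_const, Finset.card_range,
      ← Finset.prod_mul_distrib]
    refine Finset.prod_congr rfl fun i hi => ?_
    have := Finset.mem_range.1 hi
    have e : ((h - 1 - i : ℕ) : ℝ) = (h : ℝ) - 1 - i := by
      rw [Nat.cast_sub (by omega), Nat.cast_sub (by omega)]
      simp
    rw [e]
    ring
  rw [← h3]
  apply mul_left_cancel₀ h2
  linear_combination h1

theorem mu_abs {p : ℕ} (hp : 3 ≤ p) (h : ℕ) : mu p (2 * h) (fun t => |t|) = mm p * tT p h := by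
  have hpr := nu_prob p
  have hint : ∀ a k : ℕ, Integrable (fun t : ℝ => |t| ^ (2 * a + 1) * (1 - t ^ 2) ^ k) (nu p) := by
    intro a k
    refine Integrable.mono' (integrable_const (1 : ℝ)) (by fun_prop) ?_
    filter_upwards [nu_abs p] with t ht
    have h1 : |t| ^ (2 * a + 1) ≤ 1 := pow_le_one₀ (abs_nonneg _) ht
    have h2 : t ^ 2 ≤ 1 := by rw [← sq_abs]; exact pow_le_one₀ (abs_nonneg _) ht
    have h3 : (1 - t ^ 2) ^ k ≤ 1 := pow_le_one₀ (by linarith) (by nlinarith [sq_nonneg t])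
    have h4 : 0 ≤ (1 - t ^ 2) ^ k := pow_nonneg (by linarith) _
    rw [Real.norm_eq_abs, abs_of_nonneg (by positivity)]
    exact mul_le_one₀ h1 h4 h3
  have e1 : ∀ t : ℝ, |t| * gP p (2 * h) t = ∑ k ∈ Finset.range (h + 1),
      ((-1) ^ k * ((2 * h).choose (2 * k) : ℝ) * kq (p - 1) k) * (|t| ^ (2 * (h - k) + 1) * (1 - t ^ 2) ^ k) := by
    intro t
    rw [gP_explicit hp, Finset.mul_sum]
    have hsub : Finset.range (h + 1) ⊆ Finset.range (2 * h + 1) := Finset.range_mono (by omega)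
    rw [← Finset.sum_subset hsub]
    · refine Finset.sum_congr rfl fun k hk => ?_
      have hk' := Finset.mem_range.1 hk
      have e2 : t ^ (2 * h - 2 * k) = |t| ^ (2 * (h - k)) := by
        rw [show 2 * h - 2 * k = 2 * (h - k) by omega, pow_mul, pow_mul, sq_abs]
      rw [e2, pow_succ]
      ring
    · intro k _ hk
      have hk' : h < k := by
        by_contra hc
        exact hk (Finset.mem_range.2 (by omega))
      rw [Nat.choose_eq_zero_of_lt (by omega)]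
      simp
  have hp' : (3 : ℝ) ≤ p := by exact_mod_cast hp
  unfold mu
  simp_rw [e1]
  rw [integral_finsetSum _ fun k _ => (hint _ _).const_mul _]
  have e3 : ∀ k ∈ Finset.range (h + 1),
      ∫ t, ((-1) ^ k * ((2 * h).choose (2 * k) : ℝ) * kq (p - 1) k) * (|t| ^ (2 * (h - k) + 1) * (1 - t ^ 2) ^ k) ∂(nu p) =
      mm p / (∏ i ∈ Finset.range h, (((p : ℝ) + 1) / 2 + i)) * b6t h k := by
    intro k hk
    have hk' := Finset.mem_range.1 hk
    rw [integral_const_mul, nu_beta hp, show h - k + k = h by omega]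
    unfold b6t
    rw [← kq_prod hp k]
    ring
  rw [Finset.sum_congr rfl e3, ← Finset.mul_sum, b6s_final]
  unfold tT
  have e4 : ∏ i ∈ Finset.range h, (2 * (i : ℝ) - 1) / (2 * (i : ℝ) + p + 1) =
      (∏ i ∈ Finset.range h, ((i : ℝ) - 1 / 2)) / ∏ i ∈ Finset.range h, (((p : ℝ) + 1) / 2 + i) := by
    rw [← Finset.prod_div_distrib]
    refine Finset.prod_congr rfl fun i _ => ?_
    have : (0 : ℝ) ≤ i := i.cast_nonneg
    rw [div_eq_div_iff (by positivity) (by positivity)]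
    ring
  rw [e4]
  ring

end Pool.Agent.HRJ
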