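import Pool.Agent.HRJ.C1a
import Pool.Agent.HRJ.B6

/-!
# HRJ-C1: the components `ff ρ l` of a measure: cosine transform and the kernel `√(1 - t²)`

`c1_fh`: Fubini and the Funk-Hecke formula for the components.  `mu_sqrt`: `√(1 - ⟪w,v⟫²) = ‖P_F w‖`, `F = sb ⊤ v`, is a mean of
`|⟪w, η⟫|` over the unit sphere of `F`.
-/

set_option autoImplicit false

namespace Pool.Agent.HRJ

open MeasureTheory ProbabilityTheory Set Filter Topology Metric
open Pool.Agent.HP89 Pool.Agent.FI75 Pool.Agent.PBL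
open scoped RealInnerProductSpace ENNReal

variable {V : Type*} [NormedAddCommGroup V] [InnerProductSpace ℝ V] [FiniteDimensional ℝ V]
  [MeasurableSpace V] [BorelSpace V]

variable {ρ : Measure V}

private theorem c1_ae (hρ : US ρ) (hV : 3 ≤ Module.finrank ℝ V) :
    ∀ᵐ q ∂((ms (⊤ : Submodule ℝ V)).prod ρ), ‖q.1‖ = 1 ∧ ‖q.2‖ = 1 := by
  have := hρ.prob
  have := ms_prob (⊤ : Submodule ℝ V)
  have h1 : ∀ᵐ u ∂(ms (⊤ : Submodule ℝ V)), ‖u‖ = 1 := by
    filter_upwards [ms_unit (⊤ : Submodule ℝ V) (by rw [finrank_top]; omega)] with u hu using hu.1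
  have h2 : ∀ᵐ q ∂((ms (⊤ : Submodule ℝ V)).prod ρ), ‖q.1‖ = 1 :=
    Measure.quasiMeasurePreserving_fst.ae h1
  have h3 : ∀ᵐ q ∂((ms (⊤ : Submodule ℝ V)).prod ρ), ‖q.2‖ = 1 :=
    Measure.quasiMeasurePreserving_snd.ae hρ.unit
  filter_upwards [h2, h3] with q h4 h5 using ⟨h4, h5⟩

private theorem c1_nrm {u : V} (hu : ‖u‖ = 1) : nrm u = u := by
  rw [nrm, hu, inv_one, one_smul]

private theorem c1_inner {u y : V} (hu : ‖u‖ = 1) (hy : ‖y‖ = 1) : |⟪u, y⟫| ≤ 1 := by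
  have := abs_real_inner_le_norm u y
  rwa [hu, hy, mul_one] at this

private theorem c1_gK {p : ℕ} (hp : 3 ≤ p) (l : ℕ) {t : ℝ} (ht : |t| ≤ 1) : |gK p l t| ≤ nN p l := by
  rw [gK, abs_mul, abs_of_pos (nN_pos hp l)]
  have := mul_le_mul_of_nonneg_left (gP_abs_le hp l ht) (nN_pos hp l).le
  rwa [mul_one] at this

private theorem c1_cgK (p l : ℕ) : Continuous (gK p l) := by
  unfold gK
  exact continuous_const.mul (continuous_gP p l)

/-- Funk-Hecke for the components -/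
private theorem c1_fh (hρ : US ρ) (hV : 3 ≤ Module.finrank ℝ V) {z : V} (hz : ‖z‖ = 1) {f : ℝ → ℝ}
    (hf : Measurable f) {C : ℝ} (hC : ∀ t, |t| ≤ 1 → |f t| ≤ C) (l : ℕ) :
    ∫ u, f ⟪u, z⟫ * ff ρ l u ∂(ms (⊤ : Submodule ℝ V)) =
      mu (Module.finrank ℝ V) l f * ff ρ l z := by
  have := hρ.prob
  have := ms_prob (⊤ : Submodule ℝ V)
  set d := Module.finrank ℝ V with hd
  have hdt : Module.finrank ℝ (⊤ : Submodule ℝ V) = d := finrank_top ℝ V
  have hC0 : 0 ≤ C := (abs_nonneg _).trans (hC 0 (by simp))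
  have hint : Integrable (Function.uncurry fun (u y : V) => f ⟪u, z⟫ * gK d l ⟪nrm u, y⟫)
      ((ms (⊤ : Submodule ℝ V)).prod ρ) := by
    refine Integrable.of_bound (C := C * nN d l) ?_ ?_
    · apply Measurable.aestronglyMeasurable
      apply Measurable.mul
      · exact hf.comp (measurable_fst.inner_const)
      · exact (c1_cgK d l).measurable.comp ((measurable_nrm.comp measurable_fst).inner measurable_snd)
    · filter_upwards [c1_ae hρ hV] with q hq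
      rw [Function.uncurry, norm_mul, Real.norm_eq_abs, Real.norm_eq_abs]
      refine mul_le_mul (hC _ (c1_inner hq.1 hz)) ?_ (abs_nonneg _) hC0
      rw [c1_nrm hq.1]
      exact c1_gK hV l (c1_inner hq.1 hq.2)
  have h1 : ∫ u, f ⟪u, z⟫ * ff ρ l u ∂(ms (⊤ : Submodule ℝ V)) =
      ∫ u, ∫ y, f ⟪u, z⟫ * gK d l ⟪nrm u, y⟫ ∂ρ ∂(ms (⊤ : Submodule ℝ V)) := by
    congr 1
    funext u
    rw [integral_const_mul]
    rfl
  rw [h1, integral_integral_swap hint]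
  have h2 : ∀ᵐ y ∂ρ, ∫ u, f ⟪u, z⟫ * gK d l ⟪nrm u, y⟫ ∂(ms (⊤ : Submodule ℝ V)) =
      mu d l f * gK d l ⟪nrm z, y⟫ := by
    filter_upwards [hρ.unit] with y hy
    have h3 : ∫ u, f ⟪u, z⟫ * gK d l ⟪nrm u, y⟫ ∂(ms (⊤ : Submodule ℝ V)) =
        ∫ u, nN d l * (f ⟪u, z⟫ * gP d l ⟪y, u⟫) ∂(ms (⊤ : Submodule ℝ V)) := by
      apply integral_congr_ae
      filter_upwards [ms_unit (⊤ : Submodule ℝ V) (by rw [finrank_top]; omega)] with u hu
      rw [c1_nrm hu.1, gK, real_inner_comm u y]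
      ring
    have h4 := fh (E := (⊤ : Submodule ℝ V)) (by rw [hdt]; exact hV) (u := y) (v := z) trivial hy trivial hz hf hC l
    rw [hdt] at h4
    rw [h3, integral_const_mul, h4, c1_nrm hz, gK, real_inner_comm y z]
    ring
  rw [integral_congr_ae h2, integral_const_mul]
  rfl

private theorem c1_ort {z u : V} (hz : ‖z‖ = 1) (hu : ‖u‖ = 1) : ‖ort z u‖ = √(1 - ⟪u, z⟫ ^ 2) := by
  rw [← Real.sqrt_sq (norm_nonneg (ort z u)), norm_ort_sq, hz, hu, div_one, one_pow, real_inner_comm]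

/-- the multiplier of `√(1 - t²)` -/
private theorem c1_mu {p : ℕ} (hp : 3 ≤ p) (h : ℕ) :
    mu p (2 * h) (fun t => √(1 - t ^ 2)) = cc p 1 * (rR p h * tT p h) := by
  let W := EuclideanSpace ℝ (Fin p)
  have hW : Module.finrank ℝ W = p := finrank_euclideanSpace_fin
  have hWt : Module.finrank ℝ (⊤ : Submodule ℝ W) = p := by rw [finrank_top]; exact hW
  have : Nontrivial W := Module.nontrivial_of_finrank_pos (R := ℝ) (by rw [hW]; omega)
  obtain ⟨v, hv⟩ : ∃ v : W, ‖v‖ = 1 := exists_norm_eq W zero_le_one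
  have hvt : v ∈ (⊤ : Submodule ℝ W) := trivial
  have := ms_prob (⊤ : Submodule ℝ W)
  have := ms_prob (sb (⊤ : Submodule ℝ W) v)
  have hsb : Module.finrank ℝ (sb (⊤ : Submodule ℝ W) v) = p - 1 := by
    have := finrank_sb' hvt hv
    omega
  have hcm : Measurable (fun t : ℝ => √(1 - t ^ 2)) := by fun_prop
  have hcb : ∀ t : ℝ, |t| ≤ 1 → |√(1 - t ^ 2)| ≤ 1 := by
    intro t _
    rw [abs_of_nonneg (Real.sqrt_nonneg _)]
    exact Real.sqrt_le_one.2 (by nlinarith [sq_nonneg t])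
  have h1 := fh (E := (⊤ : Submodule ℝ W)) (by rw [hWt]; exact hp) hvt hv hvt hv hcm hcb (2 * h)
  rw [hWt, real_inner_self_eq_norm_sq, hv, one_pow, gP_one_val hp, mul_one] at h1
  rw [← h1]
  have hm := mm_pos (p := p - 1) (by omega)
  have hmt : ∀ᵐ w ∂(ms (⊤ : Submodule ℝ W)), ‖w‖ = 1 := by
    filter_upwards [ms_unit (⊤ : Submodule ℝ W) (by rw [hWt]; omega)] with w hw using hw.1
  have hms : ∀ᵐ η ∂(ms (sb (⊤ : Submodule ℝ W) v)), ‖η‖ = 1 ∧ ⟪η, v⟫ = 0 := by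
    filter_upwards [ms_sb hvt hv (by rw [hWt]; omega)] with η hη using ⟨hη.1, hη.2.2⟩
  -- `√(1 - ⟪w, v⟫²)` is a mean of `|⟪w, η⟫|`
  have h2 : ∀ᵐ w ∂(ms (⊤ : Submodule ℝ W)), √(1 - ⟪w, v⟫ ^ 2) * gP p (2 * h) ⟪v, w⟫ =
      (mm (p - 1))⁻¹ * ∫ η, |⟪w, η⟫| * gP p (2 * h) ⟪v, w⟫ ∂(ms (sb (⊤ : Submodule ℝ W) v)) := by
    filter_upwards [hmt] with w hw
    rw [integral_mul_const, ms_abs _ (by rw [hsb]; omega) w, hsb, sb_proj, Submodule.starProjection_top]
    rw [ContinuousLinearMap.id_apply, ContinuousLinearMap.id_apply, c1_ort hv hw]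
    field_simp
  rw [integral_congr_ae h2, integral_const_mul]
  have hint : Integrable (Function.uncurry fun (w η : W) => |⟪w, η⟫| * gP p (2 * h) ⟪v, w⟫)
      ((ms (⊤ : Submodule ℝ W)).prod (ms (sb (⊤ : Submodule ℝ W) v))) := by
    refine Integrable.of_bound (C := 1) ?_ ?_
    · apply Measurable.aestronglyMeasurable
      have hm1 : Measurable (fun q : W × W => |⟪q.1, q.2⟫|) := (continuous_fst.inner continuous_snd).abs.measurable
      have hm2 : Measurable (fun q : W × W => gP p (2 * h) ⟪v, q.1⟫) :=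
        ((continuous_gP p (2 * h)).comp (continuous_const.inner continuous_fst)).measurable
      exact hm1.mul hm2
    · have h5 : ∀ᵐ q ∂((ms (⊤ : Submodule ℝ W)).prod (ms (sb (⊤ : Submodule ℝ W) v))), ‖q.1‖ = 1 :=
        Measure.quasiMeasurePreserving_fst.ae hmt
      have h6 : ∀ᵐ q ∂((ms (⊤ : Submodule ℝ W)).prod (ms (sb (⊤ : Submodule ℝ W) v))),
          ‖q.2‖ = 1 ∧ ⟪q.2, v⟫ = 0 := Measure.quasiMeasurePreserving_snd.ae hms
      filter_upwards [h5, h6] with q h7 h8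
      rw [Function.uncurry, norm_mul, Real.norm_eq_abs, Real.norm_eq_abs, abs_abs]
      exact mul_le_one₀ (c1_inner h7 h8.1) (abs_nonneg _) (gP_abs_le hp _ (c1_inner hv h7))
  rw [integral_integral_swap hint]
  have h3 : ∀ᵐ η ∂(ms (sb (⊤ : Submodule ℝ W) v)),
      ∫ w, |⟪w, η⟫| * gP p (2 * h) ⟪v, w⟫ ∂(ms (⊤ : Submodule ℝ W)) = mm p * tT p h * rR p h := by
    filter_upwards [hms] with η hη
    have h4 := fh (E := (⊤ : Submodule ℝ W)) (by rw [hWt]; exact hp) (u := v) (v := η) trivial hv trivial hη.1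
      (f := fun t => |t|) measurable_norm (C := 1) (fun t ht => by rwa [abs_abs]) (2 * h)
    rw [hWt, mu_abs hp, real_inner_comm, hη.2, gP_zero_val hp] at h4
    exact h4
  rw [integral_congr_ae h3, integral_const, probReal_univ, one_smul]
  have h9 : (mm (p - 1))⁻¹ * mm p = cc p 1 := by
    have h10 : mG (p - 1) ≠ 0 := (mG_pos (by omega)).ne'
    have h11 : mG p ≠ 0 := (mG_pos (by omega)).ne'
    have h12 : √(2 / Real.pi) ≠ 0 := (Real.sqrt_pos.2 (by positivity)).ne'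
    rw [mm, mm, cc]
    field_simp
  rw [← h9]
  ring

theorem ff_abs (hρ : US ρ) (hV : 3 ≤ Module.finrank ℝ V) {z : V} (hz : ‖z‖ = 1) (h : ℕ) :
    ∫ u, |⟪u, z⟫| * ff ρ (2 * h) u ∂(ms (⊤ : Submodule ℝ V)) =
      mm (Module.finrank ℝ V) * tT (Module.finrank ℝ V) h * ff ρ (2 * h) z := by
  have h1 := c1_fh hρ hV hz (f := fun t => |t|) measurable_norm (C := 1) (fun t ht => by rwa [abs_abs]) (2 * h)
  rw [mu_abs hV] at h1
  exact h1

theorem ff_ort (hρ : US ρ) (hV : 3 ≤ Module.finrank ℝ V) {z : V} (hz : ‖z‖ = 1) (h : ℕ) :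
    ∫ u, ‖ort z u‖ * ff ρ (2 * h) u ∂(ms (⊤ : Submodule ℝ V)) =
      cc (Module.finrank ℝ V) 1 * (rR (Module.finrank ℝ V) h * tT (Module.finrank ℝ V) h) * ff ρ (2 * h) z := by
  have hcm : Measurable (fun t : ℝ => √(1 - t ^ 2)) := by fun_prop
  have hcb : ∀ t : ℝ, |t| ≤ 1 → |√(1 - t ^ 2)| ≤ 1 := by
    intro t _
    rw [abs_of_nonneg (Real.sqrt_nonneg _)]
    exact Real.sqrt_le_one.2 (by nlinarith [sq_nonneg t])
  have h1 := c1_fh hρ hV hz hcm hcb (2 * h)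
  rw [c1_mu hV] at h1
  rw [← h1]
  apply integral_congr_ae
  filter_upwards [ms_unit (⊤ : Submodule ℝ V) (by rw [finrank_top]; omega)] with u hu
  rw [c1_ort hz hu.1]

/-- the multiplier of `√(1 - t²)` -/
theorem mu_sqrt {p : ℕ} (hp : 3 ≤ p) (h : ℕ) :
    mu p (2 * h) (fun t => √(1 - t ^ 2)) = cc p 1 * (rR p h * tT p h) :=
  c1_mu hp h

end Pool.Agent.HRJ
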