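import Pool.Agent.HRJ.A4
import Pool.Agent.HRJ.B5

/-!
# HRJ-C1a: the components `ff ρ l` of a measure on the unit sphere

`d = finrank V ≥ 3`.  `|ff ρ l u| ≤ nN d l`; the reproducing property `ff_rep` (Fubini and the Funk-Hecke formula `fh` with
`f = gK d l`); `ff_sq`: integrate `ff_rep` (in `z`) with respect to `ρ` (Fubini); `ff_zero`: if `xx ρ l = 0` then `ff ρ l = 0`
a.e. w.r.t. `ms ⊤` by `ff_sq`, insert this in `ff_rep`.
-/

set_option autoImplicit false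

namespace Pool.Agent.HRJ

open MeasureTheory ProbabilityTheory Set Filter Topology Metric
open Pool.Agent.HP89 Pool.Agent.FI75 Pool.Agent.PBL
open scoped RealInnerProductSpace ENNReal

variable {V : Type*} [NormedAddCommGroup V] [InnerProductSpace ℝ V] [FiniteDimensional ℝ V]
  [MeasurableSpace V] [BorelSpace V]

variable {ρ : Measure V}

private theorem c1_cont_gK (p l : ℕ) : Continuous (gK p l) := by
  unfold gK
  exact continuous_const.mul (continuous_gP p l)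

private theorem c1_gK_le {p : ℕ} (hp : 3 ≤ p) (l : ℕ) {t : ℝ} (ht : |t| ≤ 1) :
    |gK p l t| ≤ nN p l := by
  unfold gK
  rw [abs_mul, abs_of_pos (nN_pos hp l)]
  calc nN p l * |gP p l t| ≤ nN p l * 1 :=
        mul_le_mul_of_nonneg_left (gP_abs_le hp l ht) (nN_pos hp l).le
    _ = nN p l := mul_one _

omit [FiniteDimensional ℝ V] [MeasurableSpace V] [BorelSpace V] in
private theorem c1_nrm {u : V} (hu : ‖u‖ = 1) : nrm u = u := by
  unfold nrm
  rw [hu, inv_one, one_smul]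

omit [FiniteDimensional ℝ V] [MeasurableSpace V] [BorelSpace V] in
private theorem c1_inner_le {u y : V} (hu : ‖u‖ ≤ 1) (hy : ‖y‖ ≤ 1) : |⟪u, y⟫| ≤ 1 := by
  calc |⟪u, y⟫| ≤ ‖u‖ * ‖y‖ := abs_real_inner_le_norm u y
    _ ≤ 1 * 1 := mul_le_mul hu hy (norm_nonneg _) zero_le_one
    _ = 1 := one_mul 1

private theorem c1_meas2 (l : ℕ) :
    Measurable (fun q : V × V => gK (Module.finrank ℝ V) l ⟪nrm q.1, q.2⟫) := by
  have h1 : Measurable fun q : V × V => (⟪nrm q.1, q.2⟫ : ℝ) :=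
    (measurable_nrm.comp measurable_fst).inner measurable_snd
  exact (c1_cont_gK _ _).measurable.comp h1

theorem ff_meas (hρ : US ρ) (l : ℕ) : Measurable (ff ρ l) := by
  have := hρ.prob
  have h := (c1_meas2 (V := V) l).stronglyMeasurable.integral_prod_right' (ν := ρ)
  exact h.measurable

theorem ff_bdd (hρ : US ρ) (hV : 3 ≤ Module.finrank ℝ V) (l : ℕ) (u : V) :
    |ff ρ l u| ≤ nN (Module.finrank ℝ V) l := by
  have := hρ.prob
  have h : ∀ᵐ y ∂ρ, ‖gK (Module.finrank ℝ V) l ⟪nrm u, y⟫‖ ≤ nN (Module.finrank ℝ V) l := by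
    filter_upwards [hρ.unit] with y hy
    rw [Real.norm_eq_abs]
    exact c1_gK_le hV l (c1_inner_le (norm_nrm_le u) hy.le)
  have h2 := norm_integral_le_of_norm_le_const h
  rw [Real.norm_eq_abs] at h2
  simpa [ff] using h2

private theorem c1_unit (hV : 3 ≤ Module.finrank ℝ V) :
    ∀ᵐ u ∂(ms (⊤ : Submodule ℝ V)), ‖u‖ = 1 := by
  have h := ms_unit (⊤ : Submodule ℝ V) (by rw [finrank_top]; omega)
  filter_upwards [h] with u hu using hu.1

/-- `∫ gK ⟪z, u⟫ gK ⟪u, y⟫ du = gK ⟪z, y⟫` -/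
private theorem c1_repr (hV : 3 ≤ Module.finrank ℝ V) {z y : V} (hz : ‖z‖ = 1) (hy : ‖y‖ = 1) (l : ℕ) :
    ∫ u, gK (Module.finrank ℝ V) l ⟪z, u⟫ * gK (Module.finrank ℝ V) l ⟪nrm u, y⟫
      ∂(ms (⊤ : Submodule ℝ V)) = gK (Module.finrank ℝ V) l ⟪z, y⟫ := by
  have h := fh (E := (⊤ : Submodule ℝ V)) (by rw [finrank_top]; exact hV) (u := z) (v := y)
    Submodule.mem_top hz Submodule.mem_top hy (f := gK (Module.finrank ℝ V) l)
    (c1_cont_gK _ _).measurable (C := nN (Module.finrank ℝ V) l) (fun t ht => c1_gK_le hV l ht) l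
  rw [finrank_top, mu_gK hV, if_pos rfl, one_mul] at h
  have h2 : ∫ u, gK (Module.finrank ℝ V) l ⟪z, u⟫ * gK (Module.finrank ℝ V) l ⟪nrm u, y⟫
      ∂(ms (⊤ : Submodule ℝ V)) = ∫ u, nN (Module.finrank ℝ V) l *
        (gK (Module.finrank ℝ V) l ⟪u, y⟫ * gP (Module.finrank ℝ V) l ⟪z, u⟫)
          ∂(ms (⊤ : Submodule ℝ V)) := by
    apply integral_congr_ae
    filter_upwards [c1_unit hV] with u hu
    rw [c1_nrm hu]
    conv_lhs => rw [gK]
    ring
  rw [h2, integral_const_mul, h]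
  rfl

private theorem c1_int2 (hρ : US ρ) (hV : 3 ≤ Module.finrank ℝ V) {z : V} (hz : ‖z‖ = 1) (l : ℕ) :
    Integrable (fun q : V × V => gK (Module.finrank ℝ V) l ⟪z, q.1⟫ *
      gK (Module.finrank ℝ V) l ⟪nrm q.1, q.2⟫) ((ms (⊤ : Submodule ℝ V)).prod ρ) := by
  have := hρ.prob
  have := ms_prob (⊤ : Submodule ℝ V)
  have hm : Measurable (fun q : V × V => gK (Module.finrank ℝ V) l ⟪z, q.1⟫ *
      gK (Module.finrank ℝ V) l ⟪nrm q.1, q.2⟫) := by
    refine Measurable.mul ?_ (c1_meas2 l)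
    exact (c1_cont_gK _ _).measurable.comp (measurable_const.inner measurable_fst)
  refine Integrable.of_bound hm.aestronglyMeasurable
    (nN (Module.finrank ℝ V) l * nN (Module.finrank ℝ V) l) ?_
  have h1 : ∀ᵐ q ∂((ms (⊤ : Submodule ℝ V)).prod ρ), ‖q.1‖ = 1 :=
    Measure.quasiMeasurePreserving_fst.ae (c1_unit hV)
  have h2 : ∀ᵐ q ∂((ms (⊤ : Submodule ℝ V)).prod ρ), ‖q.2‖ = 1 :=
    Measure.quasiMeasurePreserving_snd.ae hρ.unit
  filter_upwards [h1, h2] with q hq1 hq2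
  rw [norm_mul, Real.norm_eq_abs, Real.norm_eq_abs]
  exact mul_le_mul (c1_gK_le hV l (c1_inner_le hz.le hq1.le))
    (c1_gK_le hV l (c1_inner_le (norm_nrm_le _) hq2.le)) (abs_nonneg _) (nN_pos hV l).le

theorem ff_rep (hρ : US ρ) (hV : 3 ≤ Module.finrank ℝ V) {z : V} (hz : ‖z‖ = 1) (l : ℕ) :
    ∫ u, gK (Module.finrank ℝ V) l ⟪z, u⟫ * ff ρ l u ∂(ms (⊤ : Submodule ℝ V)) = ff ρ l z := by
  have := hρ.prob
  have := ms_prob (⊤ : Submodule ℝ V)
  have h1 : ∫ u, gK (Module.finrank ℝ V) l ⟪z, u⟫ * ff ρ l u ∂(ms (⊤ : Submodule ℝ V)) =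
      ∫ u, ∫ y, gK (Module.finrank ℝ V) l ⟪z, u⟫ * gK (Module.finrank ℝ V) l ⟪nrm u, y⟫ ∂ρ
        ∂(ms (⊤ : Submodule ℝ V)) := by
    congr 1
    funext u
    rw [ff, integral_const_mul]
  rw [h1, integral_integral_swap (c1_int2 hρ hV hz l), ff]
  apply integral_congr_ae
  filter_upwards [hρ.unit] with y hy
  rw [c1_repr hV hz hy, c1_nrm hz]

theorem ff_sq (hρ : US ρ) (hV : 3 ≤ Module.finrank ℝ V) (l : ℕ) :
    ∫ u, ff ρ l u * ff ρ l u ∂(ms (⊤ : Submodule ℝ V)) = xx ρ l := by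
  have := hρ.prob
  have := ms_prob (⊤ : Submodule ℝ V)
  have h1 : xx ρ l = ∫ z, ∫ u, gK (Module.finrank ℝ V) l ⟪z, u⟫ * ff ρ l u
      ∂(ms (⊤ : Submodule ℝ V)) ∂ρ := by
    unfold xx
    apply integral_congr_ae
    filter_upwards [hρ.unit] with z hz
    rw [ff_rep hρ hV hz l]
  have hint : Integrable (Function.uncurry fun z u : V =>
      gK (Module.finrank ℝ V) l ⟪z, u⟫ * ff ρ l u) (ρ.prod (ms (⊤ : Submodule ℝ V))) := by
    have hm : Measurable (Function.uncurry fun z u : V =>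
        gK (Module.finrank ℝ V) l ⟪z, u⟫ * ff ρ l u) := by
      refine Measurable.mul ?_ ((ff_meas hρ l).comp measurable_snd)
      exact (c1_cont_gK _ _).measurable.comp (measurable_fst.inner measurable_snd)
    refine Integrable.of_bound hm.aestronglyMeasurable
      (nN (Module.finrank ℝ V) l * nN (Module.finrank ℝ V) l) ?_
    have h1 : ∀ᵐ q ∂(ρ.prod (ms (⊤ : Submodule ℝ V))), ‖q.1‖ = 1 :=
      Measure.quasiMeasurePreserving_fst.ae hρ.unit
    have h2 : ∀ᵐ q ∂(ρ.prod (ms (⊤ : Submodule ℝ V))), ‖q.2‖ = 1 :=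
      Measure.quasiMeasurePreserving_snd.ae (c1_unit hV)
    filter_upwards [h1, h2] with q hq1 hq2
    show ‖gK (Module.finrank ℝ V) l ⟪q.1, q.2⟫ * ff ρ l q.2‖ ≤ _
    rw [norm_mul, Real.norm_eq_abs, Real.norm_eq_abs]
    exact mul_le_mul (c1_gK_le hV l (c1_inner_le hq1.le hq2.le)) (ff_bdd hρ hV l _)
      (abs_nonneg _) (nN_pos hV l).le
  rw [h1, integral_integral_swap hint]
  apply integral_congr_ae
  filter_upwards [c1_unit hV] with u hu
  show ff ρ l u * ff ρ l u = ∫ z, gK (Module.finrank ℝ V) l ⟪z, u⟫ * ff ρ l u ∂ρ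
  rw [integral_mul_const]
  congr 1
  conv_lhs => rw [ff, c1_nrm hu]
  congr 1
  funext y
  rw [real_inner_comm]

theorem xx_nonneg (hρ : US ρ) (hV : 3 ≤ Module.finrank ℝ V) (l : ℕ) : 0 ≤ xx ρ l := by
  rw [← ff_sq hρ hV l]
  exact integral_nonneg fun u => mul_self_nonneg _

theorem ff_zero (hρ : US ρ) (hV : 3 ≤ Module.finrank ℝ V) {l : ℕ} (h : xx ρ l = 0) {z : V} (hz : ‖z‖ = 1) :
    ff ρ l z = 0 := by
  have := hρ.prob
  have := ms_prob (⊤ : Submodule ℝ V)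
  have hint : Integrable (fun u => ff ρ l u * ff ρ l u) (ms (⊤ : Submodule ℝ V)) := by
    refine Integrable.of_bound ((ff_meas hρ l).mul (ff_meas hρ l)).aestronglyMeasurable
      (nN (Module.finrank ℝ V) l * nN (Module.finrank ℝ V) l) (Eventually.of_forall fun u => ?_)
    rw [norm_mul, Real.norm_eq_abs]
    exact mul_le_mul (ff_bdd hρ hV l _) (ff_bdd hρ hV l _) (abs_nonneg _) (nN_pos hV l).le
  have h1 : ∫ u, ff ρ l u * ff ρ l u ∂(ms (⊤ : Submodule ℝ V)) = 0 := by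
    rw [ff_sq hρ hV l, h]
  rw [integral_eq_zero_iff_of_nonneg (fun u => mul_self_nonneg _) hint] at h1
  rw [← ff_rep hρ hV hz l]
  apply integral_eq_zero_of_ae
  filter_upwards [h1] with u hu
  have hu2 : ff ρ l u * ff ρ l u = 0 := hu
  show gK (Module.finrank ℝ V) l ⟪z, u⟫ * ff ρ l u = 0
  rw [mul_self_eq_zero.1 hu2, mul_zero]

theorem ff_zero_deg (hρ : US ρ) (z : V) : ff ρ 0 z = 1 := by
  have := hρ.prob
  simp [ff, gK, gP, nN]

theorem AN_nonneg (hρ : US ρ) (hV : 3 ≤ Module.finrank ℝ V) (N : ℕ) : 0 ≤ AN ρ N := by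
  unfold AN
  exact Finset.sum_nonneg fun r _ => mul_nonneg (lam_pos hV r).le (xx_nonneg hρ hV _)

end Pool.Agent.HRJ
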