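import Pool.Agent.HRJ.B5
import Pool.Agent.HRJ.B6

/-!
# HRJ-C2: components of a bounded function on the unit sphere of a subspace

`p = finrank E ≥ 3`.  PROOF PLAN.  `pc E m ψ v = ∫ nN p (2m) gP p (2m) ⟪v,w⟫ ψ w`.  All statements: Fubini (bounded functions a.e.: `gP_abs_le`, `ms_unit`) and
`pc_abs`: `⟪a, w⟫ = ‖P_E a‖ ⟪nrm (P_E a), w⟫` for `w ∈ E` (if `P_E a = 0` both sides are 0), `fh` with `f = |.|`, `mu_abs`.
`pc_sb`: `fh_sb`.  `pc_pc`: `fh` with `f = gK p (2l)`, `mu_gK`.  `pc_mul`: insert the definition of `pc E l ψ w` in the left side, Fubini, `pc_pc`; `pq_nonneg` from it.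
-/

set_option autoImplicit false

namespace Pool.Agent.HRJ

open MeasureTheory ProbabilityTheory Set Filter Topology Metric
open Pool.Agent.HP89 Pool.Agent.FI75 Pool.Agent.PBL
open scoped RealInnerProductSpace ENNReal

variable {V : Type*} [NormedAddCommGroup V] [InnerProductSpace ℝ V] [FiniteDimensional ℝ V]
  [MeasurableSpace V] [BorelSpace V]

variable {E : Submodule ℝ V} {ψ : V → ℝ} {C : ℝ}

private theorem c2_fub (μ ν : Measure V) [IsProbabilityMeasure μ] [IsProbabilityMeasure ν] {F : V → V → ℝ}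
    (hF : Measurable (Function.uncurry F)) {B : ℝ} (hμ : ∀ᵐ w ∂μ, ‖w‖ = 1) (hν : ∀ᵐ x ∂ν, ‖x‖ = 1)
    (hB : ∀ w x, ‖w‖ = 1 → ‖x‖ = 1 → |F w x| ≤ B) :
    ∫ w, ∫ x, F w x ∂ν ∂μ = ∫ x, ∫ w, F w x ∂μ ∂ν := by
  apply integral_integral_swap
  apply Integrable.of_bound hF.aestronglyMeasurable B
  filter_upwards [Measure.quasiMeasurePreserving_fst.ae hμ, Measure.quasiMeasurePreserving_snd.ae hν]
    with z h1 h2
  rw [Real.norm_eq_abs]
  exact hB z.1 z.2 h1 h2

private theorem c2_gK_meas (p l : ℕ) : Measurable (gK p l) := by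
  unfold gK
  exact (continuous_gP p l).measurable.const_mul _

private theorem c2_gK_le {p : ℕ} (hp : 3 ≤ p) (l : ℕ) {t : ℝ} (ht : |t| ≤ 1) : |gK p l t| ≤ nN p l := by
  unfold gK
  rw [abs_mul, abs_of_pos (nN_pos hp l)]
  have h1 := gP_abs_le hp l ht
  have h2 := nN_pos hp l
  calc nN p l * |gP p l t| ≤ nN p l * 1 := mul_le_mul_of_nonneg_left h1 h2.le
    _ = nN p l := mul_one _

private theorem c2_inner {v w : V} (hv : ‖v‖ ≤ 1) (hw : ‖w‖ = 1) : |⟪v, w⟫| ≤ 1 := by
  calc |⟪v, w⟫| ≤ ‖v‖ * ‖w‖ := abs_real_inner_le_norm v w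
    _ ≤ 1 := by rw [hw, mul_one]; exact hv

private theorem c2_meas2 (hψ : Measurable ψ) (p l : ℕ) :
    Measurable (fun q : V × V => gK p l ⟪q.1, q.2⟫ * ψ q.2) :=
  ((c2_gK_meas p l).comp (measurable_fst.inner measurable_snd)).mul (hψ.comp measurable_snd)

theorem pc_meas (hψ : Measurable ψ) (m : ℕ) : Measurable (pc E m ψ) := by
  haveI := ms_prob E
  exact (c2_meas2 hψ (Module.finrank ℝ E) (2 * m)).stronglyMeasurable.integral_prod_right'.measurable

theorem pc_bdd (hE : 3 ≤ Module.finrank ℝ E) (hψ : Measurable ψ) (hC : ∀ v, |ψ v| ≤ C) (m : ℕ) {v : V}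
    (hv1 : ‖v‖ ≤ 1) : |pc E m ψ v| ≤ nN (Module.finrank ℝ E) (2 * m) * C := by
  haveI := ms_prob E
  have h := norm_integral_le_of_norm_le_const (μ := ms E)
    (f := fun w => gK (Module.finrank ℝ E) (2 * m) ⟪v, w⟫ * ψ w)
    (C := nN (Module.finrank ℝ E) (2 * m) * C) (by
      filter_upwards [ms_unit E (by omega)] with w hw
      rw [Real.norm_eq_abs, abs_mul]
      exact mul_le_mul (c2_gK_le hE _ (c2_inner hv1 hw.1)) (hC w) (abs_nonneg _) (nN_pos hE _).le)
  rw [Real.norm_eq_abs, probReal_univ, mul_one] at h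
  exact h

private theorem c2_fh (hE : 3 ≤ Module.finrank ℝ E) (hψ : Measurable ψ) (hC : ∀ v, |ψ v| ≤ C) (m : ℕ)
    {f : ℝ → ℝ} (hf : Measurable f) {B : ℝ} (hB : ∀ t, |t| ≤ 1 → |f t| ≤ B) {v : V}
    (hv : v ∈ E) (hv1 : ‖v‖ = 1) :
    ∫ w, f ⟪w, v⟫ * pc E m ψ w ∂(ms E) = mu (Module.finrank ℝ E) (2 * m) f * pc E m ψ v := by
  haveI := ms_prob E
  have hu : ∀ᵐ w ∂(ms E), ‖w‖ = 1 := by
    filter_upwards [ms_unit E (by omega)] with w hw
    exact hw.1
  have hB0 : 0 ≤ B := (abs_nonneg _).trans (hB 0 (by simp))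
  have hC0 : 0 ≤ C := (abs_nonneg _).trans (hC 0)
  calc ∫ w, f ⟪w, v⟫ * pc E m ψ w ∂(ms E)
      = ∫ w, ∫ x, f ⟪w, v⟫ * (gK (Module.finrank ℝ E) (2 * m) ⟪w, x⟫ * ψ x) ∂(ms E) ∂(ms E) := by
        refine integral_congr_ae (Eventually.of_forall fun w => ?_)
        show f ⟪w, v⟫ * pc E m ψ w =
          ∫ x, f ⟪w, v⟫ * (gK (Module.finrank ℝ E) (2 * m) ⟪w, x⟫ * ψ x) ∂(ms E)
        rw [integral_const_mul]
        rfl
    _ = ∫ x, ∫ w, f ⟪w, v⟫ * (gK (Module.finrank ℝ E) (2 * m) ⟪w, x⟫ * ψ x) ∂(ms E) ∂(ms E) := by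
        refine c2_fub (ms E) (ms E)
          (F := fun w x => f ⟪w, v⟫ * (gK (Module.finrank ℝ E) (2 * m) ⟪w, x⟫ * ψ x))
          (B := B * (nN (Module.finrank ℝ E) (2 * m) * C)) ?_ hu hu ?_
        · exact (hf.comp (measurable_fst.inner measurable_const)).mul
            (c2_meas2 hψ (Module.finrank ℝ E) (2 * m))
        · intro w x hw hx
          rw [abs_mul, abs_mul]
          refine mul_le_mul (hB _ ?_) ?_ (by positivity) hB0
          · rw [real_inner_comm]
            exact c2_inner hv1.le hw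
          · exact mul_le_mul (c2_gK_le hE _ (c2_inner hw.le hx)) (hC x) (abs_nonneg _)
              (nN_pos hE _).le
    _ = ∫ x, mu (Module.finrank ℝ E) (2 * m) f *
          (gK (Module.finrank ℝ E) (2 * m) ⟪v, x⟫ * ψ x) ∂(ms E) := by
        refine integral_congr_ae ?_
        filter_upwards [ms_unit E (by omega)] with x hx
        have h1 := fh hE hx.2 hx.1 hv hv1 hf hB (2 * m)
        have h2 : ∫ w, f ⟪w, v⟫ * (gK (Module.finrank ℝ E) (2 * m) ⟪w, x⟫ * ψ x) ∂(ms E) =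
            (nN (Module.finrank ℝ E) (2 * m) * ψ x) *
              ∫ w, f ⟪w, v⟫ * gP (Module.finrank ℝ E) (2 * m) ⟪x, w⟫ ∂(ms E) := by
          rw [← integral_const_mul]
          refine integral_congr_ae (Eventually.of_forall fun w => ?_)
          show f ⟪w, v⟫ * (gK (Module.finrank ℝ E) (2 * m) ⟪w, x⟫ * ψ x) =
            nN (Module.finrank ℝ E) (2 * m) * ψ x *
              (f ⟪w, v⟫ * gP (Module.finrank ℝ E) (2 * m) ⟪x, w⟫)
          rw [gK, real_inner_comm x w]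
          ring
        rw [h2, h1, gK, real_inner_comm x v]
        ring
    _ = mu (Module.finrank ℝ E) (2 * m) f * pc E m ψ v := by
        rw [integral_const_mul]
        rfl

theorem pc_abs (hE : 3 ≤ Module.finrank ℝ E) (hψ : Measurable ψ) (hC : ∀ v, |ψ v| ≤ C) (m : ℕ) (a : V) :
    ∫ w, |⟪a, w⟫| * pc E m ψ w ∂(ms E) =
      ‖E.starProjection a‖ * (mm (Module.finrank ℝ E) * tT (Module.finrank ℝ E) m) *
        pc E m ψ (nrm (E.starProjection a)) := by
  have hin : ∀ w ∈ E, ⟪a, w⟫ = ⟪E.starProjection a, w⟫ := by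
    intro w hw
    have h1 : a - E.starProjection a ∈ Eᗮ := Submodule.sub_starProjection_mem_orthogonal a
    have h2 : ⟪a - E.starProjection a, w⟫ = 0 := by
      rw [real_inner_comm]
      exact (Submodule.mem_orthogonal E _).1 h1 w hw
    rw [inner_sub_left] at h2
    linarith
  by_cases h0 : E.starProjection a = 0
  · rw [h0, norm_zero, zero_mul, zero_mul]
    have : (fun w => |⟪a, w⟫| * pc E m ψ w) =ᵐ[ms E] fun _ => (0 : ℝ) := by
      filter_upwards [ms_unit E (by omega)] with w hw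
      rw [hin w hw.2, h0, inner_zero_left, abs_zero, zero_mul]
    rw [integral_congr_ae this, integral_zero]
  · set v := nrm (E.starProjection a) with hv
    have hn : 0 < ‖E.starProjection a‖ := norm_pos_iff.2 h0
    have hvE : v ∈ E := E.smul_mem _ (Submodule.starProjection_apply_mem E a)
    have hv1 : ‖v‖ = 1 := by
      rw [hv, nrm, norm_smul, norm_inv, norm_norm, inv_mul_cancel₀ hn.ne']
    have hav : E.starProjection a = ‖E.starProjection a‖ • v := by
      rw [hv, nrm, smul_smul, mul_inv_cancel₀ hn.ne', one_smul]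
    have h1 := c2_fh hE hψ hC m (f := fun t => |t|) (B := 1) measurable_abs
      (fun t ht => by rw [abs_abs]; exact ht) hvE hv1
    rw [mu_abs hE m] at h1
    have h2 : ∫ w, |⟪a, w⟫| * pc E m ψ w ∂(ms E) =
        ‖E.starProjection a‖ * ∫ w, |⟪w, v⟫| * pc E m ψ w ∂(ms E) := by
      rw [← integral_const_mul]
      refine integral_congr_ae ?_
      filter_upwards [ms_unit E (by omega)] with w hw
      have h3 : |⟪a, w⟫| = ‖E.starProjection a‖ * |⟪w, v⟫| := by
        rw [hin w hw.2, real_inner_comm]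
        nth_rewrite 1 [hav]
        rw [inner_smul_right, abs_mul, abs_of_pos hn]
      rw [h3]
      ring
    rw [h2, h1]
    ring

theorem pc_sb (hE : 3 ≤ Module.finrank ℝ E) (hψ : Measurable ψ) (hC : ∀ v, |ψ v| ≤ C) (m : ℕ) {v : V}
    (hv : v ∈ E) (hv1 : ‖v‖ = 1) :
    ∫ η, pc E m ψ η ∂(ms (sb E v)) = rR (Module.finrank ℝ E) m * pc E m ψ v := by
  haveI := ms_prob E
  haveI := ms_prob (sb E v)
  have hu : ∀ᵐ w ∂(ms E), ‖w‖ = 1 := by
    filter_upwards [ms_unit E (by omega)] with w hw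
    exact hw.1
  have hu' : ∀ᵐ w ∂(ms (sb E v)), ‖w‖ = 1 := by
    filter_upwards [ms_sb hv hv1 (by omega)] with w hw
    exact hw.1
  calc ∫ η, pc E m ψ η ∂(ms (sb E v))
      = ∫ η, ∫ x, gK (Module.finrank ℝ E) (2 * m) ⟪η, x⟫ * ψ x ∂(ms E) ∂(ms (sb E v)) := rfl
    _ = ∫ x, ∫ η, gK (Module.finrank ℝ E) (2 * m) ⟪η, x⟫ * ψ x ∂(ms (sb E v)) ∂(ms E) := by
        refine c2_fub (ms (sb E v)) (ms E)
          (F := fun η x => gK (Module.finrank ℝ E) (2 * m) ⟪η, x⟫ * ψ x)
          (B := nN (Module.finrank ℝ E) (2 * m) * C) ?_ hu' hu ?_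
        · exact c2_meas2 hψ (Module.finrank ℝ E) (2 * m)
        · intro w x hw hx
          rw [abs_mul]
          exact mul_le_mul (c2_gK_le hE _ (c2_inner hw.le hx)) (hC x) (abs_nonneg _)
            (nN_pos hE _).le
    _ = ∫ x, rR (Module.finrank ℝ E) m *
          (gK (Module.finrank ℝ E) (2 * m) ⟪v, x⟫ * ψ x) ∂(ms E) := by
        refine integral_congr_ae ?_
        filter_upwards [ms_unit E (by omega)] with x hx
        have h1 := fh_sb hE hx.2 hx.1 hv hv1 m
        have h2 : ∫ η, gK (Module.finrank ℝ E) (2 * m) ⟪η, x⟫ * ψ x ∂(ms (sb E v)) =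
            (nN (Module.finrank ℝ E) (2 * m) * ψ x) *
              ∫ η, gP (Module.finrank ℝ E) (2 * m) ⟪x, η⟫ ∂(ms (sb E v)) := by
          rw [← integral_const_mul]
          refine integral_congr_ae (Eventually.of_forall fun w => ?_)
          show gK (Module.finrank ℝ E) (2 * m) ⟪w, x⟫ * ψ x =
            nN (Module.finrank ℝ E) (2 * m) * ψ x * gP (Module.finrank ℝ E) (2 * m) ⟪x, w⟫
          rw [gK, real_inner_comm x w]
          ring
        rw [h2, h1, gK, real_inner_comm x v]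
        ring
    _ = rR (Module.finrank ℝ E) m * pc E m ψ v := by
        rw [integral_const_mul]
        rfl

theorem pc_pc (hE : 3 ≤ Module.finrank ℝ E) (hψ : Measurable ψ) (hC : ∀ v, |ψ v| ≤ C) (l m : ℕ) {v : V}
    (hv : v ∈ E) (hv1 : ‖v‖ = 1) :
    ∫ w, gK (Module.finrank ℝ E) (2 * l) ⟪v, w⟫ * pc E m ψ w ∂(ms E) = if l = m then pc E m ψ v else 0 := by
  have h1 := c2_fh hE hψ hC m (f := gK (Module.finrank ℝ E) (2 * l))
    (B := nN (Module.finrank ℝ E) (2 * l)) (c2_gK_meas _ _) (fun t ht => c2_gK_le hE _ ht) hv hv1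
  rw [mu_gK hE] at h1
  have h2 : ∫ w, gK (Module.finrank ℝ E) (2 * l) ⟪v, w⟫ * pc E m ψ w ∂(ms E) =
      ∫ w, gK (Module.finrank ℝ E) (2 * l) ⟪w, v⟫ * pc E m ψ w ∂(ms E) := by
    refine integral_congr_ae (Eventually.of_forall fun w => ?_)
    show gK (Module.finrank ℝ E) (2 * l) ⟪v, w⟫ * pc E m ψ w =
      gK (Module.finrank ℝ E) (2 * l) ⟪w, v⟫ * pc E m ψ w
    rw [real_inner_comm]
  rw [h2, h1]
  by_cases h : l = m
  · rw [if_pos h, if_pos (by omega), one_mul]
  · rw [if_neg h, if_neg (by omega), zero_mul]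

theorem pc_mul (hE : 3 ≤ Module.finrank ℝ E) (hψ : Measurable ψ) (hC : ∀ v, |ψ v| ≤ C) (l m : ℕ) :
    ∫ w, pc E l ψ w * pc E m ψ w ∂(ms E) = if l = m then pq E m ψ else 0 := by
  haveI := ms_prob E
  have hu : ∀ᵐ w ∂(ms E), ‖w‖ = 1 := by
    filter_upwards [ms_unit E (by omega)] with w hw
    exact hw.1
  have hC0 : 0 ≤ C := (abs_nonneg _).trans (hC 0)
  calc ∫ w, pc E l ψ w * pc E m ψ w ∂(ms E)
      = ∫ w, ∫ x, gK (Module.finrank ℝ E) (2 * l) ⟪w, x⟫ * ψ x * pc E m ψ w ∂(ms E) ∂(ms E) := by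
        refine integral_congr_ae (Eventually.of_forall fun w => ?_)
        show pc E l ψ w * pc E m ψ w =
          ∫ x, gK (Module.finrank ℝ E) (2 * l) ⟪w, x⟫ * ψ x * pc E m ψ w ∂(ms E)
        rw [integral_mul_const]
        rfl
    _ = ∫ x, ∫ w, gK (Module.finrank ℝ E) (2 * l) ⟪w, x⟫ * ψ x * pc E m ψ w ∂(ms E) ∂(ms E) := by
        refine c2_fub (ms E) (ms E)
          (F := fun w x => gK (Module.finrank ℝ E) (2 * l) ⟪w, x⟫ * ψ x * pc E m ψ w)
          (B := nN (Module.finrank ℝ E) (2 * l) * C * (nN (Module.finrank ℝ E) (2 * m) * C)) ?_ hu hu ?_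
        · exact (c2_meas2 hψ (Module.finrank ℝ E) (2 * l)).mul ((pc_meas hψ m).comp measurable_fst)
        · intro w x hw hx
          rw [abs_mul, abs_mul]
          refine mul_le_mul ?_ (pc_bdd hE hψ hC m hw.le) (abs_nonneg _) ?_
          · exact mul_le_mul (c2_gK_le hE _ (c2_inner hw.le hx)) (hC x) (abs_nonneg _)
              (nN_pos hE _).le
          · exact mul_nonneg (nN_pos hE _).le hC0
    _ = ∫ x, (if l = m then ψ x * pc E m ψ x else 0) ∂(ms E) := by
        refine integral_congr_ae ?_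
        filter_upwards [ms_unit E (by omega)] with x hx
        have h1 := pc_pc hE hψ hC l m hx.2 hx.1
        have h2 : ∫ w, gK (Module.finrank ℝ E) (2 * l) ⟪w, x⟫ * ψ x * pc E m ψ w ∂(ms E) =
            ψ x * ∫ w, gK (Module.finrank ℝ E) (2 * l) ⟪x, w⟫ * pc E m ψ w ∂(ms E) := by
          rw [← integral_const_mul]
          refine integral_congr_ae (Eventually.of_forall fun w => ?_)
          show gK (Module.finrank ℝ E) (2 * l) ⟪w, x⟫ * ψ x * pc E m ψ w =
            ψ x * (gK (Module.finrank ℝ E) (2 * l) ⟪x, w⟫ * pc E m ψ w)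
          rw [real_inner_comm x w]
          ring
        rw [h2, h1]
        by_cases h : l = m
        · rw [if_pos h, if_pos h]
        · rw [if_neg h, if_neg h, mul_zero]
    _ = if l = m then pq E m ψ else 0 := by
        by_cases h : l = m
        · simp only [if_pos h]
          rfl
        · simp only [if_neg h, integral_zero]

theorem pq_nonneg (hE : 3 ≤ Module.finrank ℝ E) (hψ : Measurable ψ) (hC : ∀ v, |ψ v| ≤ C) (m : ℕ) :
    0 ≤ pq E m ψ := by
  have h := pc_mul hE hψ hC m m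
  rw [if_pos rfl] at h
  rw [← h]
  exact integral_nonneg fun w => mul_self_nonneg _

theorem pc_zero_deg (v : V) : pc E 0 ψ v = ∫ w, ψ w ∂(ms E) := by
  unfold pc
  refine integral_congr_ae (Eventually.of_forall fun w => ?_)
  show gK (Module.finrank ℝ E) (2 * 0) ⟪v, w⟫ * ψ w = ψ w
  rw [mul_zero, gK, gP_zero]
  show (1 : ℝ) * 1 * ψ w = ψ w
  ring

end Pool.Agent.HRJ
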