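import Pool.Agent.HRJ.C3a
import Pool.Agent.HRJ.C2

/-!
# HRJ-C3: expansion of the restriction of the test function to the unit sphere of a subspace

`psi_expand`: it is enough that `φ v = ∑_{m ≤ M} pc E m φ v` for `φ = ff ρ (2h)`, `h ≤ M`.  `gP d (2h) t = r(t²)`, `natDegree r ≤ h`.  For fixed `y` and `v ∈ E`
unit, `⟪v, y⟫ = c ⟪v, ŷ⟫` with `c = ‖P_E y‖` and a unit vector `ŷ` of `E`, so `gP d (2h) ⟪v,y⟫ = r'(⟪v,ŷ⟫²)` with `r' = r.comp (C (c^2) * X)`; `poly_expand`
and `fh` in the dimension `p = finrank E` give the expansion of the kernel; then integrate over `y` (Fubini).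
-/

set_option autoImplicit false

namespace Pool.Agent.HRJ

open MeasureTheory ProbabilityTheory Set Filter Topology Metric
open Pool.Agent.HP89 Pool.Agent.FI75 Pool.Agent.PBL
open scoped RealInnerProductSpace ENNReal

variable {V : Type*} [NormedAddCommGroup V] [InnerProductSpace ℝ V] [FiniteDimensional ℝ V]
  [MeasurableSpace V] [BorelSpace V]

variable {ρ : Measure V}

private theorem c3_nrm {w : V} (hw : ‖w‖ = 1) : nrm w = w := by
  rw [nrm, hw, inv_one, one_smul]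

private theorem c3_gK {p : ℕ} (hp : 3 ≤ p) (l : ℕ) {t : ℝ} (ht : |t| ≤ 1) : |gK p l t| ≤ nN p l := by
  rw [gK, abs_mul, abs_of_pos (nN_pos hp l)]
  calc nN p l * |gP p l t| ≤ nN p l * 1 := mul_le_mul_of_nonneg_left (gP_abs_le hp l ht) (nN_pos hp l).le
    _ = nN p l := mul_one _

private theorem c3_inner {x y : V} (hx : ‖x‖ = 1) (hy : ‖y‖ = 1) : |⟪x, y⟫| ≤ 1 := by
  have := abs_real_inner_le_norm x y
  rwa [hx, hy, mul_one] at this

/-- the expansion of the kernel -/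
private theorem c3_ker {E : Submodule ℝ V} (hE : 3 ≤ Module.finrank ℝ E) (d M h : ℕ) (hM : h ≤ M) {v : V}
    (hv : v ∈ E) (hv1 : ‖v‖ = 1) (y : V) :
    ∑ m ∈ Finset.range (M + 1), ∫ w, gK (Module.finrank ℝ E) (2 * m) ⟪v, w⟫ * gK d (2 * h) ⟪w, y⟫ ∂(ms E) =
      gK d (2 * h) ⟪v, y⟫ := by
  obtain ⟨r, hr, hrt⟩ := gP_poly d h
  set p := Module.finrank ℝ E with hp
  set c : ℝ := ‖E.starProjection y‖ with hc
  obtain ⟨z, hz, hz1, hyz⟩ : ∃ z : V, z ∈ E ∧ ‖z‖ = 1 ∧ E.starProjection y = c • z := by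
    by_cases h0 : c = 0
    · refine ⟨v, hv, hv1, ?_⟩
      rw [h0, zero_smul]
      exact norm_eq_zero.1 (hc.symm.trans h0)
    · refine ⟨c⁻¹ • E.starProjection y, E.smul_mem _ (Submodule.starProjection_apply_mem E y), ?_, ?_⟩
      · rw [norm_smul, ← hc, norm_inv, Real.norm_eq_abs, abs_of_nonneg (norm_nonneg _ : 0 ≤ c)]
        exact inv_mul_cancel₀ h0
      · rw [smul_smul, mul_inv_cancel₀ h0, one_smul]
  have hin : ∀ w ∈ E, ⟪w, y⟫ = c * ⟪w, z⟫ := by
    intro w hw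
    have h1 : ⟪w, y⟫ = ⟪E.starProjection w, y⟫ := by
      rw [Submodule.starProjection_eq_self_iff.2 hw]
    rw [h1, Submodule.inner_starProjection_left_eq_right, hyz, inner_smul_right]
  set r' : Polynomial ℝ := r.comp (Polynomial.C (c ^ 2) * Polynomial.X) with hr'
  have hr'd : r'.natDegree ≤ M := by
    refine (Polynomial.natDegree_comp_le).trans ?_
    refine (Nat.mul_le_mul_left _ (Polynomial.natDegree_C_mul_le _ _)).trans ?_
    rw [Polynomial.natDegree_X, mul_one]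
    exact hr.trans hM
  have hr'e : ∀ s : ℝ, gP d (2 * h) (c * s) = r'.eval (s ^ 2) := by
    intro s
    rw [hrt, hr', Polynomial.eval_comp, Polynomial.eval_mul, Polynomial.eval_C, Polynomial.eval_X, mul_pow]
  set f : ℝ → ℝ := fun s => r'.eval (s ^ 2) with hf
  have hfc : Continuous f := r'.continuous.comp (continuous_pow 2)
  obtain ⟨C, hC⟩ : ∃ C : ℝ, ∀ t : ℝ, |t| ≤ 1 → |f t| ≤ C := by
    obtain ⟨C, hC⟩ := (isCompact_Icc (a := (-1 : ℝ)) (b := 1)).exists_bound_of_continuousOn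
      (hfc.continuousOn (s := Icc (-1 : ℝ) 1))
    exact ⟨C, fun t ht => hC t (abs_le.1 ht)⟩
  have key : ∀ m : ℕ, ∫ w, gK p (2 * m) ⟪v, w⟫ * gK d (2 * h) ⟪w, y⟫ ∂(ms E) =
      nN d (2 * h) * (mu p (2 * m) f * gK p (2 * m) ⟪v, z⟫) := by
    intro m
    have h1 : ∫ w, gK p (2 * m) ⟪v, w⟫ * gK d (2 * h) ⟪w, y⟫ ∂(ms E) =
        ∫ w, (nN p (2 * m) * nN d (2 * h)) * (f ⟪w, z⟫ * gP p (2 * m) ⟪v, w⟫) ∂(ms E) := by
      refine integral_congr_ae ?_
      filter_upwards [ms_unit E (by omega)] with w hw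
      show gK p (2 * m) ⟪v, w⟫ * gK d (2 * h) ⟪w, y⟫ = _
      rw [hin w hw.2, gK, gK, hr'e]
      simp only [hf]
      ring
    rw [h1, integral_const_mul, fh hE hv hv1 hz hz1 hfc.measurable hC (2 * m), ← hp, gK]
    ring
  rw [Finset.sum_congr rfl fun m _ => key m, ← Finset.mul_sum, ← poly_expand hE hr'd, hin v hv, gK, hr'e]

private theorem c3_fubini (hρ : US ρ) {E : Submodule ℝ V} (hE : 3 ≤ Module.finrank ℝ E)
    (hV : 3 ≤ Module.finrank ℝ V) (l m : ℕ) {v : V} (hv1 : ‖v‖ = 1) :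
    Integrable (Function.uncurry fun w y => gK (Module.finrank ℝ E) m ⟪v, w⟫ *
      gK (Module.finrank ℝ V) l ⟪nrm w, y⟫) ((ms E).prod ρ) := by
  have := ms_prob E
  have := hρ.prob
  have hm : Measurable (Function.uncurry fun w y : V => gK (Module.finrank ℝ E) m ⟪v, w⟫ *
      gK (Module.finrank ℝ V) l ⟪nrm w, y⟫) := by
    have h1 : Measurable (gK (Module.finrank ℝ E) m) := by
      unfold gK
      exact (continuous_gP _ _).measurable.const_mul _
    have h2 : Measurable (gK (Module.finrank ℝ V) l) := by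
      unfold gK
      exact (continuous_gP _ _).measurable.const_mul _
    refine Measurable.mul ?_ ?_
    · exact h1.comp (measurable_const.inner measurable_fst)
    · exact h2.comp ((measurable_nrm.comp measurable_fst).inner measurable_snd)
  refine Integrable.of_bound hm.aestronglyMeasurable
    (nN (Module.finrank ℝ E) m * nN (Module.finrank ℝ V) l) ?_
  have h1 : ∀ᵐ q ∂((ms E).prod ρ), ‖q.1‖ = 1 ∧ q.1 ∈ E :=
    Measure.quasiMeasurePreserving_fst.ae (ms_unit E (by omega))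
  have h2 : ∀ᵐ q ∂((ms E).prod ρ), ‖q.2‖ = 1 := Measure.quasiMeasurePreserving_snd.ae hρ.unit
  filter_upwards [h1, h2] with q hq1 hq2
  simp only [Function.uncurry]
  rw [Real.norm_eq_abs, abs_mul]
  refine mul_le_mul (c3_gK hE m (c3_inner hv1 hq1.1)) (c3_gK hV l ?_) (abs_nonneg _) (nN_pos hE m).le
  rw [c3_nrm hq1.1]
  exact c3_inner hq1.1 hq2

private theorem c3_ff (hρ : US ρ) {E : Submodule ℝ V} (hE : 3 ≤ Module.finrank ℝ E)
    (hV : 3 ≤ Module.finrank ℝ V) (M h : ℕ) (hM : h ≤ M) {v : V} (hv : v ∈ E) (hv1 : ‖v‖ = 1) :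
    ff ρ (2 * h) v = ∑ m ∈ Finset.range (M + 1), pc E m (ff ρ (2 * h)) v := by
  have := ms_prob E
  have := hρ.prob
  have h1 : ∀ m : ℕ, pc E m (ff ρ (2 * h)) v = ∫ y, ∫ w, gK (Module.finrank ℝ E) (2 * m) ⟪v, w⟫ *
      gK (Module.finrank ℝ V) (2 * h) ⟪nrm w, y⟫ ∂(ms E) ∂ρ := by
    intro m
    rw [← integral_integral_swap (c3_fubini hρ hE hV (2 * h) (2 * m) hv1)]
    unfold pc ff
    refine integral_congr_ae (Eventually.of_forall fun w => ?_)
    simp only
    rw [integral_const_mul]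
  have h2 : ∀ (m : ℕ) (y : V), ∫ w, gK (Module.finrank ℝ E) (2 * m) ⟪v, w⟫ *
      gK (Module.finrank ℝ V) (2 * h) ⟪nrm w, y⟫ ∂(ms E) =
      ∫ w, gK (Module.finrank ℝ E) (2 * m) ⟪v, w⟫ * gK (Module.finrank ℝ V) (2 * h) ⟪w, y⟫ ∂(ms E) := by
    intro m y
    refine integral_congr_ae ?_
    filter_upwards [ms_unit E (by omega)] with w hw
    rw [c3_nrm hw.1]
  have h3 : ∀ m : ℕ, Integrable (fun y => ∫ w, gK (Module.finrank ℝ E) (2 * m) ⟪v, w⟫ *
      gK (Module.finrank ℝ V) (2 * h) ⟪nrm w, y⟫ ∂(ms E)) ρ := fun m =>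
    (c3_fubini hρ hE hV (2 * h) (2 * m) hv1).integral_prod_right
  rw [Finset.sum_congr rfl fun m _ => h1 m, ← integral_finsetSum _ fun m _ => h3 m]
  unfold ff
  refine integral_congr_ae (Eventually.of_forall fun y => ?_)
  simp only
  rw [Finset.sum_congr rfl fun m _ => h2 m y, c3_ker hE (Module.finrank ℝ V) M h hM hv hv1 y, c3_nrm hv1]

theorem psi_expand (hρ : US ρ) {E : Submodule ℝ V} (hE : 3 ≤ Module.finrank ℝ E) (N : ℕ) {v : V} (hv : v ∈ E)
    (hv1 : ‖v‖ = 1) : psi ρ N v = ∑ m ∈ Finset.range (2 * N + 1), pc E m (psi ρ N) v := by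
  have hV : 3 ≤ Module.finrank ℝ V := hE.trans (Submodule.finrank_le E)
  have := ms_prob E
  have hint : ∀ l m : ℕ, Integrable (fun w => gK (Module.finrank ℝ E) (2 * m) ⟪v, w⟫ * ff ρ l w) (ms E) := by
    intro l m
    have h1 : Measurable (gK (Module.finrank ℝ E) (2 * m)) := by
      unfold gK
      exact (continuous_gP _ _).measurable.const_mul _
    refine Integrable.of_bound ((h1.comp (measurable_const.inner measurable_id)).mul
      (ff_meas hρ l)).aestronglyMeasurable (nN (Module.finrank ℝ E) (2 * m) * nN (Module.finrank ℝ V) l) ?_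
    filter_upwards [ms_unit E (by omega)] with w hw
    rw [Real.norm_eq_abs, abs_mul]
    exact mul_le_mul (c3_gK hE (2 * m) (c3_inner hv1 hw.1)) (ff_bdd hρ hV l w) (abs_nonneg _)
      (nN_pos hE (2 * m)).le
  have hpc : ∀ m : ℕ, pc E m (psi ρ N) v = ∑ r ∈ Finset.range N,
      tT (Module.finrank ℝ V) (2 * (r + 1)) * pc E m (ff ρ (4 * (r + 1))) v := by
    intro m
    have h1 : pc E m (psi ρ N) v = ∫ w, ∑ r ∈ Finset.range N, tT (Module.finrank ℝ V) (2 * (r + 1)) *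
        (gK (Module.finrank ℝ E) (2 * m) ⟪v, w⟫ * ff ρ (4 * (r + 1)) w) ∂(ms E) := by
      unfold pc psi
      refine integral_congr_ae (Eventually.of_forall fun w => ?_)
      simp only
      rw [Finset.mul_sum]
      exact Finset.sum_congr rfl fun r _ => by ring
    rw [h1, integral_finsetSum _ fun r _ => (hint (4 * (r + 1)) m).const_mul _]
    refine Finset.sum_congr rfl fun r _ => ?_
    rw [integral_const_mul]
    rfl
  rw [Finset.sum_congr rfl fun m _ => hpc m, Finset.sum_comm]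
  unfold psi
  refine Finset.sum_congr rfl fun r hr => ?_
  rw [Finset.mem_range] at hr
  rw [← Finset.mul_sum]
  congr 1
  have h4 : 4 * (r + 1) = 2 * (2 * (r + 1)) := by ring
  rw [h4]
  exact c3_ff hρ hE hV (2 * N) (2 * (r + 1)) (by omega) hv hv1

end Pool.Agent.HRJ
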