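import Pool.Agent.HRJ.C1

/-!
# HRJ-C3a: the test function and its cosine transform

PROOF PLAN.  `psi_g`: `ff_abs` for `2h = 4(r+1)`.  `psi_expand`: it is enough that `φ v = ∑_{m ≤ M} pc E m φ v` for `φ = ff ρ (2h)`, `h ≤ M` (linear: `pc` is linear in `ψ`,
`integral_finsetSum`).  `gP_poly`: `gP d (2h) t = r(t²)`, `natDegree r ≤ h`.  For fixed `y` and `v ∈ E` unit, `⟪v, y⟫ = c ⟪v, ŷ⟫` with `c = ‖P_E y‖`, `ŷ = nrm (P_E y)`; if `c = 0` replace `ŷ` by any unit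
vector of `E`.  So `gP d (2h) ⟪v,y⟫ = r'(⟪v,ŷ⟫²)` with `r' = r.comp (C (c^2) * X)`; `poly_expand` (dimension `p`):
`= ∑_{m ≤ M} mu p (2m) (r'(.²)) gK p (2m) ⟪v,ŷ⟫`, and `mu p (2m) f * gK p (2m) ⟪v,ŷ⟫ = ∫ f ⟪w,ŷ⟫ gK p (2m) ⟪v,w⟫ d(ms E)` by `fh`.  Then integrate over `y ~ ρ` (Fubini).
-/

set_option autoImplicit false

namespace Pool.Agent.HRJ

open MeasureTheory ProbabilityTheory Set Filter Topology Metric
open Pool.Agent.HP89 Pool.Agent.FI75 Pool.Agent.PBL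
open scoped RealInnerProductSpace ENNReal

variable {V : Type*} [NormedAddCommGroup V] [InnerProductSpace ℝ V] [FiniteDimensional ℝ V]
  [MeasurableSpace V] [BorelSpace V]

variable {ρ : Measure V}

theorem gN_meas (hρ : US ρ) (N : ℕ) : Measurable (gN ρ N) := by
  unfold gN
  exact Finset.measurable_fun_sum _ fun r _ => ff_meas hρ _

theorem gN_bdd (hρ : US ρ) (hV : 3 ≤ Module.finrank ℝ V) (N : ℕ) : ∃ C : ℝ, ∀ u, |gN ρ N u| ≤ C := by
  refine ⟨∑ r ∈ Finset.range N, nN (Module.finrank ℝ V) (4 * (r + 1)), fun u => ?_⟩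
  unfold gN
  refine (Finset.abs_sum_le_sum_abs _ _).trans ?_
  exact Finset.sum_le_sum fun r _ => ff_bdd hρ hV _ u

theorem psi_meas (hρ : US ρ) (N : ℕ) : Measurable (psi ρ N) := by
  unfold psi
  exact Finset.measurable_fun_sum _ fun r _ => (ff_meas hρ _).const_mul _

theorem psi_bdd (hρ : US ρ) (hV : 3 ≤ Module.finrank ℝ V) (N : ℕ) : ∃ C : ℝ, ∀ u, |psi ρ N u| ≤ C := by
  refine ⟨∑ r ∈ Finset.range N, |tT (Module.finrank ℝ V) (2 * (r + 1))| *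
    nN (Module.finrank ℝ V) (4 * (r + 1)), fun u => ?_⟩
  unfold psi
  refine (Finset.abs_sum_le_sum_abs _ _).trans ?_
  refine Finset.sum_le_sum fun r _ => ?_
  rw [abs_mul]
  exact mul_le_mul_of_nonneg_left (ff_bdd hρ hV _ u) (abs_nonneg _)

private theorem c3a_int (hρ : US ρ) (hV : 3 ≤ Module.finrank ℝ V) (l : ℕ) {v : V} (hv1 : ‖v‖ = 1) :
    Integrable (fun a => |⟪a, v⟫| * ff ρ l a) (ms (⊤ : Submodule ℝ V)) := by
  have := ms_prob (⊤ : Submodule ℝ V)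
  have hm : Measurable (fun a : V => |⟪a, v⟫| * ff ρ l a) := by
    refine Measurable.mul ?_ (ff_meas hρ l)
    exact (continuous_id.inner continuous_const).abs.measurable
  refine Integrable.of_bound hm.aestronglyMeasurable (nN (Module.finrank ℝ V) l) ?_
  filter_upwards [ms_unit (⊤ : Submodule ℝ V) (by rw [finrank_top]; omega)] with a ha
  rw [norm_mul, Real.norm_eq_abs, Real.norm_eq_abs, abs_abs]
  have h1 : |(⟪a, v⟫ : ℝ)| ≤ 1 := by
    have := abs_real_inner_le_norm a v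
    rwa [ha.1, hv1, mul_one] at this
  calc |(⟪a, v⟫ : ℝ)| * |ff ρ l a| ≤ 1 * |ff ρ l a| := mul_le_mul_of_nonneg_right h1 (abs_nonneg _)
    _ = |ff ρ l a| := one_mul _
    _ ≤ _ := ff_bdd hρ hV l a

theorem psi_g (hρ : US ρ) (hV : 3 ≤ Module.finrank ℝ V) (N : ℕ) {v : V} (hv1 : ‖v‖ = 1) :
    ∫ a, |⟪a, v⟫| * gN ρ N a ∂(ms (⊤ : Submodule ℝ V)) = mm (Module.finrank ℝ V) * psi ρ N v := by
  have h1 : ∀ a : V, |⟪a, v⟫| * gN ρ N a = ∑ r ∈ Finset.range N, |⟪a, v⟫| * ff ρ (4 * (r + 1)) a := by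
    intro a
    unfold gN
    rw [Finset.mul_sum]
  simp only [h1]
  rw [integral_finsetSum _ fun r _ => c3a_int hρ hV _ hv1]
  unfold psi
  rw [Finset.mul_sum]
  refine Finset.sum_congr rfl fun r _ => ?_
  have h2 := ff_abs hρ hV hv1 (2 * (r + 1))
  have h3 : 2 * (2 * (r + 1)) = 4 * (r + 1) := by ring
  rw [h3] at h2
  rw [h2]
  ring

end Pool.Agent.HRJ
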