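import Pool.Agent.HRJ.A4
import Pool.Agent.HRJ.C2

/-!
# HRJ-C4: `D_E` in terms of the components

`p = finrank E ≥ 3`, `d = finrank V`.  PROOF PLAN.
(1) for a subspace `F ≤ E` with `finrank F ≥ 1`: `∫ ‖P_F a‖ g(a) = (mm d / mm (finrank F)) ∫ ψ d(ms F)`: `ms_abs` for `F`, Fubini, `hgψ` (a.e. `w` w.r.t. `ms F` is a unit vector of `F ≤ E`).
With `F = E`: the first term of `DE` is `(∫ ψ d(ms E))² = pq E 0 ψ` (`mm q = √(2/π)/mG q`; `pc_zero_deg`).
(2) for `a` with `P_E a ≠ 0`: `ort (P_E a) (P_E b) = P_F b` with `F = sb E a` (`sb_proj`), `sb E a = sb E â`, `â = nrm (P_E a)`; so the inner integral over `b` is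
`‖P_E a‖ g(a) (mm d/mm (p-1)) ∫ ψ d(ms (sb E â))`, and `∫ ψ d(ms (sb E â)) = ∑_m rR p m pc E m ψ â` (`hex` a.e., `pc_sb`).
(3) `∫ ‖P_E a‖ g(a) pc E m ψ (nrm (P_E a)) = mm d/(mm p * tT p m) * pq E m ψ`: by `pc_abs` the left side times `mm p * tT p m` is `∫_a g(a) ∫_w |⟪a,w⟫| pc E m ψ w`, Fubini, `hgψ` (`tT p m ≠ 0`: `tT_two`, `tT_four`, `tT_zero`).
So the second term of `DE` is `∑_{m ≤ M} (rR p m/tT p m) pq E m ψ`, `rR/tT = - nn` (`rR_eq`), `m = 0` cancels the first term.
`P_E a = 0`: the integrand is 0.  Measurability and boundedness: `‖P_E a‖ ≤ ‖a‖ = 1` a.e.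
-/

set_option autoImplicit false

namespace Pool.Agent.HRJ

open MeasureTheory ProbabilityTheory Set Filter Topology Metric
open Pool.Agent.HP89 Pool.Agent.FI75 Pool.Agent.PBL
open scoped RealInnerProductSpace ENNReal

variable {V : Type*} [NormedAddCommGroup V] [InnerProductSpace ℝ V] [FiniteDimensional ℝ V]
  [MeasurableSpace V] [BorelSpace V]

theorem tT_ne {p : ℕ} (hp : 3 ≤ p) (m : ℕ) : tT p m ≠ 0 := by
  rcases Nat.even_or_odd' m with ⟨k, hk | hk⟩
  · rcases Nat.eq_zero_or_pos k with h0 | h0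
    · subst h0
      rw [hk, tT_zero]
      exact one_ne_zero
    · obtain ⟨r, rfl⟩ : ∃ r, k = r + 1 := ⟨k - 1, by omega⟩
      rw [hk]
      exact (tT_four hp r).ne
  · rw [hk]
    exact (tT_two hp k).ne'

omit [FiniteDimensional ℝ V] in
private theorem c4_nrm_meas : Measurable (nrm : V → V) := by
  unfold nrm
  exact (measurable_norm.inv).smul measurable_id

omit [FiniteDimensional ℝ V] [MeasurableSpace V] [BorelSpace V] in
private theorem c4_nrm_le (x : V) : ‖nrm x‖ ≤ 1 := by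
  unfold nrm
  rw [norm_smul, norm_inv, norm_norm]
  by_cases h : ‖x‖ = 0
  · simp [h]
  · rw [inv_mul_cancel₀ h]

omit [FiniteDimensional ℝ V] [MeasurableSpace V] [BorelSpace V] in
private theorem c4_nrm_unit {x : V} (hx : x ≠ 0) : ‖nrm x‖ = 1 := by
  unfold nrm
  rw [norm_smul, norm_inv, norm_norm, inv_mul_cancel₀ (norm_ne_zero_iff.2 hx)]

omit [FiniteDimensional ℝ V] [MeasurableSpace V] [BorelSpace V] in
private theorem c4_inner_le {a w : V} (ha : ‖a‖ = 1) (hw : ‖w‖ = 1) : |⟪a, w⟫| ≤ 1 := by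
  have h := abs_real_inner_le_norm a w
  rw [ha, hw, mul_one] at h
  exact h

private theorem c4_top_unit (hV : 1 ≤ Module.finrank ℝ V) :
    ∀ᵐ a ∂(ms (⊤ : Submodule ℝ V)), ‖a‖ = 1 := by
  have h := ms_unit (⊤ : Submodule ℝ V) (by rw [finrank_top]; exact hV)
  exact h.mono fun a ha => ha.1

private theorem c4_fub {E F : Submodule ℝ V} (hF : 1 ≤ Module.finrank ℝ F) (hFE : F ≤ E)
    {g ψ φ : V → ℝ} (hg : Measurable g) {Cg : ℝ} (hCg : ∀ v, |g v| ≤ Cg) (hφ : Measurable φ)
    {C' : ℝ} (hC' : ∀ w, ‖w‖ = 1 → |φ w| ≤ C')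
    (hgψ : ∀ v ∈ E, ‖v‖ = 1 →
      ∫ a, |⟪a, v⟫| * g a ∂(ms (⊤ : Submodule ℝ V)) = mm (Module.finrank ℝ V) * ψ v) :
    ∫ a, g a * (∫ w, |⟪a, w⟫| * φ w ∂(ms F)) ∂(ms (⊤ : Submodule ℝ V)) =
      mm (Module.finrank ℝ V) * ∫ w, ψ w * φ w ∂(ms F) := by
  have := ms_prob (⊤ : Submodule ℝ V)
  have := ms_prob F
  have h1 := c4_top_unit (V := V) (hF.trans (Submodule.finrank_le F))
  have h2 := ms_unit F hF
  have hm : Measurable (fun z : V × V => g z.1 * (|⟪z.1, z.2⟫| * φ z.2)) :=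
    (hg.comp measurable_fst).mul
      (((measurable_fst.inner measurable_snd).abs).mul (hφ.comp measurable_snd))
  have hb : ∀ᵐ z ∂((ms (⊤ : Submodule ℝ V)).prod (ms F)),
      ‖g z.1 * (|⟪z.1, z.2⟫| * φ z.2)‖ ≤ Cg * C' := by
    have h1' := Measure.quasiMeasurePreserving_fst (μ := ms (⊤ : Submodule ℝ V)) (ν := ms F) |>.ae h1
    have h2' := Measure.quasiMeasurePreserving_snd (μ := ms (⊤ : Submodule ℝ V)) (ν := ms F) |>.ae h2
    filter_upwards [h1', h2'] with z hz1 hz2
    rw [Real.norm_eq_abs, abs_mul, abs_mul, abs_abs]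
    have h3 := c4_inner_le hz1 hz2.1
    have h4 := hC' z.2 hz2.1
    have h5 : |⟪z.1, z.2⟫| * |φ z.2| ≤ 1 * C' :=
      mul_le_mul h3 h4 (abs_nonneg _) zero_le_one
    rw [one_mul] at h5
    exact mul_le_mul (hCg z.1) h5 (mul_nonneg (abs_nonneg _) (abs_nonneg _))
      ((abs_nonneg _).trans (hCg z.1))
  have hint : Integrable (fun z : V × V => g z.1 * (|⟪z.1, z.2⟫| * φ z.2))
      ((ms (⊤ : Submodule ℝ V)).prod (ms F)) :=
    Integrable.of_bound hm.aestronglyMeasurable (Cg * C') hb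
  have e1 : ∫ a, g a * (∫ w, |⟪a, w⟫| * φ w ∂(ms F)) ∂(ms (⊤ : Submodule ℝ V)) =
      ∫ a, ∫ w, g a * (|⟪a, w⟫| * φ w) ∂(ms F) ∂(ms (⊤ : Submodule ℝ V)) := by
    refine integral_congr_ae (Eventually.of_forall fun a => ?_)
    exact (integral_const_mul _ _).symm
  rw [e1, integral_integral_swap (f := fun a w => g a * (|⟪a, w⟫| * φ w)) hint,
    ← integral_const_mul]
  refine integral_congr_ae (h2.mono fun w hw => ?_)
  have e2 : ∫ a, g a * (|⟪a, w⟫| * φ w) ∂(ms (⊤ : Submodule ℝ V)) =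
      (∫ a, |⟪a, w⟫| * g a ∂(ms (⊤ : Submodule ℝ V))) * φ w := by
    rw [← integral_mul_const]
    refine integral_congr_ae (Eventually.of_forall fun a => ?_)
    show g a * (|⟪a, w⟫| * φ w) = |⟪a, w⟫| * g a * φ w
    ring
  show ∫ a, g a * (|⟪a, w⟫| * φ w) ∂(ms (⊤ : Submodule ℝ V)) = mm (Module.finrank ℝ V) * (ψ w * φ w)
  rw [e2, hgψ w (hFE hw.2) hw.1]
  ring

/-- step (1) -/
private theorem c4_one {E F : Submodule ℝ V} (hF : 1 ≤ Module.finrank ℝ F) (hFE : F ≤ E)
    {g ψ : V → ℝ} (hg : Measurable g) {Cg : ℝ} (hCg : ∀ v, |g v| ≤ Cg)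
    (hgψ : ∀ v ∈ E, ‖v‖ = 1 →
      ∫ a, |⟪a, v⟫| * g a ∂(ms (⊤ : Submodule ℝ V)) = mm (Module.finrank ℝ V) * ψ v) :
    ∫ a, ‖F.starProjection a‖ * g a ∂(ms (⊤ : Submodule ℝ V)) =
      mm (Module.finrank ℝ V) / mm (Module.finrank ℝ F) * ∫ w, ψ w ∂(ms F) := by
  have h := c4_fub hF hFE hg hCg (φ := fun _ => (1 : ℝ)) measurable_const (C' := 1)
    (fun w _ => by simp) hgψ
  have hpos := mm_pos hF
  simp only [mul_one] at h
  have e1 : ∫ a, g a * (∫ w, |⟪a, w⟫| ∂(ms F)) ∂(ms (⊤ : Submodule ℝ V)) =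
      mm (Module.finrank ℝ F) * ∫ a, ‖F.starProjection a‖ * g a ∂(ms (⊤ : Submodule ℝ V)) := by
    rw [← integral_const_mul]
    refine integral_congr_ae (Eventually.of_forall fun a => ?_)
    show g a * (∫ w, |⟪a, w⟫| ∂(ms F)) = mm (Module.finrank ℝ F) * (‖F.starProjection a‖ * g a)
    rw [ms_abs F hF a]
    ring
  rw [e1] at h
  rw [div_mul_eq_mul_div, eq_div_iff hpos.ne', ← h]
  ring

private theorem c4_mG_pos {p : ℕ} (hp : 1 ≤ p) : 0 < mG p := by
  have h := mm_pos hp
  unfold mm at h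
  by_contra hc
  have h2 : √(2 / Real.pi) / mG p ≤ 0 := div_nonpos_of_nonneg_of_nonpos (Real.sqrt_nonneg _) (not_lt.1 hc)
  linarith

private theorem c4_ratio {d q : ℕ} (hd : 1 ≤ d) (hq : 1 ≤ q) : mm d / mm q = mG q / mG d := by
  have h1 := c4_mG_pos hd
  have h2 := c4_mG_pos hq
  have h3 : 0 < √(2 / Real.pi) := Real.sqrt_pos.2 (by positivity)
  unfold mm
  field_simp

omit [MeasurableSpace V] [BorelSpace V] in
private theorem c4_sb {E : Submodule ℝ V} (a : V) (ha : E.starProjection a ≠ 0) :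
    sb E a = sb E (nrm (E.starProjection a)) := by
  have h1 : E.starProjection (nrm (E.starProjection a)) =
      ‖E.starProjection a‖⁻¹ • E.starProjection a := by
    unfold nrm
    rw [map_smul]
    congr 1
    exact Submodule.starProjection_eq_self_iff.mpr (Submodule.starProjection_apply_mem _ _)
  unfold sb
  rw [h1, Submodule.span_singleton_smul_eq (IsUnit.mk0 _ (inv_ne_zero (norm_ne_zero_iff.2 ha)))]

theorem DE_eq {E : Submodule ℝ V} (hE : 3 ≤ Module.finrank ℝ E) {g ψ : V → ℝ} (hg : Measurable g) {Cg : ℝ}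
    (hCg : ∀ v, |g v| ≤ Cg) (hψ : Measurable ψ) {C : ℝ} (hC : ∀ v, |ψ v| ≤ C)
    (hgψ : ∀ v ∈ E, ‖v‖ = 1 → ∫ a, |⟪a, v⟫| * g a ∂(ms (⊤ : Submodule ℝ V)) = mm (Module.finrank ℝ V) * ψ v)
    {M : ℕ} (hex : ∀ v ∈ E, ‖v‖ = 1 → ψ v = ∑ m ∈ Finset.range (M + 1), pc E m ψ v) :
    DE E g = ∑ m ∈ Finset.Icc 1 M, nn (Module.finrank ℝ E) m * pq E m ψ := by
  set p := Module.finrank ℝ E with hp
  set d := Module.finrank ℝ V with hd
  have hpd : p ≤ d := Submodule.finrank_le E
  have := ms_prob (⊤ : Submodule ℝ V)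
  have := ms_prob E
  have hunit := c4_top_unit (V := V) (by omega)
  have hGd := c4_mG_pos (p := d) (by omega)
  have hGp := c4_mG_pos (p := p) (by omega)
  have hGp1 := c4_mG_pos (p := p - 1) (by omega)
  set A := ∫ w, ψ w ∂(ms E) with hA
  -- the first term
  have t1 : (∫ a, ‖E.starProjection a‖ * g a ∂(ms (⊤ : Submodule ℝ V))) * mG d / mG p = A := by
    rw [c4_one (by omega) le_rfl hg hCg hgψ, ← hp, ← hd, c4_ratio (by omega) (by omega), ← hA]
    field_simp
  have t0 : pq E 0 ψ = A ^ 2 := by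
    unfold pq
    simp_rw [pc_zero_deg]
    rw [integral_mul_const, sq]
  -- the inner integral
  have inner : ∀ a : V, ∫ b, ‖E.starProjection a‖ * ‖ort (E.starProjection a) (E.starProjection b)‖ *
      (g a * g b) ∂(ms (⊤ : Submodule ℝ V)) =
      (mG (p - 1) / mG d) * ∑ m ∈ Finset.range (M + 1), rR p m *
        (‖E.starProjection a‖ * g a * pc E m ψ (nrm (E.starProjection a))) := by
    intro a
    by_cases ha : E.starProjection a = 0
    · simp [ha]
    · have hâ : nrm (E.starProjection a) ∈ E := by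
        unfold nrm
        exact E.smul_mem _ (Submodule.starProjection_apply_mem _ _)
      have hâ1 := c4_nrm_unit ha
      have hfr := finrank_sb ha
      have hle : sb E a ≤ E := inf_le_left
      have e1 : ∫ b, ‖E.starProjection a‖ * ‖ort (E.starProjection a) (E.starProjection b)‖ *
          (g a * g b) ∂(ms (⊤ : Submodule ℝ V)) =
          (‖E.starProjection a‖ * g a) *
            ∫ b, ‖(sb E a).starProjection b‖ * g b ∂(ms (⊤ : Submodule ℝ V)) := by
        rw [← integral_const_mul]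
        refine integral_congr_ae (Eventually.of_forall fun b => ?_)
        show ‖E.starProjection a‖ * ‖ort (E.starProjection a) (E.starProjection b)‖ * (g a * g b) =
          (‖E.starProjection a‖ * g a) * (‖(sb E a).starProjection b‖ * g b)
        rw [sb_proj]
        ring
      have e2 : ∫ w, ψ w ∂(ms (sb E a)) =
          ∑ m ∈ Finset.range (M + 1), rR p m * pc E m ψ (nrm (E.starProjection a)) := by
        rw [c4_sb a ha]
        have := ms_prob (sb E (nrm (E.starProjection a)))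
        have hae := ms_sb hâ hâ1 (by omega)
        have e3 : ∫ w, ψ w ∂(ms (sb E (nrm (E.starProjection a)))) =
            ∫ w, ∑ m ∈ Finset.range (M + 1), pc E m ψ w ∂(ms (sb E (nrm (E.starProjection a)))) :=
          integral_congr_ae (hae.mono fun w hw => hex w hw.2.1 hw.1)
        rw [e3, integral_finsetSum]
        · exact Finset.sum_congr rfl fun m _ => pc_sb hE hψ hC m hâ hâ1
        · intro m _
          refine Integrable.of_bound (pc_meas hψ m).aestronglyMeasurable (nN p (2 * m) * C) ?_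
          filter_upwards [hae] with w hw
          rw [Real.norm_eq_abs]
          exact pc_bdd hE hψ hC m hw.1.le
      rw [e1, c4_one (by omega) hle hg hCg hgψ, e2,
        show Module.finrank ℝ (sb E a) = p - 1 by omega, ← hd, c4_ratio (by omega) (by omega)]
      simp only [Finset.mul_sum]
      refine Finset.sum_congr rfl fun m _ => ?_
      ring
  -- the outer integral
  have outer : ∀ m : ℕ, ∫ a, ‖E.starProjection a‖ * g a * pc E m ψ (nrm (E.starProjection a))
      ∂(ms (⊤ : Submodule ℝ V)) = mG p / mG d / tT p m * pq E m ψ := by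
    intro m
    have h := c4_fub (F := E) (by omega) le_rfl hg hCg (pc_meas (E := E) hψ m)
      (C' := nN p (2 * m) * C) (fun w hw => pc_bdd hE hψ hC m hw.le) hgψ
    have hmp := mm_pos (p := p) (by omega)
    have htT := tT_ne hE m
    have e1 : ∫ a, g a * (∫ w, |⟪a, w⟫| * pc E m ψ w ∂(ms E)) ∂(ms (⊤ : Submodule ℝ V)) =
        (mm p * tT p m) * ∫ a, ‖E.starProjection a‖ * g a * pc E m ψ (nrm (E.starProjection a))
          ∂(ms (⊤ : Submodule ℝ V)) := by
      rw [← integral_const_mul]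
      refine integral_congr_ae (Eventually.of_forall fun a => ?_)
      show g a * (∫ w, |⟪a, w⟫| * pc E m ψ w ∂(ms E)) =
        (mm p * tT p m) * (‖E.starProjection a‖ * g a * pc E m ψ (nrm (E.starProjection a)))
      rw [pc_abs hE hψ hC m a]
      ring
    have e2 : ∫ w, ψ w * pc E m ψ w ∂(ms E) = pq E m ψ := rfl
    rw [e1, e2, ← hd] at h
    rw [← c4_ratio (d := d) (q := p) (by omega) (by omega)]
    have h3 : mm p * tT p m ≠ 0 := mul_ne_zero hmp.ne' htT
    rw [div_div, div_mul_eq_mul_div, eq_div_iff h3, ← h]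
    ring
  have t2 : (∫ a, ∫ b, ‖E.starProjection a‖ * ‖ort (E.starProjection a) (E.starProjection b)‖ * (g a * g b)
      ∂(ms (⊤ : Submodule ℝ V)) ∂(ms (⊤ : Submodule ℝ V))) *
      (mG d ^ 2 / (mG p * mG (p - 1))) = -∑ m ∈ Finset.range (M + 1), nn p m * pq E m ψ := by
    simp_rw [inner]
    rw [integral_const_mul, integral_finsetSum]
    · simp_rw [integral_const_mul, outer]
      rw [Finset.mul_sum, Finset.sum_mul, ← Finset.sum_neg_distrib]
      refine Finset.sum_congr rfl fun m _ => ?_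
      have htT := tT_ne hE m
      rw [rR_eq hE m]
      field_simp
    · intro m _
      refine Integrable.const_mul ?_ _
      have hm : Measurable (fun a : V => ‖E.starProjection a‖ * g a *
          pc E m ψ (nrm (E.starProjection a))) :=
        ((E.starProjection.continuous.measurable.norm).mul hg).mul
          ((pc_meas hψ m).comp (c4_nrm_meas.comp E.starProjection.continuous.measurable))
      refine Integrable.of_bound hm.aestronglyMeasurable (1 * Cg * (nN p (2 * m) * C)) ?_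
      filter_upwards [hunit] with a ha
      rw [Real.norm_eq_abs, abs_mul, abs_mul, abs_norm]
      have h1 : ‖E.starProjection a‖ ≤ 1 := by
        rw [← ha]; exact E.norm_starProjection_apply_le a
      have h2 := pc_bdd (E := E) hE hψ hC m (c4_nrm_le (E.starProjection a))
      exact mul_le_mul (mul_le_mul h1 (hCg a) (abs_nonneg _) zero_le_one) h2 (abs_nonneg _)
        (mul_nonneg zero_le_one ((abs_nonneg _).trans (hCg a)))
  unfold DE
  rw [← hp, ← hd, t1, t2, Finset.sum_range_succ', t0, nn_zero hE]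
  have e : ∑ m ∈ Finset.Icc 1 M, nn p m * pq E m ψ =
      ∑ m ∈ Finset.range M, nn p (m + 1) * pq E (m + 1) ψ := by
    have e0 : Finset.Icc 1 M = Finset.Ico 1 (M + 1) := by
      ext x
      simp [Nat.lt_succ_iff]
    rw [e0, Finset.sum_Ico_eq_sum_range]
    refine Finset.sum_congr (by simp) fun m _ => ?_
    rw [add_comm 1 m]
  rw [e]
  ring

end Pool.Agent.HRJ
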