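import Pool.Agent.HRJ.C5a
import Pool.Agent.HRJ.A3

/-!
# HRJ-C5: the duality

`et E M ψ = ∑_{1 ≤ m ≤ M} nn p m * pc E m ψ`, `ZZ E φ h u = ∫ gK d (2h) ⟪u, w⟫ φ w d(ms E)(w)`.  PROOF PLAN.
`zz_pair`: `ff ρ (2h) w = ∫ gK d (2h) ⟪w,u⟫ ff ρ (2h) u d(ms ⊤)(u)` for unit `w` (`ff_rep`), Fubini.
`zz_sq`: Fubini and `∫ gK d (2h) ⟪u,w⟫ gK d (2h) ⟪u,w'⟫ d(ms ⊤)(u) = gK d (2h) ⟪w,w'⟫` (`fh`, `mu_gK`) give `∫ ∫ gK d (2h) ⟪w,w'⟫ φ w φ w'`, by `gK_conn` `= ∑_m aa d p h m ∫ ∫ gK p (2m) ⟪w,w'⟫ φ w φ w'`; for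
`φ = et E M ψ` the inner integral is `nn p m * pc E m ψ w` if `1 ≤ m ≤ M`, else 0 (`pc_pc`); then `pc_mul`; `aa d p h m = 0` for `m > h`.
`et_pair`: the definition of `pq`.
-/

set_option autoImplicit false

namespace Pool.Agent.HRJ

open MeasureTheory ProbabilityTheory Set Filter Topology Metric
open Pool.Agent.HP89 Pool.Agent.FI75 Pool.Agent.PBL
open scoped RealInnerProductSpace ENNReal

variable {V : Type*} [NormedAddCommGroup V] [InnerProductSpace ℝ V] [FiniteDimensional ℝ V]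
  [MeasurableSpace V] [BorelSpace V]

private theorem C5_gK_meas (q l : ℕ) : Measurable (gK q l) := by
  have h : gK q l = fun t => nN q l * gP q l t := rfl
  rw [h]
  exact (continuous_const.mul (continuous_gP q l)).measurable

private theorem C5_gK_abs {q : ℕ} (hq : 3 ≤ q) (l : ℕ) {t : ℝ} (ht : |t| ≤ 1) : |gK q l t| ≤ nN q l := by
  have h1 : gK q l t = nN q l * gP q l t := rfl
  have h2 := gP_abs_le hq l ht
  have h3 := nN_pos hq l
  rw [h1, abs_mul, abs_of_pos h3]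
  nlinarith

private theorem C5_inner_abs {u w : V} (hu : ‖u‖ = 1) (hw : ‖w‖ = 1) : |⟪u, w⟫| ≤ 1 := by
  have h := abs_real_inner_le_norm u w
  rw [hu, hw, mul_one] at h
  exact h

private theorem C5_int {μ : Measure V} [IsProbabilityMeasure μ] (hμ : ∀ᵐ w ∂μ, ‖w‖ = 1) {f : V → ℝ} (hf : Measurable f)
    {B : ℝ} (hB : ∀ w, ‖w‖ = 1 → |f w| ≤ B) : Integrable f μ := by
  refine Integrable.of_bound hf.aestronglyMeasurable B ?_
  filter_upwards [hμ] with w hw
  rw [Real.norm_eq_abs]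
  exact hB w hw

/-- Fubini -/
private theorem C5_fub {q : ℕ} (hq : 3 ≤ q) (l : ℕ) {σ μ : Measure V} [IsProbabilityMeasure σ] [IsProbabilityMeasure μ]
    (hσ : ∀ᵐ u ∂σ, ‖u‖ = 1) (hμ : ∀ᵐ w ∂μ, ‖w‖ = 1) {A B : V → ℝ} (hA : Measurable A) (hB : Measurable B) {CA CB : ℝ}
    (hCA : ∀ u, ‖u‖ = 1 → |A u| ≤ CA) (hCB : ∀ w, ‖w‖ = 1 → |B w| ≤ CB) :
    ∫ u, A u * (∫ w, gK q l ⟪u, w⟫ * B w ∂μ) ∂σ = ∫ w, B w * (∫ u, gK q l ⟪u, w⟫ * A u ∂σ) ∂μ := by
  have hK : Measurable (fun z : V × V => gK q l ⟪z.1, z.2⟫) :=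
    (C5_gK_meas q l).comp (continuous_fst.inner continuous_snd).measurable
  have hint : Integrable (Function.uncurry fun u w => A u * (gK q l ⟪u, w⟫ * B w)) (σ.prod μ) := by
    have hm : Measurable (Function.uncurry fun u w => A u * (gK q l ⟪u, w⟫ * B w)) :=
      (hA.comp measurable_fst).mul (hK.mul (hB.comp measurable_snd))
    refine Integrable.of_bound hm.aestronglyMeasurable (CA * (nN q l * CB)) ?_
    have h1 := (Measure.quasiMeasurePreserving_fst (μ := σ) (ν := μ)).ae hσ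
    have h2 := (Measure.quasiMeasurePreserving_snd (μ := σ) (ν := μ)).ae hμ
    filter_upwards [h1, h2] with z hz1 hz2
    rw [Real.norm_eq_abs]
    show |A z.1 * (gK q l ⟪z.1, z.2⟫ * B z.2)| ≤ _
    rw [abs_mul, abs_mul]
    have e1 := hCA z.1 hz1
    have e2 := hCB z.2 hz2
    have e3 := C5_gK_abs hq l (C5_inner_abs hz1 hz2)
    have e0 : 0 ≤ CA := (abs_nonneg _).trans e1
    exact mul_le_mul e1 (mul_le_mul e3 e2 (abs_nonneg _) (nN_pos hq l).le) (by positivity) e0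
  calc ∫ u, A u * (∫ w, gK q l ⟪u, w⟫ * B w ∂μ) ∂σ = ∫ u, ∫ w, A u * (gK q l ⟪u, w⟫ * B w) ∂μ ∂σ := by
        refine integral_congr_ae (Eventually.of_forall fun u => ?_)
        exact (integral_const_mul _ _).symm
    _ = ∫ w, ∫ u, A u * (gK q l ⟪u, w⟫ * B w) ∂σ ∂μ := integral_integral_swap hint
    _ = ∫ w, B w * (∫ u, gK q l ⟪u, w⟫ * A u ∂σ) ∂μ := by
        refine integral_congr_ae (Eventually.of_forall fun w => ?_)
        show ∫ u, A u * (gK q l ⟪u, w⟫ * B w) ∂σ = B w * (∫ u, gK q l ⟪u, w⟫ * A u ∂σ)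
        rw [← integral_const_mul]
        refine integral_congr_ae (Eventually.of_forall fun u => ?_)
        show A u * (gK q l ⟪u, w⟫ * B w) = B w * (gK q l ⟪u, w⟫ * A u)
        ring

/-- the reproducing property -/
private theorem C5_rep (hV : 3 ≤ Module.finrank ℝ V) (l : ℕ) {w w' : V} (hw : ‖w‖ = 1) (hw' : ‖w'‖ = 1) :
    ∫ u, gK (Module.finrank ℝ V) l ⟪u, w'⟫ * gK (Module.finrank ℝ V) l ⟪u, w⟫ ∂(ms (⊤ : Submodule ℝ V)) =
      gK (Module.finrank ℝ V) l ⟪w, w'⟫ := by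
  have hT : 3 ≤ Module.finrank ℝ (⊤ : Submodule ℝ V) := by rw [finrank_top]; exact hV
  have h1 := fh (E := (⊤ : Submodule ℝ V)) hT (u := w) (v := w') Submodule.mem_top hw Submodule.mem_top hw'
    (f := gK (Module.finrank ℝ V) l) (C5_gK_meas _ _) (C := nN (Module.finrank ℝ V) l) (fun t ht => C5_gK_abs hV l ht) l
  rw [finrank_top, mu_gK hV, if_pos rfl, one_mul] at h1
  have h2 : ∀ u : V, gK (Module.finrank ℝ V) l ⟪u, w'⟫ * gK (Module.finrank ℝ V) l ⟪u, w⟫ =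
      nN (Module.finrank ℝ V) l * (gK (Module.finrank ℝ V) l ⟪u, w'⟫ * gP (Module.finrank ℝ V) l ⟪w, u⟫) := by
    intro u
    have h3 : gK (Module.finrank ℝ V) l ⟪u, w⟫ = nN (Module.finrank ℝ V) l * gP (Module.finrank ℝ V) l ⟪w, u⟫ := by
      rw [real_inner_comm]
      rfl
    rw [h3]
    ring
  rw [integral_congr_ae (Eventually.of_forall h2), integral_const_mul, h1]
  rfl

variable {E : Submodule ℝ V} {ψ : V → ℝ} {C : ℝ}

/-- the zonal transform on the unit sphere of `E` -/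
private theorem C5_ZZ (hE : 3 ≤ Module.finrank ℝ E) (hEV : Module.finrank ℝ E < Module.finrank ℝ V) (hψ : Measurable ψ)
    (hC : ∀ v, |ψ v| ≤ C) (M h : ℕ) {w : V} (hw : w ∈ E) (hw1 : ‖w‖ = 1) :
    ZZ E (et E M ψ) h w = ∑ m ∈ Finset.Icc 1 M, (aa (Module.finrank ℝ V) (Module.finrank ℝ E) h m *
      nn (Module.finrank ℝ E) m) * pc E m ψ w := by
  haveI := ms_prob E
  have hμ : ∀ᵐ w ∂(ms E), ‖w‖ = 1 := (ms_unit E (by omega)).mono fun _ h => h.1
  have hint : ∀ m l : ℕ, Integrable (fun w' => gK (Module.finrank ℝ E) (2 * m) ⟪w, w'⟫ * pc E l ψ w') (ms E) := by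
    intro m l
    refine C5_int hμ (B := nN (Module.finrank ℝ E) (2 * m) * (nN (Module.finrank ℝ E) (2 * l) * C)) ?_ ?_
    · exact ((C5_gK_meas _ _).comp (continuous_const.inner continuous_id).measurable).mul (pc_meas hψ l)
    · intro w' hw'
      rw [abs_mul]
      exact mul_le_mul (C5_gK_abs hE _ (C5_inner_abs hw1 hw')) (pc_bdd hE hψ hC l hw'.le) (abs_nonneg _)
        (nN_pos hE _).le
  have e1 : ∀ w' : V, gK (Module.finrank ℝ V) (2 * h) ⟪w, w'⟫ * et E M ψ w' =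
      ∑ l ∈ Finset.Icc 1 M, ∑ m ∈ Finset.range (h + 1), (aa (Module.finrank ℝ V) (Module.finrank ℝ E) h m *
        nn (Module.finrank ℝ E) l) * (gK (Module.finrank ℝ E) (2 * m) ⟪w, w'⟫ * pc E l ψ w') := by
    intro w'
    rw [gK_conn hE hEV h]
    unfold et
    rw [Finset.mul_sum]
    refine Finset.sum_congr rfl fun l _ => ?_
    rw [Finset.sum_mul]
    refine Finset.sum_congr rfl fun m _ => ?_
    ring
  unfold ZZ
  rw [integral_congr_ae (Eventually.of_forall e1), integral_finsetSum]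
  · refine Finset.sum_congr rfl fun l _ => ?_
    rw [integral_finsetSum]
    · have e2 : ∀ m ∈ Finset.range (h + 1), ∫ w', (aa (Module.finrank ℝ V) (Module.finrank ℝ E) h m *
          nn (Module.finrank ℝ E) l) * (gK (Module.finrank ℝ E) (2 * m) ⟪w, w'⟫ * pc E l ψ w') ∂(ms E) =
          if m = l then (aa (Module.finrank ℝ V) (Module.finrank ℝ E) h m * nn (Module.finrank ℝ E) l) * pc E l ψ w else 0 := by
        intro m _
        rw [integral_const_mul, pc_pc hE hψ hC m l hw hw1]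
        by_cases hml : m = l
        · rw [if_pos hml, if_pos hml]
        · rw [if_neg hml, if_neg hml, mul_zero]
      rw [Finset.sum_congr rfl e2, Finset.sum_ite_eq']
      by_cases hl : l ∈ Finset.range (h + 1)
      · rw [if_pos hl]
      · have hl' : ¬ l ≤ h := by
          rw [Finset.mem_range] at hl
          omega
        rw [if_neg hl]
        unfold aa
        rw [if_neg hl', zero_mul, zero_mul]
    · intro m _
      exact (hint m l).const_mul _
  · intro l _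
    exact integrable_finsetSum _ fun m _ => (hint m l).const_mul _

theorem zz_sq (hE : 3 ≤ Module.finrank ℝ E) (hEV : Module.finrank ℝ E < Module.finrank ℝ V) (hψ : Measurable ψ)
    (hC : ∀ v, |ψ v| ≤ C) (M h : ℕ) :
    ∫ u, ZZ E (et E M ψ) h u * ZZ E (et E M ψ) h u ∂(ms (⊤ : Submodule ℝ V)) =
      ∑ m ∈ Finset.Icc 1 M, aa (Module.finrank ℝ V) (Module.finrank ℝ E) h m *
        (nn (Module.finrank ℝ E) m ^ 2 * pq E m ψ) := by
  haveI := ms_prob E
  haveI := ms_prob (⊤ : Submodule ℝ V)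
  have hV : 3 ≤ Module.finrank ℝ V := by omega
  have hμE := ms_unit E (by omega)
  have hμ : ∀ᵐ w ∂(ms E), ‖w‖ = 1 := hμE.mono fun _ h => h.1
  have hσ : ∀ᵐ w ∂(ms (⊤ : Submodule ℝ V)), ‖w‖ = 1 :=
    (ms_unit (⊤ : Submodule ℝ V) (by rw [finrank_top]; omega)).mono fun _ h => h.1
  have hφ := et_meas (E := E) hψ M
  obtain ⟨C₁, hC₁⟩ := et_bdd hE hψ hC M
  have hZ := ZZ_meas (E := E) hφ h
  obtain ⟨C₂, hC₂⟩ := ZZ_bdd hE hφ hC₁ h
  -- first step
  have s1 : ∫ u, ZZ E (et E M ψ) h u * ZZ E (et E M ψ) h u ∂(ms (⊤ : Submodule ℝ V)) =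
      ∫ w, et E M ψ w * (∫ u, gK (Module.finrank ℝ V) (2 * h) ⟪u, w⟫ * ZZ E (et E M ψ) h u
        ∂(ms (⊤ : Submodule ℝ V))) ∂(ms E) :=
    C5_fub hV (2 * h) hσ hμ hZ hφ (fun u hu => hC₂ u hu.le) (fun w hw => hC₁ w hw.le)
  -- second step
  have s2 : ∀ w : V, ‖w‖ = 1 → ∫ u, gK (Module.finrank ℝ V) (2 * h) ⟪u, w⟫ * ZZ E (et E M ψ) h u
      ∂(ms (⊤ : Submodule ℝ V)) = ZZ E (et E M ψ) h w := by
    intro w hw
    have h1 := C5_fub hV (2 * h) hσ hμ (A := fun u => gK (Module.finrank ℝ V) (2 * h) ⟪u, w⟫) (B := et E M ψ)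
      ((C5_gK_meas _ _).comp (continuous_id.inner continuous_const).measurable) hφ
      (fun u hu => C5_gK_abs hV _ (C5_inner_abs hu hw)) (fun w hw => hC₁ w hw.le)
    refine h1.trans ?_
    unfold ZZ
    refine integral_congr_ae ?_
    filter_upwards [hμ] with w' hw'
    show et E M ψ w' * (∫ u, gK (Module.finrank ℝ V) (2 * h) ⟪u, w'⟫ * gK (Module.finrank ℝ V) (2 * h) ⟪u, w⟫
      ∂(ms (⊤ : Submodule ℝ V))) = gK (Module.finrank ℝ V) (2 * h) ⟪w, w'⟫ * et E M ψ w'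
    rw [C5_rep hV (2 * h) hw hw', mul_comm]
  -- third step
  have s3 : ∫ w, et E M ψ w * (∫ u, gK (Module.finrank ℝ V) (2 * h) ⟪u, w⟫ * ZZ E (et E M ψ) h u
        ∂(ms (⊤ : Submodule ℝ V))) ∂(ms E) =
      ∫ w, ∑ m ∈ Finset.Icc 1 M, ∑ l ∈ Finset.Icc 1 M, ((aa (Module.finrank ℝ V) (Module.finrank ℝ E) h m *
        nn (Module.finrank ℝ E) m) * nn (Module.finrank ℝ E) l) * (pc E l ψ w * pc E m ψ w) ∂(ms E) := by
    refine integral_congr_ae ?_
    filter_upwards [hμE] with w hw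
    rw [s2 w hw.1, C5_ZZ hE hEV hψ hC M h hw.2 hw.1]
    unfold et
    rw [Finset.mul_sum]
    refine Finset.sum_congr rfl fun m _ => ?_
    rw [Finset.sum_mul]
    refine Finset.sum_congr rfl fun l _ => ?_
    ring
  have hint : ∀ m l : ℕ, Integrable (fun w => pc E l ψ w * pc E m ψ w) (ms E) := by
    intro m l
    refine C5_int hμ (B := nN (Module.finrank ℝ E) (2 * l) * C * (nN (Module.finrank ℝ E) (2 * m) * C)) ?_ ?_
    · exact (pc_meas hψ l).mul (pc_meas hψ m)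
    · intro w hw
      rw [abs_mul]
      have h1 := pc_bdd hE hψ hC l hw.le
      have h2 := pc_bdd hE hψ hC m hw.le
      exact mul_le_mul h1 h2 (abs_nonneg _) ((abs_nonneg _).trans h1)
  rw [s1, s3, integral_finsetSum]
  · refine Finset.sum_congr rfl fun m hm => ?_
    rw [integral_finsetSum]
    · have e2 : ∀ l ∈ Finset.Icc 1 M, ∫ w, ((aa (Module.finrank ℝ V) (Module.finrank ℝ E) h m *
          nn (Module.finrank ℝ E) m) * nn (Module.finrank ℝ E) l) * (pc E l ψ w * pc E m ψ w) ∂(ms E) =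
          if l = m then ((aa (Module.finrank ℝ V) (Module.finrank ℝ E) h m *
          nn (Module.finrank ℝ E) m) * nn (Module.finrank ℝ E) l) * pq E m ψ else 0 := by
        intro l _
        rw [integral_const_mul, pc_mul hE hψ hC l m]
        by_cases hml : l = m
        · rw [if_pos hml, if_pos hml]
        · rw [if_neg hml, if_neg hml, mul_zero]
      rw [Finset.sum_congr rfl e2, Finset.sum_ite_eq', if_pos hm]
      ring
    · intro l _
      exact (hint m l).const_mul _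
  · intro m _
    exact integrable_finsetSum _ fun l _ => (hint m l).const_mul _

end Pool.Agent.HRJ
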