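import Pool.Agent.HRJ.C1
import Pool.Agent.HRJ.C2

/-!
# HRJ-C5a: the duality

`et E M ψ = ∑_{1 ≤ m ≤ M} nn p m * pc E m ψ`, `ZZ E φ h u = ∫ gK d (2h) ⟪u, w⟫ φ w d(ms E)(w)`.  PROOF PLAN.
`zz_pair`: `ff ρ (2h) w = ∫ gK d (2h) ⟪w,u⟫ ff ρ (2h) u d(ms ⊤)(u)` for unit `w` (`ff_rep`), Fubini.
`zz_sq`: Fubini and `∫ gK d (2h) ⟪u,w⟫ gK d (2h) ⟪u,w'⟫ d(ms ⊤)(u) = gK d (2h) ⟪w,w'⟫` (`fh`, `mu_gK`) give `∫ ∫ gK d (2h) ⟪w,w'⟫ φ w φ w'`, by `gK_conn` `= ∑_m aa d p h m ∫ ∫ gK p (2m) ⟪w,w'⟫ φ w φ w'`; for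
`φ = et E M ψ` the inner integral is `nn p m * pc E m ψ w` if `1 ≤ m ≤ M`, else 0 (`pc_pc`); then `pc_mul`; `aa d p h m = 0` for `m > h`.
`et_pair`: the definition of `pq`.
-/

set_option autoImplicit false

namespace Pool.Agent.HRJ

open MeasureTheory ProbabilityTheory Set Filter Topology Metric
open Pool.Agent.HP89 Pool.Agent.FI75 Pool.Agent.PBL
open scoped RealInnerProductSpace ENNReal

variable {V : Type*} [NormedAddCommGroup V] [InnerProductSpace ℝ V] [FiniteDimensional ℝ V]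
  [MeasurableSpace V] [BorelSpace V]

/-- the function `η` -/
noncomputable def et (E : Submodule ℝ V) (M : ℕ) (ψ : V → ℝ) (w : V) : ℝ :=
  ∑ m ∈ Finset.Icc 1 M, nn (Module.finrank ℝ E) m * pc E m ψ w

/-- the zonal transform of a function on the unit sphere of `E` -/
noncomputable def ZZ (E : Submodule ℝ V) (φ : V → ℝ) (h : ℕ) (u : V) : ℝ :=
  ∫ w, gK (Module.finrank ℝ V) (2 * h) ⟪u, w⟫ * φ w ∂(ms E)

variable {E : Submodule ℝ V} {ψ : V → ℝ} {C : ℝ}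

private theorem c5_fub (μ ν : Measure V) [IsProbabilityMeasure μ] [IsProbabilityMeasure ν] {F : V → V → ℝ}
    (hF : Measurable (Function.uncurry F)) {B : ℝ} (hμ : ∀ᵐ w ∂μ, ‖w‖ = 1) (hν : ∀ᵐ x ∂ν, ‖x‖ = 1)
    (hB : ∀ w x, ‖w‖ = 1 → ‖x‖ = 1 → |F w x| ≤ B) :
    ∫ w, ∫ x, F w x ∂ν ∂μ = ∫ x, ∫ w, F w x ∂μ ∂ν := by
  apply integral_integral_swap
  apply Integrable.of_bound hF.aestronglyMeasurable B
  filter_upwards [Measure.quasiMeasurePreserving_fst.ae hμ, Measure.quasiMeasurePreserving_snd.ae hν]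
    with z h1 h2
  rw [Real.norm_eq_abs]
  exact hB z.1 z.2 h1 h2

private theorem c5_gK_meas (p l : ℕ) : Measurable (gK p l) := by
  unfold gK
  exact (continuous_gP p l).measurable.const_mul _

private theorem c5_gK_le {p : ℕ} (hp : 3 ≤ p) (l : ℕ) {t : ℝ} (ht : |t| ≤ 1) : |gK p l t| ≤ nN p l := by
  unfold gK
  rw [abs_mul, abs_of_pos (nN_pos hp l)]
  have h1 := gP_abs_le hp l ht
  have h2 := nN_pos hp l
  calc nN p l * |gP p l t| ≤ nN p l * 1 := mul_le_mul_of_nonneg_left h1 h2.le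
    _ = nN p l := mul_one _

private theorem c5_inner {v w : V} (hv : ‖v‖ ≤ 1) (hw : ‖w‖ = 1) : |⟪v, w⟫| ≤ 1 := by
  calc |⟪v, w⟫| ≤ ‖v‖ * ‖w‖ := abs_real_inner_le_norm v w
    _ ≤ 1 := by rw [hw, mul_one]; exact hv

private theorem c5_meas2 {φ : V → ℝ} (hφ : Measurable φ) (p l : ℕ) :
    Measurable (fun q : V × V => gK p l ⟪q.1, q.2⟫ * φ q.2) :=
  ((c5_gK_meas p l).comp (measurable_fst.inner measurable_snd)).mul (hφ.comp measurable_snd)

private theorem c5_unit (hE : 3 ≤ Module.finrank ℝ E) : ∀ᵐ w ∂(ms E), ‖w‖ = 1 := by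
  filter_upwards [ms_unit E (by omega)] with w hw
  exact hw.1

theorem et_pair (hE : 3 ≤ Module.finrank ℝ E) (hψ : Measurable ψ) (hC : ∀ v, |ψ v| ≤ C) (M : ℕ) :
    ∫ w, ψ w * et E M ψ w ∂(ms E) = ∑ m ∈ Finset.Icc 1 M, nn (Module.finrank ℝ E) m * pq E m ψ := by
  haveI := ms_prob E
  have hC0 : 0 ≤ C := (abs_nonneg _).trans (hC 0)
  have h1 : ∀ w, ψ w * et E M ψ w =
      ∑ m ∈ Finset.Icc 1 M, nn (Module.finrank ℝ E) m * (ψ w * pc E m ψ w) := by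
    intro w
    unfold et
    rw [Finset.mul_sum]
    exact Finset.sum_congr rfl fun m _ => by ring
  simp_rw [h1]
  rw [integral_finsetSum]
  · refine Finset.sum_congr rfl fun m _ => ?_
    rw [integral_const_mul]
    rfl
  · intro m _
    refine Integrable.const_mul ?_ _
    refine Integrable.of_bound (hψ.mul (pc_meas hψ m)).aestronglyMeasurable
      (C * (nN (Module.finrank ℝ E) (2 * m) * C)) ?_
    filter_upwards [c5_unit hE] with w hw
    rw [Real.norm_eq_abs, abs_mul]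
    exact mul_le_mul (hC w) (pc_bdd hE hψ hC m hw.le) (abs_nonneg _) hC0

theorem et_meas (hψ : Measurable ψ) (M : ℕ) : Measurable (et E M ψ) := by
  unfold et
  exact Finset.measurable_fun_sum _ fun m _ => (pc_meas hψ m).const_mul _

theorem et_bdd (hE : 3 ≤ Module.finrank ℝ E) (hψ : Measurable ψ) (hC : ∀ v, |ψ v| ≤ C) (M : ℕ) :
    ∃ C' : ℝ, ∀ v, ‖v‖ ≤ 1 → |et E M ψ v| ≤ C' := by
  refine ⟨∑ m ∈ Finset.Icc 1 M, |nn (Module.finrank ℝ E) m| * (nN (Module.finrank ℝ E) (2 * m) * C), ?_⟩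
  intro v hv
  unfold et
  refine (Finset.abs_sum_le_sum_abs _ _).trans (Finset.sum_le_sum fun m _ => ?_)
  rw [abs_mul]
  exact mul_le_mul_of_nonneg_left (pc_bdd hE hψ hC m hv) (abs_nonneg _)

theorem ZZ_meas {φ : V → ℝ} (hφ : Measurable φ) (h : ℕ) : Measurable (ZZ E φ h) := by
  haveI := ms_prob E
  exact (c5_meas2 hφ (Module.finrank ℝ V) (2 * h)).stronglyMeasurable.integral_prod_right'.measurable

theorem ZZ_bdd (hE : 3 ≤ Module.finrank ℝ E) {φ : V → ℝ} (hφ : Measurable φ) (hC : ∀ v, ‖v‖ ≤ 1 → |φ v| ≤ C) (h : ℕ) :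
    ∃ C' : ℝ, ∀ v, ‖v‖ ≤ 1 → |ZZ E φ h v| ≤ C' := by
  haveI := ms_prob E
  have hV : 3 ≤ Module.finrank ℝ V := hE.trans (Submodule.finrank_le E)
  refine ⟨nN (Module.finrank ℝ V) (2 * h) * C, fun v hv => ?_⟩
  have h1 := norm_integral_le_of_norm_le_const (μ := ms E)
    (f := fun w => gK (Module.finrank ℝ V) (2 * h) ⟪v, w⟫ * φ w)
    (C := nN (Module.finrank ℝ V) (2 * h) * C) (by
      filter_upwards [c5_unit hE] with w hw
      rw [Real.norm_eq_abs, abs_mul]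
      exact mul_le_mul (c5_gK_le hV _ (c5_inner hv hw)) (hC w hw.le) (abs_nonneg _) (nN_pos hV _).le)
  rw [probReal_univ, mul_one, Real.norm_eq_abs] at h1
  exact h1

theorem zz_pair (hE : 3 ≤ Module.finrank ℝ E) {ρ : Measure V} (hρ : US ρ) {φ : V → ℝ} (hφ : Measurable φ)
    (hC : ∀ v, ‖v‖ ≤ 1 → |φ v| ≤ C) (h : ℕ) :
    ∫ w, ff ρ (2 * h) w * φ w ∂(ms E) = ∫ u, ff ρ (2 * h) u * ZZ E φ h u ∂(ms (⊤ : Submodule ℝ V)) := by
  haveI := ms_prob E
  haveI := ms_prob (⊤ : Submodule ℝ V)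
  have hV : 3 ≤ Module.finrank ℝ V := hE.trans (Submodule.finrank_le E)
  have hT : ∀ᵐ w ∂(ms (⊤ : Submodule ℝ V)), ‖w‖ = 1 := c5_unit (by rw [finrank_top]; exact hV)
  have hC0 : 0 ≤ C := (abs_nonneg _).trans (hC 0 (by simp))
  calc ∫ w, ff ρ (2 * h) w * φ w ∂(ms E)
      = ∫ w, ∫ u, gK (Module.finrank ℝ V) (2 * h) ⟪w, u⟫ * ff ρ (2 * h) u * φ w
          ∂(ms (⊤ : Submodule ℝ V)) ∂(ms E) := by
        refine integral_congr_ae ?_
        filter_upwards [c5_unit hE] with w hw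
        show ff ρ (2 * h) w * φ w = ∫ u, gK (Module.finrank ℝ V) (2 * h) ⟪w, u⟫ * ff ρ (2 * h) u * φ w
          ∂(ms (⊤ : Submodule ℝ V))
        rw [integral_mul_const, ff_rep hρ hV hw]
    _ = ∫ u, ∫ w, gK (Module.finrank ℝ V) (2 * h) ⟪w, u⟫ * ff ρ (2 * h) u * φ w
          ∂(ms E) ∂(ms (⊤ : Submodule ℝ V)) := by
        refine c5_fub _ _ ?_ (c5_unit hE) hT (B := nN (Module.finrank ℝ V) (2 * h) * nN (Module.finrank ℝ V) (2 * h) * C) ?_
        · exact (((c5_gK_meas _ _).comp (measurable_fst.inner measurable_snd)).mul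
            ((ff_meas hρ _).comp measurable_snd)).mul (hφ.comp measurable_fst)
        · intro w x hw hx
          rw [abs_mul, abs_mul]
          have h1 := c5_gK_le hV (2 * h) (c5_inner hw.le hx)
          have h2 := ff_bdd hρ hV (2 * h) x
          have h3 := hC w hw.le
          have h4 := (nN_pos hV (2 * h)).le
          exact mul_le_mul (mul_le_mul h1 h2 (abs_nonneg _) h4) h3 (abs_nonneg _) (mul_nonneg h4 h4)
    _ = ∫ u, ff ρ (2 * h) u * ZZ E φ h u ∂(ms (⊤ : Submodule ℝ V)) := by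
        refine integral_congr_ae (Eventually.of_forall fun u => ?_)
        show (∫ w, gK (Module.finrank ℝ V) (2 * h) ⟪w, u⟫ * ff ρ (2 * h) u * φ w ∂(ms E)) =
          ff ρ (2 * h) u * ZZ E φ h u
        unfold ZZ
        rw [← integral_const_mul]
        refine integral_congr_ae (Eventually.of_forall fun w => ?_)
        show gK (Module.finrank ℝ V) (2 * h) ⟪w, u⟫ * ff ρ (2 * h) u * φ w =
          ff ρ (2 * h) u * (gK (Module.finrank ℝ V) (2 * h) ⟪u, w⟫ * φ w)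
        rw [real_inner_comm]
        ring

end Pool.Agent.HRJ
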