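import Pool.Agent.HRJ.C3
import Pool.Agent.HRJ.C4
import Pool.Agent.HRJ.C5

/-!
# HRJ-C6: the trace inequality

PROOF PLAN.  `ψ = psi ρ N`, `M = 2 N`, `D = DE E (gN ρ N) = ∑_{1≤m≤M} nn p m pq_m = ∫ ψ η` (`DE_eq` with `psi_g`, `psi_expand`; `et_pair`); `D ≥ 0`.
`D = ∑_r T_r ∫ ff ρ (4(r+1)) η d(ms E) = ∑_r T_r ∫ ff ρ (4(r+1)) Z_r d(ms ⊤)` (`zz_pair`, `h = 2(r+1)`), Cauchy-Schwarz: `|∫ ff Z|² ≤ xx_r z_r`, `z_r = ∫ Z_r²` (`ff_sq`).  For every `s > 0` (or by the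
finite Cauchy-Schwarz inequality `Finset.sum_mul_sq_le_sq_mul_sq`) `D² ≤ (∑ lam_r xx_r) (∑ T_r²/lam_r z_r)`, `T_r²/lam_r = -T_r/(1-R_r)`; with `zz_sq` and exchanging the sums the second
factor is `∑_m nn p m pq_m Sm d p N m ≤ Θ D`.  So `D² ≤ AN Θ D`.  If `D = 0`: `0 ≤ Θ AN` (`Sm ≥ 0`: `nn_pos`, `aa_nonneg`, `tT_four`, `rR_four`, `rR_four_le`).
-/

set_option autoImplicit false

namespace Pool.Agent.HRJ

open MeasureTheory ProbabilityTheory Set Filter Topology Metric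
open Pool.Agent.HP89 Pool.Agent.FI75 Pool.Agent.PBL
open scoped RealInnerProductSpace ENNReal

variable {V : Type*} [NormedAddCommGroup V] [InnerProductSpace ℝ V] [FiniteDimensional ℝ V]
  [MeasurableSpace V] [BorelSpace V]

private theorem c6_cs {μ : Measure V} {f g : V → ℝ} (hff : Integrable (fun u => f u * f u) μ)
    (hgg : Integrable (fun u => g u * g u) μ) (hfg : Integrable (fun u => f u * g u) μ) :
    (∫ u, f u * g u ∂μ) ^ 2 ≤ (∫ u, f u * f u ∂μ) * ∫ u, g u * g u ∂μ := by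
  have h : ∀ t : ℝ, 0 ≤ (∫ u, f u * f u ∂μ) * (t * t) + (2 * ∫ u, f u * g u ∂μ) * t + ∫ u, g u * g u ∂μ := by
    intro t
    have h0 : 0 ≤ ∫ u, (f u * t + g u) * (f u * t + g u) ∂μ := integral_nonneg fun u => mul_self_nonneg _
    have h1 : ∫ u, (f u * t + g u) * (f u * t + g u) ∂μ =
        (∫ u, f u * f u ∂μ) * (t * t) + (2 * ∫ u, f u * g u ∂μ) * t + ∫ u, g u * g u ∂μ := by
      have e : (fun u => (f u * t + g u) * (f u * t + g u)) =
          fun u => (t * t) * (f u * f u) + (2 * t) * (f u * g u) + g u * g u := by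
        funext u; ring
      have i1 : Integrable (fun u => (t * t) * (f u * f u)) μ := hff.const_mul _
      have i2 : Integrable (fun u => (2 * t) * (f u * g u)) μ := hfg.const_mul _
      have i3 : Integrable (fun u => (t * t) * (f u * f u) + (2 * t) * (f u * g u)) μ := i1.add i2
      rw [e, integral_add i3 hgg, integral_add i1 i2, integral_const_mul, integral_const_mul]
      ring
    rwa [h1] at h0
  have h2 := discrim_le_zero h
  unfold discrim at h2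
  nlinarith

private theorem c6_int {μ : Measure V} [IsFiniteMeasure μ] {f : V → ℝ} (hf : Measurable f) {C : ℝ}
    (h : ∀ᵐ u ∂μ, |f u| ≤ C) : Integrable f μ :=
  Integrable.of_bound hf.aestronglyMeasurable C (by simpa [Real.norm_eq_abs] using h)

private theorem c6_mul {a b A B : ℝ} (ha : |a| ≤ A) (hb : |b| ≤ B) : |a * b| ≤ A * B := by
  rw [abs_mul]
  exact mul_le_mul ha hb (abs_nonneg _) ((abs_nonneg _).trans ha)

private theorem c6_y {ρ : Measure V} (hρ : US ρ) {E : Submodule ℝ V} (hE : 3 ≤ Module.finrank ℝ E)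
    (hV : 3 ≤ Module.finrank ℝ V) (hEV : Module.finrank ℝ E < Module.finrank ℝ V) {ψ : V → ℝ} {C : ℝ}
    (hψ : Measurable ψ) (hC : ∀ v, |ψ v| ≤ C) (M h : ℕ) :
    (∫ u, ff ρ (2 * h) u * ZZ E (et E M ψ) h u ∂(ms (⊤ : Submodule ℝ V))) ^ 2 ≤
      xx ρ (2 * h) * ∑ m ∈ Finset.Icc 1 M, aa (Module.finrank ℝ V) (Module.finrank ℝ E) h m *
        (nn (Module.finrank ℝ E) m ^ 2 * pq E m ψ) := by
  have := ms_prob (⊤ : Submodule ℝ V)
  obtain ⟨C1, hC1⟩ := et_bdd hE hψ hC M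
  have hm1 : Measurable (et E M ψ) := et_meas hψ M
  obtain ⟨C2, hC2⟩ := ZZ_bdd hE hm1 hC1 h
  have hm2 : Measurable (ZZ E (et E M ψ) h) := ZZ_meas hm1 h
  have hm3 : Measurable (ff ρ (2 * h)) := ff_meas hρ _
  have hu : ∀ᵐ u ∂(ms (⊤ : Submodule ℝ V)), ‖u‖ = 1 := by
    have h1 : 1 ≤ Module.finrank ℝ (⊤ : Submodule ℝ V) := by
      rw [finrank_top]; omega
    filter_upwards [ms_unit (⊤ : Submodule ℝ V) h1] with u hu using hu.1
  have hb : ∀ᵐ u ∂(ms (⊤ : Submodule ℝ V)), |ZZ E (et E M ψ) h u| ≤ C2 := by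
    filter_upwards [hu] with u hu using hC2 u hu.le
  have hf : ∀ u, |ff ρ (2 * h) u| ≤ nN (Module.finrank ℝ V) (2 * h) := fun u => ff_bdd hρ hV _ u
  have key := c6_cs (μ := ms (⊤ : Submodule ℝ V)) (f := ff ρ (2 * h)) (g := ZZ E (et E M ψ) h)
    (c6_int (hm3.mul hm3) (Filter.Eventually.of_forall fun u => c6_mul (hf u) (hf u)))
    (c6_int (hm2.mul hm2) (by filter_upwards [hb] with u hu using c6_mul hu hu))
    (c6_int (hm3.mul hm2) (by filter_upwards [hb] with u hu using c6_mul (hf u) hu))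
  rw [ff_sq hρ hV, zz_sq hE hEV hψ hC M h] at key
  exact key

private theorem c6_Sm {d p : ℕ} (hp : 3 ≤ p) (hpd : p < d) (N : ℕ) {m : ℕ} (hm : 1 ≤ m) : 0 ≤ Sm d p N m := by
  have hd : 3 ≤ d := by omega
  unfold Sm
  refine mul_nonneg (nn_pos hp hm).le (Finset.sum_nonneg fun r _ => mul_nonneg (aa_nonneg hp hpd _ _) ?_)
  have h1 := tT_four hd r
  have h2 : rR d (2 * (r + 1)) < 1 := by
    have h3 := rR_four_le hd r
    have h4 : (3 : ℝ) ≤ d := by exact_mod_cast hd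
    have h5 : (3 : ℝ) / ((d : ℝ) ^ 2 - 1) < 1 := by
      rw [div_lt_one (by nlinarith)]
      nlinarith
    linarith
  exact div_nonneg (by linarith) (by linarith)

theorem trace_ineq {ρ : Measure V} (hρ : US ρ) {E : Submodule ℝ V} (hE : 3 ≤ Module.finrank ℝ E)
    (hEV : Module.finrank ℝ E < Module.finrank ℝ V) (N : ℕ) {Θ : ℝ}
    (hΘ : ∀ m, 1 ≤ m → Sm (Module.finrank ℝ V) (Module.finrank ℝ E) N m ≤ Θ) :
    DE E (gN ρ N) ≤ Θ * AN ρ N := by
  set d := Module.finrank ℝ V with hd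
  set p := Module.finrank ℝ E with hp
  have hV : 3 ≤ Module.finrank ℝ V := by omega
  set ψ := psi ρ N with hψd
  have hψ : Measurable ψ := psi_meas hρ N
  obtain ⟨C, hC⟩ := psi_bdd hρ hV N
  obtain ⟨Cg, hCg⟩ := gN_bdd hρ hV N
  have hnn : ∀ m ∈ Finset.Icc 1 (2 * N), 0 ≤ nn p m * pq E m ψ := fun m hm =>
    mul_nonneg (nn_pos hE (Finset.mem_Icc.mp hm).1).le (pq_nonneg hE hψ hC m)
  have hD : DE E (gN ρ N) = ∑ m ∈ Finset.Icc 1 (2 * N), nn p m * pq E m ψ :=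
    DE_eq hE (gN_meas hρ N) hCg hψ hC (fun v _ hv1 => psi_g hρ hV N hv1)
      (fun v hv hv1 => psi_expand hρ hE N hv hv1)
  set D := ∑ m ∈ Finset.Icc 1 (2 * N), nn p m * pq E m ψ with hDdef
  have hD0 : 0 ≤ D := Finset.sum_nonneg hnn
  have hAN : 0 ≤ AN ρ N := AN_nonneg hρ hV N
  have hΘ0 : 0 ≤ Θ := (c6_Sm (d := d) (p := p) hE hEV N le_rfl).trans (hΘ 1 le_rfl)
  have hη : Measurable (et E (2 * N) ψ) := et_meas hψ _
  obtain ⟨C1, hC1⟩ := et_bdd hE hψ hC (2 * N)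
  have := ms_prob E
  have hub : ∀ᵐ w ∂(ms E), |et E (2 * N) ψ w| ≤ C1 := by
    filter_upwards [ms_unit E (by omega)] with w hw using hC1 w hw.1.le
  have hlam : ∀ r, 0 < lam d r := fun r => lam_pos (by omega) r
  have hT : ∀ r, tT d (2 * (r + 1)) < 0 := fun r => tT_four (by omega) r
  have hR : ∀ r, 0 < 1 - rR d (2 * (r + 1)) := by
    intro r
    have h1 := hlam r
    unfold lam at h1
    have h2 := hT r
    by_contra hc
    push Not at hc
    nlinarith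
  -- the pairing
  have hpair : D = ∑ r ∈ Finset.range N, tT d (2 * (r + 1)) *
      ∫ u, ff ρ (2 * (2 * (r + 1))) u * ZZ E (et E (2 * N) ψ) (2 * (r + 1)) u ∂(ms (⊤ : Submodule ℝ V)) := by
    have h1 : D = ∫ w, ψ w * et E (2 * N) ψ w ∂(ms E) := (et_pair hE hψ hC (2 * N)).symm
    have h2 : ∀ w, ψ w * et E (2 * N) ψ w = ∑ r ∈ Finset.range N, tT d (2 * (r + 1)) *
        (ff ρ (2 * (2 * (r + 1))) w * et E (2 * N) ψ w) := by
      intro w
      have e : ψ w = ∑ r ∈ Finset.range N, tT d (2 * (r + 1)) * ff ρ (2 * (2 * (r + 1))) w := by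
        have e1 : ∀ r : ℕ, 2 * (2 * (r + 1)) = 4 * (r + 1) := fun r => by ring
        simp only [e1]
        rfl
      rw [e, Finset.sum_mul]
      exact Finset.sum_congr rfl fun r _ => by ring
    rw [h1]
    simp only [h2]
    rw [integral_finsetSum]
    · refine Finset.sum_congr rfl fun r _ => ?_
      rw [integral_const_mul, zz_pair hE hρ hη hC1]
    · intro r _
      refine Integrable.const_mul ?_ _
      refine c6_int ((ff_meas hρ _).mul hη) (C := nN d (2 * (2 * (r + 1))) * C1) ?_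
      filter_upwards [hub] with w hw using c6_mul (ff_bdd hρ hV _ w) hw
  -- Cauchy-Schwarz
  have hsq : D ^ 2 ≤ (∑ r ∈ Finset.range N, lam d r * xx ρ (4 * (r + 1))) *
      ∑ r ∈ Finset.range N, (-tT d (2 * (r + 1)) / (1 - rR d (2 * (r + 1)))) *
        ∑ m ∈ Finset.Icc 1 (2 * N), aa d p (2 * (r + 1)) m * (nn p m ^ 2 * pq E m ψ) := by
    rw [hpair]
    have hz : ∀ r, 0 ≤ ∑ m ∈ Finset.Icc 1 (2 * N), aa d p (2 * (r + 1)) m * (nn p m ^ 2 * pq E m ψ) :=
      fun r => Finset.sum_nonneg fun m _ => mul_nonneg (aa_nonneg hE hEV _ _)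
        (mul_nonneg (sq_nonneg _) (pq_nonneg hE hψ hC m))
    refine Finset.sum_sq_le_sum_mul_sum_of_sq_le_mul _ (fun r _ => mul_nonneg (hlam r).le (xx_nonneg hρ hV _))
      (fun r _ => mul_nonneg (div_nonneg (by linarith [hT r]) (hR r).le) (hz r)) (fun r _ => ?_)
    have hy := c6_y hρ hE hV hEV hψ hC (2 * N) (2 * (r + 1))
    have e1 : 2 * (2 * (r + 1)) = 4 * (r + 1) := by ring
    rw [mul_pow]
    have e2 : lam d r * xx ρ (4 * (r + 1)) * (-tT d (2 * (r + 1)) / (1 - rR d (2 * (r + 1))) *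
        ∑ m ∈ Finset.Icc 1 (2 * N), aa d p (2 * (r + 1)) m * (nn p m ^ 2 * pq E m ψ)) =
        tT d (2 * (r + 1)) ^ 2 * (xx ρ (4 * (r + 1)) *
          ∑ m ∈ Finset.Icc 1 (2 * N), aa d p (2 * (r + 1)) m * (nn p m ^ 2 * pq E m ψ)) := by
      unfold lam
      have := (hR r).ne'
      field_simp
    rw [e2]
    refine mul_le_mul_of_nonneg_left ?_ (sq_nonneg _)
    rw [← e1]
    exact hy
  have hex : ∑ r ∈ Finset.range N, (-tT d (2 * (r + 1)) / (1 - rR d (2 * (r + 1)))) *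
        ∑ m ∈ Finset.Icc 1 (2 * N), aa d p (2 * (r + 1)) m * (nn p m ^ 2 * pq E m ψ) =
      ∑ m ∈ Finset.Icc 1 (2 * N), (nn p m * pq E m ψ) * Sm d p N m := by
    simp only [Finset.mul_sum]
    rw [Finset.sum_comm]
    refine Finset.sum_congr rfl fun m _ => ?_
    unfold Sm
    rw [Finset.mul_sum, Finset.mul_sum]
    exact Finset.sum_congr rfl fun r _ => by ring
  have hle : ∑ m ∈ Finset.Icc 1 (2 * N), (nn p m * pq E m ψ) * Sm d p N m ≤ Θ * D := by
    rw [hDdef, Finset.mul_sum]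
    refine Finset.sum_le_sum fun m hm => ?_
    rw [mul_comm]
    exact mul_le_mul_of_nonneg_right (hΘ m (Finset.mem_Icc.mp hm).1) (hnn m hm)
  have hfin : D ^ 2 ≤ AN ρ N * (Θ * D) := by
    refine hsq.trans ?_
    rw [hex]
    exact mul_le_mul_of_nonneg_left hle hAN
  rw [hD]
  rcases hD0.eq_or_lt with h0 | h0
  · rw [← h0]
    exact mul_nonneg hΘ0 hAN
  · have : D * D ≤ (Θ * AN ρ N) * D := by nlinarith [hfin]
    exact le_of_mul_le_mul_right this h0

end Pool.Agent.HRJ
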