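import Pool.Agent.PBL.Defs
import Pool.Agent.PBL.C5

/-!
# Project HRJ (MP_33e5ad_gt): bodies homothetic to `Π_j K` for all `2 ≤ j ≤ d/2`: definitions

Paper proof: /team-store/hr_proof.md.  `d = finrank ℝ V`.  `ms E` is the uniform probability measure on the unit sphere
of the subspace `E` of `V` (`PBL.av E φ = ∫ φ d(ms E)`), `ms ⊤` the one on the unit sphere of `V`.  Indices: the degree of an
even Gegenbauer polynomial is `2 h`; the degrees divisible by four are `4 (r + 1)`, `r : ℕ`.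
-/

set_option autoImplicit false

namespace Pool.Agent.HRJ

open MeasureTheory ProbabilityTheory Set Filter Topology Metric
open Pool.Agent.HP89 Pool.Agent.FI75 Pool.Agent.PBL
open scoped RealInnerProductSpace ENNReal

/-! ### Gegenbauer polynomials -/

/-- The Gegenbauer polynomials of dimension `p`, normalised by `P(1) = 1`. -/
noncomputable def gP (p : ℕ) : ℕ → ℝ → ℝ
  | 0 => fun _ => 1
  | 1 => fun t => t
  | l + 2 => fun t => ((2 * (l : ℝ) + p) * t * gP p (l + 1) t - ((l : ℝ) + 1) * gP p l t) / ((l : ℝ) + p - 1)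

/-- The dimension of the space of spherical harmonics of degree `l` in dimension `p`. -/
noncomputable def nN (p : ℕ) : ℕ → ℝ
  | 0 => 1
  | l + 1 => nN p l * (((l : ℝ) + p - 2) * (2 * (l : ℝ) + p)) / (((l : ℝ) + 1) * (2 * (l : ℝ) + p - 2))

/-- The reproducing (zonal) kernel. -/
noncomputable def gK (p l : ℕ) (t : ℝ) : ℝ := nN p l * gP p l t

/-- `E x^(2k)` for the first coordinate `x` of a uniform unit vector of `ℝ^q`: `(1/2)_k / (q/2)_k`. -/
noncomputable def kq (q k : ℕ) : ℝ := ∏ i ∈ Finset.range k, (2 * (i : ℝ) + 1) / (2 * (i : ℝ) + q)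

/-- The value of the polynomial of degree `2 h` at `0`. -/
noncomputable def rR (p h : ℕ) : ℝ := (-1) ^ h * ∏ i ∈ Finset.range h, (2 * (i : ℝ) + 1) / (2 * (i : ℝ) + p - 1)

/-- The multiplier of degree `2 h` of the normalised cosine transform. -/
noncomputable def tT (p h : ℕ) : ℝ := (-1) ^ h * ∏ i ∈ Finset.range h, (2 * (i : ℝ) - 1) / (2 * (i : ℝ) + p + 1)

/-- `- rR p h / tT p h`. -/
noncomputable def nn (p h : ℕ) : ℝ := (2 * (h : ℝ) - 1) * (2 * (h : ℝ) + p - 1) / ((p : ℝ) - 1)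

/-- The coefficient of `gK p m` in `gK d (m + 2 n)` (`p < d`). -/
noncomputable def aC (d p n m : ℕ) : ℝ :=
  Real.Gamma ((n : ℝ) + ((d : ℝ) - p) / 2) / ((n.factorial : ℝ) * Real.Gamma (((d : ℝ) - p) / 2)) *
    (Real.Gamma ((p : ℝ) / 2) / Real.Gamma ((d : ℝ) / 2)) *
    (((m : ℝ) + 2 * n + (d : ℝ) / 2 - 1) * Real.Gamma ((m : ℝ) + n + (d : ℝ) / 2 - 1) /
      Real.Gamma ((m : ℝ) + n + (p : ℝ) / 2))

/-- The coefficient of `gK p (2 m)` in `gK d (2 h)`. -/
noncomputable def aa (d p h m : ℕ) : ℝ := if m ≤ h then aC d p (h - m) (2 * m) else 0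

/-! ### Measures -/

/-- The law of the first coordinate of a uniform unit vector of `ℝ^p`. -/
noncomputable def nu (p : ℕ) : Measure ℝ :=
  ((gaussianReal 0 1).prod (stdGaussian (EuclideanSpace ℝ (Fin (p - 1))))).map
    (fun q => q.1 / √(q.1 ^ 2 + ‖q.2‖ ^ 2))

/-- The multiplier of degree `l` of the function `f`. -/
noncomputable def mu (p l : ℕ) (f : ℝ → ℝ) : ℝ := ∫ t, f t * gP p l t ∂(nu p)

/-- `m_p = E |x|` for the first coordinate `x` of a uniform unit vector of `ℝ^p`. -/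
noncomputable def mm (p : ℕ) : ℝ := √(2 / Real.pi) / mG p

section
variable {V : Type*} [NormedAddCommGroup V] [InnerProductSpace ℝ V] [FiniteDimensional ℝ V]
  [MeasurableSpace V] [BorelSpace V]

/-- The uniform probability measure on the unit sphere of `E`. -/
noncomputable def ms (E : Submodule ℝ V) : Measure V := (stdGaussian V).map (fun g => nrm (E.starProjection g))

/-- The component of degree `l` of the measure `ρ` (on unit vectors `u`; homogeneous of degree zero). -/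
noncomputable def ff (ρ : Measure V) (l : ℕ) (u : V) : ℝ := ∫ y, gK (Module.finrank ℝ V) l ⟪nrm u, y⟫ ∂ρ

/-- Its square norm. -/
noncomputable def xx (ρ : Measure V) (l : ℕ) : ℝ := ∫ u, ff ρ l u ∂ρ

/-- The test function: the components of the degrees `4, 8, ..., 4 N`. -/
noncomputable def gN (ρ : Measure V) (N : ℕ) (u : V) : ℝ := ∑ r ∈ Finset.range N, ff ρ (4 * (r + 1)) u

/-- Its image under the normalised cosine transform. -/
noncomputable def psi (ρ : Measure V) (N : ℕ) (u : V) : ℝ :=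
  ∑ r ∈ Finset.range N, tT (Module.finrank ℝ V) (2 * (r + 1)) * ff ρ (4 * (r + 1)) u

/-- The component of degree `2 m` of the restriction of `ψ` to the unit sphere of `E`. -/
noncomputable def pc (E : Submodule ℝ V) (m : ℕ) (ψ : V → ℝ) (v : V) : ℝ :=
  ∫ w, gK (Module.finrank ℝ E) (2 * m) ⟪v, w⟫ * ψ w ∂(ms E)

/-- The square norm of this component. -/
noncomputable def pq (E : Submodule ℝ V) (m : ℕ) (ψ : V → ℝ) : ℝ := ∫ v, ψ v * pc E m ψ v ∂(ms E)

/-- `lambda_{4 (r + 1)}` -/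
noncomputable def lam (d r : ℕ) : ℝ := (1 - rR d (2 * (r + 1))) * (-tT d (2 * (r + 1)))

/-- `A_N` -/
noncomputable def AN (ρ : Measure V) (N : ℕ) : ℝ :=
  ∑ r ∈ Finset.range N, lam (Module.finrank ℝ V) r * xx ρ (4 * (r + 1))

/-- `E |P_F a|` for `dim F = d - n` and a uniform unit vector `a` of `ℝ^d`. -/
noncomputable def cc (d n : ℕ) : ℝ := mG (d - n) / mG d

/-- `theta_i = e_{i+1} / (e_i c_i)` -/
noncomputable def th (ρ : Measure V) (i : ℕ) : ℝ :=
  en (i + 1) ρ / (en i ρ * cc (Module.finrank ℝ V) i)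

/-- `int |X ^ a| g(a)` -/
noncomputable def sN (ρ : Measure V) (n : ℕ) (g : V → ℝ) : ℝ :=
  iw n ρ (fun X => ∫ a, ‖rv X a‖ * g a ∂(ms (⊤ : Submodule ℝ V)))

/-- `int |X ^ a ^ b| g(a) g(b)` -/
noncomputable def tN (ρ : Measure V) (n : ℕ) (g : V → ℝ) : ℝ :=
  iw n ρ (fun X => ∫ a, ∫ b, ‖rv X a‖ * ‖ort (rv X a) (rv X b)‖ * (g a * g b)
    ∂(ms (⊤ : Submodule ℝ V)) ∂(ms (⊤ : Submodule ℝ V)))

/-- `S_n = s_n / (c_n e_n)` -/
noncomputable def Sn (ρ : Measure V) (n : ℕ) (g : V → ℝ) : ℝ :=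
  sN ρ n g / (cc (Module.finrank ℝ V) n * en n ρ)

/-- `D_E(g) = M_E ^ 2 - Q_E` -/
noncomputable def DE (E : Submodule ℝ V) (g : V → ℝ) : ℝ :=
  ((∫ a, ‖E.starProjection a‖ * g a ∂(ms (⊤ : Submodule ℝ V))) * mG (Module.finrank ℝ V) /
      mG (Module.finrank ℝ E)) ^ 2 -
    (∫ a, ∫ b, ‖E.starProjection a‖ * ‖ort (E.starProjection a) (E.starProjection b)‖ * (g a * g b)
      ∂(ms (⊤ : Submodule ℝ V)) ∂(ms (⊤ : Submodule ℝ V))) *
      (mG (Module.finrank ℝ V) ^ 2 / (mG (Module.finrank ℝ E) * mG (Module.finrank ℝ E - 1)))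

/-- the situation of the theorem: `ρ` generates a body which is homothetic to its `j`-th projection body -/
structure Fx (j : ℕ) (ρ : Measure V) : Prop where
  us : US ρ
  hj : 2 ≤ j
  hjd : 2 * j ≤ Module.finrank ℝ V
  pos : 0 < en j ρ
  fix : ∀ u : V, ‖u‖ = 1 → hf (Nop j ρ) u = hf ρ u

end

/-! ### Numbers -/

/-- multipliers of the smoothing kernel `t^(2 M)` -/
noncomputable def ws (d M h : ℕ) : ℝ := mu d (2 * h) (fun t => t ^ (2 * M)) / mu d 0 (fun t => t ^ (2 * M))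

/-- multipliers of `√(1 - t²) / c_1 - |t| / m_d` -/
noncomputable def lh (d h : ℕ) : ℝ := rR d h * tT d h - tT d h

/-- very well poised terms -/
noncomputable def tw (a b c e : ℝ) : ℕ → ℝ
  | 0 => 1
  | n + 1 => tw a b c e n * ((a + n) * (a + 2 * n + 2) * (b + n) * (c + n) * (e + n) /
      (((n : ℝ) + 1) * (a + 2 * n) * (1 + a - b + n) * (1 + a - c + n) * (1 + a - e + n)))

/-- their sum -/
noncomputable def Cw (a b c e : ℝ) : ℝ :=
  Real.Gamma (1 + a - b) * Real.Gamma (1 + a - c) * Real.Gamma (1 + a - e) * Real.Gamma (1 + a - b - c - e) /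
    (Real.Gamma (1 + a) * Real.Gamma (1 + a - b - c) * Real.Gamma (1 + a - b - e) * Real.Gamma (1 + a - c - e))

/-- alternating very well poised terms -/
noncomputable def ta (a b c : ℝ) : ℕ → ℝ
  | 0 => 1
  | n + 1 => -(ta a b c n * ((a + n) * (a + 2 * n + 2) * (b + n) * (c + n) /
      (((n : ℝ) + 1) * (a + 2 * n) * (1 + a - b + n) * (1 + a - c + n))))

/-- their sum -/
noncomputable def Ca (a b c : ℝ) : ℝ :=
  Real.Gamma (1 + a - b) * Real.Gamma (1 + a - c) / (Real.Gamma (1 + a) * Real.Gamma (1 + a - b - c))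

/-- `v_m` for the degree `2 m` -/
noncomputable def vv (d p m : ℕ) : ℝ := |rR p m| * (mm p / mm d)

/-- `r_m` for the degree `2 m` -/
noncomputable def rr (d p m : ℕ) : ℝ :=
  Real.Gamma ((m : ℝ) + (d : ℝ) / 4) * Real.Gamma ((2 * (p : ℝ) - d + 2) / 4) /
    (Real.Gamma (((d : ℝ) + 2) / 4) * Real.Gamma ((m : ℝ) + (p : ℝ) / 2 - (d : ℝ) / 4))

/-- the sum in the trace inequality (degree `2 m` on the sphere of dimension `p`) -/
noncomputable def Sm (d p N m : ℕ) : ℝ :=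
  nn p m * ∑ r ∈ Finset.range N, aa d p (2 * (r + 1)) m * (-tT d (2 * (r + 1)) / (1 - rR d (2 * (r + 1))))

/-- `Gamma(x + 1/2) / Gamma(x)` -/
noncomputable def gG (x : ℝ) : ℝ := Real.Gamma (x + 1 / 2) / Real.Gamma x

/-- `v_2` -/
noncomputable def v2 (d p : ℕ) : ℝ := gG ((d : ℝ) / 2) / (((p : ℝ) - 1) * gG ((p : ℝ) / 2))

/-- `r_2` -/
noncomputable def r2 (d p : ℕ) : ℝ := gG (((d : ℝ) + 2) / 4) / gG ((2 * (p : ℝ) - d + 2) / 4)

/-- the bound of `Theta_p` -/
noncomputable def Th (d p : ℕ) : ℝ :=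
  max (v2 d p * (r2 d p - 1))
    (3 * v2 d p / ((p : ℝ) + 1) * (r2 d p * ((d : ℝ) + 4) / (2 * (p : ℝ) - d + 4) + 1)) /
    (2 * (1 - 3 / ((d : ℝ) ^ 2 - 1)))

/-- algebraic upper bound of `v2` -/
noncomputable def vt (d p : ℕ) : ℝ := √((2 * (d : ℝ) - 1) / (2 * (p : ℝ) - 1)) / ((p : ℝ) - 1)

/-- algebraic upper bound of `r2` -/
noncomputable def rt2 (d p : ℕ) : ℝ := √(((d : ℝ) + 1) / (2 * (p : ℝ) - d + 1))

/-- `c_d = 1 / (2 (1 - R_4))` -/
noncomputable def cd (d : ℕ) : ℝ := ((d : ℝ) ^ 2 - 1) / (2 * ((d : ℝ) ^ 2 - 4))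

/-- the two bounds of `Th` -/
noncomputable def T2 (d p : ℕ) : ℝ := cd d * (vt d p * (rt2 d p - 1))

noncomputable def T4 (d p : ℕ) : ℝ :=
  cd d * (3 * vt d p / ((p : ℝ) + 1) * (rt2 d p * ((d : ℝ) + 4) / (2 * (p : ℝ) - d + 4) + 1))

end Pool.Agent.HRJ
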