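import Pool.Agent.PBL.A4
import Pool.Agent.PBL.B1a
import Pool.Agent.HRJ.Defs

/-!
# HRJ-D1: the Alexandrov-Fenchel inequality for two measures, simple maps

PROOF PLAN.  This is `PBL.af_simple` (PBL/A5.lean) with a second measure: copy that file.  `m i = ρ.real (f ⁻¹' {p i})`,
`A i = ∫ x in f ⁻¹' {p i}, a x ∂ρ + ∫ x in f ⁻¹' {p i}, b x ∂σ`; the three double integrals on the left add up to `∑ i, ∑ l, A i * A l * kf m p n [p i, p l]`
(`kf` is symmetric, `kf_perm` there), then `af_fin` (PBL.A4) with `Y = []`.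
-/

set_option autoImplicit false

namespace Pool.Agent.HRJ

open MeasureTheory ProbabilityTheory Set Filter Topology Metric
open Pool.Agent.HP89 Pool.Agent.FI75 Pool.Agent.PBL
open scoped RealInnerProductSpace ENNReal

variable {V : Type*} [NormedAddCommGroup V] [InnerProductSpace ℝ V] [FiniteDimensional ℝ V]
  [MeasurableSpace V] [BorelSpace V]

private theorem key_int (ρ : Measure V) [IsProbabilityMeasure ρ] (f : SimpleFunc V V) {b : V → ℝ}
    (hb : Measurable b) (hC : ∃ C : ℝ, ∀ x, |b x| ≤ C) (G : V → ℝ) :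
    ∫ x, b x * G (f x) ∂ρ = ∑ i : f.range, (∫ x in f ⁻¹' {i.1}, b x ∂ρ) * G i.1 := by
  classical
  obtain ⟨C, hC⟩ := hC
  have hint : Integrable b ρ := Integrable.of_bound hb.aestronglyMeasurable C (ae_of_all _ fun x => by
    rw [Real.norm_eq_abs]
    exact hC x)
  have h1 : ∀ x, b x * G (f x) = ∑ i : f.range, (f ⁻¹' {i.1}).indicator b x * G i.1 := by
    intro x
    rw [Finset.sum_eq_single (⟨f x, f.mem_range_self x⟩ : f.range)]
    · rw [Set.indicator_of_mem (by simp)]
    · intro i _ hi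
      rw [Set.indicator_of_notMem, zero_mul]
      intro hx
      apply hi
      ext
      exact (Set.mem_singleton_iff.1 hx).symm
    · intro h
      exact absurd (Finset.mem_univ _) h
  simp_rw [h1]
  rw [integral_finsetSum]
  · refine Finset.sum_congr rfl fun i _ => ?_
    rw [integral_mul_const, integral_indicator (f.measurableSet_fiber _)]
  · intro i _
    exact (hint.indicator (f.measurableSet_fiber _)).mul_const _

private theorem kf_perm {ι : Type*} [Fintype ι] (m : ι → ℝ) (p : ι → V) (n : ℕ) :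
    ∀ Y Y' : List V, Y.Perm Y' → kf m p n Y = kf m p n Y' := by
  induction n with
  | zero => exact fun Y Y' h => wn_perm h
  | succ n ih =>
    intro Y Y' h
    exact Finset.sum_congr rfl fun r _ => by rw [ih _ _ (h.cons (p r))]

private theorem itr_kf (ρ : Measure V) [IsProbabilityMeasure ρ] (f : SimpleFunc V V) (n : ℕ) :
    ∀ W : List V, itr ρ n (fun Z => wn (Z.map f)) W =
      kf (fun i : f.range => ρ.real (f ⁻¹' {i.1})) (fun i : f.range => i.1) n (W.map f) := by
  induction n with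
  | zero => exact fun W => rfl
  | succ n ih =>
    intro W
    have h1 := key_int ρ f (b := fun _ => 1) measurable_const ⟨1, fun _ => by simp⟩
      (fun v => kf (fun i : f.range => ρ.real (f ⁻¹' {i.1})) (fun i : f.range => i.1) n (v :: W.map f))
    simp only [one_mul, integral_const, smul_eq_mul, mul_one, measureReal_restrict_apply_univ] at h1
    have h2 : itr ρ (n + 1) (fun Z => wn (Z.map f)) W =
        ∫ x, itr ρ n (fun Z => wn (Z.map f)) (x :: W) ∂ρ := rfl
    rw [h2]
    simp_rw [ih, List.map_cons]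
    rw [h1]
    rfl

theorem af2_simple (ρ σ : Measure V) [IsProbabilityMeasure ρ] [IsProbabilityMeasure σ] (f : SimpleFunc V V) (n : ℕ)
    {a b : V → ℝ} (ha : Measurable a) (hab : ∃ C : ℝ, ∀ x, |a x| ≤ C) (hb : Measurable b) (hbb : ∃ C : ℝ, ∀ x, |b x| ≤ C) :
    ((∫ x, ∫ y, a x * a y * itr ρ n (fun Z => wn (Z.map f)) [y, x] ∂ρ ∂ρ) +
        2 * (∫ x, ∫ y, a x * b y * itr ρ n (fun Z => wn (Z.map f)) [y, x] ∂σ ∂ρ) +
        ∫ x, ∫ y, b x * b y * itr ρ n (fun Z => wn (Z.map f)) [y, x] ∂σ ∂σ) *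
        (∫ x, ∫ y, itr ρ n (fun Z => wn (Z.map f)) [y, x] ∂ρ ∂ρ) ≤
      ((∫ x, ∫ y, a x * itr ρ n (fun Z => wn (Z.map f)) [y, x] ∂ρ ∂ρ) +
        ∫ x, ∫ y, b x * itr ρ n (fun Z => wn (Z.map f)) [y, x] ∂ρ ∂σ) ^ 2 := by
  classical
  set m : f.range → ℝ := fun i => ρ.real (f ⁻¹' {i.1}) with hm
  set p : f.range → V := fun i => i.1 with hp
  set A : f.range → ℝ := fun i => ∫ x in f ⁻¹' {i.1}, a x ∂ρ with hA
  set B : f.range → ℝ := fun i => ∫ x in f ⁻¹' {i.1}, b x ∂σ with hB
  have hone : ∃ C : ℝ, ∀ _ : V, |(1 : ℝ)| ≤ C := ⟨1, fun _ => by simp⟩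
  have hm1 : ∀ G : V → ℝ, ∫ x, G (f x) ∂ρ = ∑ i, m i * G (p i) := by
    intro G
    have h1 := key_int ρ f (b := fun _ => 1) measurable_const hone G
    simpa only [one_mul, integral_const, smul_eq_mul, mul_one, measureReal_restrict_apply_univ] using h1
  have hA1 : ∀ G : V → ℝ, ∫ x, a x * G (f x) ∂ρ = ∑ i, A i * G (p i) :=
    fun G => key_int ρ f ha hab G
  have hB1 : ∀ G : V → ℝ, ∫ x, b x * G (f x) ∂σ = ∑ i, B i * G (p i) :=
    fun G => key_int σ f hb hbb G
  have hk : ∀ i l, kf m p n [p l, p i] = kf m p n [p i, p l] :=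
    fun i l => kf_perm m p n _ _ (List.Perm.swap _ _ _)
  have e1 : (∫ x, ∫ y, a x * a y * itr ρ n (fun Z => wn (Z.map f)) [y, x] ∂ρ ∂ρ) =
      ∑ i, ∑ l, A i * A l * kf m p n [p i, p l] := by
    have h1 : ∀ x, (∫ y, a x * a y * itr ρ n (fun Z => wn (Z.map f)) [y, x] ∂ρ) =
        a x * ∑ l, A l * kf m p n [p l, f x] := by
      intro x
      simp_rw [itr_kf, List.map_cons, List.map_nil, mul_assoc]
      rw [integral_const_mul]
      congr 1
      exact hA1 fun v => kf m p n [v, f x]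
    simp_rw [h1]
    rw [hA1 fun v => ∑ l, A l * kf m p n [p l, v]]
    refine Finset.sum_congr rfl fun i _ => ?_
    rw [Finset.mul_sum]
    refine Finset.sum_congr rfl fun l _ => ?_
    rw [hk, mul_assoc]
  have e4 : (∫ x, ∫ y, a x * b y * itr ρ n (fun Z => wn (Z.map f)) [y, x] ∂σ ∂ρ) =
      ∑ i, ∑ l, A i * B l * kf m p n [p i, p l] := by
    have h1 : ∀ x, (∫ y, a x * b y * itr ρ n (fun Z => wn (Z.map f)) [y, x] ∂σ) =
        a x * ∑ l, B l * kf m p n [p l, f x] := by
      intro x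
      simp_rw [itr_kf, List.map_cons, List.map_nil, mul_assoc]
      rw [integral_const_mul]
      congr 1
      exact hB1 fun v => kf m p n [v, f x]
    simp_rw [h1]
    rw [hA1 fun v => ∑ l, B l * kf m p n [p l, v]]
    refine Finset.sum_congr rfl fun i _ => ?_
    rw [Finset.mul_sum]
    refine Finset.sum_congr rfl fun l _ => ?_
    rw [hk, mul_assoc]
  have e5 : (∫ x, ∫ y, b x * b y * itr ρ n (fun Z => wn (Z.map f)) [y, x] ∂σ ∂σ) =
      ∑ i, ∑ l, B i * B l * kf m p n [p i, p l] := by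
    have h1 : ∀ x, (∫ y, b x * b y * itr ρ n (fun Z => wn (Z.map f)) [y, x] ∂σ) =
        b x * ∑ l, B l * kf m p n [p l, f x] := by
      intro x
      simp_rw [itr_kf, List.map_cons, List.map_nil, mul_assoc]
      rw [integral_const_mul]
      congr 1
      exact hB1 fun v => kf m p n [v, f x]
    simp_rw [h1]
    rw [hB1 fun v => ∑ l, B l * kf m p n [p l, v]]
    refine Finset.sum_congr rfl fun i _ => ?_
    rw [Finset.mul_sum]
    refine Finset.sum_congr rfl fun l _ => ?_
    rw [hk, mul_assoc]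
  have e2 : (∫ x, ∫ y, itr ρ n (fun Z => wn (Z.map f)) [y, x] ∂ρ ∂ρ) =
      ∑ i, ∑ l, m i * m l * kf m p n [p i, p l] := by
    have h1 : ∀ x, (∫ y, itr ρ n (fun Z => wn (Z.map f)) [y, x] ∂ρ) =
        ∑ l, m l * kf m p n [p l, f x] := by
      intro x
      simp_rw [itr_kf, List.map_cons, List.map_nil]
      exact hm1 fun v => kf m p n [v, f x]
    simp_rw [h1]
    rw [hm1 fun v => ∑ l, m l * kf m p n [p l, v]]
    refine Finset.sum_congr rfl fun i _ => ?_
    rw [Finset.mul_sum]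
    refine Finset.sum_congr rfl fun l _ => ?_
    rw [hk, mul_assoc]
  have e3 : (∫ x, ∫ y, a x * itr ρ n (fun Z => wn (Z.map f)) [y, x] ∂ρ ∂ρ) =
      ∑ i, ∑ l, A i * m l * kf m p n [p i, p l] := by
    have h1 : ∀ x, (∫ y, a x * itr ρ n (fun Z => wn (Z.map f)) [y, x] ∂ρ) =
        a x * ∑ l, m l * kf m p n [p l, f x] := by
      intro x
      simp_rw [itr_kf, List.map_cons, List.map_nil]
      rw [integral_const_mul]
      congr 1
      exact hm1 fun v => kf m p n [v, f x]
    simp_rw [h1]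
    rw [hA1 fun v => ∑ l, m l * kf m p n [p l, v]]
    refine Finset.sum_congr rfl fun i _ => ?_
    rw [Finset.mul_sum]
    refine Finset.sum_congr rfl fun l _ => ?_
    rw [hk, mul_assoc]
  have e6 : (∫ x, ∫ y, b x * itr ρ n (fun Z => wn (Z.map f)) [y, x] ∂ρ ∂σ) =
      ∑ i, ∑ l, B i * m l * kf m p n [p i, p l] := by
    have h1 : ∀ x, (∫ y, b x * itr ρ n (fun Z => wn (Z.map f)) [y, x] ∂ρ) =
        b x * ∑ l, m l * kf m p n [p l, f x] := by
      intro x
      simp_rw [itr_kf, List.map_cons, List.map_nil]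
      rw [integral_const_mul]
      congr 1
      exact hm1 fun v => kf m p n [v, f x]
    simp_rw [h1]
    rw [hB1 fun v => ∑ l, m l * kf m p n [p l, v]]
    refine Finset.sum_congr rfl fun i _ => ?_
    rw [Finset.mul_sum]
    refine Finset.sum_congr rfl fun l _ => ?_
    rw [hk, mul_assoc]
  rw [e1, e2, e3, e4, e5, e6]
  have h := af_fin (fun i => measureReal_nonneg) p n ([] : List V) (m := m) (fun i => A i + B i)
  have s1 : ∑ i, ∑ l, (A i + B i) * (A l + B l) * kf m p n [p i, p l] =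
      (∑ i, ∑ l, A i * A l * kf m p n [p i, p l]) + 2 * (∑ i, ∑ l, A i * B l * kf m p n [p i, p l]) +
        ∑ i, ∑ l, B i * B l * kf m p n [p i, p l] := by
    have s2 : ∑ i, ∑ l, B i * A l * kf m p n [p i, p l] = ∑ i, ∑ l, A i * B l * kf m p n [p i, p l] := by
      rw [Finset.sum_comm]
      refine Finset.sum_congr rfl fun i _ => Finset.sum_congr rfl fun l _ => ?_
      rw [hk]
      ring
    have s3 : ∀ i l, (A i + B i) * (A l + B l) * kf m p n [p i, p l] = A i * A l * kf m p n [p i, p l] +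
        B i * A l * kf m p n [p i, p l] + A i * B l * kf m p n [p i, p l] + B i * B l * kf m p n [p i, p l] :=
      fun i l => by ring
    simp_rw [s3, Finset.sum_add_distrib]
    rw [s2]
    ring
  have s4 : ∑ i, ∑ l, (A i + B i) * m l * kf m p n [p i, p l] =
      (∑ i, ∑ l, A i * m l * kf m p n [p i, p l]) + ∑ i, ∑ l, B i * m l * kf m p n [p i, p l] := by
    have s3 : ∀ i l, (A i + B i) * m l * kf m p n [p i, p l] = A i * m l * kf m p n [p i, p l] +
        B i * m l * kf m p n [p i, p l] := fun i l => by ring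
    simp_rw [s3, Finset.sum_add_distrib]
  rw [s1, s4] at h
  exact h

end Pool.Agent.HRJ
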