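import Pool.Agent.HRJ.D5

/-!
# HRJ-D6: the chain of steps

`step` for `n = i - 1`, `i ∈ {2, .., j}` with `A' = T i * A` gives `(Sn ρ (i-1) g - Sn ρ i g)² ≤ (1 - th i/th (i-1)) T i A`; Cauchy-Schwarz for
`A = Sn ρ 1 g - Sn ρ j g = ∑ (Sn ρ (i-1) g - Sn ρ i g)` gives `A² ≤ A (∑ T i) (∑ (1 - th i/th (i-1)))`, and
`1 - th i/th (i-1) = (th (i-1) - th i)/th (i-1) ≤ (th (i-1) - th i)/th j` (`th` decreases, `th j > 0`).
-/

set_option autoImplicit false

namespace Pool.Agent.HRJ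

open MeasureTheory ProbabilityTheory Set Filter Topology Metric
open Pool.Agent.HP89 Pool.Agent.FI75 Pool.Agent.PBL
open scoped RealInnerProductSpace ENNReal

variable {V : Type*} [NormedAddCommGroup V] [InnerProductSpace ℝ V] [FiniteDimensional ℝ V]
  [MeasurableSpace V] [BorelSpace V]

variable {ρ : Measure V}

private theorem d6_tel (f : ℕ → ℝ) {j : ℕ} (hj : 1 ≤ j) :
    ∑ i ∈ Finset.Icc 2 j, (f (i - 1) - f i) = f 1 - f j := by
  induction j, hj using Nat.le_induction with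
  | base => simp
  | succ n hn ih =>
    rw [Finset.sum_Icc_succ_top (by omega), ih, Nat.add_sub_cancel]
    ring

private theorem d6_alg {T θ s : ℕ → ℝ} {A : ℝ} {j : ℕ} (hj : 2 ≤ j) (hA0 : 0 ≤ A) (hA : A = s 1 - s j)
    (hT0 : ∀ i ∈ Finset.Icc 2 j, 0 ≤ T i) (hθ : ∀ i, 1 ≤ i → i ≤ j → 0 < θ i)
    (hst : ∀ i ∈ Finset.Icc 2 j, θ i ≤ θ (i - 1) ∧ (s i - s (i - 1)) ^ 2 ≤ (1 - θ i / θ (i - 1)) * (T i * A)) :
    θ j ≤ θ 1 ∧ A * θ j ≤ (∑ i ∈ Finset.Icc 2 j, T i) * (θ 1 - θ j) := by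
  have hmon : ∀ k, k ≤ j → ∀ i, 1 ≤ i → i ≤ k → θ k ≤ θ i := by
    intro k
    induction k with
    | zero => intro _ i h1 h2; omega
    | succ n ih =>
      intro hk i h1 h2
      rcases Nat.lt_or_ge i (n + 1) with h3 | h3
      · have h4 := (hst (n + 1) (Finset.mem_Icc.2 ⟨by omega, hk⟩)).1
        rw [Nat.add_sub_cancel] at h4
        exact h4.trans (ih (by omega) i h1 (by omega))
      · have h4 : i = n + 1 := by omega
        rw [h4]
  have hθj := hθ j (by omega) le_rfl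
  have h1j := hmon j le_rfl 1 le_rfl (by omega)
  have hS0 : 0 ≤ ∑ i ∈ Finset.Icc 2 j, T i := Finset.sum_nonneg hT0
  refine ⟨h1j, ?_⟩
  have hcs : (∑ i ∈ Finset.Icc 2 j, (s (i - 1) - s i)) ^ 2 ≤
      (∑ i ∈ Finset.Icc 2 j, T i * A) * ∑ i ∈ Finset.Icc 2 j, (θ (i - 1) - θ i) / θ j := by
    refine Finset.sum_sq_le_sum_mul_sum_of_sq_le_mul _ (fun i hi => mul_nonneg (hT0 i hi) hA0) (fun i hi => ?_)
      fun i hi => ?_
    · exact div_nonneg (sub_nonneg.2 (hst i hi).1) hθj.le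
    · obtain ⟨h1, h2⟩ := hst i hi
      obtain ⟨h3, h4⟩ := Finset.mem_Icc.1 hi
      have h5 := hθ (i - 1) (by omega) (by omega)
      have h6 := hmon j le_rfl (i - 1) (by omega) (by omega)
      have h7 : 1 - θ i / θ (i - 1) ≤ (θ (i - 1) - θ i) / θ j := by
        have h8 : 1 - θ i / θ (i - 1) = (θ (i - 1) - θ i) / θ (i - 1) := by
          field_simp
        rw [h8]
        exact div_le_div_of_nonneg_left (sub_nonneg.2 h1) hθj h6
      calc (s (i - 1) - s i) ^ 2 = (s i - s (i - 1)) ^ 2 := by ring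
        _ ≤ (1 - θ i / θ (i - 1)) * (T i * A) := h2
        _ ≤ (θ (i - 1) - θ i) / θ j * (T i * A) :=
            mul_le_mul_of_nonneg_right h7 (mul_nonneg (hT0 i hi) hA0)
        _ = T i * A * ((θ (i - 1) - θ i) / θ j) := by ring
  rw [d6_tel s (by omega), ← hA, ← Finset.sum_mul, ← Finset.sum_div, d6_tel θ (by omega)] at hcs
  rcases hA0.eq_or_lt with h0 | h0
  · rw [← h0, zero_mul]
    exact mul_nonneg hS0 (sub_nonneg.2 h1j)
  · have h9 : A * (A * θ j) ≤ A * ((∑ i ∈ Finset.Icc 2 j, T i) * (θ 1 - θ j)) := by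
      have h10 := mul_le_mul_of_nonneg_right hcs hθj.le
      have h11 : (∑ i ∈ Finset.Icc 2 j, T i) * A * ((θ 1 - θ j) / θ j) * θ j =
          A * ((∑ i ∈ Finset.Icc 2 j, T i) * (θ 1 - θ j)) := by
        field_simp
      rw [h11] at h10
      calc A * (A * θ j) = A ^ 2 * θ j := by ring
        _ ≤ _ := h10
    exact le_of_mul_le_mul_left h9 h0

theorem chain (hρ : US ρ) {j : ℕ} (hj : 2 ≤ j) (hjd : j < Module.finrank ℝ V) (hpos : 0 < en (j + 1) ρ) {g : V → ℝ}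
    (hg : Measurable g) {C : ℝ} (hC : ∀ x, |g x| ≤ C) {A : ℝ} (hA : A = Sn ρ 1 g - Sn ρ j g) (hA0 : 0 ≤ A) {T : ℕ → ℝ}
    (hT0 : ∀ i ∈ Finset.Icc 2 j, 0 ≤ T i)
    (hT : ∀ i ∈ Finset.Icc 2 j, ∀ E : Submodule ℝ V, Module.finrank ℝ E + i = Module.finrank ℝ V + 1 →
      DE E g ≤ T i * A) :
    th ρ j ≤ th ρ 1 ∧ A * th ρ j ≤ (∑ i ∈ Finset.Icc 2 j, T i) * (th ρ 1 - th ρ j) := by
  refine d6_alg (T := T) (θ := th ρ) (s := fun i => Sn ρ i g) hj hA0 hA hT0 (fun i h1 h2 => ?_) fun i hi => ?_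
  · unfold th
    exact div_pos (en_pos_of_le hρ (by omega) hpos)
      (mul_pos (en_pos_of_le hρ (by omega) hpos) (cc_pos (by omega)))
  · obtain ⟨h3, h4⟩ := Finset.mem_Icc.1 hi
    obtain ⟨n, rfl⟩ : ∃ n, i = n + 1 := ⟨i - 1, by omega⟩
    rw [Nat.add_sub_cancel]
    exact step hρ (n := n) (by omega) (en_pos_of_le hρ (by omega) hpos) hg hC
      fun E hE => hT (n + 1) hi E (by omega)

end Pool.Agent.HRJ
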