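import Pool.Agent.HRJ.D9a

/-!
# HRJ-D9: `θ_1 - θ_j` and the conclusion from `A = 0`

`th_diff`: `quad_lim` for `F t = √(1-t²)/cc d 1 - |t|/mm d`, the multipliers are `lh d h`.
`th_diff_le`: the terms of odd index are `≤ 0`, the terms of even index are at most the terms of `AN`.
`hf_eq`: if `AN = 0` then all components of `ρ` of positive even degree vanish, and `lin_lim` for `F = |.|` gives the claim.
-/

set_option autoImplicit false

namespace Pool.Agent.HRJ

open MeasureTheory ProbabilityTheory Set Filter Topology Metric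
open Pool.Agent.HP89 Pool.Agent.FI75 Pool.Agent.PBL
open scoped RealInnerProductSpace ENNReal

variable {V : Type*} [NormedAddCommGroup V] [InnerProductSpace ℝ V] [FiniteDimensional ℝ V]
  [MeasurableSpace V] [BorelSpace V]

variable {ρ : Measure V} {j : ℕ}

private theorem D9_dim (h : Fx j ρ) : 3 ≤ Module.finrank ℝ V := by
  have h1 := h.hj
  have h2 := h.hjd
  omega

private theorem D9_mu {p : ℕ} (hp : 3 ≤ p) (i : ℕ) :
    mu p (2 * i) (fun t => √(1 - t ^ 2) / cc p 1 - |t| / mm p) = lh p i := by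
  have hprob := nu_prob p
  have hc : 0 < cc p 1 := cc_pos (by omega)
  have hm : 0 < mm p := mm_pos (by omega)
  have hg := continuous_gP p (2 * i)
  have i1 : Integrable (fun t => √(1 - t ^ 2) * gP p (2 * i) t) (nu p) := by
    refine Integrable.of_bound (Continuous.aestronglyMeasurable (by fun_prop)) 1 ?_
    filter_upwards [nu_abs p] with t ht
    have h1 := gP_abs_le hp (2 * i) ht
    have h2 : √(1 - t ^ 2) ≤ 1 := by
      rw [Real.sqrt_le_one]
      have := sq_nonneg t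
      linarith
    rw [norm_mul, Real.norm_eq_abs, Real.norm_eq_abs, abs_of_nonneg (Real.sqrt_nonneg _)]
    exact mul_le_one₀ h2 (abs_nonneg _) h1
  have i2 : Integrable (fun t => |t| * gP p (2 * i) t) (nu p) := by
    refine Integrable.of_bound (Continuous.aestronglyMeasurable (by fun_prop)) 1 ?_
    filter_upwards [nu_abs p] with t ht
    have h1 := gP_abs_le hp (2 * i) ht
    rw [norm_mul, Real.norm_eq_abs, Real.norm_eq_abs, abs_abs]
    exact mul_le_one₀ ht (abs_nonneg _) h1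
  have e : ∀ t, (√(1 - t ^ 2) / cc p 1 - |t| / mm p) * gP p (2 * i) t =
      (√(1 - t ^ 2) * gP p (2 * i) t) / cc p 1 - (|t| * gP p (2 * i) t) / mm p := by
    intro t
    ring
  have h1 := mu_sqrt hp i
  have h2 := mu_abs hp i
  unfold mu at h1 h2 ⊢
  simp only [e]
  rw [integral_sub (i1.div_const _) (i2.div_const _), integral_div, integral_div, h1, h2, lh,
    mul_div_cancel_left₀ _ hc.ne', mul_div_cancel_left₀ _ hm.ne']

private theorem D9_int (h : Fx j ρ) :
    ∫ x, ∫ y, (√(1 - ⟪x, y⟫ ^ 2) / cc (Module.finrank ℝ V) 1 - |⟪x, y⟫| / mm (Module.finrank ℝ V)) ∂ρ ∂ρ =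
      th ρ 1 - th ρ j := by
  have hprob := h.us.prob
  have hunit := h.us.unit
  have g1 : ∀ x : V, Integrable (fun y => √(1 - ⟪x, y⟫ ^ 2)) ρ := by
    intro x
    refine Integrable.of_bound (Continuous.aestronglyMeasurable (by fun_prop)) 1 (ae_of_all _ fun y => ?_)
    rw [Real.norm_eq_abs, abs_of_nonneg (Real.sqrt_nonneg _), Real.sqrt_le_one]
    have := sq_nonneg ⟪x, y⟫
    linarith
  have g2 : ∀ x : V, Integrable (fun y => |⟪x, y⟫|) ρ := by
    intro x
    refine Integrable.of_bound (Continuous.aestronglyMeasurable (by fun_prop)) ‖x‖ ?_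
    filter_upwards [hunit] with y hy
    rw [Real.norm_eq_abs, abs_abs]
    have h1 := abs_real_inner_le_norm x y
    rwa [hy, mul_one] at h1
  have G1 : Integrable (fun x => ∫ y, √(1 - ⟪x, y⟫ ^ 2) ∂ρ) ρ := by
    have hm : StronglyMeasurable (fun x => ∫ y, √(1 - ⟪x, y⟫ ^ 2) ∂ρ) := by
      have hc : Continuous (fun q : V × V => √(1 - ⟪q.1, q.2⟫ ^ 2)) := by fun_prop
      exact hc.stronglyMeasurable.integral_prod_right'
    refine Integrable.of_bound hm.aestronglyMeasurable 1 (ae_of_all _ fun x => ?_)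
    rw [Real.norm_eq_abs, abs_of_nonneg (integral_nonneg fun y => Real.sqrt_nonneg _)]
    refine (integral_mono (g1 x) (integrable_const (1 : ℝ)) fun y => ?_).trans (le_of_eq (by simp))
    show √(1 - ⟪x, y⟫ ^ 2) ≤ 1
    rw [Real.sqrt_le_one]
    have := sq_nonneg ⟪x, y⟫
    linarith
  have G2 : Integrable (fun x => ∫ y, |⟪x, y⟫| ∂ρ) ρ := by
    have hm : StronglyMeasurable (fun x => ∫ y, |⟪x, y⟫| ∂ρ) := by
      have hc : Continuous (fun q : V × V => |⟪q.1, q.2⟫|) := by fun_prop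
      exact hc.stronglyMeasurable.integral_prod_right'
    refine Integrable.of_bound hm.aestronglyMeasurable 1 ?_
    filter_upwards [hunit] with x hx
    rw [Real.norm_eq_abs, abs_of_nonneg (integral_nonneg fun y => abs_nonneg _)]
    refine (integral_mono_ae (g2 x) (integrable_const (1 : ℝ)) ?_).trans (le_of_eq (by simp))
    filter_upwards [hunit] with y hy
    have h1 := abs_real_inner_le_norm x y
    rwa [hx, hy, mul_one] at h1
  have e1 : ∫ x, ∫ y, ‖ort x y‖ ∂ρ ∂ρ = ∫ x, ∫ y, √(1 - ⟪x, y⟫ ^ 2) ∂ρ ∂ρ := by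
    refine integral_congr_ae ?_
    filter_upwards [hunit] with x hx
    refine integral_congr_ae ?_
    filter_upwards [hunit] with y hy
    have h1 := norm_ort_sq x y
    rw [hx, hy, div_one, one_pow] at h1
    rw [← h1, Real.sqrt_sq (norm_nonneg _)]
  have e2 : ∫ u, hf ρ u ∂ρ = ∫ x, ∫ y, |⟪x, y⟫| ∂ρ ∂ρ := by
    unfold hf
    refine integral_congr_ae (ae_of_all _ fun x => integral_congr_ae (ae_of_all _ fun y => ?_))
    show |⟪y, x⟫| = |⟪x, y⟫|
    rw [real_inner_comm]
  have e3 : ∀ x : V, ∫ y, (√(1 - ⟪x, y⟫ ^ 2) / cc (Module.finrank ℝ V) 1 - |⟪x, y⟫| / mm (Module.finrank ℝ V)) ∂ρ =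
      (∫ y, √(1 - ⟪x, y⟫ ^ 2) ∂ρ) / cc (Module.finrank ℝ V) 1 - (∫ y, |⟪x, y⟫| ∂ρ) / mm (Module.finrank ℝ V) := by
    intro x
    rw [integral_sub ((g1 x).div_const _) ((g2 x).div_const _), integral_div, integral_div]
  rw [th_one h, th_j h, e1, e2]
  simp only [e3]
  rw [integral_sub (G1.div_const _) (G2.div_const _), integral_div, integral_div]

private theorem D9_zero (M : ℕ) :
    ws (Module.finrank ℝ V) M 0 * (lh (Module.finrank ℝ V) 0 * xx ρ (2 * 0)) = 0 := by
  have h1 : lh (Module.finrank ℝ V) 0 = 0 := by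
    rw [lh, rR_zero, tT_zero]
    ring
  rw [h1]
  ring

private theorem D9_lh_odd {d : ℕ} (hd : 3 ≤ d) (r : ℕ) : lh d (2 * r + 1) < 0 := by
  have h1 := tT_two hd r
  have h2 := rR_two hd r
  have h3 : lh d (2 * r + 1) = (rR d (2 * r + 1) - 1) * tT d (2 * r + 1) := by
    rw [lh]
    ring
  rw [h3]
  exact mul_neg_of_neg_of_pos (by linarith) h1

private theorem D9_odd (h : Fx j ρ) (M r : ℕ) :
    ws (Module.finrank ℝ V) M (2 * r + 1) * (lh (Module.finrank ℝ V) (2 * r + 1) * xx ρ (2 * (2 * r + 1))) ≤ 0 := by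
  have hd := D9_dim h
  have h1 := ws_nonneg hd M (2 * r + 1)
  have h2 := D9_lh_odd hd r
  have h3 := xx_nonneg h.us hd (2 * (2 * r + 1))
  exact mul_nonpos_of_nonneg_of_nonpos h1 (mul_nonpos_of_nonpos_of_nonneg h2.le h3)

private theorem D9_even (h : Fx j ρ) (M r : ℕ) :
    ws (Module.finrank ℝ V) M (2 * r + 2) * (lh (Module.finrank ℝ V) (2 * r + 2) * xx ρ (2 * (2 * r + 2))) ≤
      lam (Module.finrank ℝ V) r * xx ρ (4 * (r + 1)) := by
  have hd := D9_dim h
  have h1 := ws_nonneg hd M (2 * r + 2)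
  have h2 := ws_le_one hd M (2 * r + 2)
  have h3 := xx_nonneg h.us hd (4 * (r + 1))
  have h4 := lam_pos hd r
  have h5 : lh (Module.finrank ℝ V) (2 * r + 2) = lam (Module.finrank ℝ V) r := by
    rw [lh, lam, show 2 * r + 2 = 2 * (r + 1) by ring]
    ring
  have h6 : 2 * (2 * r + 2) = 4 * (r + 1) := by ring
  rw [h5, h6]
  exact mul_le_of_le_one_left (mul_nonneg h4.le h3) h2

private theorem D9_sum (h : Fx j ρ) (M N : ℕ) :
    ∑ i ∈ Finset.range (2 * N + 1), ws (Module.finrank ℝ V) M i *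
      (lh (Module.finrank ℝ V) i * xx ρ (2 * i)) ≤ AN ρ N := by
  induction N with
  | zero =>
    rw [AN]
    simp only [mul_zero, zero_add, Finset.range_one, Finset.sum_singleton, Finset.range_zero,
      Finset.sum_empty]
    exact (D9_zero (ρ := ρ) M).le
  | succ N ih =>
    rw [show 2 * (N + 1) + 1 = 2 * N + 1 + 1 + 1 by ring, Finset.sum_range_succ, Finset.sum_range_succ]
    have h1 := D9_odd h M N
    have h2 := D9_even h M N
    have h3 : AN ρ (N + 1) = AN ρ N + lam (Module.finrank ℝ V) N * xx ρ (4 * (N + 1)) := by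
      rw [AN, AN, Finset.sum_range_succ]
    rw [h3, show 2 * N + 1 + 1 = 2 * N + 2 by ring]
    linarith

private theorem D9_xx4 (h : Fx j ρ) (hA : ∀ N, AN ρ N = 0) (r : ℕ) : xx ρ (4 * (r + 1)) = 0 := by
  have hd := D9_dim h
  have h1 := hA (r + 1)
  have h2 := hA r
  rw [AN, Finset.sum_range_succ] at h1
  rw [AN] at h2
  rw [h2, zero_add] at h1
  rcases mul_eq_zero.1 h1 with h3 | h3
  · exact absurd h3 (lam_pos hd r).ne'
  · exact h3

private theorem D9_xx (h : Fx j ρ) (hA : ∀ N, AN ρ N = 0) (h0 : 0 ≤ th ρ 1 - th ρ j)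
    (hlim : Tendsto (fun M : ℕ => ∑ i ∈ Finset.range (M + 1), ws (Module.finrank ℝ V) M i *
      (lh (Module.finrank ℝ V) i * xx ρ (2 * i))) atTop (𝓝 (th ρ 1 - th ρ j))) (i : ℕ) (hi : i ≠ 0) :
    xx ρ (2 * i) = 0 := by
  have hd := D9_dim h
  rcases Nat.even_or_odd' i with ⟨r, hr | hr⟩
  · obtain ⟨r', rfl⟩ : ∃ r', r = r' + 1 := ⟨r - 1, by omega⟩
    rw [hr, show 2 * (2 * (r' + 1)) = 4 * (r' + 1) by ring]
    exact D9_xx4 h hA r'
  · subst hr
    have hall : ∀ M k : ℕ, ws (Module.finrank ℝ V) M k * (lh (Module.finrank ℝ V) k * xx ρ (2 * k)) ≤ 0 := by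
      intro M k
      rcases Nat.even_or_odd' k with ⟨s, hs | hs⟩
      · rcases Nat.eq_zero_or_pos s with h1 | h1
        · subst h1
          rw [hs]
          exact (D9_zero (ρ := ρ) M).le
        · obtain ⟨s', rfl⟩ : ∃ s', s = s' + 1 := ⟨s - 1, by omega⟩
          rw [hs, show 2 * (2 * (s' + 1)) = 4 * (s' + 1) by ring, D9_xx4 h hA s']
          simp
      · rw [hs]
        exact D9_odd h M s
    have h1 : ∀ᶠ M : ℕ in atTop, ∑ i ∈ Finset.range (M + 1), ws (Module.finrank ℝ V) M i *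
        (lh (Module.finrank ℝ V) i * xx ρ (2 * i)) ≤ ws (Module.finrank ℝ V) M (2 * r + 1) *
          (lh (Module.finrank ℝ V) (2 * r + 1) * xx ρ (2 * (2 * r + 1))) := by
      filter_upwards [eventually_ge_atTop (2 * r + 1)] with M hM
      have hmem : 2 * r + 1 ∈ Finset.range (M + 1) := Finset.mem_range.2 (by omega)
      rw [← Finset.add_sum_erase _ _ hmem]
      have h2 : ∑ i ∈ (Finset.range (M + 1)).erase (2 * r + 1), ws (Module.finrank ℝ V) M i *
        (lh (Module.finrank ℝ V) i * xx ρ (2 * i)) ≤ 0 := Finset.sum_nonpos fun k _ => hall M k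
      linarith
    have h2 := le_of_tendsto_of_tendsto hlim
      ((ws_tendsto hd (2 * r + 1)).mul_const (lh (Module.finrank ℝ V) (2 * r + 1) * xx ρ (2 * (2 * r + 1)))) h1
    rw [one_mul] at h2
    have h3 := D9_lh_odd hd r
    have h4 := xx_nonneg h.us hd (2 * (2 * r + 1))
    by_contra hne
    have h5 : 0 < xx ρ (2 * (2 * r + 1)) := lt_of_le_of_ne h4 (Ne.symm hne)
    have h6 := mul_neg_of_neg_of_pos h3 h5
    linarith

theorem th_diff (h : Fx j ρ) :
    Tendsto (fun M : ℕ => ∑ i ∈ Finset.range (M + 1), ws (Module.finrank ℝ V) M i *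
      (lh (Module.finrank ℝ V) i * xx ρ (2 * i))) atTop (𝓝 (th ρ 1 - th ρ j)) := by
  have hd := D9_dim h
  have hF : Continuous (fun t : ℝ => √(1 - t ^ 2) / cc (Module.finrank ℝ V) 1 - |t| / mm (Module.finrank ℝ V)) := by
    fun_prop
  have hlim := quad_lim h hF (fun t => by rw [neg_sq, abs_neg])
  simp only [D9_mu hd] at hlim
  rwa [D9_int h] at hlim

theorem th_diff_le (h : Fx j ρ) {A : ℝ} (hA : ∀ N, AN ρ N ≤ A) : th ρ 1 - th ρ j ≤ A := by
  refine le_of_tendsto (th_diff h) (Eventually.of_forall fun M => ?_)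
  rcases Nat.even_or_odd' M with ⟨N, hN | hN⟩
  · rw [hN]
    exact (D9_sum h (2 * N) N).trans (hA N)
  · rw [hN, Finset.sum_range_succ]
    have h1 := D9_sum h (2 * N + 1) N
    have h2 := D9_odd h (2 * N + 1) N
    have h3 := hA N
    linarith

theorem hf_eq (h : Fx j ρ) (hA : ∀ N, AN ρ N = 0) (h0 : 0 ≤ th ρ 1 - th ρ j) {u : V} (hu : ‖u‖ = 1) :
    hf ρ u = mm (Module.finrank ℝ V) := by
  have hd := D9_dim h
  have hlim := lin_lim h continuous_abs (fun t => abs_neg t) hu
  have h1 : ∀ M : ℕ, ∑ i ∈ Finset.range (M + 1), ws (Module.finrank ℝ V) M i *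
      (mu (Module.finrank ℝ V) (2 * i) (fun t => |t|) * ff ρ (2 * i) u) = mm (Module.finrank ℝ V) := by
    intro M
    rw [Finset.sum_eq_single 0]
    · rw [ws_zero_deg hd, mu_abs hd, tT_zero, mul_zero, ff_zero_deg h.us]
      ring
    · intro i _ hi
      rw [ff_zero h.us hd (D9_xx h hA h0 (th_diff h) i hi) hu]
      ring
    · intro h2
      exact absurd (Finset.mem_range.2 (Nat.succ_pos M)) h2
  have h2 : Tendsto (fun M : ℕ => ∑ i ∈ Finset.range (M + 1), ws (Module.finrank ℝ V) M i *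
      (mu (Module.finrank ℝ V) (2 * i) (fun t => |t|) * ff ρ (2 * i) u)) atTop
        (𝓝 (mm (Module.finrank ℝ V))) := by
    simp only [h1]
    exact tendsto_const_nhds
  have h3 := tendsto_nhds_unique hlim h2
  rw [hf, ← h3]
  refine integral_congr_ae (ae_of_all _ fun y => ?_)
  show |⟪y, u⟫| = |⟪u, y⟫|
  rw [real_inner_comm]

end Pool.Agent.HRJ
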