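import Pool.Agent.HRJ.Defs

/-!
# HRJ-N10: large dimensions, the excess of `T4` over `T2`

PROOF PLAN.  `n = 2p - d ≥ 2`, `v = vt d p`, `r = rt2 d p = √((d+1)/(n+1)) ≥ 1`, `p + 1 = (d+n+2)/2`.  `T4 - T2 = cd d v (6(d+4) r/((n+4)(d+n+2)) + 6/(d+n+2) - r + 1) ≤ cd d v δ`, `δ = 1 + 6/(d+n+2) - r (n-2)/(n+4)` (since `(d+4)/(d+n+2) ≤ 1`).
(1) `n = 2, 3, 4, 5` (at most two values of `p`): `δ ≤ 1.05`, `cd d v ≤ .5003 * √2 * 2/d ≤ .0119`: together `≤ .025`.
(2) `6 ≤ n` and `r ≥ 2`: `δ ≤ 0`: `n ≥ 10`: `r (n-2)/(n+4) ≥ 2 * 8/14`; `n = 6, ..., 9`: `r ≥ √(121/10) ≥ 3.4`, `(n-2)/(n+4) ≥ .4`.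
(3) `r < 2`, i.e. `4(n+1) > d+1`: with `q = (d-n)/2 = i - 1`: `r - 1 ≥ (2q/(n+1))/3`, `δ ≤ 6/(2n+2) + 12/(n+4) - (r-1) ≤ (15 - 2q/3)/(n+1)`: `≤ 0` if `q ≥ 23`, and for `q ≤ 22` `n + 1 ≥ d - 43 ≥ 77`, `δ ≤ .195`, `cd d v ≤ .0058`; 22 terms: `≤ .025`.
-/

set_option autoImplicit false

namespace Pool.Agent.HRJ

open MeasureTheory ProbabilityTheory Set Filter Topology Metric
open Pool.Agent.HP89 Pool.Agent.FI75 Pool.Agent.PBL
open scoped RealInnerProductSpace ENNReal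

/-- the bracket of `T4 - T2` -/
private noncomputable def n10_del (D n r : ℝ) : ℝ :=
  6 / (D + n + 2) * (r * (D + 4) / (n + 4) + 1) - (r - 1)

private theorem n10_eq {d p : ℕ} {n : ℝ} (hn : 2 * (p : ℝ) = (d : ℝ) + n) (hn2 : 2 ≤ n) :
    T4 d p - T2 d p = cd d * vt d p * n10_del (d : ℝ) n (rt2 d p) := by
  have hd0 : (0 : ℝ) ≤ (d : ℝ) := Nat.cast_nonneg d
  have e1 : 2 * (p : ℝ) - (d : ℝ) + 4 = n + 4 := by linarith
  have e2 : (p : ℝ) + 1 = ((d : ℝ) + n + 2) / 2 := by linarith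
  have h3 : (d : ℝ) + n + 2 ≠ 0 := by positivity
  unfold T4 T2 n10_del
  rw [e1, e2]
  field_simp
  ring

private theorem n10_cd {d : ℕ} (hd : 120 ≤ d) : 0 ≤ cd d ∧ cd d ≤ 5002 / 10000 := by
  have hD : (120 : ℝ) ≤ (d : ℝ) := by exact_mod_cast hd
  have h1 : (14400 : ℝ) ≤ (d : ℝ) ^ 2 := by nlinarith
  unfold cd
  constructor
  · apply div_nonneg <;> linarith
  · rw [div_le_div_iff₀ (by linarith) (by norm_num)]
    linarith

private theorem n10_vt0 {d p : ℕ} (hp : 1 ≤ p) : 0 ≤ vt d p := by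
  have : (1 : ℝ) ≤ (p : ℝ) := by exact_mod_cast hp
  unfold vt
  exact div_nonneg (Real.sqrt_nonneg _) (by linarith)

/-- bound of `vt` -/
private theorem n10_vt {d p : ℕ} {s a P : ℝ} (hs : 0 ≤ s) (hP : 0 < P) (ha : 0 ≤ a)
    (h1 : 2 * (d : ℝ) - 1 ≤ s ^ 2 * (2 * (p : ℝ) - 1)) (h2 : 0 < 2 * (p : ℝ) - 1)
    (h3 : P ≤ (p : ℝ) - 1) (h4 : s ≤ a * P) : vt d p ≤ a := by
  unfold vt
  have hp : 0 < (p : ℝ) - 1 := lt_of_lt_of_le hP h3
  rw [div_le_iff₀ hp]
  calc √((2 * (d : ℝ) - 1) / (2 * (p : ℝ) - 1)) ≤ √(s ^ 2) := by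
        apply Real.sqrt_le_sqrt
        rw [div_le_iff₀ h2]
        exact h1
    _ = s := Real.sqrt_sq hs
    _ ≤ a * P := h4
    _ ≤ a * ((p : ℝ) - 1) := mul_le_mul_of_nonneg_left h3 ha

private theorem n10_term {d p : ℕ} (hd : 120 ≤ d) (hp : 1 ≤ p) {n : ℝ}
    (hn : 2 * (p : ℝ) = (d : ℝ) + n) (hn2 : 2 ≤ n) {a E : ℝ} (ha : vt d p ≤ a)
    (hE : n10_del (d : ℝ) n (rt2 d p) ≤ E) (hE0 : 0 ≤ E) :
    max 0 (T4 d p - T2 d p) ≤ 5002 / 10000 * a * E := by
  obtain ⟨c0, c1⟩ := n10_cd hd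
  have v0 := n10_vt0 (d := d) hp
  have a0 : 0 ≤ a := le_trans v0 ha
  have hcv : cd d * vt d p ≤ 5002 / 10000 * a := mul_le_mul c1 ha v0 (by norm_num)
  apply max_le
  · positivity
  · rw [n10_eq hn hn2]
    calc cd d * vt d p * n10_del (d : ℝ) n (rt2 d p) ≤ cd d * vt d p * E :=
          mul_le_mul_of_nonneg_left hE (mul_nonneg c0 v0)
      _ ≤ 5002 / 10000 * a * E := mul_le_mul_of_nonneg_right hcv hE0

/-- the first simplification of the bracket -/
private theorem n10_del_le {D n r : ℝ} (hD : 120 ≤ D) (hn : 2 ≤ n) (hr : 0 ≤ r) :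
    n10_del D n r ≤ 1 + 6 / (D + n + 2) - r * ((n - 2) / (n + 4)) := by
  unfold n10_del
  have h1 : 0 < D + n + 2 := by linarith
  have h2 : 0 < n + 4 := by linarith
  have h3 : 6 / (D + n + 2) * (r * (D + 4) / (n + 4)) ≤ 6 * r / (n + 4) := by
    rw [div_mul_div_comm, div_le_div_iff₀ (by positivity) h2]
    have : 0 ≤ 6 * r * (n + 4) * (n - 2) := by
      apply mul_nonneg (by positivity)
      linarith
    nlinarith
  have h4 : r * ((n - 2) / (n + 4)) = r - 6 * r / (n + 4) := by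
    field_simp
    ring
  rw [h4, mul_add, mul_one]
  linarith

private theorem n10_rt2 {d p : ℕ} {n : ℝ} (hn : 2 * (p : ℝ) = (d : ℝ) + n) :
    rt2 d p = √(((d : ℝ) + 1) / (n + 1)) := by
  unfold rt2
  have : 2 * (p : ℝ) - (d : ℝ) + 1 = n + 1 := by linarith
  rw [this]

/-- case `r < 2` -/
private theorem n10_small {D n r : ℝ} (hD : 120 ≤ D) (hn : 2 ≤ n) (hnD : n ≤ D) (hr1 : 0 ≤ r)
    (hr2 : r ≤ 2) (hr : r ^ 2 = (D + 1) / (n + 1)) :
    n10_del D n r ≤ (15 - (D - n) / 3) / (n + 1) := by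
  have h := n10_del_le hD hn hr1
  have h1 : 0 < n + 1 := by linarith
  have h2 : 0 < n + 4 := by linarith
  have h4 : r * ((n - 2) / (n + 4)) = r - r * (6 / (n + 4)) := by
    field_simp
    ring
  have h5 : 6 / (D + n + 2) ≤ 3 / (n + 1) := by
    rw [div_le_div_iff₀ (by linarith) h1]
    linarith
  have h6 : r * (6 / (n + 4)) ≤ 12 / (n + 1) := by
    calc r * (6 / (n + 4)) ≤ 2 * (6 / (n + 4)) := mul_le_mul_of_nonneg_right hr2 (by positivity)
      _ = 12 / (n + 4) := by ring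
      _ ≤ 12 / (n + 1) := by
        apply div_le_div_of_nonneg_left (by norm_num) h1
        linarith
  have h7 : (D - n) / (n + 1) = r ^ 2 - 1 := by
    rw [hr]
    field_simp
    ring
  have h8 : 0 ≤ (D - n) / (n + 1) := div_nonneg (by linarith) h1.le
  have h9 : (D - n) / (n + 1) ≤ 3 * (r - 1) := by
    rw [h7] at h8 ⊢
    nlinarith
  have h10 : (15 - (D - n) / 3) / (n + 1) = 3 / (n + 1) + 12 / (n + 1) - (D - n) / (n + 1) / 3 := by
    field_simp
    ring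
  rw [h10]
  rw [h4] at h
  linarith

/-- case `6 ≤ n`, `2 ≤ r` -/
private theorem n10_big {D n r : ℝ} (hD : 120 ≤ D) (hn : 6 ≤ n) (hr2 : 2 ≤ r)
    (hr : r ^ 2 = (D + 1) / (n + 1)) : n10_del D n r ≤ 0 := by
  have h := n10_del_le (D := D) (n := n) (r := r) hD (by linarith) (by linarith)
  have h1 : 0 < n + 1 := by linarith
  have h2 : 0 < n + 4 := by linarith
  have h5 : 6 / (D + n + 2) ≤ 6 / 128 := by
    apply div_le_div_of_nonneg_left (by norm_num) (by norm_num)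
    linarith
  have h6 : 105 / 100 ≤ r * ((n - 2) / (n + 4)) := by
    by_cases h10 : n ≤ 9
    · have hr3 : (17 / 5 : ℝ) ≤ r := by
        have h3 : (121 / 10 : ℝ) ≤ r ^ 2 := by
          rw [hr, le_div_iff₀ h1]
          nlinarith
        nlinarith
      have h7 : (4 / 10 : ℝ) ≤ (n - 2) / (n + 4) := by
        rw [div_le_div_iff₀ (by norm_num) h2]
        linarith
      calc (105 / 100 : ℝ) ≤ (17 / 5) * (4 / 10) := by norm_num
        _ ≤ r * ((n - 2) / (n + 4)) := mul_le_mul hr3 h7 (by norm_num) (by linarith)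
    · push Not at h10
      have h7 : (7 / 13 : ℝ) ≤ (n - 2) / (n + 4) := by
        rw [div_le_div_iff₀ (by norm_num) h2]
        linarith
      calc (105 / 100 : ℝ) ≤ 2 * (7 / 13 : ℝ) := by norm_num
        _ ≤ r * ((n - 2) / (n + 4)) := mul_le_mul hr2 h7 (by norm_num) (by linarith)
  linarith

/-- the bound of one term -/
private theorem n10_one {d i : ℕ} (hd : 120 ≤ d) (hi : i ∈ Finset.Icc 2 (d / 2)) :
    max 0 (T4 d (d - i + 1) - T2 d (d - i + 1)) ≤
      (if i ≤ 23 then (12 / 10000 : ℝ) else 0) + (if d / 2 - 1 ≤ i then (125 / 10000 : ℝ) else 0) := by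
  rw [Finset.mem_Icc] at hi
  obtain ⟨hi2, hid⟩ := hi
  have hD : (120 : ℝ) ≤ (d : ℝ) := by exact_mod_cast hd
  have hid' : 2 * i ≤ d := by omega
  have hidr : 2 * (i : ℝ) ≤ (d : ℝ) := by exact_mod_cast hid'
  have hi2r : (2 : ℝ) ≤ (i : ℝ) := by exact_mod_cast hi2
  have hile : i ≤ d := by omega
  have hpc : ((d - i + 1 : ℕ) : ℝ) = (d : ℝ) - (i : ℝ) + 1 := by
    rw [Nat.cast_add, Nat.cast_sub hile, Nat.cast_one]
  set p : ℕ := d - i + 1 with hp
  have hp1 : 1 ≤ p := by omega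
  obtain ⟨n, hn⟩ : ∃ n : ℝ, n = (d : ℝ) + 2 - 2 * (i : ℝ) := ⟨_, rfl⟩
  have hpn : 2 * (p : ℝ) = (d : ℝ) + n := by rw [hpc, hn]; ring
  have hn2 : 2 ≤ n := by rw [hn]; linarith
  have hnD : n ≤ (d : ℝ) - 2 := by rw [hn]; linarith
  have hr := n10_rt2 (d := d) (p := p) hpn
  have h1 : 0 < n + 1 := by linarith
  have hq : 0 ≤ ((d : ℝ) + 1) / (n + 1) := div_nonneg (by linarith) h1.le
  have hr0 : 0 ≤ rt2 d p := by rw [hr]; exact Real.sqrt_nonneg _
  have hrs : rt2 d p ^ 2 = ((d : ℝ) + 1) / (n + 1) := by rw [hr]; exact Real.sq_sqrt hq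
  -- bound of v in general
  have hv : vt d p ≤ 236 / 10000 := by
    apply n10_vt (s := 14143 / 10000) (P := 60) (by norm_num) (by norm_num) (by norm_num)
    · nlinarith
    · linarith
    · linarith
    · norm_num
  have hb0 : (0 : ℝ) ≤ if d / 2 - 1 ≤ i then (125 / 10000 : ℝ) else 0 := by
    split_ifs <;> norm_num
  by_cases hi23 : i ≤ 23
  · -- small i
    rw [if_pos hi23]
    have hi23r : (i : ℝ) ≤ 23 := by exact_mod_cast hi23
    have hn76 : (d : ℝ) - 44 ≤ n := by rw [hn]; linarith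
    have hr2 : rt2 d p ≤ 2 := by
      have : rt2 d p ^ 2 ≤ 2 ^ 2 := by
        rw [hrs, div_le_iff₀ h1]
        linarith
      exact (sq_le_sq₀ hr0 (by norm_num)).1 this
    have hdel := n10_small hD hn2 (by linarith) hr0 hr2 hrs
    have hdel2 : n10_del (d : ℝ) n (rt2 d p) ≤ 195 / 1000 := by
      refine hdel.trans ?_
      rw [div_le_iff₀ h1]
      linarith
    have hv2 : vt d p ≤ 115 / 10000 := by
      apply n10_vt (s := 11072 / 10000) (P := 97) (by norm_num) (by norm_num) (by norm_num)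
      · nlinarith
      · linarith
      · linarith
      · norm_num
    have := n10_term hd hp1 hpn hn2 hv2 hdel2 (by norm_num)
    refine this.trans ?_
    have h0 : (5002 / 10000 : ℝ) * (115 / 10000) * (195 / 1000) ≤ 12 / 10000 := by norm_num
    linarith
  · rw [if_neg hi23]
    push Not at hi23
    have hi24 : (24 : ℝ) ≤ (i : ℝ) := by exact_mod_cast hi23
    by_cases hn6 : 6 ≤ n
    · have hdel : n10_del (d : ℝ) n (rt2 d p) ≤ 0 := by
        rcases le_total 2 (rt2 d p) with hr2 | hr2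
        · exact n10_big hD hn6 hr2 hrs
        · refine (n10_small hD hn2 (by linarith) hr0 hr2 hrs).trans ?_
          apply div_nonpos_of_nonpos_of_nonneg _ h1.le
          rw [hn]
          linarith
      have := n10_term hd hp1 hpn hn2 hv hdel le_rfl
      simp only [mul_zero] at this
      linarith
    · push Not at hn6
      have hin : d / 2 - 1 ≤ i := by
        have : (d : ℝ) < 2 * (i : ℝ) + 4 := by rw [hn] at hn6; linarith
        have : d < 2 * i + 4 := by exact_mod_cast this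
        omega
      rw [if_pos hin]
      have hdel : n10_del (d : ℝ) n (rt2 d p) ≤ 105 / 100 := by
        refine (n10_del_le hD hn2 hr0).trans ?_
        have h5 : 6 / ((d : ℝ) + n + 2) ≤ 5 / 100 := by
          rw [div_le_iff₀ (by linarith)]
          linarith
        have h6 : 0 ≤ rt2 d p * ((n - 2) / (n + 4)) :=
          mul_nonneg hr0 (div_nonneg (by linarith) (by linarith))
        linarith
      have := n10_term hd hp1 hpn hn2 hv hdel (by norm_num)
      refine this.trans ?_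
      norm_num

theorem sum_exc {d : ℕ} (hd : 120 ≤ d) :
    ∑ i ∈ Finset.Icc 2 (d / 2), max 0 (T4 d (d - i + 1) - T2 d (d - i + 1)) ≤ 6 / 100 := by
  refine (Finset.sum_le_sum (fun i hi => n10_one hd hi)).trans ?_
  rw [Finset.sum_add_distrib, ← Finset.sum_filter, ← Finset.sum_filter, Finset.sum_const,
    Finset.sum_const, nsmul_eq_mul, nsmul_eq_mul]
  have h1 : ((Finset.Icc 2 (d / 2)).filter (fun i => i ≤ 23)).card ≤ 22 := by
    have : (Finset.Icc 2 (d / 2)).filter (fun i => i ≤ 23) ⊆ Finset.Icc 2 23 := by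
      intro i hi
      rw [Finset.mem_filter, Finset.mem_Icc] at hi
      rw [Finset.mem_Icc]
      exact ⟨hi.1.1, hi.2⟩
    exact (Finset.card_le_card this).trans (by simp)
  have h2 : ((Finset.Icc 2 (d / 2)).filter (fun i => d / 2 - 1 ≤ i)).card ≤ 2 := by
    have : (Finset.Icc 2 (d / 2)).filter (fun i => d / 2 - 1 ≤ i) ⊆ Finset.Icc (d / 2 - 1) (d / 2) := by
      intro i hi
      rw [Finset.mem_filter, Finset.mem_Icc] at hi
      rw [Finset.mem_Icc]
      exact ⟨hi.2, hi.1.2⟩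
    refine (Finset.card_le_card this).trans ?_
    rw [Nat.card_Icc]
    omega
  have h1r : (((Finset.Icc 2 (d / 2)).filter (fun i => i ≤ 23)).card : ℝ) ≤ 22 := by exact_mod_cast h1
  have h2r : (((Finset.Icc 2 (d / 2)).filter (fun i => d / 2 - 1 ≤ i)).card : ℝ) ≤ 2 := by
    exact_mod_cast h2
  linarith

end Pool.Agent.HRJ
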