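import Pool.Agent.HRJ.N7

/-!
# HRJ-N11: dimension four

PROOF PLAN.  `gG 2 = Γ(5/2)/Γ(2) = 3√π/4`, `gG (3/2) = Γ(2)/Γ(3/2) = 2/√π`, `gG 1 = Γ(3/2)/Γ(1) = √π/2` (`Real.Gamma_one_half_eq`, `Real.Gamma_add_one`).  `v2 4 3 = 3π/16`, `r2 4 3 = 4/π`, so `Th 4 3 = max(v2 (r2 - 1), (3 v2/4)(8 r2/6 + 1))/(8/5) = (9/102.4)(16/3 + π)` (the second is the
maximum), and `mm 2 * 2/(mm 4 * 4) = gG 2/gG 1/2 = 3/4` (`mm_gG`); `π < 3.2` (`Real.pi_lt_d2`).
-/

set_option autoImplicit false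

namespace Pool.Agent.HRJ

open MeasureTheory ProbabilityTheory Set Filter Topology Metric
open Pool.Agent.HP89 Pool.Agent.FI75 Pool.Agent.PBL
open scoped RealInnerProductSpace ENNReal

private theorem g32 : Real.Gamma (3 / 2) = √Real.pi / 2 := by
  have h := Real.Gamma_add_one (s := 1 / 2) (by norm_num)
  rw [Real.Gamma_one_half_eq] at h
  rw [show (3 / 2 : ℝ) = 1 / 2 + 1 by norm_num, h]
  ring

private theorem g52 : Real.Gamma (5 / 2) = 3 * √Real.pi / 4 := by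
  have h := Real.Gamma_add_one (s := 3 / 2) (by norm_num)
  rw [g32] at h
  rw [show (5 / 2 : ℝ) = 3 / 2 + 1 by norm_num, h]
  ring

private theorem gG1 : gG 1 = √Real.pi / 2 := by
  unfold gG
  rw [show (1 : ℝ) + 1 / 2 = 3 / 2 by norm_num, g32, Real.Gamma_one]
  ring

private theorem gG32 : gG (3 / 2) = 2 / √Real.pi := by
  have hp : 0 < √Real.pi := Real.sqrt_pos.2 Real.pi_pos
  unfold gG
  rw [show (3 / 2 : ℝ) + 1 / 2 = 2 by norm_num, g32, Real.Gamma_two]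
  field_simp

private theorem gG2 : gG 2 = 3 * √Real.pi / 4 := by
  unfold gG
  rw [show (2 : ℝ) + 1 / 2 = 5 / 2 by norm_num, g52, Real.Gamma_two]
  ring

theorem four : Th 4 3 < mm 2 * 2 / (mm 4 * 4) := by
  have hs : 0 < √Real.pi := Real.sqrt_pos.2 Real.pi_pos
  have hq : √Real.pi * √Real.pi = Real.pi := Real.mul_self_sqrt Real.pi_pos.le
  have hpi := Real.pi_pos
  have hv : v2 4 3 = 3 * Real.pi / 16 := by
    unfold v2
    rw [show ((4 : ℕ) : ℝ) / 2 = 2 by norm_num, show ((3 : ℕ) : ℝ) / 2 = 3 / 2 by norm_num, gG2, gG32]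
    field_simp
    push_cast
    nlinarith [hq]
  have hr : r2 4 3 = 4 / Real.pi := by
    unfold r2
    rw [show (((4 : ℕ) : ℝ) + 2) / 4 = 3 / 2 by norm_num,
      show (2 * ((3 : ℕ) : ℝ) - ((4 : ℕ) : ℝ) + 2) / 4 = 1 by norm_num, gG1, gG32]
    field_simp
    nlinarith [hq]
  have hm : mm 2 * 2 / (mm 4 * 4) = 3 / 4 := by
    rw [mm_gG (by norm_num), mm_gG (by norm_num), show ((4 : ℕ) : ℝ) / 2 = 2 by norm_num,
      show ((2 : ℕ) : ℝ) / 2 = 1 by norm_num, gG1, gG2]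
    field_simp
    norm_num
  rw [hm]
  unfold Th
  rw [hv, hr]
  have h3 : Real.pi < 3.15 := Real.pi_lt_d2
  rw [div_lt_iff₀ (by norm_num), max_lt_iff]
  constructor
  · have : 3 * Real.pi / 16 * (4 / Real.pi - 1) = 3 / 4 - 3 * Real.pi / 16 := by
      field_simp
      ring
    rw [this]
    norm_num
    linarith
  · have : 3 * (3 * Real.pi / 16) / (((3 : ℕ) : ℝ) + 1) *
        (4 / Real.pi * (((4 : ℕ) : ℝ) + 4) / (2 * ((3 : ℕ) : ℝ) - ((4 : ℕ) : ℝ) + 4) + 1) =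
          3 / 4 + 9 * Real.pi / 64 := by
      push_cast
      field_simp
      ring
    rw [this]
    norm_num
    linarith

end Pool.Agent.HRJ
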