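import Pool.Agent.HRJ.N6a

/-!
# HRJ-N6: the function `g(x) = Γ(x + 1/2)/Γ(x)`

PROOF PLAN.  `gG_mul`: `Γ(x+1) = x Γ(x)`.  `gG_add_one`.  `gG_sq`: `x - 1/2 ≤ g(x)² ≤ x`: log-convexity of Gamma (`Real.convexOn_log_Gamma`; or `Real.Gamma_mul_add_mul_le_rpow_Gamma_mul_rpow_Gamma`, `Γ(x+1/2)² ≤ Γ(x) Γ(x+1)`), the lower bound from `g(x) = (x-1/2)/g(x-1/2)`.
`up` : `J(x) = g(x)^4 (x+1/2)/x^3 ≤ 1`: `J(x+1)/J(x) = (x+1/2)^3 (x+3/2)/(x (x+1)^3) ≥ 1` and `J(x+n) → 1` (`gG_sq`).  It is equivalent to `g(x)²/x ≤ g(x+1/2)²/(x+1/2)` by `gG_mul`.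
`down`: `L(x) = g(x)^4 (x+1/4)/(x^2 (x-1/4)) ≥ 1` (`x > 1/4`): `L(x+1)/L(x) ≤ 1` (`(x+1/2)^4 (x+5/4)(x-1/4) ≤ x^2 (x+1)^2 (x+3/4)(x+1/4)`: the difference RHS - LHS is a polynomial with nonnegative coefficients in `x` after simplification, check) and `L(x+n) → 1`;
equivalent to `g(x+1/2)²/(x+1/4) ≤ g(x)²/(x-1/4)`.
`up_n`, `down_n`: induction on the number of half steps.
-/

set_option autoImplicit false

namespace Pool.Agent.HRJ

open MeasureTheory ProbabilityTheory Set Filter Topology Metric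
open Pool.Agent.HP89 Pool.Agent.FI75 Pool.Agent.PBL
open scoped RealInnerProductSpace ENNReal

private theorem N6_add_one {x : ℝ} (hx : 0 < x) : gG (x + 1) = gG x * (x + 1 / 2) / x := by
  have h1 := gG_mul hx
  have h2 := gG_mul (x := x + 1 / 2) (by linarith)
  have h3 : x + 1 / 2 + 1 / 2 = x + 1 := by ring
  rw [h3] at h2
  rw [eq_div_iff hx.ne']
  calc gG (x + 1) * x = gG (x + 1) * (gG x * gG (x + 1 / 2)) := by rw [h1]
    _ = gG x * (gG (x + 1 / 2) * gG (x + 1)) := by ring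
    _ = gG x * (x + 1 / 2) := by rw [h2]

private theorem N6_half {x : ℝ} (hx : 0 < x) : gG (x + 1 / 2) = x / gG x := by
  rw [eq_div_iff (gG_pos hx).ne', mul_comm]
  exact gG_mul hx

/-- the quotient for `up` -/
private theorem N6_J {x : ℝ} (hx : 0 < x) : gG x ^ 4 * (x + 1 / 2) / x ^ 3 ≤ 1 := by
  have step : ∀ y : ℝ, 0 < y → gG y ^ 4 * (y + 1 / 2) / y ^ 3 ≤
      gG (y + 1) ^ 4 * (y + 1 + 1 / 2) / (y + 1) ^ 3 := by
    intro y hy
    rw [N6_add_one hy]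
    have hg := gG_pos hy
    rw [div_pow, mul_pow, div_mul_eq_mul_div, div_div, div_le_div_iff₀ (by positivity) (by positivity)]
    have h1 : y * (y + 1) ^ 3 ≤ (y + 1 / 2) ^ 3 * (y + 3 / 2) := by nlinarith
    have h2 : 0 ≤ gG y ^ 4 * (y + 1 / 2) * y ^ 3 := by positivity
    nlinarith [mul_le_mul_of_nonneg_left h1 h2]
  have hn : ∀ n : ℕ, gG x ^ 4 * (x + 1 / 2) / x ^ 3 ≤
      gG (x + n) ^ 4 * (x + n + 1 / 2) / (x + n) ^ 3 := by
    intro n
    induction n with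
    | zero => simp
    | succ n ih =>
      refine ih.trans ?_
      have h := step (x + n) (by positivity)
      have e : x + ((n + 1 : ℕ) : ℝ) = x + n + 1 := by push_cast; ring
      rw [e]
      exact h
  have hb : ∀ n : ℕ, gG x ^ 4 * (x + 1 / 2) / x ^ 3 ≤ 1 + 1 / ((n : ℝ) + 1) := by
    intro n
    refine (hn (n + 1)).trans ?_
    set y : ℝ := x + ((n + 1 : ℕ) : ℝ) with hy
    have hy1 : (n : ℝ) + 1 ≤ y := by
      rw [hy]
      push_cast
      linarith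
    have hn0 : (0 : ℝ) ≤ n := Nat.cast_nonneg n
    have hy0 : 0 < y := by linarith
    have h2 := (gG_sq (x := y) (by linarith)).2
    have h3 : gG y ^ 4 ≤ y ^ 2 := by
      have : gG y ^ 4 = (gG y ^ 2) ^ 2 := by ring
      rw [this]
      have h4 : 0 ≤ gG y ^ 2 := by positivity
      nlinarith
    calc gG y ^ 4 * (y + 1 / 2) / y ^ 3 ≤ y ^ 2 * (y + 1 / 2) / y ^ 3 := by gcongr
      _ = 1 + 1 / (2 * y) := by field_simp
      _ ≤ 1 + 1 / ((n : ℝ) + 1) := by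
        gcongr
        linarith
  have hlim : Tendsto (fun n : ℕ => 1 + 1 / ((n : ℝ) + 1)) atTop (𝓝 (1 + 0)) :=
    tendsto_const_nhds.add tendsto_one_div_add_atTop_nhds_zero_nat
  rw [add_zero] at hlim
  exact ge_of_tendsto' hlim hb

/-- the quotient for `down` -/
private theorem N6_L {x : ℝ} (hx : 1 / 4 < x) :
    1 ≤ gG x ^ 4 * (x + 1 / 4) / (x ^ 2 * (x - 1 / 4)) := by
  have step : ∀ y : ℝ, 1 / 4 < y → gG (y + 1) ^ 4 * (y + 1 + 1 / 4) / ((y + 1) ^ 2 * (y + 1 - 1 / 4)) ≤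
      gG y ^ 4 * (y + 1 / 4) / (y ^ 2 * (y - 1 / 4)) := by
    intro y hy
    have hy0 : 0 < y := by linarith
    have hy4 : 0 < y - 1 / 4 := by linarith
    have hy5 : 0 < y + 1 - 1 / 4 := by linarith
    rw [N6_add_one hy0]
    have hg := gG_pos hy0
    rw [div_pow, mul_pow, div_mul_eq_mul_div, div_div, div_le_div_iff₀ (by positivity) (by positivity)]
    have h1 : (y + 1 / 2) ^ 4 * ((y + 5 / 4) * (y - 1 / 4)) ≤
        y ^ 2 * (y + 1) ^ 2 * ((y + 3 / 4) * (y + 1 / 4)) := by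
      nlinarith
    have h2 : 0 ≤ gG y ^ 4 * y ^ 2 := by positivity
    nlinarith [mul_le_mul_of_nonneg_left h1 h2]
  have hn : ∀ n : ℕ, gG (x + n) ^ 4 * (x + n + 1 / 4) / ((x + n) ^ 2 * (x + n - 1 / 4)) ≤
      gG x ^ 4 * (x + 1 / 4) / (x ^ 2 * (x - 1 / 4)) := by
    intro n
    induction n with
    | zero => simp
    | succ n ih =>
      refine le_trans ?_ ih
      have h := step (x + n) (by have : (0 : ℝ) ≤ n := Nat.cast_nonneg n; linarith)
      have e : x + ((n + 1 : ℕ) : ℝ) = x + n + 1 := by push_cast; ring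
      rw [e]
      exact h
  have hb : ∀ n : ℕ, 1 - 1 / ((n : ℝ) + 1) ≤ gG x ^ 4 * (x + 1 / 4) / (x ^ 2 * (x - 1 / 4)) := by
    intro n
    refine le_trans ?_ (hn (n + 1))
    set y : ℝ := x + ((n + 1 : ℕ) : ℝ) with hy
    have hy1 : (n : ℝ) + 1 ≤ y := by
      rw [hy]
      push_cast
      linarith
    have hn0 : (0 : ℝ) ≤ n := Nat.cast_nonneg n
    have hy0 : 0 < y := by linarith
    have hy4 : 0 < y - 1 / 4 := by linarith
    have h2 := (gG_sq (x := y) (by linarith)).1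
    have h3 : (y - 1 / 2) ^ 2 ≤ gG y ^ 4 := by
      have : gG y ^ 4 = (gG y ^ 2) ^ 2 := by ring
      rw [this]
      have h4 : 0 ≤ y - 1 / 2 := by linarith
      nlinarith
    calc 1 - 1 / ((n : ℝ) + 1) ≤ 1 - 1 / y := by
          gcongr
      _ ≤ (y - 1 / 2) ^ 2 * (y + 1 / 4) / (y ^ 2 * (y - 1 / 4)) := by
          rw [le_div_iff₀ (by positivity)]
          have e : (1 - 1 / y) * (y ^ 2 * (y - 1 / 4)) = (y ^ 2 - y) * (y - 1 / 4) := by
            field_simp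
          rw [e]
          nlinarith
      _ ≤ gG y ^ 4 * (y + 1 / 4) / (y ^ 2 * (y - 1 / 4)) := by gcongr
  have hlim : Tendsto (fun n : ℕ => 1 - 1 / ((n : ℝ) + 1)) atTop (𝓝 (1 - 0)) :=
    tendsto_const_nhds.sub tendsto_one_div_add_atTop_nhds_zero_nat
  rw [sub_zero] at hlim
  exact le_of_tendsto' hlim hb

theorem gG_up {x : ℝ} (hx : 0 < x) : gG x ^ 2 / x ≤ gG (x + 1 / 2) ^ 2 / (x + 1 / 2) := by
  have hJ := N6_J hx
  have hg := gG_pos hx
  rw [div_le_one (by positivity)] at hJ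
  rw [N6_half hx, div_pow, div_div, div_le_div_iff₀ (by positivity) (by positivity)]
  nlinarith

theorem gG_down {x : ℝ} (hx : 1 / 4 < x) : gG (x + 1 / 2) ^ 2 / (x + 1 / 4) ≤ gG x ^ 2 / (x - 1 / 4) := by
  have hx0 : 0 < x := by linarith
  have hx4 : 0 < x - 1 / 4 := by linarith
  have hL := N6_L hx
  have hg := gG_pos hx0
  rw [le_div_iff₀ (by positivity), one_mul] at hL
  rw [N6_half hx0, div_pow, div_div, div_le_div_iff₀ (by positivity) (by positivity)]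
  nlinarith

theorem gG_up_n {x : ℝ} (hx : 0 < x) (n : ℕ) : gG x ^ 2 / x ≤ gG (x + n / 2) ^ 2 / (x + n / 2) := by
  induction n with
  | zero => simp
  | succ n ih =>
    refine ih.trans ?_
    have h := gG_up (x := x + n / 2) (by positivity)
    have e : x + ((n + 1 : ℕ) : ℝ) / 2 = x + n / 2 + 1 / 2 := by push_cast; ring
    rw [e]
    exact h

theorem gG_down_n {x : ℝ} (hx : 1 / 4 < x) (n : ℕ) :
    gG (x + n / 2) ^ 2 / (x + n / 2 - 1 / 4) ≤ gG x ^ 2 / (x - 1 / 4) := by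
  induction n with
  | zero => simp
  | succ n ih =>
    refine le_trans ?_ ih
    have hn0 : (0 : ℝ) ≤ n := Nat.cast_nonneg n
    have h := gG_down (x := x + n / 2) (by linarith)
    have e : x + ((n + 1 : ℕ) : ℝ) / 2 = x + n / 2 + 1 / 2 := by push_cast; ring
    have e2 : x + (n : ℝ) / 2 + 1 / 2 - 1 / 4 = x + n / 2 + 1 / 4 := by ring
    rw [e, e2]
    exact h

end Pool.Agent.HRJ
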