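import Pool.Agent.HRJ.N4
import Pool.Agent.HRJ.N6

/-!
# HRJ-N7: algebraic bounds

`v2_le`: `gG_down_n` for `x = p/2`, `n = d - p`.  `r2_le`: `gG_down_n` for `x = (2p-d+2)/4`, `n = d - p`.
`r2_ge_one`: `g` is increasing along half steps (`gG_up_n`).  `Th_le`: monotone in `v2`, `r2`; `1/(2(1-3/(d²-1))) = cd d`.
`low`: `mm_gG` and `gG_up_n` for `x = k/2`, `n = d - k`.
-/

set_option autoImplicit false

namespace Pool.Agent.HRJ

open MeasureTheory ProbabilityTheory Set Filter Topology Metric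
open Pool.Agent.HP89 Pool.Agent.FI75 Pool.Agent.PBL
open scoped RealInnerProductSpace ENNReal

private theorem n7_castR {d p : ℕ} (hpd : p < d) : (p : ℝ) + 1 ≤ d := by exact_mod_cast hpd

private theorem n7_down {x : ℝ} (hx : 1 / 4 < x) (n : ℕ) {y : ℝ} (hy : x + n / 2 = y) :
    gG y / gG x ≤ √((y - 1 / 4) / (x - 1 / 4)) := by
  have h := gG_down_n hx n
  rw [hy] at h
  have hn : (0 : ℝ) ≤ n := n.cast_nonneg
  have hy4 : 0 < y - 1 / 4 := by linarith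
  have hx4 : 0 < x - 1 / 4 := by linarith
  have g1 : 0 < gG x := gG_pos (by linarith)
  have g2 : 0 < gG y := gG_pos (by linarith)
  apply Real.le_sqrt_of_sq_le
  rw [div_pow, div_le_div_iff₀ (by positivity) hx4]
  rw [div_le_div_iff₀ hy4 hx4] at h
  linarith

private theorem n7_up {x : ℝ} (hx : 0 < x) (n : ℕ) {y : ℝ} (hy : x + n / 2 = y) :
    y / x ≤ (gG y / gG x) ^ 2 := by
  have h := gG_up_n hx n
  rw [hy] at h
  have hn : (0 : ℝ) ≤ n := n.cast_nonneg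
  have hy4 : 0 < y := by linarith
  have g1 : 0 < gG x := gG_pos (by linarith)
  rw [div_pow, div_le_div_iff₀ hx (by positivity)]
  rw [div_le_div_iff₀ hx hy4] at h
  linarith

theorem v2_le {d p : ℕ} (hp : 3 ≤ p) (hpd : p < d) : v2 d p ≤ vt d p := by
  have hp3 : (3 : ℝ) ≤ p := by exact_mod_cast hp
  have hc := n7_castR hpd
  have h := n7_down (x := (p : ℝ) / 2) (by linarith) (d - p) (y := (d : ℝ) / 2)
    (by rw [Nat.cast_sub hpd.le]; ring)
  have e : ((d : ℝ) / 2 - 1 / 4) / ((p : ℝ) / 2 - 1 / 4) = (2 * (d : ℝ) - 1) / (2 * (p : ℝ) - 1) := by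
    rw [div_eq_div_iff (by linarith) (by linarith)]
    ring
  rw [e] at h
  unfold v2 vt
  rw [mul_comm ((p : ℝ) - 1), div_mul_eq_div_div]
  exact div_le_div_of_nonneg_right h (by linarith)

theorem v2_pos {d p : ℕ} (hp : 3 ≤ p) (hpd : p < d) : 0 < v2 d p := by
  have hp3 : (3 : ℝ) ≤ p := by exact_mod_cast hp
  have hc := n7_castR hpd
  have g1 : 0 < gG ((d : ℝ) / 2) := gG_pos (by linarith)
  have g2 : 0 < gG ((p : ℝ) / 2) := gG_pos (by linarith)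
  unfold v2
  exact div_pos g1 (mul_pos (by linarith) g2)

theorem r2_le {d p : ℕ} (hp : 3 ≤ p) (hpd : p < d) (h2 : d + 2 ≤ 2 * p) : r2 d p ≤ rt2 d p := by
  have h2' : (d : ℝ) + 2 ≤ 2 * p := by exact_mod_cast h2
  have hc := n7_castR hpd
  have h := n7_down (x := (2 * (p : ℝ) - d + 2) / 4) (by linarith) (d - p) (y := ((d : ℝ) + 2) / 4)
    (by rw [Nat.cast_sub hpd.le]; ring)
  have e : (((d : ℝ) + 2) / 4 - 1 / 4) / ((2 * (p : ℝ) - d + 2) / 4 - 1 / 4) =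
      ((d : ℝ) + 1) / (2 * (p : ℝ) - d + 1) := by
    rw [div_eq_div_iff (by linarith) (by linarith)]
    ring
  rw [e] at h
  exact h

theorem r2_ge_one {d p : ℕ} (hp : 3 ≤ p) (hpd : p < d) (h2 : d + 2 ≤ 2 * p) : 1 ≤ r2 d p := by
  have h2' : (d : ℝ) + 2 ≤ 2 * p := by exact_mod_cast h2
  have hc := n7_castR hpd
  have h := n7_up (x := (2 * (p : ℝ) - d + 2) / 4) (by linarith) (d - p) (y := ((d : ℝ) + 2) / 4)
    (by rw [Nat.cast_sub hpd.le]; ring)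
  have g1 : 0 < gG (((d : ℝ) + 2) / 4) := gG_pos (by linarith)
  have g2 : 0 < gG ((2 * (p : ℝ) - d + 2) / 4) := gG_pos (by linarith)
  have h3 : (1 : ℝ) ≤ (((d : ℝ) + 2) / 4) / ((2 * (p : ℝ) - d + 2) / 4) := by
    rw [le_div_iff₀ (by linarith)]
    linarith
  have h4 : (1 : ℝ) ≤ r2 d p ^ 2 := h3.trans h
  have h5 : 0 < r2 d p := div_pos g1 g2
  nlinarith

private theorem n7_den {d : ℕ} (hd : 4 ≤ d) :
    0 < 2 * (1 - 3 / ((d : ℝ) ^ 2 - 1)) ∧ cd d = 1 / (2 * (1 - 3 / ((d : ℝ) ^ 2 - 1))) := by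
  have h4 : (4 : ℝ) ≤ d := by exact_mod_cast hd
  have h1 : 0 < (d : ℝ) ^ 2 - 1 := by nlinarith
  have h2 : 0 < (d : ℝ) ^ 2 - 4 := by nlinarith
  have e : 2 * (1 - 3 / ((d : ℝ) ^ 2 - 1)) = 2 * ((d : ℝ) ^ 2 - 4) / ((d : ℝ) ^ 2 - 1) := by
    field_simp
    ring
  rw [e]
  refine ⟨by positivity, ?_⟩
  unfold cd
  rw [one_div_div]

theorem Th_nonneg {d p : ℕ} (hp : 3 ≤ p) (hpd : p < d) (h2 : d + 2 ≤ 2 * p) : 0 ≤ Th d p := by
  have h1 := (n7_den (d := d) (by omega)).1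
  unfold Th
  refine div_nonneg ?_ h1.le
  refine le_trans ?_ (le_max_left _ _)
  exact mul_nonneg (v2_pos hp hpd).le (by linarith [r2_ge_one hp hpd h2])

theorem Th_le {d p : ℕ} (hp : 3 ≤ p) (hpd : p < d) (h2 : d + 2 ≤ 2 * p) : Th d p ≤ max (T2 d p) (T4 d p) := by
  obtain ⟨h1, e1⟩ := n7_den (d := d) (by omega)
  have hcd : 0 < cd d := by
    rw [e1]
    positivity
  have h2' : (d : ℝ) + 2 ≤ 2 * p := by exact_mod_cast h2
  have hp3 : (3 : ℝ) ≤ p := by exact_mod_cast hp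
  have hd0 : (0 : ℝ) ≤ d := d.cast_nonneg
  have a1 := v2_le hp hpd
  have a2 := v2_pos hp hpd
  have a3 := r2_le hp hpd h2
  have a4 := r2_ge_one hp hpd h2
  have hvt : 0 < vt d p := a2.trans_le a1
  have b1 : v2 d p * (r2 d p - 1) ≤ vt d p * (rt2 d p - 1) :=
    mul_le_mul a1 (by linarith) (by linarith) hvt.le
  have b2 : 3 * v2 d p / ((p : ℝ) + 1) * (r2 d p * ((d : ℝ) + 4) / (2 * (p : ℝ) - d + 4) + 1) ≤
      3 * vt d p / ((p : ℝ) + 1) * (rt2 d p * ((d : ℝ) + 4) / (2 * (p : ℝ) - d + 4) + 1) := by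
    refine mul_le_mul ?_ ?_ ?_ ?_
    · exact div_le_div_of_nonneg_right (by linarith) (by linarith)
    · have : r2 d p * ((d : ℝ) + 4) / (2 * (p : ℝ) - d + 4) ≤ rt2 d p * ((d : ℝ) + 4) / (2 * (p : ℝ) - d + 4) :=
        div_le_div_of_nonneg_right (mul_le_mul_of_nonneg_right a3 (by linarith)) (by linarith)
      linarith
    · have : 0 ≤ r2 d p * ((d : ℝ) + 4) / (2 * (p : ℝ) - d + 4) :=
        div_nonneg (mul_nonneg (by linarith) (by linarith)) (by linarith)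
      linarith
    · exact div_nonneg (by linarith) (by linarith)
  unfold Th
  rw [div_eq_mul_one_div, ← e1]
  unfold T2 T4
  rcases max_cases (v2 d p * (r2 d p - 1))
    (3 * v2 d p / ((p : ℝ) + 1) * (r2 d p * ((d : ℝ) + 4) / (2 * (p : ℝ) - d + 4) + 1)) with ⟨hm, _⟩ | ⟨hm, _⟩
  · rw [hm, mul_comm]
    exact (mul_le_mul_of_nonneg_left b1 hcd.le).trans (le_max_left _ _)
  · rw [hm, mul_comm]
    exact (mul_le_mul_of_nonneg_left b2 hcd.le).trans (le_max_right _ _)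

theorem low {d k : ℕ} (hk : 1 ≤ k) (hkd : k < d) (h2 : d ≤ 2 * k) : √(1 / 2) ≤ mm k * k / (mm d * d) := by
  have hk1 : (1 : ℝ) ≤ k := by exact_mod_cast hk
  have hc := n7_castR hkd
  have h2' : (d : ℝ) ≤ 2 * k := by exact_mod_cast h2
  have hd0 : (0 : ℝ) < d := by linarith
  have hk0 : (0 : ℝ) < k := by linarith
  have g1 : 0 < gG ((d : ℝ) / 2) := gG_pos (by linarith)
  have g2 : 0 < gG ((k : ℝ) / 2) := gG_pos (by linarith)
  have hπ : 0 < √Real.pi := Real.sqrt_pos.mpr Real.pi_pos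
  have e : mm k * k / (mm d * d) = gG ((d : ℝ) / 2) / gG ((k : ℝ) / 2) * (k / d) := by
    rw [mm_gG hk, mm_gG (by omega : 1 ≤ d)]
    field_simp
  rw [e]
  have h := n7_up (x := (k : ℝ) / 2) (by linarith) (d - k) (y := (d : ℝ) / 2)
    (by rw [Nat.cast_sub hkd.le]; ring)
  rw [Real.sqrt_le_left (by positivity)]
  rw [mul_pow]
  have h3 : (d : ℝ) / 2 / (k / 2) = d / k := by
    field_simp
  rw [h3] at h
  have h4 : (d : ℝ) / k * (k / d) ^ 2 ≤ (gG ((d : ℝ) / 2) / gG ((k : ℝ) / 2)) ^ 2 * (k / d) ^ 2 :=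
    mul_le_mul_of_nonneg_right h (by positivity)
  refine le_trans ?_ h4
  have h5 : (d : ℝ) / k * (k / d) ^ 2 = k / d := by
    field_simp
  rw [h5, div_le_div_iff₀ (by norm_num) hd0]
  linarith

end Pool.Agent.HRJ
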