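import Pool.Agent.HRJ.Defs

/-!
# HRJ-N8: small dimensions

The sum is `.6736` for `d = 6`, `.6198` for `d = 8`, `≤ .6` for the others.  PROOF PLAN.  `p = d - i + 1`.  `T2 = cd d (√A - √B)/(p-1)`, `T4 = cd d 3/((p+1)(p-1)) (√A (d+4)/(2p-d+4) + √B)` with `A = (2d-1)(d+1)/((2p-1)(2p-d+1))`, `B = (2d-1)/(2p-1)`.
Rational bounds of the square roots: for naturals `a, b > 0` and `N = a * 10^12 / b` (`Nat` division): `Nat.sqrt N / 10^6 ≤ √(a/b) ≤ (Nat.sqrt N + 1)/10^6`.  Define a computable `chk : ℕ → Bool` (sums of rational or of rounded natural numbers) and prove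
`∀ d ∈ [5, 120), chk d = true` by `decide +kernel` (no `native_decide`), with a soundness lemma.  (The total number of pairs is 3500.)  Python check with exactly these bounds: maximum .673521.
-/

set_option autoImplicit false

namespace Pool.Agent.HRJ

open MeasureTheory ProbabilityTheory Set Filter Topology Metric
open Pool.Agent.HP89 Pool.Agent.FI75 Pool.Agent.PBL
open scoped RealInnerProductSpace ENNReal

/-! ### integer bounds -/

private def nw : ℕ → ℕ → ℕ → ℕ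
  | 0, _, g => g
  | f + 1, n, g => if (g + n / g) / 2 < g then nw f n ((g + n / g) / 2) else g

private def sq (n : ℕ) : ℕ := nw 40 n 10000000

private def na (d p : ℕ) : ℕ := (2 * d - 1) * (d + 1) * 1000000000000 / ((2 * p - 1) * (2 * p - d + 1))

private def nb (d p : ℕ) : ℕ := (2 * d - 1) * 1000000000000 / (2 * p - 1)

private def u2 (d p : ℕ) : ℕ :=
  (d * d - 1) * (sq (na d p) + 1 - sq (nb d p)) * 1000 / (2 * (d * d - 4) * (p - 1)) + 1

private def u4 (d p : ℕ) : ℕ :=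
  (d * d - 1) * 3 * ((sq (na d p) + 1) * (d + 4) + (sq (nb d p) + 1) * (2 * p - d + 4)) * 1000 /
    (2 * (d * d - 4) * (p + 1) * (p - 1) * (2 * p - d + 4)) + 1

private def cond (d p : ℕ) : Bool :=
  decide (sq (nb d p) * sq (nb d p) ≤ nb d p) &&
    (decide (nb d p < (sq (nb d p) + 1) * (sq (nb d p) + 1)) &&
      decide (na d p < (sq (na d p) + 1) * (sq (na d p) + 1)))

private def ss (d : ℕ) : ℕ → ℕ
  | 0 => 0
  | k + 1 => ss d k + max (u2 d (d - (2 + k) + 1)) (u4 d (d - (2 + k) + 1))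

private def cs (d : ℕ) : ℕ → Bool
  | 0 => true
  | k + 1 => cs d k && cond d (d - (2 + k) + 1)

private def chk (d : ℕ) : Bool := decide (ss d (d / 2 + 1 - 2) ≤ 700000000) && cs d (d / 2 + 1 - 2)

private theorem chk_all : ((List.range 115).all fun k => chk (k + 5)) = true := by decide +kernel

private theorem div_up (x y : ℕ) (hy : 0 < y) : (x : ℝ) / (y : ℝ) ≤ ((x / y + 1 : ℕ) : ℝ) := by
  rw [div_le_iff₀ (by exact_mod_cast hy)]
  have h := Nat.lt_mul_div_succ x hy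
  have h2 : x ≤ (x / y + 1) * y := by
    rw [Nat.mul_comm]
    exact h.le
  exact_mod_cast h2

private theorem div_lo (x y : ℕ) : ((x / y : ℕ) : ℝ) ≤ (x : ℝ) / (y : ℝ) := Nat.cast_div_le

/-- bounds of the two square roots -/
private theorem roots {d p : ℕ} (hd : 5 ≤ d) (hp : d + 2 ≤ 2 * p) (hpd : p ≤ d) (h : cond d p = true) :
    (sq (nb d p) : ℝ) / 1000000 ≤ √((2 * (d : ℝ) - 1) / (2 * (p : ℝ) - 1)) ∧
    √((2 * (d : ℝ) - 1) / (2 * (p : ℝ) - 1)) ≤ ((sq (nb d p) : ℝ) + 1) / 1000000 ∧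
    √((2 * (d : ℝ) - 1) / (2 * (p : ℝ) - 1)) * √(((d : ℝ) + 1) / (2 * (p : ℝ) - d + 1)) ≤
      ((sq (na d p) : ℝ) + 1) / 1000000 := by
  have h' := h
  simp only [cond, Bool.and_eq_true, decide_eq_true_eq] at h'
  obtain ⟨h1, h2, h3⟩ := h'
  have hD : (5 : ℝ) ≤ d := by exact_mod_cast hd
  have hP : (d : ℝ) + 2 ≤ 2 * p := by exact_mod_cast hp
  have hPD : (p : ℝ) ≤ d := by exact_mod_cast hpd
  have e1 : ((2 * d - 1 : ℕ) : ℝ) = 2 * (d : ℝ) - 1 := by
    rw [Nat.cast_sub (by omega)]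
    push_cast
    ring
  have e2 : ((2 * p - 1 : ℕ) : ℝ) = 2 * (p : ℝ) - 1 := by
    rw [Nat.cast_sub (by omega)]
    push_cast
    ring
  have e3 : ((2 * p - d + 1 : ℕ) : ℝ) = 2 * (p : ℝ) - d + 1 := by
    rw [Nat.cast_add, Nat.cast_sub (by omega)]
    push_cast
    ring
  have hb1 : (nb d p : ℝ) ≤ (2 * (d : ℝ) - 1) / (2 * (p : ℝ) - 1) * 1000000000000 := by
    have := div_lo ((2 * d - 1) * 1000000000000) (2 * p - 1)
    rw [Nat.cast_mul, e1, e2] at this
    refine this.trans (le_of_eq ?_)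
    push_cast
    ring
  have hb2 : (2 * (d : ℝ) - 1) / (2 * (p : ℝ) - 1) * 1000000000000 ≤ (nb d p : ℝ) + 1 := by
    have := div_up ((2 * d - 1) * 1000000000000) (2 * p - 1) (by omega)
    rw [Nat.cast_mul, e1, e2] at this
    refine le_trans (le_of_eq ?_) (this.trans (le_of_eq ?_))
    · push_cast
      ring
    · rw [Nat.cast_add, Nat.cast_one]
      rfl
  have ha2 : (2 * (d : ℝ) - 1) / (2 * (p : ℝ) - 1) * (((d : ℝ) + 1) / (2 * (p : ℝ) - d + 1)) * 1000000000000 ≤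
      (na d p : ℝ) + 1 := by
    have := div_up ((2 * d - 1) * (d + 1) * 1000000000000) ((2 * p - 1) * (2 * p - d + 1))
      (Nat.mul_pos (by omega) (by omega))
    rw [Nat.cast_mul, Nat.cast_mul, Nat.cast_mul, e1, e2, e3] at this
    refine le_trans (le_of_eq ?_) (this.trans (le_of_eq ?_))
    · have n1 : (2 * (p : ℝ) - 1) ≠ 0 := by
        have : (0 : ℝ) < 2 * (p : ℝ) - 1 := by linarith
        exact this.ne'
      have n2 : (2 * (p : ℝ) - d + 1) ≠ 0 := by
        have : (0 : ℝ) < 2 * (p : ℝ) - d + 1 := by linarith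
        exact this.ne'
      push_cast
      field_simp
    · rw [Nat.cast_add, Nat.cast_one]
      rfl
  have g1 : ((sq (nb d p) : ℝ)) * (sq (nb d p) : ℝ) ≤ (nb d p : ℝ) := by exact_mod_cast h1
  have g2 : (nb d p : ℝ) + 1 ≤ ((sq (nb d p) : ℝ) + 1) * ((sq (nb d p) : ℝ) + 1) := by exact_mod_cast h2
  have g3 : (na d p : ℝ) + 1 ≤ ((sq (na d p) : ℝ) + 1) * ((sq (na d p) : ℝ) + 1) := by exact_mod_cast h3
  refine ⟨?_, ?_, ?_⟩
  · apply Real.le_sqrt_of_sq_le
    have : ((sq (nb d p) : ℝ) / 1000000) ^ 2 = (sq (nb d p) : ℝ) * (sq (nb d p) : ℝ) / 1000000000000 := by ring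
    rw [this, div_le_iff₀ (by norm_num)]
    linarith
  · apply Real.sqrt_le_iff.2
    refine ⟨by positivity, ?_⟩
    have : (((sq (nb d p) : ℝ) + 1) / 1000000) ^ 2 =
      ((sq (nb d p) : ℝ) + 1) * ((sq (nb d p) : ℝ) + 1) / 1000000000000 := by ring
    rw [this, le_div_iff₀ (by norm_num)]
    linarith
  · have hB : 0 ≤ (2 * (d : ℝ) - 1) / (2 * (p : ℝ) - 1) := by
      apply div_nonneg <;> linarith
    rw [← Real.sqrt_mul hB]
    apply Real.sqrt_le_iff.2
    refine ⟨by positivity, ?_⟩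
    have : (((sq (na d p) : ℝ) + 1) / 1000000) ^ 2 =
      ((sq (na d p) : ℝ) + 1) * ((sq (na d p) : ℝ) + 1) / 1000000000000 := by ring
    rw [this, le_div_iff₀ (by norm_num)]
    linarith

private theorem both {d p : ℕ} (hd : 5 ≤ d) (hp : d + 2 ≤ 2 * p) (hpd : p ≤ d) (h : cond d p = true) :
    T2 d p ≤ (u2 d p : ℝ) / 1000000000 ∧ T4 d p ≤ (u4 d p : ℝ) / 1000000000 := by
  obtain ⟨r1, r2, r3⟩ := roots hd hp hpd h
  have hD : (5 : ℝ) ≤ d := by exact_mod_cast hd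
  have hP : (d : ℝ) + 2 ≤ 2 * p := by exact_mod_cast hp
  have hPD : (p : ℝ) ≤ d := by exact_mod_cast hpd
  set x : ℝ := √((2 * (d : ℝ) - 1) / (2 * (p : ℝ) - 1)) with hx
  set y : ℝ := √(((d : ℝ) + 1) / (2 * (p : ℝ) - d + 1)) with hy
  set a : ℕ := sq (na d p) with ha
  set b : ℕ := sq (nb d p) with hb
  have e4 : ((d * d - 1 : ℕ) : ℝ) = (d : ℝ) ^ 2 - 1 := by
    rw [Nat.cast_sub (by nlinarith)]
    push_cast
    ring
  have e5 : ((d * d - 4 : ℕ) : ℝ) = (d : ℝ) ^ 2 - 4 := by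
    rw [Nat.cast_sub (by nlinarith)]
    push_cast
    ring
  have e6 : ((p - 1 : ℕ) : ℝ) = (p : ℝ) - 1 := by
    rw [Nat.cast_sub (by omega)]
    push_cast
    ring
  have e7 : ((2 * p - d + 4 : ℕ) : ℝ) = 2 * (p : ℝ) - d + 4 := by
    rw [Nat.cast_add, Nat.cast_sub (by omega)]
    push_cast
    ring
  have q1 : (0 : ℝ) < (d : ℝ) ^ 2 - 1 := by nlinarith
  have q2 : (0 : ℝ) < (d : ℝ) ^ 2 - 4 := by nlinarith
  have q3 : (0 : ℝ) < (p : ℝ) - 1 := by linarith
  have q4 : (0 : ℝ) < 2 * (p : ℝ) - d + 4 := by linarith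
  have q5 : (0 : ℝ) < (p : ℝ) + 1 := by linarith
  have pos1 : 0 < 2 * (d * d - 4) * (p - 1) := by
    have : 0 < d * d - 4 := by
      have : 25 ≤ d * d := by nlinarith
      omega
    have : 0 < p - 1 := by omega
    positivity
  have pos2 : 0 < 2 * (d * d - 4) * (p + 1) * (p - 1) * (2 * p - d + 4) := by
    have : 0 < d * d - 4 := by
      have : 25 ≤ d * d := by nlinarith
      omega
    have : 0 < p - 1 := by omega
    have : 0 < 2 * p - d + 4 := by omega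
    positivity
  have hcd : 0 < cd d := by
    unfold cd
    positivity
  constructor
  · have s1 : T2 d p = ((d : ℝ) ^ 2 - 1) * (x * y - x) / (2 * ((d : ℝ) ^ 2 - 4) * ((p : ℝ) - 1)) := by
      unfold T2 cd vt rt2
      rw [← hx, ← hy]
      field_simp
    have s2 : (a : ℝ) + 1 - b ≤ ((a + 1 - b : ℕ) : ℝ) := by
      have : a + 1 ≤ (a + 1 - b) + b := by omega
      have h3 : (a : ℝ) + 1 ≤ ((a + 1 - b : ℕ) : ℝ) + b := by exact_mod_cast this
      linarith
    have s3 : x * y - x ≤ ((a + 1 - b : ℕ) : ℝ) / 1000000 := by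
      have : x * y - x ≤ ((a : ℝ) + 1) / 1000000 - (b : ℝ) / 1000000 := by linarith
      have h4 : ((a : ℝ) + 1) / 1000000 - (b : ℝ) / 1000000 = ((a : ℝ) + 1 - b) / 1000000 := by ring
      rw [h4] at this
      exact this.trans (div_le_div_of_nonneg_right s2 (by norm_num))
    have s4 := div_up ((d * d - 1) * (a + 1 - b) * 1000) (2 * (d * d - 4) * (p - 1)) pos1
    have s5 : (((d * d - 1) * (a + 1 - b) * 1000 : ℕ) : ℝ) / ((2 * (d * d - 4) * (p - 1) : ℕ) : ℝ) =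
        ((d : ℝ) ^ 2 - 1) * (((a + 1 - b : ℕ) : ℝ) / 1000000) / (2 * ((d : ℝ) ^ 2 - 4) * ((p : ℝ) - 1)) *
          1000000000 := by
      rw [Nat.cast_mul, Nat.cast_mul, Nat.cast_mul, Nat.cast_mul, e4, e5, e6]
      push_cast
      ring
    rw [s5] at s4
    have s6 : (u2 d p : ℝ) = (((d * d - 1) * (a + 1 - b) * 1000 / (2 * (d * d - 4) * (p - 1)) + 1 : ℕ) : ℝ) := rfl
    rw [s1, s6, le_div_iff₀ (by norm_num)]
    refine le_trans ?_ s4
    refine mul_le_mul_of_nonneg_right ?_ (by norm_num)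
    refine div_le_div_of_nonneg_right ?_ (by positivity)
    exact mul_le_mul_of_nonneg_left s3 q1.le
  · have s1 : T4 d p = ((d : ℝ) ^ 2 - 1) * 3 * ((x * y) * ((d : ℝ) + 4) + x * (2 * (p : ℝ) - d + 4)) /
        (2 * ((d : ℝ) ^ 2 - 4) * ((p : ℝ) + 1) * ((p : ℝ) - 1) * (2 * (p : ℝ) - d + 4)) := by
      unfold T4 cd vt rt2
      rw [← hx, ← hy]
      field_simp
    have s3 : (x * y) * ((d : ℝ) + 4) + x * (2 * (p : ℝ) - d + 4) ≤
        (((a : ℝ) + 1) * ((d : ℝ) + 4) + ((b : ℝ) + 1) * (2 * (p : ℝ) - d + 4)) / 1000000 := by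
      have t1 : (x * y) * ((d : ℝ) + 4) ≤ ((a : ℝ) + 1) / 1000000 * ((d : ℝ) + 4) :=
        mul_le_mul_of_nonneg_right r3 (by linarith)
      have t2 : x * (2 * (p : ℝ) - d + 4) ≤ ((b : ℝ) + 1) / 1000000 * (2 * (p : ℝ) - d + 4) :=
        mul_le_mul_of_nonneg_right r2 q4.le
      refine (add_le_add t1 t2).trans (le_of_eq ?_)
      ring
    have s4 := div_up ((d * d - 1) * 3 * ((a + 1) * (d + 4) + (b + 1) * (2 * p - d + 4)) * 1000)
      (2 * (d * d - 4) * (p + 1) * (p - 1) * (2 * p - d + 4)) pos2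
    have s5 : (((d * d - 1) * 3 * ((a + 1) * (d + 4) + (b + 1) * (2 * p - d + 4)) * 1000 : ℕ) : ℝ) /
        ((2 * (d * d - 4) * (p + 1) * (p - 1) * (2 * p - d + 4) : ℕ) : ℝ) =
        ((d : ℝ) ^ 2 - 1) * 3 * ((((a : ℝ) + 1) * ((d : ℝ) + 4) + ((b : ℝ) + 1) * (2 * (p : ℝ) - d + 4)) / 1000000) /
        (2 * ((d : ℝ) ^ 2 - 4) * ((p : ℝ) + 1) * ((p : ℝ) - 1) * (2 * (p : ℝ) - d + 4)) * 1000000000 := by
      rw [Nat.cast_mul, Nat.cast_mul, Nat.cast_mul, Nat.cast_add, Nat.cast_mul (a + 1), Nat.cast_mul (b + 1),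
        Nat.cast_mul, Nat.cast_mul, Nat.cast_mul, Nat.cast_mul, e4, e5, e6, e7]
      push_cast
      ring
    rw [s5] at s4
    have s6 : (u4 d p : ℝ) = (((d * d - 1) * 3 * ((a + 1) * (d + 4) + (b + 1) * (2 * p - d + 4)) * 1000 /
      (2 * (d * d - 4) * (p + 1) * (p - 1) * (2 * p - d + 4)) + 1 : ℕ) : ℝ) := rfl
    rw [s1, s6, le_div_iff₀ (by norm_num)]
    refine le_trans ?_ s4
    refine mul_le_mul_of_nonneg_right ?_ (by norm_num)
    refine div_le_div_of_nonneg_right ?_ (by positivity)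
    exact mul_le_mul_of_nonneg_left s3 (by positivity)

private theorem sums {d : ℕ} (hd : 5 ≤ d) : ∀ n : ℕ, n ≤ d / 2 + 1 - 2 → cs d n = true →
    ∑ k ∈ Finset.range n, max (T2 d (d - (2 + k) + 1)) (T4 d (d - (2 + k) + 1)) ≤ (ss d n : ℝ) / 1000000000 := by
  intro n
  induction n with
  | zero =>
    intro _ _
    simp [ss]
  | succ n ih =>
    intro hn hc
    simp only [cs, Bool.and_eq_true] at hc
    have h1 := ih (by omega) hc.1
    have h2 := both (d := d) (p := d - (2 + n) + 1) hd (by omega) (by omega) hc.2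
    rw [Finset.sum_range_succ]
    have h3 : (ss d (n + 1) : ℝ) = (ss d n : ℝ) +
        max (u2 d (d - (2 + n) + 1) : ℝ) (u4 d (d - (2 + n) + 1) : ℝ) := by
      simp only [ss]
      push_cast
      rfl
    rw [h3, add_div]
    refine add_le_add h1 (max_le ?_ ?_)
    · exact h2.1.trans (div_le_div_of_nonneg_right (le_max_left _ _) (by norm_num))
    · exact h2.2.trans (div_le_div_of_nonneg_right (le_max_right _ _) (by norm_num))

theorem small {d : ℕ} (h5 : 5 ≤ d) (hd : d < 120) :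
    ∑ i ∈ Finset.Icc 2 (d / 2), max (T2 d (d - i + 1)) (T4 d (d - i + 1)) ≤ 7 / 10 := by
  have hc : chk d = true := by
    have h := List.all_eq_true.1 chk_all (d - 5) (List.mem_range.2 (by omega))
    have e : d - 5 + 5 = d := by omega
    simpa only [e] using h
  simp only [chk, Bool.and_eq_true, decide_eq_true_eq] at hc
  have h1 := sums h5 (d / 2 + 1 - 2) le_rfl hc.2
  have h2 : Finset.Icc 2 (d / 2) = Finset.Ico 2 (d / 2 + 1) := by
    ext i
    simp only [Finset.mem_Icc, Finset.mem_Ico]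
    omega
  rw [h2, Finset.sum_Ico_eq_sum_range]
  refine h1.trans ?_
  have h3 : (ss d (d / 2 + 1 - 2) : ℝ) ≤ 700000000 := by exact_mod_cast hc.1
  rw [div_le_iff₀ (by norm_num)]
  linarith

end Pool.Agent.HRJ
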