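import Pool.Agent.HRJ.Defs

/-!
# HRJ-N9: large dimensions, the sum of `T2`

With `φ(x) = √(2-x) + √x`: `T2 d p ≤ 1.05 (φ(d/p) - φ(d/(p-1)))` for `p ≥ 61`,
`d + 2 ≤ 2 p`, `p ≤ d`, `d ≥ 120`; the sum telescopes and is `≤ 1.05 (2 - √2) ≤ .616` since `√2 ≤ φ ≤ 2` on [0, 2].
-/

set_option autoImplicit false

namespace Pool.Agent.HRJ

open MeasureTheory ProbabilityTheory Set Filter Topology Metric
open Pool.Agent.HP89 Pool.Agent.FI75 Pool.Agent.PBL
open scoped RealInnerProductSpace ENNReal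

private noncomputable def N9_phi (x : ℝ) : ℝ := √(2 - x) + √x

private theorem N9_phi_le {x : ℝ} (h0 : 0 ≤ x) (h2 : x ≤ 2) : N9_phi x ≤ 2 := by
  unfold N9_phi
  have h1 : √(2 - x) ^ 2 = 2 - x := Real.sq_sqrt (by linarith)
  have h3 : √x ^ 2 = x := Real.sq_sqrt h0
  nlinarith [sq_nonneg (√(2 - x) - 1), sq_nonneg (√x - 1)]

private theorem N9_le_phi {x : ℝ} (h0 : 0 ≤ x) (h2 : x ≤ 2) : 1.414 ≤ N9_phi x := by
  unfold N9_phi
  have h1 : √(2 - x) ^ 2 = 2 - x := Real.sq_sqrt (by linarith)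
  have h3 : √x ^ 2 = x := Real.sq_sqrt h0
  have h4 := Real.sqrt_nonneg (2 - x)
  have h5 := Real.sqrt_nonneg x
  have h6 : (2 : ℝ) ≤ (√(2 - x) + √x) ^ 2 := by nlinarith [mul_nonneg h4 h5]
  nlinarith [add_nonneg h4 h5]

private theorem N9_real {d p : ℝ} (hd : 120 ≤ d) (hp : 61 ≤ p) (hn : d + 2 ≤ 2 * p) (hpd : p ≤ d) :
    ((d ^ 2 - 1) / (2 * (d ^ 2 - 4))) * (√((2 * d - 1) / (2 * p - 1)) / (p - 1) *
      (√((d + 1) / (2 * p - d + 1)) - 1)) ≤ 1.05 * (N9_phi (d / p) - N9_phi (d / (p - 1))) := by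
  have hp0 : 0 < p := by linarith
  have hp1 : 0 < p - 1 := by linarith
  have hn0 : 0 < 2 * p - d := by linarith
  unfold N9_phi
  have ea : 2 - d / p = (2 * p - d) / p := by field_simp
  have eb : 2 - d / (p - 1) = (2 * p - d - 2) / (p - 1) := by field_simp; ring
  have ha2 : √(2 - d / p) ^ 2 = 2 - d / p := Real.sq_sqrt (by rw [ea]; positivity)
  have hb2 : √(2 - d / (p - 1)) ^ 2 = 2 - d / (p - 1) :=
    Real.sq_sqrt (by rw [eb]; exact div_nonneg (by linarith) hp1.le)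
  have hc2 : √(d / (p - 1)) ^ 2 = d / (p - 1) := Real.sq_sqrt (div_nonneg (by linarith) hp1.le)
  have he2 : √(d / p) ^ 2 = d / p := Real.sq_sqrt (div_nonneg (by linarith) hp0.le)
  have hxy : d / p ≤ d / (p - 1) := div_le_div_of_nonneg_left (by linarith) hp1 (by linarith)
  have ha : 0 < √(2 - d / p) := Real.sqrt_pos.2 (by rw [ea]; positivity)
  have he : 0 < √(d / p) := Real.sqrt_pos.2 (by positivity)
  have hb : 0 ≤ √(2 - d / (p - 1)) := Real.sqrt_nonneg _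
  have hba : √(2 - d / (p - 1)) ≤ √(2 - d / p) := Real.sqrt_le_sqrt (by linarith)
  have hec : √(d / p) ≤ √(d / (p - 1)) := Real.sqrt_le_sqrt hxy
  have hae : √(2 - d / p) ≤ √(d / p) := Real.sqrt_le_sqrt (by
    have : 1 ≤ d / p := (one_le_div hp0).2 hpd
    linarith)
  have hr : √((d + 1) / (2 * p - d + 1)) ≤ √(d / p) / √(2 - d / p) := by
    rw [← Real.sqrt_div' _ (by rw [ea]; positivity)]
    refine Real.sqrt_le_sqrt ?_
    rw [ea, div_div_div_cancel_right₀ hp0.ne', div_le_div_iff₀ (by linarith) hn0]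
    nlinarith
  have hs : √((2 * d - 1) / (2 * p - 1)) ≤ 1.01 * √(d / p) := by
    rw [show (1.01 : ℝ) * √(d / p) = √(1.01 ^ 2 * (d / p)) by
      rw [Real.sqrt_mul (by norm_num), Real.sqrt_sq (by norm_num)]]
    refine Real.sqrt_le_sqrt ?_
    rw [← mul_div_assoc, div_le_div_iff₀ (by linarith) hp0]
    nlinarith [mul_nonneg (show (0 : ℝ) ≤ d by linarith) (show (0 : ℝ) ≤ p - 61 by linarith)]
  have hcd : (d ^ 2 - 1) / (2 * (d ^ 2 - 4)) ≤ 0.51 := by
    rw [div_le_iff₀ (by nlinarith)]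
    nlinarith
  have hcd0 : 0 ≤ (d ^ 2 - 1) / (2 * (d ^ 2 - 4)) := div_nonneg (by nlinarith) (by nlinarith)
  set a := √(2 - d / p)
  set b := √(2 - d / (p - 1))
  set c := √(d / (p - 1))
  set e := √(d / p)
  set s := √((2 * d - 1) / (2 * p - 1))
  set r := √((d + 1) / (2 * p - d + 1))
  have hs0 : 0 ≤ s := Real.sqrt_nonneg _
  have hE : 0 ≤ 1 / a - 1 / e := sub_nonneg.2 (one_div_le_one_div_of_le ha hae)
  have hdel : d / (p - 1) - d / p = e ^ 2 / (p - 1) := by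
    rw [he2]; field_simp; ring
  have hab : e ^ 2 / (p - 1) / (2 * a) ≤ a - b := by
    rw [← hdel, div_le_iff₀ (by linarith)]
    nlinarith
  have hce : c - e ≤ e ^ 2 / (p - 1) / (2 * e) := by
    rw [← hdel, le_div_iff₀ (by linarith)]
    nlinarith
  have h1 : (d ^ 2 - 1) / (2 * (d ^ 2 - 4)) * (s / (p - 1) * (r - 1)) ≤
      0.51 * (1.01 * e / (p - 1) * (e / a - 1)) := by
    have hea : 0 ≤ e / a - 1 := sub_nonneg.2 ((one_le_div ha).2 hae)
    calc (d ^ 2 - 1) / (2 * (d ^ 2 - 4)) * (s / (p - 1) * (r - 1)) ≤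
        (d ^ 2 - 1) / (2 * (d ^ 2 - 4)) * (s / (p - 1) * (e / a - 1)) := by
          refine mul_le_mul_of_nonneg_left (mul_le_mul_of_nonneg_left (by linarith) ?_) hcd0
          exact div_nonneg hs0 hp1.le
      _ ≤ 0.51 * (1.01 * e / (p - 1) * (e / a - 1)) := by
          refine mul_le_mul hcd (mul_le_mul_of_nonneg_right ?_ hea)
            (mul_nonneg (div_nonneg hs0 hp1.le) hea) (by norm_num)
          exact div_le_div_of_nonneg_right hs hp1.le
  have h2 : 0.51 * (1.01 * e / (p - 1) * (e / a - 1)) =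
      0.51 * 1.01 * (e ^ 2 / (p - 1)) * (1 / a - 1 / e) := by
    field_simp
  have h3 : 0 ≤ e ^ 2 / (p - 1) * (1 / a - 1 / e) := mul_nonneg (by positivity) hE
  have h4 : e ^ 2 / (p - 1) / (2 * a) - e ^ 2 / (p - 1) / (2 * e) =
      (1 / 2) * (e ^ 2 / (p - 1) * (1 / a - 1 / e)) := by
    field_simp
  nlinarith

private theorem N9_T2 {d i : ℕ} (hd : 120 ≤ d) (hi : 2 ≤ i) (hi2 : i ≤ d / 2) :
    T2 d (d - i + 1) ≤ 1.05 * (N9_phi ((d : ℝ) / ((d : ℝ) - i + 1)) -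
      N9_phi ((d : ℝ) / ((d : ℝ) - (i + 1 : ℕ) + 1))) := by
  have hid : i ≤ d := by omega
  have e1 : ((d - i + 1 : ℕ) : ℝ) = (d : ℝ) - i + 1 := by
    push_cast [Nat.cast_sub hid]; ring
  have hdr : (120 : ℝ) ≤ d := by exact_mod_cast hd
  have hir : (2 : ℝ) ≤ i := by exact_mod_cast hi
  have hi2r : 2 * (i : ℝ) ≤ d := by
    have : 2 * i ≤ d := by omega
    exact_mod_cast this
  have h := N9_real (d := d) (p := (d : ℝ) - i + 1) hdr (by linarith) (by linarith) (by linarith)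
  unfold T2 cd vt rt2
  rw [e1]
  have e2 : (d : ℝ) - (i + 1 : ℕ) + 1 = (d : ℝ) - i + 1 - 1 := by push_cast; ring
  rw [e2]
  exact h

private theorem N9_tel (g : ℕ → ℝ) (m : ℕ) (hm : 1 ≤ m) :
    ∑ i ∈ Finset.Icc 2 m, (g i - g (i + 1)) = g 2 - g (m + 1) := by
  induction m, hm using Nat.le_induction with
  | base => simp
  | succ m hm ih => rw [Finset.sum_Icc_succ_top (by omega), ih]; ring

theorem sum_T2 {d : ℕ} (hd : 120 ≤ d) : ∑ i ∈ Finset.Icc 2 (d / 2), T2 d (d - i + 1) ≤ 616 / 1000 := by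
  have h1 : ∑ i ∈ Finset.Icc 2 (d / 2), T2 d (d - i + 1) ≤
      ∑ i ∈ Finset.Icc 2 (d / 2), 1.05 * (N9_phi ((d : ℝ) / ((d : ℝ) - i + 1)) -
        N9_phi ((d : ℝ) / ((d : ℝ) - (i + 1 : ℕ) + 1))) :=
    Finset.sum_le_sum fun i hi => N9_T2 hd (Finset.mem_Icc.1 hi).1 (Finset.mem_Icc.1 hi).2
  rw [← Finset.mul_sum, N9_tel (fun i => N9_phi ((d : ℝ) / ((d : ℝ) - i + 1))) (d / 2) (by omega)] at h1
  have hdr : (120 : ℝ) ≤ d := by exact_mod_cast hd
  have hm : 2 * ((d / 2 : ℕ) : ℝ) ≤ d := by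
    have : 2 * (d / 2) ≤ d := by omega
    exact_mod_cast this
  have h2 : N9_phi ((d : ℝ) / ((d : ℝ) - (2 : ℕ) + 1)) ≤ 2 := by
    refine N9_phi_le (div_nonneg (by linarith) (by push_cast; linarith)) ?_
    rw [div_le_iff₀ (by push_cast; linarith)]
    push_cast
    linarith
  have h3 : 1.414 ≤ N9_phi ((d : ℝ) / ((d : ℝ) - (d / 2 + 1 : ℕ) + 1)) := by
    refine N9_le_phi (div_nonneg (by linarith) (by push_cast; linarith)) ?_
    rw [div_le_iff₀ (by push_cast; linarith)]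
    push_cast
    linarith
  refine h1.trans ?_
  linarith

end Pool.Agent.HRJ
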