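import Pool.Agent.HRJ.N5
import Pool.Agent.HRJ.N7
import Pool.Agent.HRJ.N8
import Pool.Agent.HRJ.N9
import Pool.Agent.HRJ.N10
import Pool.Agent.HRJ.N11

/-!
# HRJ-N12: `∑ Th < θ_j`

`d = 4` is `four`.  For `d ≥ 5` the sum is at most `∑ max (T2) (T4) ≤ 7/10` over `i ≤ d/2` (`small`; for `d ≥ 120` `sum_T2`
and `sum_exc`), and `7/10 < √(1/2) ≤` right side (`low`).
-/

set_option autoImplicit false

namespace Pool.Agent.HRJ

open MeasureTheory ProbabilityTheory Set Filter Topology Metric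
open Pool.Agent.HP89 Pool.Agent.FI75 Pool.Agent.PBL
open scoped RealInnerProductSpace ENNReal

theorem th_sum {d j : ℕ} (hj : 2 ≤ j) (hjd : 2 * j ≤ d) :
    ∑ i ∈ Finset.Icc 2 j, Th d (d - i + 1) < mm (d - j) * ((d - j : ℕ) : ℝ) / (mm d * d) := by
  rcases Nat.lt_or_ge d 5 with h4 | h5
  · have hd : d = 4 := by omega
    have hj2 : j = 2 := by omega
    subst hd
    subst hj2
    have h := four
    rw [Finset.Icc_self, Finset.sum_singleton]
    exact_mod_cast h
  · have hrange : ∀ i, i ∈ Finset.Icc 2 (d / 2) →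
        3 ≤ d - i + 1 ∧ d - i + 1 < d ∧ d + 2 ≤ 2 * (d - i + 1) := by
      intro i hi
      rw [Finset.mem_Icc] at hi
      omega
    have hsub : Finset.Icc 2 j ⊆ Finset.Icc 2 (d / 2) := Finset.Icc_subset_Icc le_rfl (by omega)
    have s1 : ∑ i ∈ Finset.Icc 2 j, Th d (d - i + 1) ≤ ∑ i ∈ Finset.Icc 2 (d / 2), Th d (d - i + 1) :=
      Finset.sum_le_sum_of_subset_of_nonneg hsub (fun i hi _ => by
        obtain ⟨a, b, c⟩ := hrange i hi
        exact Th_nonneg a b c)
    have s2 : ∑ i ∈ Finset.Icc 2 (d / 2), Th d (d - i + 1) ≤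
        ∑ i ∈ Finset.Icc 2 (d / 2), max (T2 d (d - i + 1)) (T4 d (d - i + 1)) :=
      Finset.sum_le_sum (fun i hi => by
        obtain ⟨a, b, c⟩ := hrange i hi
        exact Th_le a b c)
    have s3 : ∑ i ∈ Finset.Icc 2 (d / 2), max (T2 d (d - i + 1)) (T4 d (d - i + 1)) ≤ 7 / 10 := by
      rcases Nat.lt_or_ge d 120 with h | h
      · exact small h5 h
      · have e : ∀ i ∈ Finset.Icc 2 (d / 2), max (T2 d (d - i + 1)) (T4 d (d - i + 1)) =
            T2 d (d - i + 1) + max 0 (T4 d (d - i + 1) - T2 d (d - i + 1)) := by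
          intro i _
          rw [← max_add_add_left, add_zero, add_sub_cancel]
        rw [Finset.sum_congr rfl e, Finset.sum_add_distrib]
        have h1 := sum_T2 h
        have h2 := sum_exc h
        linarith
    have s4 := low (d := d) (k := d - j) (by omega) (by omega) (by omega)
    have s5 : (7 / 10 : ℝ) < √(1 / 2) := by
      rw [Real.lt_sqrt (by norm_num)]
      norm_num
    linarith

end Pool.Agent.HRJ
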