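import Pool.Agent.HRJ.C6
import Pool.Agent.HRJ.D6
import Pool.Agent.HRJ.D9
import Pool.Agent.HRJ.N12

/-!
# HRJ-D10: the support function is constant

PROOF PLAN.  `d = finrank V`, `T i = Th d (d - i + 1)`, `S = ∑_{i=2}^j T i < th ρ j` (`th_sum`, `th_lower`; `((d - j : ℕ) : ℝ) = d - j`).  For `E` with `finrank E + i = d + 1`: `p = finrank E = d - i + 1`, `3 ≤ p < d`, `d + 2 ≤ 2 p`, so
`DE E (gN ρ N) ≤ T i * AN ρ N` (`trace_ineq`, `Sm_le`), `AN ρ N = Sn ρ 1 g - Sn ρ j g ≥ 0` (`Sn_diff`, `AN_nonneg`).  `chain`: `AN ρ N * th ρ j ≤ S (th ρ 1 - th ρ j)`, so `AN ρ N ≤ A := S (th ρ 1 - th ρ j)/th ρ j` for all `N`; `th_diff_le`: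
`th ρ 1 - th ρ j ≤ A`, and `S < th ρ j`, `th ρ j ≤ th ρ 1` give `th ρ 1 = th ρ j`, `AN ρ N = 0`; `hf_eq`.
-/

set_option autoImplicit false

namespace Pool.Agent.HRJ

open MeasureTheory ProbabilityTheory Set Filter Topology Metric
open Pool.Agent.HP89 Pool.Agent.FI75 Pool.Agent.PBL
open scoped RealInnerProductSpace ENNReal

variable {V : Type*} [NormedAddCommGroup V] [InnerProductSpace ℝ V] [FiniteDimensional ℝ V]
  [MeasurableSpace V] [BorelSpace V]

private theorem d10_sub {ρ : Measure V} {j : ℕ} (h : Fx j ρ) (N : ℕ) :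
    0 ≤ AN ρ N ∧ th ρ j ≤ th ρ 1 ∧
      AN ρ N * th ρ j ≤ (∑ i ∈ Finset.Icc 2 j, Th (Module.finrank ℝ V) (Module.finrank ℝ V - i + 1)) *
        (th ρ 1 - th ρ j) := by
  have hj := h.hj
  have hjd := h.hjd
  have hV : 3 ≤ Module.finrank ℝ V := by omega
  have hA0 := AN_nonneg h.us hV N
  obtain ⟨C, hC⟩ := gN_bdd h.us hV N
  have hc := chain h.us hj (by omega) (en_succ_pos h) (gN_meas h.us N) hC (A := AN ρ N)
    (Sn_diff h N).symm hA0 (T := fun i => Th (Module.finrank ℝ V) (Module.finrank ℝ V - i + 1)) ?_ ?_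
  · exact ⟨hA0, hc.1, hc.2⟩
  · intro i hi
    obtain ⟨h1, h2⟩ := Finset.mem_Icc.1 hi
    refine le_trans ?_ (Sm_le (d := Module.finrank ℝ V) (p := Module.finrank ℝ V - i + 1) (by omega) (by omega)
      (by omega) 0 (m := 1) le_rfl)
    simp [Sm]
  · intro i hi E hE
    obtain ⟨h1, h2⟩ := Finset.mem_Icc.1 hi
    have hp : Module.finrank ℝ E = Module.finrank ℝ V - i + 1 := by omega
    refine trace_ineq h.us (by omega) (by omega) N fun m hm => ?_
    rw [hp]
    exact Sm_le (by omega) (by omega) (by omega) N hm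

theorem half_const {ρ : Measure V} {j : ℕ} (h : Fx j ρ) {u v : V} (hu : ‖u‖ = 1) (hv : ‖v‖ = 1) :
    hf ρ u = hf ρ v := by
  have hj := h.hj
  have hjd := h.hjd
  set S := ∑ i ∈ Finset.Icc 2 j, Th (Module.finrank ℝ V) (Module.finrank ℝ V - i + 1) with hS
  have hlow := th_lower h
  have hsum := th_sum hj hjd
  have hcast : ((Module.finrank ℝ V - j : ℕ) : ℝ) = (Module.finrank ℝ V : ℝ) - j := by
    rw [Nat.cast_sub (by omega)]
  rw [hcast] at hsum
  have hSt : S < th ρ j := lt_of_lt_of_le hsum hlow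
  have hpos : 0 < th ρ j := by
    have hS0 : 0 ≤ S := by
      refine Finset.sum_nonneg fun i hi => ?_
      obtain ⟨h1, h2⟩ := Finset.mem_Icc.1 hi
      refine le_trans ?_ (Sm_le (d := Module.finrank ℝ V) (p := Module.finrank ℝ V - i + 1) (by omega) (by omega)
        (by omega) 0 (m := 1) le_rfl)
      simp [Sm]
    linarith
  have hle : th ρ j ≤ th ρ 1 := (d10_sub h 0).2.1
  have hAle : ∀ N, AN ρ N ≤ S * (th ρ 1 - th ρ j) / th ρ j := fun N => by
    rw [le_div_iff₀ hpos]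
    exact (d10_sub h N).2.2
  have hdiff := th_diff_le h hAle
  have heq : th ρ 1 - th ρ j = 0 := by
    by_contra hne
    have h1 : 0 < th ρ 1 - th ρ j := lt_of_le_of_ne (by linarith) (Ne.symm hne)
    rw [le_div_iff₀ hpos, mul_comm] at hdiff
    exact absurd (le_of_mul_le_mul_right hdiff h1) (not_le.2 hSt)
  have hA : ∀ N, AN ρ N = 0 := fun N => by
    have h1 := hAle N
    rw [heq, mul_zero, zero_div] at h1
    exact le_antisymm h1 (d10_sub h N).1
  rw [hf_eq h hA heq.ge hu, hf_eq h hA heq.ge hv]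

end Pool.Agent.HRJ
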