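import Pool.Agent.HRJ.D1
import Pool.Agent.PBL.A6

/-!
# HRJ-D2: the Alexandrov-Fenchel inequality for two measures

The measurable map `nrm` is approximated by simple maps with values in the unit ball; dominated convergence.
-/

set_option autoImplicit false
set_option linter.unusedSectionVars false

namespace Pool.Agent.HRJ

open MeasureTheory ProbabilityTheory Set Filter Topology Metric
open Pool.Agent.HP89 Pool.Agent.FI75 Pool.Agent.PBL
open scoped RealInnerProductSpace ENNReal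

variable {V : Type*} [NormedAddCommGroup V] [InnerProductSpace ℝ V] [FiniteDimensional ℝ V]
  [MeasurableSpace V] [BorelSpace V]

private theorem norm_nrm_le (x : V) : ‖nrm x‖ ≤ 1 := by
  unfold nrm
  rw [norm_smul, norm_inv, norm_norm]
  by_cases h : ‖x‖ = 0
  · rw [h]
    simp
  · rw [inv_mul_cancel₀ h]

private theorem measurable_nrm : Measurable (nrm : V → V) :=
  measurable_norm.inv.smul measurable_id

private theorem wn_map_le (f : V → V) (hf : ∀ x, ‖f x‖ ≤ 1) (Z : List V) : wn (Z.map f) ≤ 1 := by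
  refine (wn_le_prod _).trans ?_
  rw [List.map_map]
  induction Z with
  | nil => simp
  | cons x Z ih =>
    rw [List.map_cons, List.prod_cons]
    have h1 : 0 ≤ (List.map ((fun x => ‖x‖) ∘ f) Z).prod := by
      refine List.prod_nonneg fun y hy => ?_
      obtain ⟨z, _, rfl⟩ := List.mem_map.1 hy
      exact norm_nonneg _
    calc (((fun x => ‖x‖) ∘ f) x) * (List.map ((fun x => ‖x‖) ∘ f) Z).prod
        ≤ 1 * 1 := mul_le_mul (hf x) ih h1 zero_le_one
      _ = 1 := one_mul 1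

private theorem lb_wn_map {f : V → V} (hm : Measurable f) (hf : ∀ x, ‖f x‖ ≤ 1) :
    LB (fun Z : List V => wn (Z.map f)) := by
  refine ⟨fun n => ?_, 1, fun Z => ?_⟩
  · have h1 : (fun X : Fin n → V => wn ((List.ofFn X).map f)) =
        (fun X : Fin n → V => wn (List.ofFn X)) ∘ fun X i => f (X i) := by
      funext X
      simp only [Function.comp, List.map_ofFn]
      rfl
    rw [h1]
    exact (measurable_wn n).comp (measurable_pi_lambda _ fun i => hm.comp (measurable_pi_apply i))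
  · rw [abs_of_nonneg (wn_nonneg _)]
    exact wn_map_le f hf Z

private theorem itr_abs_le {F : List V → ℝ} {C : ℝ} (hF : ∀ Z, |F Z| ≤ C) (ρ : Measure V)
    [IsProbabilityMeasure ρ] (n : ℕ) (Z : List V) : |itr ρ n F Z| ≤ C := by
  induction n generalizing Z with
  | zero => exact hF Z
  | succ n ih =>
    have h1 := norm_integral_le_of_norm_le_const (μ := ρ) (f := fun x => itr ρ n F (x :: Z)) (C := C)
      (Filter.Eventually.of_forall fun x => ih (x :: Z))
    rw [probReal_univ, mul_one] at h1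
    exact h1

private theorem wn_map_tendsto {f : ℕ → V → V} {g : V → V} (h : ∀ x, Tendsto (fun N => f N x) atTop (𝓝 (g x)))
    (Z : List V) : Tendsto (fun N => wn (Z.map (f N))) atTop (𝓝 (wn (Z.map g))) := by
  have h1 : ∀ k : V → V, wn (Z.map k) = (fun X : Fin Z.length → V => wn (List.ofFn X ++ []))
      (fun i => k (Z.get i)) := by
    intro k
    simp only [List.append_nil]
    congr 1
    conv_lhs => rw [← List.ofFn_get Z]
    rw [List.map_ofFn]
    rfl
  rw [h1 g]
  simp only [h1 (f _)]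
  refine ((continuous_wn Z.length []).tendsto _).comp ?_
  exact tendsto_pi_nhds.2 fun i => h _

private theorem itr_tendsto (ρ : Measure V) [IsProbabilityMeasure ρ] {f : ℕ → V → V} {g : V → V}
    (hm : ∀ N, Measurable (f N)) (hf : ∀ N x, ‖f N x‖ ≤ 1)
    (h : ∀ x, Tendsto (fun N => f N x) atTop (𝓝 (g x))) (n : ℕ) (Z : List V) :
    Tendsto (fun N => itr ρ n (fun Z => wn (Z.map (f N))) Z) atTop
      (𝓝 (itr ρ n (fun Z => wn (Z.map g)) Z)) := by
  induction n generalizing Z with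
  | zero => exact wn_map_tendsto h Z
  | succ n ih =>
    refine tendsto_integral_of_dominated_convergence (fun _ => (1 : ℝ)) (fun N => ?_)
      (integrable_const 1) (fun N => Filter.Eventually.of_forall fun x => ?_)
      (Filter.Eventually.of_forall fun x => ih (x :: Z))
    · exact (((lb_wn_map (hm N) (hf N)).itr (ρ := ρ) n).cons Z).aestronglyMeasurable
    · refine itr_abs_le (C := 1) (fun W => ?_) ρ n (x :: Z)
      rw [abs_of_nonneg (wn_nonneg _)]
      exact wn_map_le _ (hf N) W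

private theorem lim2 (ρ σ : Measure V) [IsProbabilityMeasure ρ] [IsProbabilityMeasure σ]
    {G : ℕ → V × V → ℝ} {H : V × V → ℝ}
    (hm : ∀ N, Measurable (G N)) {D : ℝ} (hD : ∀ N p, |G N p| ≤ D)
    (hlim : ∀ p, Tendsto (fun N => G N p) atTop (𝓝 (H p))) :
    Tendsto (fun N => ∫ x, ∫ y, G N (x, y) ∂σ ∂ρ) atTop (𝓝 (∫ x, ∫ y, H (x, y) ∂σ ∂ρ)) := by
  refine tendsto_integral_of_dominated_convergence (fun _ => D) (fun N => ?_)
    (integrable_const D) (fun N => Filter.Eventually.of_forall fun x => ?_)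
    (Filter.Eventually.of_forall fun x => ?_)
  · exact (hm N).stronglyMeasurable.integral_prod_right'.aestronglyMeasurable
  · have h1 := norm_integral_le_of_norm_le_const (μ := σ) (f := fun y => G N (x, y)) (C := D)
      (Filter.Eventually.of_forall fun y => hD N (x, y))
    rw [probReal_univ, mul_one] at h1
    exact h1
  · refine tendsto_integral_of_dominated_convergence (fun _ => D) (fun N => ?_)
      (integrable_const D) (fun N => Filter.Eventually.of_forall fun y => hD N (x, y))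
      (Filter.Eventually.of_forall fun y => hlim (x, y))
    exact ((hm N).comp measurable_prodMk_left).aestronglyMeasurable

theorem af2 (ρ σ : Measure V) [IsProbabilityMeasure ρ] [IsProbabilityMeasure σ] (n : ℕ)
    {a b : V → ℝ} (ha : Measurable a) (hab : ∃ C : ℝ, ∀ x, |a x| ≤ C) (hb : Measurable b) (hbb : ∃ C : ℝ, ∀ x, |b x| ≤ C) :
    ((∫ x, ∫ y, a x * a y * itr ρ n wq [y, x] ∂ρ ∂ρ) + 2 * (∫ x, ∫ y, a x * b y * itr ρ n wq [y, x] ∂σ ∂ρ) +
        ∫ x, ∫ y, b x * b y * itr ρ n wq [y, x] ∂σ ∂σ) * (∫ x, ∫ y, itr ρ n wq [y, x] ∂ρ ∂ρ) ≤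
      ((∫ x, ∫ y, a x * itr ρ n wq [y, x] ∂ρ ∂ρ) + ∫ x, ∫ y, b x * itr ρ n wq [y, x] ∂ρ ∂σ) ^ 2 := by
  obtain ⟨A, hA⟩ := hab
  obtain ⟨B, hB⟩ := hbb
  have hA0 : 0 ≤ A := (abs_nonneg _).trans (hA 0)
  have hB0 : 0 ≤ B := (abs_nonneg _).trans (hB 0)
  have hmem : (0 : V) ∈ closedBall (0 : V) 1 := mem_closedBall_self zero_le_one
  obtain ⟨f, hf⟩ : ∃ f : ℕ → SimpleFunc V V, f = fun N =>
      SimpleFunc.approxOn nrm measurable_nrm (closedBall (0 : V) 1) 0 hmem N := ⟨_, rfl⟩
  have hf1 : ∀ N x, ‖f N x‖ ≤ 1 := by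
    intro N x
    have h1 := SimpleFunc.approxOn_mem measurable_nrm hmem N x
    rw [hf]
    exact mem_closedBall_zero_iff.1 h1
  have hf2 : ∀ x, Tendsto (fun N => f N x) atTop (𝓝 (nrm x)) := by
    intro x
    rw [hf]
    exact SimpleFunc.tendsto_approxOn measurable_nrm hmem
      (subset_closure (mem_closedBall_zero_iff.2 (norm_nrm_le x)))
  have hLB : ∀ N, LB (fun Z : List V => wn (Z.map (f N))) := fun N =>
    lb_wn_map (f N).measurable (hf1 N)
  have hbd : ∀ N Z, |itr ρ n (fun Z : List V => wn (Z.map (f N))) Z| ≤ 1 := fun N Z =>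
    itr_abs_le (C := 1) (fun W => by
      rw [abs_of_nonneg (wn_nonneg _)]
      exact wn_map_le _ (hf1 N) W) ρ n Z
  have hlim : ∀ Z, Tendsto (fun N => itr ρ n (fun Z : List V => wn (Z.map (f N))) Z) atTop
      (𝓝 (itr ρ n (wq : List V → ℝ) Z)) := fun Z =>
    itr_tendsto ρ (fun N => (f N).measurable) hf1 hf2 n Z
  have hmeas : ∀ N, Measurable (fun p : V × V =>
      itr ρ n (fun Z : List V => wn (Z.map (f N))) (p.2 :: p.1 :: [])) := fun N =>
    ((hLB N).itr (ρ := ρ) n).cons2 []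
  have q2 : ∀ (μ₁ μ₂ : Measure V) [IsProbabilityMeasure μ₁] [IsProbabilityMeasure μ₂] (g h : V → ℝ) (C D : ℝ),
      Measurable g → Measurable h → 0 ≤ C → (∀ x, |g x| ≤ C) → (∀ x, |h x| ≤ D) →
      Tendsto (fun N => ∫ x, ∫ y, g x * h y *
        itr ρ n (fun Z : List V => wn (Z.map (f N))) [y, x] ∂μ₂ ∂μ₁) atTop
        (𝓝 (∫ x, ∫ y, g x * h y * itr ρ n (wq : List V → ℝ) [y, x] ∂μ₂ ∂μ₁)) := by
    intro μ₁ μ₂ _ _ g h C D hg hh hC hgC hhD
    exact lim2 μ₁ μ₂ (G := fun N p => g p.1 * h p.2 *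
        itr ρ n (fun Z : List V => wn (Z.map (f N))) [p.2, p.1])
      (H := fun p => g p.1 * h p.2 * itr ρ n (wq : List V → ℝ) [p.2, p.1]) (D := C * D * 1)
      (fun N => (((hg.comp measurable_fst).mul (hh.comp measurable_snd)).mul (hmeas N)))
      (fun N p => by
        rw [abs_mul, abs_mul]
        exact mul_le_mul (mul_le_mul (hgC _) (hhD _) (abs_nonneg _) hC) (hbd N _) (abs_nonneg _)
          (mul_nonneg hC ((abs_nonneg _).trans (hhD p.2))))
      (fun p => (hlim _).const_mul _)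
  have q1 : ∀ (μ₁ μ₂ : Measure V) [IsProbabilityMeasure μ₁] [IsProbabilityMeasure μ₂] (g : V → ℝ) (C : ℝ),
      Measurable g → 0 ≤ C → (∀ x, |g x| ≤ C) →
      Tendsto (fun N => ∫ x, ∫ y, g x *
        itr ρ n (fun Z : List V => wn (Z.map (f N))) [y, x] ∂μ₂ ∂μ₁) atTop
        (𝓝 (∫ x, ∫ y, g x * itr ρ n (wq : List V → ℝ) [y, x] ∂μ₂ ∂μ₁)) := by
    intro μ₁ μ₂ _ _ g C hg hC hgC
    exact lim2 μ₁ μ₂ (G := fun N p => g p.1 *
        itr ρ n (fun Z : List V => wn (Z.map (f N))) [p.2, p.1])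
      (H := fun p => g p.1 * itr ρ n (wq : List V → ℝ) [p.2, p.1]) (D := C * 1)
      (fun N => (hg.comp measurable_fst).mul (hmeas N))
      (fun N p => by
        rw [abs_mul]
        exact mul_le_mul (hgC _) (hbd N _) (abs_nonneg _) hC)
      (fun p => (hlim _).const_mul _)
  have q0 : Tendsto (fun N => ∫ x, ∫ y, itr ρ n (fun Z : List V => wn (Z.map (f N))) [y, x] ∂ρ ∂ρ) atTop
      (𝓝 (∫ x, ∫ y, itr ρ n (wq : List V → ℝ) [y, x] ∂ρ ∂ρ)) :=
    lim2 ρ ρ (G := fun N p => itr ρ n (fun Z : List V => wn (Z.map (f N))) [p.2, p.1])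
      (H := fun p => itr ρ n (wq : List V → ℝ) [p.2, p.1]) (D := 1)
      hmeas (fun N p => hbd N _) (fun p => hlim _)
  exact le_of_tendsto_of_tendsto'
    ((((q2 ρ ρ a a A A ha ha hA0 hA hA).add ((q2 ρ σ a b A B ha hb hA0 hA hB).const_mul 2)).add
      (q2 σ σ b b B B hb hb hB0 hB hB)).mul q0)
    (((q1 ρ ρ a A ha hA0 hA).add (q1 σ ρ b B hb hB0 hB)).pow 2)
    (fun N => af2_simple ρ σ (f N) n ha ⟨A, hA⟩ hb ⟨B, hB⟩)

end Pool.Agent.HRJ
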