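import Pool.Agent.HRJ.D3a

/-!
# HRJ-D3: the entries of the Gram matrix

`σ = ms ⊤`.  PROOF PLAN.  `wq` is `wn` of the normalised vectors, so `wq = wn` a.e. (all vectors are unit vectors a.e.: `US.unit`, `ms_unit`); `itr_pi` (PBL.B1a, for the list
function `Z ↦ wq (Z ++ [y, x])`; or `iter_eq_pi`-like induction), `wn_perm`: `wn (X ++ [y, x]) = wn ([y, x] ++ X) = wn X ‖res X x‖ ‖ort (res X x) (res X y)‖`, Fubini.
`entry_rr`: `itr_en` (`itr ρ (n+2) wq []` unfolds to it).  `entry_rs`: `∫ x g x ∫ y itr ρ n wq [y,x] dρ dσ = ∫ x g x itr ρ (n+1) wq [x] dσ` (definition of `itr`), and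
`itr ρ (n+1) wq [x] = ∫ X, wv X ‖rv X x‖ dρ^(n+1)` for unit `x`; Fubini.
`entry_ss`: the same with two vectors.  `ss_one`: for `a` with `rv X a ≠ 0`, `wv X ≠ 0`: `ort (rv X a) (rv X b) = P_F b`, `F = sb (oc X) a` (`rv_eq`, `sb_proj`), `finrank F = d - n - 1`
(`finrank_oc`, `finrank_sb`), `ms_norm`.  `sN_one`: `ms_norm` for `oc X`.
-/

set_option autoImplicit false

namespace Pool.Agent.HRJ

open MeasureTheory ProbabilityTheory Set Filter Topology Metric
open Pool.Agent.HP89 Pool.Agent.FI75 Pool.Agent.PBL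
open scoped RealInnerProductSpace ENNReal

variable {V : Type*} [NormedAddCommGroup V] [InnerProductSpace ℝ V] [FiniteDimensional ℝ V]
  [MeasurableSpace V] [BorelSpace V]

variable {ρ : Measure V}

omit [FiniteDimensional ℝ V] [BorelSpace V] in
private theorem itr_app_aux (F : List V → ℝ) (Y : List V) (l : ℕ) (Z : List V) :
    itr ρ l (fun W => F (W ++ Y)) Z = itr ρ l F (Z ++ Y) := by
  induction l generalizing Z with
  | zero => rfl
  | succ l ih =>
    change ∫ x, itr ρ l (fun W => F (W ++ Y)) (x :: Z) ∂ρ = ∫ x, itr ρ l F (x :: (Z ++ Y)) ∂ρ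
    congr 1
    funext x
    rw [ih (x :: Z)]
    rfl

omit [MeasurableSpace V] [BorelSpace V] in
private theorem wq_perm {Z Z' : List V} (h : Z.Perm Z') : wq Z = wq Z' :=
  wn_perm (h.map _)

omit [MeasurableSpace V] [BorelSpace V] in
private theorem wq_app2 (Z : List V) (y x : V) : wq (Z ++ [y, x]) = wq (y :: x :: Z) :=
  wq_perm List.perm_append_comm

private theorem wq_nonneg' (Z : List V) : 0 ≤ wq Z := wn_nonneg _

private theorem wq_abs_le (Z : List V) : |wq Z| ≤ 1 := by
  unfold wq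
  rw [abs_of_nonneg (wn_nonneg _)]
  refine (wn_le_prod (Z.map nrm)).trans ?_
  rw [List.map_map]
  induction Z with
  | nil => simp
  | cons x Z ih =>
    rw [List.map_cons, List.prod_cons]
    have h1 : 0 ≤ (Z.map ((fun x => ‖x‖) ∘ (nrm : V → V))).prod :=
      List.prod_nonneg fun a ha => by
        obtain ⟨b, -, rfl⟩ := List.mem_map.1 ha
        exact norm_nonneg _
    exact mul_le_one₀ (norm_nrm_le x) h1 ih

private theorem meas_cons2 {n : ℕ} {β : Type*} [MeasurableSpace β] {f : β → (Fin n → V)} {u w : β → V}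
    (hf : Measurable f) (hu : Measurable u) (hw : Measurable w) :
    Measurable (fun b => (Fin.cons (u b) (Fin.cons (w b) (f b) : Fin (n + 1) → V) : Fin (n + 2) → V)) := by
  rw [measurable_pi_iff]
  intro i
  refine Fin.cases ?_ (fun j => ?_) i
  · simp only [Fin.cons_zero]
    exact hu
  · simp only [Fin.cons_succ]
    refine Fin.cases ?_ (fun m => ?_) j
    · simp only [Fin.cons_zero]
      exact hw
    · simp only [Fin.cons_succ]
      exact (measurable_pi_apply m).comp hf

private theorem meas_wq2 {n : ℕ} {β : Type*} [MeasurableSpace β] {f : β → (Fin n → V)} {u w : β → V}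
    (hf : Measurable f) (hu : Measurable u) (hw : Measurable w) :
    Measurable (fun b => wq (List.ofFn (f b) ++ [u b, w b])) := by
  have h := ((lb_wq (V := V)).meas (n + 2)).comp (meas_cons2 hf hu hw)
  have h2 : (fun b => wq (List.ofFn (f b) ++ [u b, w b])) =
      (fun X : Fin (n + 2) → V => wq (List.ofFn X)) ∘
        (fun b => (Fin.cons (u b) (Fin.cons (w b) (f b) : Fin (n + 1) → V) : Fin (n + 2) → V)) := by
    funext b
    simp only [Function.comp_apply, List.ofFn_cons]
    exact wq_app2 _ _ _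
  rw [h2]
  exact h

private theorem itr_two [IsProbabilityMeasure ρ] (n : ℕ) (y x : V) :
    itr ρ n wq [y, x] = ∫ X, wq (List.ofFn X ++ [y, x]) ∂(pp n ρ) := by
  have h1 := itr_app_aux (ρ := ρ) wq [y, x] n []
  rw [List.nil_append] at h1
  have hL : LB (fun W : List V => wq (W ++ [y, x])) :=
    ⟨fun m => meas_wq2 measurable_id measurable_const measurable_const, 1, fun Z => wq_abs_le _⟩
  rw [← h1, itr_pi hL n]

omit [MeasurableSpace V] [BorelSpace V] in
private theorem wq_val {n : ℕ} {X : Fin n → V} (hX : ∀ i, ‖X i‖ = 1) {y x : V} (hy : ‖y‖ = 1) (hx : ‖x‖ = 1) :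
    wq (List.ofFn X ++ [y, x]) = wv X * (‖rv X x‖ * ‖ort (rv X x) (rv X y)‖) := by
  rw [wq_app2]
  have h1 : (y :: x :: List.ofFn X).map nrm = y :: x :: List.ofFn X := by
    have hu : ∀ z ∈ (y :: x :: List.ofFn X), nrm z = id z := by
      intro z hz
      have hz1 : ‖z‖ = 1 := by
        rcases List.mem_cons.1 hz with rfl | hz
        · exact hy
        rcases List.mem_cons.1 hz with rfl | hz
        · exact hx
        · obtain ⟨i, rfl⟩ := (List.mem_ofFn' X z).1 hz
          exact hX i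
      unfold nrm
      rw [hz1, inv_one, one_smul, id]
    rw [List.map_congr_left hu, List.map_id]
  unfold wq
  rw [h1]
  change wn (List.ofFn X) * ‖res (List.ofFn X) x‖ * ‖res (x :: List.ofFn X) y‖ = _
  rw [mul_assoc]
  rfl

/-- three-fold Fubini for bounded measurable functions -/
private theorem fub {α : Type*} [MeasurableSpace α] {σ : Measure V} {μ : Measure α} [IsProbabilityMeasure σ]
    [IsProbabilityMeasure μ] {H : V → V → α → ℝ} (hH : Measurable (fun p : V × V × α => H p.1 p.2.1 p.2.2)) {C : ℝ}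
    (hC : ∀ x y X, |H x y X| ≤ C) :
    ∫ x, ∫ y, ∫ X, H x y X ∂μ ∂σ ∂σ = ∫ X, ∫ x, ∫ y, H x y X ∂σ ∂σ ∂μ := by
  have h1 : ∀ x, ∫ y, ∫ X, H x y X ∂μ ∂σ = ∫ X, ∫ y, H x y X ∂σ ∂μ := by
    intro x
    refine integral_integral_swap ?_
    have hm : Measurable (fun p : V × α => H x p.1 p.2) :=
      hH.comp (measurable_const.prodMk (measurable_fst.prodMk measurable_snd))
    exact Integrable.of_bound hm.aestronglyMeasurable C
      (Filter.Eventually.of_forall fun p => by rw [Real.norm_eq_abs]; exact hC _ _ _)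
  have h2 : ∫ x, ∫ y, ∫ X, H x y X ∂μ ∂σ ∂σ = ∫ x, ∫ X, ∫ y, H x y X ∂σ ∂μ ∂σ := by
    congr 1
    funext x
    exact h1 x
  rw [h2]
  refine integral_integral_swap ?_
  have hm : StronglyMeasurable (fun p : V × α => ∫ y, H p.1 y p.2 ∂σ) := by
    have hm1 : Measurable (fun q : (V × α) × V => H q.1.1 q.2 q.1.2) :=
      hH.comp ((measurable_fst.comp measurable_fst).prodMk
        (measurable_snd.prodMk (measurable_snd.comp measurable_fst)))
    exact hm1.stronglyMeasurable.integral_prod_right' (ν := σ)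
  refine Integrable.of_bound hm.aestronglyMeasurable C
    (Filter.Eventually.of_forall fun p => ?_)
  have h3 := norm_integral_le_of_norm_le_const (μ := σ) (f := fun y => H p.1 y p.2) (C := C)
    (Filter.Eventually.of_forall fun x => by rw [Real.norm_eq_abs]; exact hC _ _ _)
  rwa [probReal_univ, mul_one] at h3

theorem entry_ss (hρ : US ρ) (hV : 1 ≤ Module.finrank ℝ V) (n : ℕ) {g g' : V → ℝ} (hg : Measurable g) {C : ℝ}
    (hC : ∀ x, |g x| ≤ C) (hg' : Measurable g') (hC' : ∀ x, |g' x| ≤ C) :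
    ∫ x, ∫ y, g x * g' y * itr ρ n wq [y, x] ∂(ms (⊤ : Submodule ℝ V)) ∂(ms (⊤ : Submodule ℝ V)) =
      iw n ρ (fun X => ∫ a, ∫ b, ‖rv X a‖ * ‖ort (rv X a) (rv X b)‖ * (g a * g' b)
        ∂(ms (⊤ : Submodule ℝ V)) ∂(ms (⊤ : Submodule ℝ V))) := by
  haveI := hρ.prob
  haveI : IsProbabilityMeasure (ms (⊤ : Submodule ℝ V)) := ms_prob _
  have hC0 : 0 ≤ C := (abs_nonneg _).trans (hC 0)
  have h1 : ∫ x, ∫ y, g x * g' y * itr ρ n wq [y, x] ∂(ms (⊤ : Submodule ℝ V)) ∂(ms (⊤ : Submodule ℝ V)) =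
      ∫ x, ∫ y, ∫ X, g x * g' y * wq (List.ofFn X ++ [y, x]) ∂(pp n ρ) ∂(ms (⊤ : Submodule ℝ V))
        ∂(ms (⊤ : Submodule ℝ V)) := by
    congr 1
    funext x
    congr 1
    funext y
    rw [itr_two, integral_const_mul]
  have hm : Measurable (fun p : V × V × (Fin n → V) => g p.1 * g' p.2.1 * wq (List.ofFn p.2.2 ++ [p.2.1, p.1])) := by
    refine ((hg.comp measurable_fst).mul (hg'.comp (measurable_fst.comp measurable_snd))).mul ?_
    exact meas_wq2 (measurable_snd.comp measurable_snd) (measurable_fst.comp measurable_snd) measurable_fst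
  have hb : ∀ (x y : V) (X : Fin n → V), |g x * g' y * wq (List.ofFn X ++ [y, x])| ≤ C * C := by
    intro x y X
    rw [abs_mul, abs_mul]
    calc |g x| * |g' y| * |wq (List.ofFn X ++ [y, x])| ≤ C * C * 1 :=
          mul_le_mul (mul_le_mul (hC x) (hC' y) (abs_nonneg _) hC0) (wq_abs_le _) (abs_nonneg _) (mul_nonneg hC0 hC0)
      _ = C * C := mul_one _
  rw [h1, fub (H := fun x y X => g x * g' y * wq (List.ofFn X ++ [y, x])) hm hb]
  unfold iw
  refine integral_congr_ae ?_
  have hE : 1 ≤ Module.finrank ℝ (⊤ : Submodule ℝ V) := by rw [finrank_top]; exact hV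
  have hu := ms_unit (⊤ : Submodule ℝ V) hE
  filter_upwards [ae_unit hρ n] with X hX
  rw [← integral_const_mul]
  refine integral_congr_ae ?_
  filter_upwards [hu] with x hx
  rw [← integral_const_mul]
  refine integral_congr_ae ?_
  filter_upwards [hu] with y hy
  rw [wq_val hX hy.1 hx.1]
  ring

theorem ss_one (hρ : US ρ) {n : ℕ} (hn : n + 1 ≤ Module.finrank ℝ V) {g : V → ℝ} (hg : Measurable g) {C : ℝ}
    (hC : ∀ x, |g x| ≤ C) :
    iw n ρ (fun X => ∫ a, ∫ b, ‖rv X a‖ * ‖ort (rv X a) (rv X b)‖ * g a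
        ∂(ms (⊤ : Submodule ℝ V)) ∂(ms (⊤ : Submodule ℝ V))) = cc (Module.finrank ℝ V) (n + 1) * sN ρ n g := by
  unfold sN
  rw [← iw_mul]
  refine iw_congr hρ fun X hX _ => ?_
  rw [← integral_const_mul]
  congr 1
  funext a
  have h1 : ∫ b, ‖rv X a‖ * ‖ort (rv X a) (rv X b)‖ * g a ∂(ms (⊤ : Submodule ℝ V)) =
      ‖rv X a‖ * g a * ∫ b, ‖ort (rv X a) (rv X b)‖ ∂(ms (⊤ : Submodule ℝ V)) := by
    rw [← integral_const_mul]
    congr 1
    funext b
    ring
  rw [h1]
  by_cases h0 : rv X a = 0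
  · rw [h0, norm_zero]
    ring
  · have h2 : ∀ b, ort (rv X a) (rv X b) = (sb (oc X) a).starProjection b := by
      intro b
      rw [sb_proj, ← rv_eq, ← rv_eq]
    simp only [h2]
    rw [ms_norm _ (by omega)]
    have h3 : (oc X).starProjection a ≠ 0 := by
      rw [← rv_eq]
      exact h0
    have h4 := finrank_sb h3
    have h5 := finrank_oc hX
    have h6 : Module.finrank ℝ (sb (oc X) a) = Module.finrank ℝ V - (n + 1) := by omega
    rw [h6]
    unfold cc
    ring

end Pool.Agent.HRJ
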