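import Pool.Agent.HRJ.B1
import Pool.Agent.PBL.B3a
import Pool.Agent.PBL.D0
import Pool.Agent.PBL.D0b
import Pool.Agent.PBL.B3b

/-!
# HRJ-D3a: the entries of the Gram matrix

`σ = ms ⊤`.  PROOF PLAN.  `wq` is `wn` of the normalised vectors, so `wq = wn` a.e. (all vectors are unit vectors a.e.: `US.unit`, `ms_unit`); `itr_pi` (PBL.B1a, for the list
function `Z ↦ wq (Z ++ [y, x])`; or `iter_eq_pi`-like induction), `wn_perm`: `wn (X ++ [y, x]) = wn ([y, x] ++ X) = wn X ‖res X x‖ ‖ort (res X x) (res X y)‖`, Fubini.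
`entry_rr`: `itr_en` (`itr ρ (n+2) wq []` unfolds to it).  `entry_rs`: `∫ x g x ∫ y itr ρ n wq [y,x] dρ dσ = ∫ x g x itr ρ (n+1) wq [x] dσ` (definition of `itr`), and
`itr ρ (n+1) wq [x] = ∫ X, wv X ‖rv X x‖ dρ^(n+1)` for unit `x`; Fubini.
`entry_ss`: the same with two vectors.  `ss_one`: for `a` with `rv X a ≠ 0`, `wv X ≠ 0`: `ort (rv X a) (rv X b) = P_F b`, `F = sb (oc X) a` (`rv_eq`, `sb_proj`), `finrank F = d - n - 1`
(`finrank_oc`, `finrank_sb`), `ms_norm`.  `sN_one`: `ms_norm` for `oc X`.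
-/

set_option autoImplicit false

namespace Pool.Agent.HRJ

open MeasureTheory ProbabilityTheory Set Filter Topology Metric
open Pool.Agent.HP89 Pool.Agent.FI75 Pool.Agent.PBL
open scoped RealInnerProductSpace ENNReal

variable {V : Type*} [NormedAddCommGroup V] [InnerProductSpace ℝ V] [FiniteDimensional ℝ V]
  [MeasurableSpace V] [BorelSpace V]

variable {ρ : Measure V}

private theorem d3a_sym : Sym (wq : List V → ℝ) := fun Z Z' h => wn_perm (h.map nrm)

private theorem d3a_cons_lb {F : List V → ℝ} (hF : LB F) (x : V) : LB (fun Z => F (x :: Z)) := by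
  obtain ⟨C, hC⟩ := hF.bdd
  refine ⟨fun n => ?_, C, fun Z => hC _⟩
  have h : (fun X : Fin n → V => F (x :: List.ofFn X)) =
      (fun X : Fin (n + 1) → V => F (List.ofFn X)) ∘ (fun X : Fin n → V => (Fin.cons x X : Fin (n + 1) → V)) := by
    funext X
    simp only [Function.comp_apply, List.ofFn_cons]
  rw [h]
  refine (hF.meas (n + 1)).comp ?_
  rw [measurable_pi_iff]
  intro i
  refine Fin.cases ?_ (fun k => ?_) i
  · exact measurable_const
  · exact measurable_pi_apply k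

private theorem d3a_shift {F : List V → ℝ} (hs : Sym F) (x : V) (m : ℕ) :
    ∀ Y : List V, itr ρ m F (x :: Y) = itr ρ m (fun Z => F (x :: Z)) Y := by
  induction m with
  | zero => exact fun Y => rfl
  | succ m ih =>
    intro Y
    show ∫ z, itr ρ m F (z :: x :: Y) ∂ρ = ∫ z, itr ρ m (fun Z => F (x :: Z)) (z :: Y) ∂ρ
    refine integral_congr_ae (Filter.Eventually.of_forall fun z => ?_)
    show itr ρ m F (z :: x :: Y) = itr ρ m (fun Z => F (x :: Z)) (z :: Y)
    rw [← ih (z :: Y)]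
    exact itr_sym hs m _ _ (List.Perm.swap x z Y)

private theorem d3a_wq {n : ℕ} {X : Fin n → V} (hX : ∀ i, ‖X i‖ = 1) {x : V} (hx : ‖x‖ = 1) :
    wq (x :: List.ofFn X) = wv X * ‖rv X x‖ := by
  rw [← wv_cons x X]
  unfold wq wv
  rw [List.map_cons, List.map_ofFn, List.ofFn_cons]
  have h1 : nrm x = x := by
    simp only [nrm, hx, inv_one, one_smul]
  have h2 : (nrm ∘ X) = X := by
    funext i
    simp only [Function.comp_apply, nrm, hX i, inv_one, one_smul]
  rw [h1, h2]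

/-- one marked vector -/
private theorem d3a_one (hρ : US ρ) (m : ℕ) {x : V} (hx : ‖x‖ = 1) :
    itr ρ m wq [x] = ∫ X, wv X * ‖rv X x‖ ∂(pp m ρ) := by
  haveI := hρ.prob
  rw [d3a_shift d3a_sym x m [], itr_pi (d3a_cons_lb lb_wq x) m]
  refine integral_congr_ae ?_
  filter_upwards [ae_unit hρ m] with X hX
  exact d3a_wq hX hx

theorem entry_rr (hρ : US ρ) (n : ℕ) : ∫ x, ∫ y, itr ρ n wq [y, x] ∂ρ ∂ρ = en (n + 2) ρ := by
  rw [← itr_en hρ (n + 2)]
  rfl

private theorem d3a_rs1 (hρ : US ρ) (hV : 1 ≤ Module.finrank ℝ V) (n : ℕ) {g : V → ℝ} (hg : Measurable g) {C : ℝ}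
    (hC : ∀ x, |g x| ≤ C) :
    ∫ x, g x * itr ρ (n + 1) wq [x] ∂(ms (⊤ : Submodule ℝ V)) = sN ρ (n + 1) g := by
  haveI := hρ.prob
  haveI := ms_prob (⊤ : Submodule ℝ V)
  have hu : ∀ᵐ x ∂(ms (⊤ : Submodule ℝ V)), ‖x‖ = 1 := by
    have h1 : 1 ≤ Module.finrank ℝ (⊤ : Submodule ℝ V) := by rwa [finrank_top]
    filter_upwards [ms_unit (⊤ : Submodule ℝ V) h1] with x hx using hx.1
  have e1 : ∫ x, g x * itr ρ (n + 1) wq [x] ∂(ms (⊤ : Submodule ℝ V)) =
      ∫ x, ∫ X, wv X * (‖rv X x‖ * g x) ∂(pp (n + 1) ρ) ∂(ms (⊤ : Submodule ℝ V)) := by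
    refine integral_congr_ae ?_
    filter_upwards [hu] with x hx
    rw [d3a_one hρ (n + 1) hx, ← integral_const_mul]
    refine integral_congr_ae (Filter.Eventually.of_forall fun X => ?_)
    show g x * (wv X * ‖rv X x‖) = wv X * (‖rv X x‖ * g x)
    ring
  rw [e1, integral_integral_swap]
  · unfold sN iw
    refine integral_congr_ae (Filter.Eventually.of_forall fun X => ?_)
    exact integral_const_mul _ _
  · refine Integrable.of_bound (C := C) ?_ ?_
    · refine Measurable.aestronglyMeasurable ?_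
      show Measurable (fun p : V × (Fin (n + 1) → V) => wv p.2 * (‖rv p.2 p.1‖ * g p.1))
      exact ((measurable_wv (n + 1)).comp measurable_snd).mul
        ((((measurable_rv (n + 1)).comp (measurable_snd.prodMk measurable_fst)).norm).mul (hg.comp measurable_fst))
    · have h1 : ∀ᵐ p ∂((ms (⊤ : Submodule ℝ V)).prod (pp (n + 1) ρ)), ‖p.1‖ = 1 :=
        Measure.quasiMeasurePreserving_fst.ae hu
      have h2 : ∀ᵐ p ∂((ms (⊤ : Submodule ℝ V)).prod (pp (n + 1) ρ)), 0 ≤ wv p.2 ∧ wv p.2 ≤ 1 :=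
        Measure.quasiMeasurePreserving_snd.ae (ae_wv_le hρ (n + 1))
      filter_upwards [h1, h2] with p hp1 hp2
      show ‖wv p.2 * (‖rv p.2 p.1‖ * g p.1)‖ ≤ C
      rw [norm_mul, norm_mul, norm_norm, Real.norm_of_nonneg hp2.1, Real.norm_eq_abs]
      have h3 : ‖rv p.2 p.1‖ ≤ 1 := (norm_res_le _ _).trans hp1.le
      have h4 := hC p.1
      have h5 : ‖rv p.2 p.1‖ * |g p.1| ≤ 1 * C := mul_le_mul h3 h4 (abs_nonneg _) zero_le_one
      have h6 : wv p.2 * (‖rv p.2 p.1‖ * |g p.1|) ≤ 1 * (1 * C) :=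
        mul_le_mul hp2.2 h5 (mul_nonneg (norm_nonneg _) (abs_nonneg _)) zero_le_one
      linarith

theorem entry_rs (hρ : US ρ) (hV : 1 ≤ Module.finrank ℝ V) (n : ℕ) {g : V → ℝ} (hg : Measurable g) {C : ℝ}
    (hC : ∀ x, |g x| ≤ C) :
    ∫ x, ∫ y, g x * itr ρ n wq [y, x] ∂ρ ∂(ms (⊤ : Submodule ℝ V)) = sN ρ (n + 1) g ∧
    ∫ x, ∫ y, g y * itr ρ n wq [y, x] ∂(ms (⊤ : Submodule ℝ V)) ∂ρ = sN ρ (n + 1) g := by
  haveI := hρ.prob
  haveI := ms_prob (⊤ : Submodule ℝ V)
  have e0 := d3a_rs1 hρ hV n hg hC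
  refine ⟨?_, ?_⟩
  · rw [← e0]
    refine integral_congr_ae (Filter.Eventually.of_forall fun x => ?_)
    show ∫ y, g x * itr ρ n wq [y, x] ∂ρ = g x * itr ρ (n + 1) wq [x]
    rw [integral_const_mul]
    rfl
  · rw [integral_integral_swap]
    · rw [← e0]
      refine integral_congr_ae (Filter.Eventually.of_forall fun y => ?_)
      show ∫ x, g y * itr ρ n wq [y, x] ∂ρ = g y * itr ρ (n + 1) wq [y]
      rw [integral_const_mul]
      congr 1
      show ∫ x, itr ρ n wq [y, x] ∂ρ = ∫ x, itr ρ n wq [x, y] ∂ρ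
      refine integral_congr_ae (Filter.Eventually.of_forall fun x => ?_)
      exact itr_sym d3a_sym n _ _ (List.Perm.swap x y [])
    · obtain ⟨D, hD⟩ := (lb_wq.itr (ρ := ρ) n).bdd
      refine Integrable.of_bound (C := C * D) ?_ (Filter.Eventually.of_forall fun p => ?_)
      · refine Measurable.aestronglyMeasurable ?_
        show Measurable (fun p : V × V => g p.2 * itr ρ n wq [p.2, p.1])
        refine (hg.comp measurable_snd).mul ?_
        have h : (fun p : V × V => itr ρ n wq [p.2, p.1]) =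
            (fun X : Fin 2 → V => itr ρ n wq (List.ofFn X)) ∘ (fun p : V × V => ![p.2, p.1]) := by
          funext p
          simp [List.ofFn_succ]
        rw [h]
        refine ((lb_wq.itr (ρ := ρ) n).meas 2).comp ?_
        rw [measurable_pi_iff]
        intro i
        fin_cases i
        · exact measurable_snd
        · exact measurable_fst
      · show ‖g p.2 * itr ρ n wq [p.2, p.1]‖ ≤ C * D
        rw [Real.norm_eq_abs, abs_mul]
        have hC0 : 0 ≤ C := (abs_nonneg _).trans (hC p.2)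
        exact mul_le_mul (hC p.2) (hD _) (abs_nonneg _) hC0

theorem sN_one (hρ : US ρ) {n : ℕ} (hn : n + 1 ≤ Module.finrank ℝ V) :
    sN ρ n (fun _ => 1) = cc (Module.finrank ℝ V) n * en n ρ := by
  unfold sN
  rw [← iw_const ρ n (cc (Module.finrank ℝ V) n)]
  refine iw_congr hρ fun X hX _ => ?_
  have h1 := finrank_oc hX
  have h2 : Module.finrank ℝ (oc X) = Module.finrank ℝ V - n := by omega
  have h3 : ∀ a : V, ‖rv X a‖ * 1 = ‖(oc X).starProjection a‖ := fun a => by rw [mul_one, PBL.rv_eq]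
  simp_rw [h3]
  rw [ms_norm (oc X) (by omega), h2]
  rfl

end Pool.Agent.HRJ
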