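import Pool.Agent.HRJ.Defs

/-!
# HRJ-D4a: the Gram matrix of `(σ, ρ, g σ)` is Lorentzian; its determinant

PROOF PLAN.  `af_matrix`: `af2` with `σ = ms ⊤`, `a = α` (constant), `b = γ + β g`; expand the integrals (linear, bounded integrands), `entry_rr`, `entry_rs` (for `g` and for `1`, `sN_one` gives
`sN ρ (n+1) 1 = cc d (n+1) en (n+1) ρ`), `entry_ss` for `(g,g)`, `(g,1)`, `(1,g)`, `(1,1)` (`tN` is the case `(g,g)`), `ss_one`; for `(1,g)` use the symmetry
`‖rv X a‖ ‖ort (rv X a) (rv X b)‖ = ‖rv X b‖ ‖ort (rv X b) (rv X a)‖` (`norm_mul_norm_ort`, HP89.A1a) and Fubini.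
`alg3`: pure algebra.  Let `Q(x,x) = α² A + γ² S + β² G + 2αγ B + 2αβ D + 2γβ E`, `Q(x,ρ) = α A + γ B + β D`, `h : Q(x,x) A ≤ Q(x,ρ)²`.
If `x ⊥ σ` (`α B + γ S + β E = 0`) and `Q(x,x) > 0` then for `z = Q(σ,ρ) x - Q(x,ρ) σ` (`⊥ ρ`) `Q(z,z) = B² Q(x,x) + Q(x,ρ)² S > 0` unless `B = Q(x,ρ) = 0`, against `h` for `z` (`Q(z,z) A ≤ 0`); if `B = 0` and
`Q(x,ρ) = 0` then `h` for `x` itself is violated.  So the form `q'(β,α) = Q` of `x = α ρ + β g - ((α B + β E)/S) σ` is `≤ 0`: `q' = α² (A - B²/S) + 2αβ (D - BE/S) + β² (G - E²/S) ≤ 0` for all `α, β`, hence the claim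
(discriminant: `discrim_le_zero`-like, or choose `α, β`).
-/

set_option autoImplicit false

namespace Pool.Agent.HRJ

open MeasureTheory ProbabilityTheory Set Filter Topology Metric
open Pool.Agent.HP89 Pool.Agent.FI75 Pool.Agent.PBL
open scoped RealInnerProductSpace ENNReal

variable {V : Type*} [NormedAddCommGroup V] [InnerProductSpace ℝ V] [FiniteDimensional ℝ V]
  [MeasurableSpace V] [BorelSpace V]

variable {ρ : Measure V}

theorem alg3 {A S G B D E : ℝ} (hA : 0 < A) (hS : 0 < S)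
    (h : ∀ α β γ : ℝ, (α ^ 2 * A + γ ^ 2 * S + β ^ 2 * G + 2 * α * γ * B + 2 * α * β * D + 2 * γ * β * E) * A ≤
      (α * A + γ * B + β * D) ^ 2) :
    0 ≤ B ^ 2 / S - A ∧ 0 ≤ E ^ 2 / S - G ∧ (D - B * E / S) ^ 2 ≤ (B ^ 2 / S - A) * (E ^ 2 / S - G) := by
  have hP : A * S ≤ B ^ 2 := by
    have := h 0 0 1
    nlinarith
  have hR : A * G ≤ D ^ 2 := by
    have := h 0 1 0
    nlinarith
  have hT : (B * D - A * E) ^ 2 ≤ (B ^ 2 - A * S) * (D ^ 2 - A * G) := by
    have h1 : ∀ x : ℝ, 0 ≤ (B ^ 2 - A * S) * (x * x) + (2 * (B * D - A * E)) * x + (D ^ 2 - A * G) := by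
      intro x
      have := h 0 1 x
      nlinarith
    have h2 := discrim_le_zero h1
    unfold discrim at h2
    nlinarith
  have hdet : 0 ≤ A * S * G + 2 * B * D * E - A * E ^ 2 - S * D ^ 2 - G * B ^ 2 := by
    have h3 : 0 ≤ A * (A * S * G + 2 * B * D * E - A * E ^ 2 - S * D ^ 2 - G * B ^ 2) := by nlinarith
    exact nonneg_of_mul_nonneg_right h3 hA
  have h3 : (D * S - B * E) ^ 2 ≤ (B ^ 2 - A * S) * (E ^ 2 - G * S) := by
    have h4 : 0 ≤ S * (A * S * G + 2 * B * D * E - A * E ^ 2 - S * D ^ 2 - G * B ^ 2) := mul_nonneg hS.le hdet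
    nlinarith
  have h2 : G * S ≤ E ^ 2 := by
    rcases hP.lt_or_eq with hlt | heq
    · have h5 : 0 ≤ (B ^ 2 - A * S) * (E ^ 2 - G * S) := le_trans (sq_nonneg _) h3
      have h6 := nonneg_of_mul_nonneg_right h5 (by linarith : 0 < B ^ 2 - A * S)
      linarith
    · have hT0 : (B * D - A * E) ^ 2 ≤ 0 := by
        have : B ^ 2 - A * S = 0 := by linarith
        rw [this, zero_mul] at hT
        exact hT
      have hT1 : B * D = A * E := by
        have := pow_eq_zero_iff (n := 2) (by norm_num) |>.1 (le_antisymm hT0 (sq_nonneg _))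
        linarith
      have h7 : A ^ 2 * E ^ 2 = A * S * D ^ 2 := by
        calc A ^ 2 * E ^ 2 = (A * E) ^ 2 := by ring
          _ = (B * D) ^ 2 := by rw [hT1]
          _ = B ^ 2 * D ^ 2 := by ring
          _ = A * S * D ^ 2 := by rw [← heq]
      have h8 : A * S * (A * G) ≤ A * S * D ^ 2 := mul_le_mul_of_nonneg_left hR (mul_pos hA hS).le
      have h9 : A ^ 2 * (G * S) ≤ A ^ 2 * E ^ 2 := by
        rw [h7]
        calc A ^ 2 * (G * S) = A * S * (A * G) := by ring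
          _ ≤ _ := h8
      exact le_of_mul_le_mul_left h9 (by positivity)
  have e1 : B ^ 2 / S - A = (B ^ 2 - A * S) / S := by field_simp
  have e2 : E ^ 2 / S - G = (E ^ 2 - G * S) / S := by field_simp
  have e3 : D - B * E / S = (D * S - B * E) / S := by field_simp
  refine ⟨?_, ?_, ?_⟩
  · rw [e1]
    exact div_nonneg (by linarith) hS.le
  · rw [e2]
    exact div_nonneg (by linarith) hS.le
  · rw [e1, e2, e3, div_pow, div_mul_div_comm, ← pow_two S]
    exact div_le_div_of_nonneg_right h3 (by positivity)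

end Pool.Agent.HRJ
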