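import Pool.Agent.HRJ.D2
import Pool.Agent.HRJ.D3
import Pool.Agent.HRJ.D4a

/-!
# HRJ-D4: the Gram matrix of `(σ, ρ, g σ)` is Lorentzian; its determinant

PROOF PLAN.  `af_matrix`: `af2` with `σ = ms ⊤`, `a = α` (constant), `b = γ + β g`; expand the integrals (linear, bounded integrands), `entry_rr`, `entry_rs` (for `g` and for `1`, `sN_one` gives
`sN ρ (n+1) 1 = cc d (n+1) en (n+1) ρ`), `entry_ss` for `(g,g)`, `(g,1)`, `(1,g)`, `(1,1)` (`tN` is the case `(g,g)`), `ss_one`; for `(1,g)` use the symmetry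
`‖rv X a‖ ‖ort (rv X a) (rv X b)‖ = ‖rv X b‖ ‖ort (rv X b) (rv X a)‖` (`norm_mul_norm_ort`, HP89.A1a) and Fubini.
`alg3`: pure algebra.  Let `Q(x,x) = α² A + γ² S + β² G + 2αγ B + 2αβ D + 2γβ E`, `Q(x,ρ) = α A + γ B + β D`, `h : Q(x,x) A ≤ Q(x,ρ)²`.
If `x ⊥ σ` (`α B + γ S + β E = 0`) and `Q(x,x) > 0` then for `z = Q(σ,ρ) x - Q(x,ρ) σ` (`⊥ ρ`) `Q(z,z) = B² Q(x,x) + Q(x,ρ)² S > 0` unless `B = Q(x,ρ) = 0`, against `h` for `z` (`Q(z,z) A ≤ 0`); if `B = 0` and
`Q(x,ρ) = 0` then `h` for `x` itself is violated.  So the form `q'(β,α) = Q` of `x = α ρ + β g - ((α B + β E)/S) σ` is `≤ 0`: `q' = α² (A - B²/S) + 2αβ (D - BE/S) + β² (G - E²/S) ≤ 0` for all `α, β`, hence the claim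
(discriminant: `discrim_le_zero`-like, or choose `α, β`).
-/

set_option autoImplicit false

namespace Pool.Agent.HRJ

open MeasureTheory ProbabilityTheory Set Filter Topology Metric
open Pool.Agent.HP89 Pool.Agent.FI75 Pool.Agent.PBL
open scoped RealInnerProductSpace ENNReal

variable {V : Type*} [NormedAddCommGroup V] [InnerProductSpace ℝ V] [FiniteDimensional ℝ V]
  [MeasurableSpace V] [BorelSpace V]

variable {ρ : Measure V}

/-- measurable bounded functions of two variables -/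
private def BM (K : V → V → ℝ) : Prop := Measurable (Function.uncurry K) ∧ ∃ D : ℝ, ∀ x y, |K x y| ≤ D

private theorem BM.mul {K L : V → V → ℝ} (hK : BM K) (hL : BM L) : BM (fun x y => K x y * L x y) := by
  obtain ⟨h1, D, h2⟩ := hK
  obtain ⟨h3, E, h4⟩ := hL
  refine ⟨h1.mul h3, D * E, fun x y => ?_⟩
  rw [abs_mul]
  exact mul_le_mul (h2 x y) (h4 x y) (abs_nonneg _) ((abs_nonneg _).trans (h2 x y))

private theorem BM.add {K L : V → V → ℝ} (hK : BM K) (hL : BM L) : BM (fun x y => K x y + L x y) := by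
  obtain ⟨h1, D, h2⟩ := hK
  obtain ⟨h3, E, h4⟩ := hL
  refine ⟨h1.add h3, D + E, fun x y => ?_⟩
  exact (abs_add_le _ _).trans (add_le_add (h2 x y) (h4 x y))

private theorem BM.cst (c : ℝ) : BM (fun _ _ : V => c) :=
  ⟨measurable_const, |c|, fun _ _ => le_refl _⟩

private theorem BM.fst {g : V → ℝ} (hg : Measurable g) {C : ℝ} (hC : ∀ x, |g x| ≤ C) :
    BM (fun x _ : V => g x) :=
  ⟨hg.comp measurable_fst, C, fun x _ => hC x⟩

private theorem BM.snd {g : V → ℝ} (hg : Measurable g) {C : ℝ} (hC : ∀ x, |g x| ≤ C) :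
    BM (fun _ y : V => g y) :=
  ⟨hg.comp measurable_snd, C, fun _ y => hC y⟩

private theorem BM.sec {K : V → V → ℝ} (hK : BM K) (ν : Measure V) [IsProbabilityMeasure ν] (x : V) :
    Integrable (fun y => K x y) ν := by
  obtain ⟨h1, D, h2⟩ := hK
  exact Integrable.of_bound (h1.comp measurable_prodMk_left).aestronglyMeasurable D
    (Filter.Eventually.of_forall fun y => by rw [Real.norm_eq_abs]; exact h2 x y)

private theorem BM.out {K : V → V → ℝ} (hK : BM K) (μ ν : Measure V) [IsProbabilityMeasure μ]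
    [IsProbabilityMeasure ν] : Integrable (fun x => ∫ y, K x y ∂ν) μ := by
  obtain ⟨h1, D, h2⟩ := hK
  refine Integrable.of_bound (h1.stronglyMeasurable.integral_prod_right' (ν := ν)).aestronglyMeasurable D
    (Filter.Eventually.of_forall fun x => ?_)
  have h3 := norm_integral_le_of_norm_le_const (μ := ν) (f := fun y => K x y) (C := D)
    (Filter.Eventually.of_forall fun y => by rw [Real.norm_eq_abs]; exact h2 x y)
  rwa [probReal_univ, mul_one] at h3

private theorem BM.prod {K : V → V → ℝ} (hK : BM K) (μ ν : Measure V) [IsProbabilityMeasure μ]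
    [IsProbabilityMeasure ν] : Integrable (Function.uncurry K) (μ.prod ν) := by
  obtain ⟨h1, D, h2⟩ := hK
  exact Integrable.of_bound h1.aestronglyMeasurable D
    (Filter.Eventually.of_forall fun p => by rw [Real.norm_eq_abs]; exact h2 p.1 p.2)

private theorem dadd {K L : V → V → ℝ} (hK : BM K) (hL : BM L) (μ ν : Measure V)
    [IsProbabilityMeasure μ] [IsProbabilityMeasure ν] :
    ∫ x, ∫ y, (K x y + L x y) ∂ν ∂μ = (∫ x, ∫ y, K x y ∂ν ∂μ) + ∫ x, ∫ y, L x y ∂ν ∂μ := by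
  rw [← integral_add (hK.out μ ν) (hL.out μ ν)]
  refine integral_congr_ae (Filter.Eventually.of_forall fun x => ?_)
  exact integral_add (hK.sec ν x) (hL.sec ν x)

private theorem dmul (c : ℝ) (K : V → V → ℝ) (μ ν : Measure V) :
    ∫ x, ∫ y, c * K x y ∂ν ∂μ = c * ∫ x, ∫ y, K x y ∂ν ∂μ := by
  rw [← integral_const_mul]
  refine integral_congr_ae (Filter.Eventually.of_forall fun x => ?_)
  exact integral_const_mul c _

theorem af_matrix (hρ : US ρ) {n : ℕ} (hn : n + 2 ≤ Module.finrank ℝ V) {g : V → ℝ} (hg : Measurable g) {C : ℝ}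
    (hC : ∀ x, |g x| ≤ C) (α β γ : ℝ) :
    (α ^ 2 * en (n + 2) ρ + γ ^ 2 * (en n ρ * cc (Module.finrank ℝ V) n * cc (Module.finrank ℝ V) (n + 1)) +
        β ^ 2 * tN ρ n g + 2 * α * γ * (en (n + 1) ρ * cc (Module.finrank ℝ V) (n + 1)) +
        2 * α * β * sN ρ (n + 1) g + 2 * γ * β * (cc (Module.finrank ℝ V) (n + 1) * sN ρ n g)) * en (n + 2) ρ ≤
      (α * en (n + 2) ρ + γ * (en (n + 1) ρ * cc (Module.finrank ℝ V) (n + 1)) + β * sN ρ (n + 1) g) ^ 2 := by
  have hV : 1 ≤ Module.finrank ℝ V := by omega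
  haveI := hρ.prob
  haveI : IsProbabilityMeasure (ms (⊤ : Submodule ℝ V)) := ms_prob _
  set σ : Measure V := ms (⊤ : Submodule ℝ V) with hσ
  have hone : Measurable (fun _ : V => (1 : ℝ)) := measurable_const
  have hC1 : ∀ x : V, |(fun _ : V => (1 : ℝ)) x| ≤ max C 1 := fun x => by simp
  have hCg : ∀ x : V, |g x| ≤ max C 1 := fun x => (hC x).trans (le_max_left _ _)
  -- the kernel
  have hk : BM (fun x y : V => itr ρ n wq [y, x]) := by
    obtain ⟨D, hD⟩ := ((wt_wq ρ).lb.itr (ρ := ρ) n).bdd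
    exact ⟨((wt_wq ρ).lb.itr (ρ := ρ) n).cons2 [], D, fun x y => hD _⟩
  have hks : ∀ x y : V, itr ρ n wq [y, x] = itr ρ n wq [x, y] := fun x y =>
    itr_sym (wt_wq ρ).sym n _ _ (List.Perm.swap x y [])
  have hgf : BM (fun x _ : V => g x) := BM.fst hg hC
  have hgs : BM (fun _ y : V => g y) := BM.snd hg hC
  have hmain := af2 ρ σ n (a := fun _ => α) (b := fun x => γ + β * g x) measurable_const
    ⟨|α|, fun _ => le_refl _⟩ ((measurable_const).add (measurable_const.mul hg))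
    ⟨|γ| + |β| * C, fun x => (abs_add_le _ _).trans (add_le_add (le_refl _) (by
      rw [abs_mul]
      exact mul_le_mul_of_nonneg_left (hC x) (abs_nonneg _)))⟩
  -- the entries
  have eρρ := entry_rr hρ n
  obtain ⟨e1a, e1b⟩ := entry_rs hρ hV n hone (C := max C 1) hC1
  obtain ⟨e2a, e2b⟩ := entry_rs hρ hV n hg hC
  rw [sN_one hρ (n := n + 1) (by omega)] at e1a e1b
  rw [← hσ] at e1a e1b e2a e2b
  have s11 := entry_ss hρ hV n hone (C := max C 1) hC1 hone hC1
  have sg1 := entry_ss hρ hV n hg (C := max C 1) hCg hone hC1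
  have sgg := entry_ss hρ hV n hg (C := max C 1) hCg hg hCg
  have o1 := ss_one hρ (n := n) (by omega) hone (C := max C 1) hC1
  have og := ss_one hρ (n := n) (by omega) hg (C := max C 1) hCg
  rw [sN_one hρ (n := n) (by omega)] at o1
  simp only [mul_one, one_mul] at s11 sg1 o1 og e1a e1b
  rw [o1, ← hσ] at s11
  rw [og, ← hσ] at sg1
  have egg : ∫ x, ∫ y, g x * g y * itr ρ n wq [y, x] ∂σ ∂σ = tN ρ n g := by
    rw [hσ]
    exact sgg
  have s1g : ∫ x, ∫ y, g y * itr ρ n wq [y, x] ∂σ ∂σ =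
      cc (Module.finrank ℝ V) (n + 1) * sN ρ n g := by
    rw [← sg1, integral_integral_swap ((hgs.mul hk).prod σ σ)]
    refine integral_congr_ae (Filter.Eventually.of_forall fun y => ?_)
    refine integral_congr_ae (Filter.Eventually.of_forall fun x => ?_)
    show g y * itr ρ n wq [y, x] = g y * itr ρ n wq [x, y]
    rw [hks]
  -- expansions
  have l1 : ∫ x, ∫ y, (fun _ : V => α) x * (fun _ : V => α) y * itr ρ n wq [y, x] ∂ρ ∂ρ =
      α ^ 2 * en (n + 2) ρ := by
    rw [← eρρ, ← dmul]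
    refine integral_congr_ae (Filter.Eventually.of_forall fun x => ?_)
    refine integral_congr_ae (Filter.Eventually.of_forall fun y => ?_)
    show α * α * _ = α ^ 2 * _
    ring
  have l2 : ∫ x, ∫ y, (fun _ : V => α) x * (fun x : V => γ + β * g x) y * itr ρ n wq [y, x] ∂σ ∂ρ =
      α * γ * (cc (Module.finrank ℝ V) (n + 1) * en (n + 1) ρ) + α * β * sN ρ (n + 1) g := by
    rw [← e1b, ← e2b, ← dmul, ← dmul,
      ← dadd ((BM.cst (α * γ)).mul hk) ((BM.cst (α * β)).mul (hgs.mul hk))]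
    refine integral_congr_ae (Filter.Eventually.of_forall fun x => ?_)
    refine integral_congr_ae (Filter.Eventually.of_forall fun y => ?_)
    show α * (γ + β * g y) * itr ρ n wq [y, x] =
      α * γ * itr ρ n wq [y, x] + α * β * (g y * itr ρ n wq [y, x])
    ring
  have l3 : ∫ x, ∫ y, (fun x : V => γ + β * g x) x * (fun x : V => γ + β * g x) y *
      itr ρ n wq [y, x] ∂σ ∂σ =
      (γ ^ 2 * (cc (Module.finrank ℝ V) (n + 1) * (cc (Module.finrank ℝ V) n * en n ρ)) +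
        γ * β * (cc (Module.finrank ℝ V) (n + 1) * sN ρ n g)) +
      (β * γ * (cc (Module.finrank ℝ V) (n + 1) * sN ρ n g) + β ^ 2 * tN ρ n g) := by
    rw [← s11, ← egg]
    nth_rewrite 1 [← s1g]
    rw [← sg1]
    rw [← dmul, ← dmul, ← dmul, ← dmul,
      ← dadd ((BM.cst (γ ^ 2)).mul hk) ((BM.cst (γ * β)).mul (hgs.mul hk)),
      ← dadd ((BM.cst (β * γ)).mul (hgf.mul hk)) ((BM.cst (β ^ 2)).mul ((hgf.mul hgs).mul hk)),
      ← dadd (((BM.cst (γ ^ 2)).mul hk).add ((BM.cst (γ * β)).mul (hgs.mul hk)))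
        (((BM.cst (β * γ)).mul (hgf.mul hk)).add ((BM.cst (β ^ 2)).mul ((hgf.mul hgs).mul hk)))]
    refine integral_congr_ae (Filter.Eventually.of_forall fun x => ?_)
    refine integral_congr_ae (Filter.Eventually.of_forall fun y => ?_)
    show (γ + β * g x) * (γ + β * g y) * itr ρ n wq [y, x] =
      (γ ^ 2 * itr ρ n wq [y, x] + γ * β * (g y * itr ρ n wq [y, x])) +
      (β * γ * (g x * itr ρ n wq [y, x]) + β ^ 2 * (g x * g y * itr ρ n wq [y, x]))
    ring
  have r1 : ∫ x, ∫ y, (fun _ : V => α) x * itr ρ n wq [y, x] ∂ρ ∂ρ = α * en (n + 2) ρ := by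
    rw [← eρρ, ← dmul]
  have r2 : ∫ x, ∫ y, (fun x : V => γ + β * g x) x * itr ρ n wq [y, x] ∂ρ ∂σ =
      γ * (cc (Module.finrank ℝ V) (n + 1) * en (n + 1) ρ) + β * sN ρ (n + 1) g := by
    rw [← e1a, ← e2a, ← dmul, ← dmul,
      ← dadd ((BM.cst γ).mul hk) ((BM.cst β).mul (hgf.mul hk))]
    refine integral_congr_ae (Filter.Eventually.of_forall fun x => ?_)
    refine integral_congr_ae (Filter.Eventually.of_forall fun y => ?_)
    show (γ + β * g x) * itr ρ n wq [y, x] =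
      γ * itr ρ n wq [y, x] + β * (g x * itr ρ n wq [y, x])
    ring
  rw [l1, l2, l3, r1, r2, eρρ] at hmain
  refine le_trans (le_of_eq ?_) (hmain.trans (le_of_eq ?_)) <;> ring

end Pool.Agent.HRJ
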