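import Pool.Agent.HRJ.D7a

/-!
# HRJ-D7b: lower bound of `theta_j` (second moments)
-/

set_option autoImplicit false

namespace Pool.Agent.HRJ

open MeasureTheory ProbabilityTheory Set Filter Topology Metric
open Pool.Agent.HP89 Pool.Agent.FI75 Pool.Agent.PBL
open scoped RealInnerProductSpace ENNReal

variable {V : Type*} [NormedAddCommGroup V] [InnerProductSpace ℝ V] [FiniteDimensional ℝ V]
  [MeasurableSpace V] [BorelSpace V]

variable {ρ : Measure V} {j : ℕ}

private theorem integ2 (hρ : US ρ) (u w : V) : Integrable (fun x : V => ⟪x, u⟫ * ⟪x, w⟫) ρ := by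
  have := hρ.prob
  refine Integrable.of_bound (C := ‖u‖ * ‖w‖) ?_ ?_
  · exact (Continuous.aestronglyMeasurable (by fun_prop))
  · filter_upwards [hρ.unit] with x hx
    rw [norm_mul]
    have h1 : ‖(⟪x, u⟫ : ℝ)‖ ≤ ‖u‖ := by
      simpa [hx] using norm_inner_le_norm (𝕜 := ℝ) x u
    have h2 : ‖(⟪x, w⟫ : ℝ)‖ ≤ ‖w‖ := by
      simpa [hx] using norm_inner_le_norm (𝕜 := ℝ) x w
    exact mul_le_mul h1 h2 (norm_nonneg _) (norm_nonneg _)

private noncomputable def TL (ρ : Measure V) (hρ : US ρ) : V →ₗ[ℝ] V where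
  toFun := Tv ρ
  map_add' := by
    intro u w
    refine ext_inner_left ℝ fun z => ?_
    rw [inner_add_right, inner_Tv hρ, inner_Tv hρ, inner_Tv hρ, ← integral_add (integ2 hρ _ _) (integ2 hρ _ _)]
    congr 1; ext x
    rw [inner_add_right]; ring
  map_smul' := by
    intro c u
    refine ext_inner_left ℝ fun z => ?_
    rw [RingHom.id_apply, inner_smul_right, inner_Tv hρ, inner_Tv hρ, ← integral_const_mul]
    congr 1; ext x
    rw [inner_smul_right]; ring

private theorem spectral (hρ : US ρ) :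
    ∃ (e : OrthonormalBasis (Fin (Module.finrank ℝ V)) ℝ V) (l : Fin (Module.finrank ℝ V) → ℝ),
      (∀ i, Tv ρ (e i) = l i • e i) ∧ (∀ i, ∫ x, ⟪x, e i⟫ ^ 2 ∂ρ = l i) ∧ (∀ i, 0 ≤ l i) ∧ ∑ i, l i = 1 ∧
      ∀ u, ∫ x, ⟪x, u⟫ ^ 2 ∂ρ = ∑ i, l i * ⟪e i, u⟫ ^ 2 := by
  have := hρ.prob
  have hsym : (TL ρ hρ).IsSymmetric := by
    intro u w
    rw [real_inner_comm]
    show ⟪w, Tv ρ u⟫ = ⟪u, Tv ρ w⟫
    rw [inner_Tv hρ, inner_Tv hρ]; congr 1; ext x; ring
  have hT : ∀ i, Tv ρ (hsym.eigenvectorBasis rfl i) = hsym.eigenvalues rfl i • hsym.eigenvectorBasis rfl i :=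
    fun i => hsym.apply_eigenvectorBasis rfl i
  generalize hsym.eigenvectorBasis rfl = e at hT
  generalize hsym.eigenvalues rfl = l at hT
  have hq : ∀ u : V, ∫ x, ⟪x, u⟫ ^ 2 ∂ρ = ⟪u, Tv ρ u⟫ := by
    intro u
    rw [inner_Tv hρ]
    congr 1; ext x; ring
  have h1 : ∀ i, ∫ x, ⟪x, e i⟫ ^ 2 ∂ρ = l i := by
    intro i
    rw [hq, hT, inner_smul_right, real_inner_self_eq_norm_sq, e.norm_eq_one]
    ring
  refine ⟨e, l, hT, h1, ?_, ?_, ?_⟩
  · intro i
    rw [← h1]
    exact integral_nonneg fun x => sq_nonneg _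
  · have h2 : ∑ i, l i = ∫ x, ∑ i, ⟪x, e i⟫ ^ 2 ∂ρ := by
      rw [integral_finsetSum]
      · exact Finset.sum_congr rfl fun i _ => (h1 i).symm
      · intro i _
        have := integ2 hρ (e i) (e i)
        refine this.congr (Eventually.of_forall fun x => ?_)
        ring
    rw [h2]
    have h3 : (fun x : V => ∑ i, ⟪x, e i⟫ ^ 2) =ᵐ[ρ] fun _ => (1 : ℝ) := by
      filter_upwards [hρ.unit] with x hx
      have h4 := e.sum_inner_mul_inner x x
      rw [real_inner_self_eq_norm_sq, hx] at h4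
      rw [show (1 : ℝ) = 1 ^ 2 by norm_num, ← h4]
      refine Finset.sum_congr rfl fun i _ => ?_
      rw [real_inner_comm x (e i)]
      ring
    rw [integral_congr_ae h3]
    simp
  · intro u
    rw [hq, ← e.sum_inner_mul_inner u (Tv ρ u)]
    refine Finset.sum_congr rfl fun i _ => ?_
    have h5 : ⟪e i, Tv ρ u⟫ = l i * ⟪e i, u⟫ := by
      have h6 : ⟪e i, Tv ρ u⟫ = ⟪u, Tv ρ (e i)⟫ := by
        rw [inner_Tv hρ, inner_Tv hρ]; congr 1; ext x; ring
      rw [h6, hT, inner_smul_right, real_inner_comm]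
    rw [h5, real_inner_comm u (e i)]
    ring

private theorem integ_sq (hρ : US ρ) (u : V) : Integrable (fun x : V => ⟪x, u⟫ ^ 2) ρ := by
  refine (integ2 hρ u u).congr (Eventually.of_forall fun x => ?_)
  ring


omit [MeasurableSpace V] [BorelSpace V] in
private theorem rv_norm_le {n : ℕ} (X : Fin n → V) (y : V) : ‖rv X y‖ ≤ ‖y‖ := by
  rw [rv_eq]
  exact Submodule.norm_starProjection_apply_le _ _

omit [MeasurableSpace V] [BorelSpace V] in
private theorem rv_inner {n : ℕ} (X : Fin n → V) (y : V) : ⟪rv X y, y⟫ = ‖rv X y‖ ^ 2 := by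
  have h : ⟪(oc X).starProjection y, y⟫ = ⟪(oc X).starProjection y, (oc X).starProjection y⟫ := by
    have h1 := Submodule.inner_starProjection_left_eq_right (oc X) ((oc X).starProjection y) y
    rw [Submodule.starProjection_eq_self_iff.2 (Submodule.starProjection_apply_mem _ _)] at h1
    exact h1
  rw [rv_eq, h, real_inner_self_eq_norm_sq]

private theorem hf_sm (hρ : US ρ) : StronglyMeasurable (hf ρ) := by
  have := hρ.prob
  have h1 : StronglyMeasurable (fun p : V × V => |⟪p.2, p.1⟫|) :=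
    (continuous_abs.comp (continuous_snd.inner continuous_fst)).stronglyMeasurable
  exact h1.integral_prod_right

private theorem hf_bd (hρ : US ρ) (u : V) : 0 ≤ hf ρ u ∧ hf ρ u ≤ ‖u‖ := by
  have := hρ.prob
  refine ⟨integral_nonneg fun _ => abs_nonneg _, ?_⟩
  have h1 : hf ρ u ≤ ∫ _x, ‖u‖ ∂ρ := by
    unfold hf
    refine integral_mono_of_nonneg (Eventually.of_forall fun _ => abs_nonneg _) (integrable_const _) ?_
    filter_upwards [hρ.unit] with x hx
    have h3 := abs_real_inner_le_norm x u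
    rwa [hx, one_mul] at h3
  simpa using h1

private theorem mom (hρ : US ρ) (hd : 1 ≤ Module.finrank ℝ V) :
    Integrable (fun u => ∫ x, ⟪x, u⟫ ^ 2 ∂ρ) ρ ∧
      1 / (Module.finrank ℝ V : ℝ) ≤ ∫ u, ∫ x, ⟪x, u⟫ ^ 2 ∂ρ ∂ρ := by
  have := hρ.prob
  obtain ⟨e, l, -, hl, hl0, hsum, hq⟩ := spectral hρ
  have hd0 : (0 : ℝ) < (Module.finrank ℝ V : ℝ) := by exact_mod_cast hd
  have hi : ∀ i, Integrable (fun u => l i * ⟪e i, u⟫ ^ 2) ρ := by
    intro i
    refine ((integ_sq hρ (e i)).const_mul (l i)).congr (Eventually.of_forall fun x => ?_)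
    simp only
    rw [real_inner_comm]
  simp_rw [hq]
  refine ⟨integrable_finsetSum _ fun i _ => hi i, ?_⟩
  rw [integral_finsetSum _ fun i _ => hi i]
  have h1 : ∀ i, ∫ u, l i * ⟪e i, u⟫ ^ 2 ∂ρ = l i ^ 2 := by
    intro i
    rw [integral_const_mul]
    have h2 : ∫ u, ⟪e i, u⟫ ^ 2 ∂ρ = ∫ x, ⟪x, e i⟫ ^ 2 ∂ρ := by
      congr 1; ext x; rw [real_inner_comm]
    rw [h2, hl i]
    ring
  simp_rw [h1]
  have := sq_sum_le_card_mul_sum_sq (s := (Finset.univ : Finset (Fin (Module.finrank ℝ V)))) (f := l)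
  rw [hsum] at this
  rw [div_le_iff₀' hd0]
  simpa using this

private theorem main (h : Fx j ρ) :
    mm (Module.finrank ℝ V - j) * ((Module.finrank ℝ V : ℝ) - j) / Module.finrank ℝ V ≤ ∫ u, hf ρ u ∂ρ := by
  have hρ := h.us
  have := hρ.prob
  have h2 := h.hj
  have h3 := h.hjd
  have hjd : j < Module.finrank ℝ V := by omega
  have hN := nop_us hρ h.pos hjd
  have hk0 : (0 : ℝ) < (Module.finrank ℝ V : ℝ) - j := by
    have : (j : ℝ) < (Module.finrank ℝ V : ℝ) := by exact_mod_cast hjd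
    linarith
  have hm0 : 0 < mm (Module.finrank ℝ V - j) := mm_pos (by omega)
  have hpt : ∀ u : V, ‖u‖ = 1 → mm (Module.finrank ℝ V - j) * ((Module.finrank ℝ V : ℝ) - j) *
      ∫ x, ⟪x, u⟫ ^ 2 ∂ρ ≤ hf ρ u := by
    intro u hu
    have h4 := key h hu
    have h5 := nop_inner hρ h.pos hjd u u
    have h6 : ∫ x, ⟪x, u⟫ * ⟪x, u⟫ ∂(Nop j ρ) = ∫ x, ⟪x, u⟫ ^ 2 ∂ρ := by
      rw [← T_det hN hρ h.fix u]
      congr 1; ext x; ring
    rw [h6] at h5
    have hmr : Measurable (fun X : Fin j → V => rv X u) :=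
      (measurable_rv j).comp (measurable_id.prodMk measurable_const)
    have h7 : iw j ρ (fun X => ⟪rv X u, u⟫) ≤ iw j ρ (fun X => ‖rv X u‖) := by
      refine iw_mono hρ (hmr.inner_const) hmr.norm (C := 1) (fun X => ?_) (fun X => ?_) (fun X _ _ => ?_)
      · have h8 := rv_norm_le X u
        rw [hu] at h8
        rw [rv_inner, abs_of_nonneg (sq_nonneg _)]
        exact pow_le_one₀ (norm_nonneg _) h8
      · have h8 := rv_norm_le X u
        rw [hu] at h8
        rwa [abs_of_nonneg (norm_nonneg _)]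
      · have h8 := rv_norm_le X u
        rw [hu] at h8
        rw [rv_inner]
        nlinarith [norm_nonneg (rv X u)]
    refine le_of_mul_le_mul_left ?_ h.pos
    rw [h4]
    calc en j ρ * (mm (Module.finrank ℝ V - j) * ((Module.finrank ℝ V : ℝ) - j) * ∫ x, ⟪x, u⟫ ^ 2 ∂ρ)
        = mm (Module.finrank ℝ V - j) * (((Module.finrank ℝ V : ℝ) - j) * en j ρ * ∫ x, ⟪x, u⟫ ^ 2 ∂ρ) := by ring
      _ = mm (Module.finrank ℝ V - j) * iw j ρ (fun X => ⟪rv X u, u⟫) := by rw [h5]
      _ ≤ _ := mul_le_mul_of_nonneg_left h7 hm0.le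
  obtain ⟨h8, h9⟩ := mom hρ (by omega)
  calc mm (Module.finrank ℝ V - j) * ((Module.finrank ℝ V : ℝ) - j) / Module.finrank ℝ V
      = mm (Module.finrank ℝ V - j) * ((Module.finrank ℝ V : ℝ) - j) * (1 / Module.finrank ℝ V) := by ring
    _ ≤ mm (Module.finrank ℝ V - j) * ((Module.finrank ℝ V : ℝ) - j) * ∫ u, ∫ x, ⟪x, u⟫ ^ 2 ∂ρ ∂ρ :=
        mul_le_mul_of_nonneg_left h9 (mul_nonneg hm0.le hk0.le)
    _ = ∫ u, mm (Module.finrank ℝ V - j) * ((Module.finrank ℝ V : ℝ) - j) * ∫ x, ⟪x, u⟫ ^ 2 ∂ρ ∂ρ := by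
        rw [integral_const_mul]
    _ ≤ _ := by
        refine integral_mono_ae (h8.const_mul _) ?_ ?_
        · refine Integrable.of_bound (C := 1) (hf_sm hρ).aestronglyMeasurable ?_
          filter_upwards [hρ.unit] with u hu
          have := hf_bd hρ u
          rw [Real.norm_eq_abs, abs_of_nonneg this.1, ← hu]
          exact this.2
        · filter_upwards [hρ.unit] with u hu
          exact hpt u hu

theorem th_lower (h : Fx j ρ) :
    mm (Module.finrank ℝ V - j) * ((Module.finrank ℝ V : ℝ) - j) / (mm (Module.finrank ℝ V) * Module.finrank ℝ V) ≤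
      th ρ j := by
  have h2 := h.hj
  have h3 := h.hjd
  have hm := main h
  have hm1 : 0 < mm (Module.finrank ℝ V) := mm_pos (by omega)
  rw [th_j h, mul_comm (mm (Module.finrank ℝ V)) (Module.finrank ℝ V : ℝ), ← div_div]
  exact div_le_div_of_nonneg_right hm hm1.le

theorem en_succ_pos (h : Fx j ρ) : 0 < en (j + 1) ρ := by
  have h2 := h.hj
  have h3 := h.hjd
  have h4 := th_lower h
  have hm1 : 0 < mm (Module.finrank ℝ V) := mm_pos (by omega)
  have hm2 : 0 < mm (Module.finrank ℝ V - j) := mm_pos (by omega)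
  have hjd : j < Module.finrank ℝ V := by omega
  have hk0 : (0 : ℝ) < (Module.finrank ℝ V : ℝ) - j := by
    have : (j : ℝ) < (Module.finrank ℝ V : ℝ) := by exact_mod_cast hjd
    linarith
  have hd0 : (0 : ℝ) < (Module.finrank ℝ V : ℝ) := by
    have : 0 < Module.finrank ℝ V := by omega
    exact_mod_cast this
  have h5 : 0 < th ρ j := lt_of_lt_of_le (by positivity) h4
  have hc : 0 < cc (Module.finrank ℝ V) j := by
    unfold cc
    exact div_pos (mG_pos (by omega)) (mG_pos (by omega))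
  unfold th at h5
  have h6 := mul_pos h.pos hc
  by_contra hcon
  have h7 : en (j + 1) ρ / (en j ρ * cc (Module.finrank ℝ V) j) ≤ 0 :=
    div_nonpos_of_nonpos_of_nonneg (not_lt.1 hcon) h6.le
  linarith

end Pool.Agent.HRJ
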