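import Pool.Agent.HRJ.C1
import Pool.Agent.HRJ.D7b

/-!
# HRJ-D7: consequences of the fixed point equation

`d = finrank V`, `k = d - j`.  PROOF PLAN.
`key`: `nop_int` (PBL.D1) for `φ = |⟪., u⟫|` and `av_abs` (PBL.C3; `oc X` has dimension `k`: `finrank_oc`; `P_(oc X) u = rv X u`, `rv_eq`): `en j ρ * hf (Nop j ρ) u = mm k * iw j ρ (‖rv X u‖)`; use `Fx.fix`.
`th_j`: integrate `key` over `u ~ ρ` (Fubini): `en (j+1) ρ = iw j ρ (gW ρ (oc X))` (`en_succ`, PBL.D0); `mm k * cc d j = mm d`.  `Sn_j`: integrate `key` against `g` (Fubini, `iw` is an integral with the weight `wv`).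
`th_lower`: by `key` and `‖rv X u‖ ≥ ‖rv X u‖²` (`‖u‖ = 1`) `en j ρ * ∫ hf ρ u dρ ≥ mm k * iw j ρ (sW ρ (oc X)) = mm k * ∫ (iw j ρ (⟪rv X u, u⟫)) dρ(u) = mm k * k * en j ρ * ∫ ∫ ⟪x,u⟫² dNop dρ` (`nop_inner`), and
`∫ ⟪x,u⟫² dNop = ∫ ⟪x,u⟫² dρ` for all `u` (`T_det`, PBL.E7/E8, used in PBL/R2.lean), `∫ ∫ ⟪x,u⟫² dρ dρ ≥ 1/d` (orthonormal basis `b_i`: it is `∑_{i,l} (∫ ⟪x,b_i⟫ ⟪x,b_l⟫)² ≥ ∑_i (∫ ⟪x,b_i⟫²)² ≥ (∑_i ∫ ⟪x,b_i⟫²)²/d = 1/d`).
`th_one`, `Sn_one`: `en 1 ρ = 1`, `en 2 ρ = ∫ ∫ ‖ort x y‖` (`en_succ` / `iw_succ`, `wv` of one unit vector is 1, `rv (fun _ => x) a = ort x a`).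
`Sn_diff`: `Sn_one`, `Sn_j`, `ff_ort`, `ff_abs` and Fubini: `∫ (∫ ff ρ (2h) a ‖ort x a‖ dσ) dρ(x) = c_1 R T xx ρ (2h)`, `∫ ff ρ (2h) u hf ρ u dσ = mm d T xx ρ (2h)`; `lam d r = R T - T` at `h = 2(r+1)`.
-/

set_option autoImplicit false

namespace Pool.Agent.HRJ

open MeasureTheory ProbabilityTheory Set Filter Topology Metric
open Pool.Agent.HP89 Pool.Agent.FI75 Pool.Agent.PBL
open scoped RealInnerProductSpace ENNReal

variable {V : Type*} [NormedAddCommGroup V] [InnerProductSpace ℝ V] [FiniteDimensional ℝ V]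
  [MeasurableSpace V] [BorelSpace V]

variable {ρ : Measure V} {j : ℕ}

private theorem nrv {n : ℕ} (X : Fin n → V) (a : V) : ‖rv X a‖ ≤ ‖a‖ := norm_res_le _ _

private theorem wvp {n : ℕ} (x : Fin n → V) : wv x ≤ ∏ m, ‖x m‖ := by
  have h := wn_le_prod (List.ofFn x)
  rw [List.map_ofFn, List.prod_ofFn] at h
  exact h

private theorem gN_meas (hρ : US ρ) (N : ℕ) : Measurable (gN ρ N) := by
  unfold gN
  exact Finset.measurable_sum _ (fun r _ => ff_meas hρ (4 * (r + 1)))

private theorem gN_bdd (hρ : US ρ) (hV : 3 ≤ Module.finrank ℝ V) (N : ℕ) :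
    ∃ C : ℝ, ∀ u, |gN ρ N u| ≤ C := by
  refine ⟨∑ r ∈ Finset.range N, nN (Module.finrank ℝ V) (4 * (r + 1)), fun u => ?_⟩
  unfold gN
  refine (Finset.abs_sum_le_sum_abs _ _).trans (Finset.sum_le_sum fun r _ => ?_)
  exact ff_bdd hρ hV _ u

private theorem ms_int (hV : 1 ≤ Module.finrank ℝ V) : Integrable (fun a : V => ‖a‖) (ms (⊤ : Submodule ℝ V)) := by
  have := ms_prob (⊤ : Submodule ℝ V)
  have h1 : (fun _ : V => (1 : ℝ)) =ᵐ[ms (⊤ : Submodule ℝ V)] (fun a : V => ‖a‖) := by
    have hE : 1 ≤ Module.finrank ℝ (⊤ : Submodule ℝ V) := by rw [finrank_top]; exact hV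
    filter_upwards [ms_unit (⊤ : Submodule ℝ V) hE] with a ha
    exact ha.1.symm
  exact (integrable_const (1 : ℝ)).congr h1

private theorem fub {α : Type*} [MeasurableSpace α] {μ : Measure α} [SFinite μ] (hV : 1 ≤ Module.finrank ℝ V)
    {g : V → ℝ} (hg : Measurable g) {C : ℝ} (hC : ∀ a, |g a| ≤ C) {K : α → V → ℝ}
    (hK : Measurable (Function.uncurry K)) {B : α → ℝ} (hB : Integrable B μ)
    (hKB : ∀ x a, |K x a| ≤ B x * ‖a‖) :
    ∫ x, ∫ a, K x a * g a ∂(ms (⊤ : Submodule ℝ V)) ∂μ =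
      ∫ a, g a * ∫ x, K x a ∂μ ∂(ms (⊤ : Submodule ℝ V)) := by
  have := ms_prob (⊤ : Submodule ℝ V)
  have hC0 : 0 ≤ C := (abs_nonneg _).trans (hC 0)
  rw [integral_integral_swap]
  · refine integral_congr_ae (Eventually.of_forall fun a => ?_)
    simp only
    rw [integral_mul_const, mul_comm]
  · have h1 : Integrable (fun p : α × V => B p.1 * (C * ‖p.2‖)) (μ.prod (ms (⊤ : Submodule ℝ V))) :=
      hB.mul_prod ((ms_int hV).const_mul C)
    refine h1.mono' ?_ (Eventually.of_forall fun p => ?_)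
    · exact (hK.mul (hg.comp measurable_snd)).aestronglyMeasurable
    · simp only [Function.uncurry, norm_mul, Real.norm_eq_abs]
      calc |K p.1 p.2| * |g p.2| ≤ (B p.1 * ‖p.2‖) * C :=
            mul_le_mul (hKB _ _) (hC _) (abs_nonneg _) ((abs_nonneg _).trans (hKB _ _))
        _ = B p.1 * (C * ‖p.2‖) := by ring

private theorem sN_eq (hρ : US ρ) (hV : 1 ≤ Module.finrank ℝ V) (n : ℕ)
    {g : V → ℝ} (hg : Measurable g) {C : ℝ} (hC : ∀ a, |g a| ≤ C) :
    sN ρ n g = ∫ a, g a * iw n ρ (fun X => ‖rv X a‖) ∂(ms (⊤ : Submodule ℝ V)) := by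
  have := hρ.prob
  unfold sN iw
  have h1 := fub (μ := pp n ρ) hV hg hC (K := fun X a => wv X * ‖rv X a‖)
    (B := fun X => ∏ i, ‖X i‖) ?_ ?_ ?_
  · rw [← h1]
    refine integral_congr_ae (Eventually.of_forall fun X => ?_)
    simp only
    rw [← integral_const_mul]
    refine integral_congr_ae (Eventually.of_forall fun a => ?_)
    simp only
    ring
  · exact ((measurable_wv n).comp measurable_fst).mul (measurable_rv n).norm
  · refine Integrable.fintype_prod (f := fun (_ : Fin n) (x : V) => ‖x‖) (fun i => ?_)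
    exact (integrable_const (1 : ℝ)).congr (by filter_upwards [hρ.unit] with x hx using hx.symm)
  · intro X a
    have hw : 0 ≤ wv X := wn_nonneg _
    rw [abs_mul, abs_of_nonneg hw, abs_of_nonneg (norm_nonneg _)]
    exact mul_le_mul (wvp X) (nrv X a) (norm_nonneg _) (Finset.prod_nonneg fun i _ => norm_nonneg _)

private theorem rint (hρ : US ρ) : Integrable (fun x : V => ‖x‖) ρ := by
  have := hρ.prob
  exact (integrable_const (1 : ℝ)).congr (by filter_upwards [hρ.unit] with x hx using hx.symm)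

/-- the integral of the test function against the support function -/
private theorem g_hf (hρ : US ρ) (hV : 3 ≤ Module.finrank ℝ V) (N : ℕ) :
    ∫ a, gN ρ N a * hf ρ a ∂(ms (⊤ : Submodule ℝ V)) =
      mm (Module.finrank ℝ V) * ∑ r ∈ Finset.range N,
        tT (Module.finrank ℝ V) (2 * (r + 1)) * xx ρ (4 * (r + 1)) := by
  have := hρ.prob
  have := ms_prob (⊤ : Submodule ℝ V)
  obtain ⟨C, hC⟩ := gN_bdd hρ hV N
  have h1 := fub (μ := ρ) (by omega) (gN_meas hρ N) hC (K := fun x a => |⟪x, a⟫|)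
    (B := fun x => ‖x‖) ?_ (rint hρ) ?_
  · unfold hf
    rw [← h1]
    have h2 : (fun x : V => ∫ a, |⟪x, a⟫| * gN ρ N a ∂(ms (⊤ : Submodule ℝ V))) =ᵐ[ρ]
        (fun x : V => ∑ r ∈ Finset.range N,
          mm (Module.finrank ℝ V) * tT (Module.finrank ℝ V) (2 * (r + 1)) * ff ρ (4 * (r + 1)) x) := by
      filter_upwards [hρ.unit] with x hx
      unfold gN
      simp_rw [Finset.mul_sum]
      rw [integral_finsetSum]
      · refine Finset.sum_congr rfl fun r _ => ?_
        have h3 := ff_abs hρ hV hx (2 * (r + 1))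
        have h4 : 2 * (2 * (r + 1)) = 4 * (r + 1) := by ring
        rw [h4] at h3
        rw [← h3]
        refine integral_congr_ae (Eventually.of_forall fun a => ?_)
        simp only
        rw [real_inner_comm]
      · intro r _
        have h5 := (ms_int (V := V) (by omega)).mul_const (nN (Module.finrank ℝ V) (4 * (r + 1)))
        refine h5.mono' ?_ (Eventually.of_forall fun a => ?_)
        · exact ((measurable_const.inner measurable_id).abs.mul (ff_meas hρ _)).aestronglyMeasurable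
        · rw [norm_mul, Real.norm_eq_abs, Real.norm_eq_abs, abs_abs]
          refine mul_le_mul ?_ (ff_bdd hρ hV _ a) (abs_nonneg _) (norm_nonneg _)
          have := abs_real_inner_le_norm x a
          rwa [hx, one_mul] at this
    rw [integral_congr_ae h2, integral_finsetSum, Finset.mul_sum]
    · refine Finset.sum_congr rfl fun r _ => ?_
      rw [integral_const_mul]
      unfold xx
      ring
    · intro r _
      refine Integrable.const_mul ?_ _
      exact (integrable_const (nN (Module.finrank ℝ V) (4 * (r + 1)))).mono'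
        (ff_meas hρ _).aestronglyMeasurable (Eventually.of_forall fun a => ff_bdd hρ hV _ a)
  · exact (measurable_fst.inner measurable_snd).abs
  · intro x a
    rw [abs_abs]
    exact abs_real_inner_le_norm x a

private theorem g_ort (hρ : US ρ) (hV : 3 ≤ Module.finrank ℝ V) (N : ℕ) :
    ∫ a, gN ρ N a * ∫ x, ‖ort x a‖ ∂ρ ∂(ms (⊤ : Submodule ℝ V)) =
      cc (Module.finrank ℝ V) 1 * ∑ r ∈ Finset.range N,
        (rR (Module.finrank ℝ V) (2 * (r + 1)) * tT (Module.finrank ℝ V) (2 * (r + 1))) *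
          xx ρ (4 * (r + 1)) := by
  have := hρ.prob
  have := ms_prob (⊤ : Submodule ℝ V)
  obtain ⟨C, hC⟩ := gN_bdd hρ hV N
  have h1 := fub (μ := ρ) (by omega) (gN_meas hρ N) hC (K := fun x a => ‖ort x a‖)
    (B := fun _ => 1) ?_ (integrable_const _) ?_
  · rw [← h1]
    have h2 : (fun x : V => ∫ a, ‖ort x a‖ * gN ρ N a ∂(ms (⊤ : Submodule ℝ V))) =ᵐ[ρ]
        (fun x : V => ∑ r ∈ Finset.range N,
          cc (Module.finrank ℝ V) 1 * (rR (Module.finrank ℝ V) (2 * (r + 1)) *
            tT (Module.finrank ℝ V) (2 * (r + 1))) * ff ρ (4 * (r + 1)) x) := by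
      filter_upwards [hρ.unit] with x hx
      unfold gN
      simp_rw [Finset.mul_sum]
      rw [integral_finsetSum]
      · refine Finset.sum_congr rfl fun r _ => ?_
        have h3 := ff_ort hρ hV hx (2 * (r + 1))
        have h4 : 2 * (2 * (r + 1)) = 4 * (r + 1) := by ring
        rw [h4] at h3
        rw [← h3]
      · intro r _
        have h5 := (ms_int (V := V) (by omega)).mul_const (nN (Module.finrank ℝ V) (4 * (r + 1)))
        refine h5.mono' ?_ (Eventually.of_forall fun a => ?_)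
        · exact ((measurable_ort.comp (measurable_const.prodMk measurable_id)).norm.mul
            (ff_meas hρ _)).aestronglyMeasurable
        · rw [norm_mul, Real.norm_eq_abs, Real.norm_eq_abs, abs_norm]
          exact mul_le_mul (norm_ort_le x a) (ff_bdd hρ hV _ a) (abs_nonneg _) (norm_nonneg _)
    rw [integral_congr_ae h2, integral_finsetSum, Finset.mul_sum]
    · refine Finset.sum_congr rfl fun r _ => ?_
      rw [integral_const_mul]
      unfold xx
      ring
    · intro r _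
      refine Integrable.const_mul ?_ _
      exact (integrable_const (nN (Module.finrank ℝ V) (4 * (r + 1)))).mono'
        (ff_meas hρ _).aestronglyMeasurable (Eventually.of_forall fun a => ff_bdd hρ hV _ a)
  · exact measurable_ort.norm
  · intro x a
    rw [abs_norm, one_mul]
    exact norm_ort_le x a

private theorem iw_zero (ρ : Measure V) [IsProbabilityMeasure ρ] (Φ : (Fin 0 → V) → ℝ) : iw 0 ρ Φ = Φ ![] := by
  unfold iw
  have h0 : ∀ X : Fin 0 → V, X = ![] := fun X => Subsingleton.elim _ _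
  have h1 : (fun X : Fin 0 → V => wv X * Φ X) = fun _ => Φ ![] := by
    funext X
    rw [h0 X]
    have : wv (![] : Fin 0 → V) = 1 := by
      unfold wv
      simp [wn]
    rw [this, one_mul]
  rw [h1]
  simp

private theorem rv_zero (a : V) : rv (![] : Fin 0 → V) a = a := by
  unfold rv
  simp [res]

private theorem iw_one (hρ : US ρ) (a : V) : iw 1 ρ (fun X => ‖rv X a‖) = ∫ x, ‖ort x a‖ ∂ρ := by
  have := hρ.prob
  have h1 := iw_succ hρ (n := 0) (Φ := fun X => ‖rv X a‖) (C := ‖a‖)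
    (((measurable_rv 1).comp (measurable_id.prodMk measurable_const)).norm)
    (fun X => by rw [abs_norm]; exact nrv X a)
  refine h1.trans ?_
  rw [iw_zero]
  refine integral_congr_ae ?_
  filter_upwards [hρ.unit] with x hx
  rw [rv_cons, rv_zero, rv_zero, hx, one_mul]

private theorem en_one (hρ : US ρ) : en 1 ρ = 1 := by
  have := hρ.prob
  have h1 := iw_succ hρ (n := 0) (Φ := fun _ => (1 : ℝ)) (C := 1) measurable_const (fun X => by simp)
  rw [iw_const, iw_zero, one_mul] at h1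
  refine h1.trans ?_
  have h2 : (fun x : V => ‖rv (![] : Fin 0 → V) x‖ * 1) =ᵐ[ρ] fun _ => 1 := by
    filter_upwards [hρ.unit] with x hx
    rw [rv_zero, hx, one_mul]
  rw [integral_congr_ae h2]
  simp

theorem Sn_diff (h : Fx j ρ) (N : ℕ) : Sn ρ 1 (gN ρ N) - Sn ρ j (gN ρ N) = AN ρ N := by
  have hρ := h.us
  have := hρ.prob
  have := ms_prob (⊤ : Submodule ℝ V)
  have hj := h.hj
  have hjd := h.hjd
  have hV : 3 ≤ Module.finrank ℝ V := by omega
  have hV1 : 1 ≤ Module.finrank ℝ V := by omega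
  obtain ⟨C, hC⟩ := gN_bdd hρ hV N
  have hm := gN_meas hρ N
  have hmG : ∀ k : ℕ, 1 ≤ k → 0 < mG k := fun k hk => by
    have := mm_pos hk
    unfold mm at this
    by_contra hcon
    push Not at hcon
    have h2 : √(2 / Real.pi) / mG k ≤ 0 := div_nonpos_of_nonneg_of_nonpos (Real.sqrt_nonneg _) hcon
    linarith
  -- degree one
  have hS1 : Sn ρ 1 (gN ρ N) = ∑ r ∈ Finset.range N,
        (rR (Module.finrank ℝ V) (2 * (r + 1)) * tT (Module.finrank ℝ V) (2 * (r + 1))) *
          xx ρ (4 * (r + 1)) := by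
    unfold Sn
    rw [sN_eq hρ hV1 1 hm hC, en_one hρ, mul_one]
    simp_rw [iw_one hρ]
    rw [g_ort hρ hV N]
    have hc : cc (Module.finrank ℝ V) 1 ≠ 0 := by
      unfold cc
      exact div_ne_zero (hmG _ (by omega)).ne' (hmG _ (by omega)).ne'
    exact mul_div_cancel_left₀ _ hc
  have hSj : Sn ρ j (gN ρ N) = ∑ r ∈ Finset.range N,
        tT (Module.finrank ℝ V) (2 * (r + 1)) * xx ρ (4 * (r + 1)) := by
    unfold Sn
    rw [sN_eq hρ hV1 j hm hC]
    have hmk : 0 < mm (Module.finrank ℝ V - j) := mm_pos (by omega)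
    have hmd : 0 < mm (Module.finrank ℝ V) := mm_pos (by omega)
    have h1 : (fun a => gN ρ N a * iw j ρ (fun X => ‖rv X a‖)) =ᵐ[ms (⊤ : Submodule ℝ V)]
        (fun a => en j ρ / mm (Module.finrank ℝ V - j) * (gN ρ N a * hf ρ a)) := by
      have hE : 1 ≤ Module.finrank ℝ (⊤ : Submodule ℝ V) := by rw [finrank_top]; exact hV1
      filter_upwards [ms_unit (⊤ : Submodule ℝ V) hE] with a ha
      have hk := key h ha.1
      have : iw j ρ (fun X => ‖rv X a‖) = en j ρ * hf ρ a / mm (Module.finrank ℝ V - j) := by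
        rw [hk]; field_simp
      rw [this]
      ring
    rw [integral_congr_ae h1, integral_const_mul, g_hf hρ hV N]
    have hcc : mm (Module.finrank ℝ V - j) * cc (Module.finrank ℝ V) j = mm (Module.finrank ℝ V) := by
      unfold mm cc
      have h2 := (hmG (Module.finrank ℝ V - j) (by omega)).ne'
      have h3 := (hmG (Module.finrank ℝ V) (by omega)).ne'
      field_simp
    have he := h.pos.ne'
    have hc : cc (Module.finrank ℝ V) j ≠ 0 := by
      unfold cc
      exact div_ne_zero (hmG _ (by omega)).ne' (hmG _ (by omega)).ne'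
    rw [← hcc]
    field_simp
  rw [hS1, hSj]
  unfold AN lam
  rw [← Finset.sum_sub_distrib]
  refine Finset.sum_congr rfl fun r _ => ?_
  ring

end Pool.Agent.HRJ
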