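import Pool.Agent.HRJ.B1
import Pool.Agent.HRJ.D5
import Pool.Agent.PBL.D1
import Pool.Agent.PBL.E6
import Pool.Agent.PBL.E7
import Pool.Agent.PBL.E8

/-!
# HRJ-D7a: consequences of the fixed point equation

`d = finrank V`, `k = d - j`.
`key`: the support function of `Nop j ρ` is the mean of the norms `‖rv X u‖` (`nop_int`, `av_abs`), and it is `hf ρ`.
`th_j`: integrate `key` over `u ~ ρ` (Fubini) and use `en_succ`.
`th_one`: `en 1 ρ = 1`, `en 2 ρ = ∫ ∫ ‖ort x y‖`.
-/

set_option autoImplicit false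

namespace Pool.Agent.HRJ

open MeasureTheory ProbabilityTheory Set Filter Topology Metric
open Pool.Agent.HP89 Pool.Agent.FI75 Pool.Agent.PBL
open scoped RealInnerProductSpace ENNReal

variable {V : Type*} [NormedAddCommGroup V] [InnerProductSpace ℝ V] [FiniteDimensional ℝ V]
  [MeasurableSpace V] [BorelSpace V]

variable {ρ : Measure V} {j : ℕ}

theorem key (h : Fx j ρ) {u : V} (hu : ‖u‖ = 1) :
    en j ρ * hf ρ u = mm (Module.finrank ℝ V - j) * iw j ρ (fun X => ‖rv X u‖) := by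
  have hjd := h.hjd
  have hj := h.hj
  have hm : Measurable (fun x : V => |⟪x, u⟫|) := by fun_prop
  have h1 := nop_int h.us h.pos (φ := fun x : V => |⟪x, u⟫|) hm (C := 1) (fun x hx => by
    rw [abs_abs]
    calc |⟪x, u⟫| ≤ ‖x‖ * ‖u‖ := abs_real_inner_le_norm x u
      _ ≤ 1 := by rw [hu, mul_one]; exact hx)
  rw [← h.fix u hu]
  have h2 : hf (Nop j ρ) u = ∫ x, |⟪x, u⟫| ∂(Nop j ρ) := rfl
  rw [h2, h1]
  unfold iw
  rw [← integral_const_mul]
  congr 1
  funext X
  show wv X * av (oc X) (fun x => |⟪x, u⟫|) = mm (Module.finrank ℝ V - j) * (wv X * ‖rv X u‖)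
  by_cases hX : wv X = 0
  · rw [hX]
    ring
  · have h3 := finrank_oc hX
    have h4 : 1 ≤ Module.finrank ℝ (oc X) := by omega
    have h5 := av_abs (oc X) h4 u
    have h6 : Module.finrank ℝ (oc X) = Module.finrank ℝ V - j := by omega
    rw [h6] at h5
    have h7 : 0 < mG (Module.finrank ℝ V - j) := mG_pos (by omega)
    have h8 : av (oc X) (fun x => |⟪x, u⟫|) = mm (Module.finrank ℝ V - j) * ‖rv X u‖ := by
      rw [rv_eq, mm, div_mul_eq_mul_div, eq_div_iff h7.ne', mul_comm]
      exact h5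
    rw [h8]
    ring

omit [MeasurableSpace V] [BorelSpace V] in
private theorem rv_le (n : ℕ) (X : Fin n → V) (x : V) : ‖rv X x‖ ≤ ‖x‖ := by
  rw [rv_eq]
  exact Submodule.norm_starProjection_apply_le _ _

/-- Fubini. -/
private theorem swap_iw (hρ : US ρ) (n : ℕ) :
    ∫ u, iw n ρ (fun X => ‖rv X u‖) ∂ρ = iw n ρ (fun X => gW ρ (oc X)) := by
  have := hρ.prob
  have hint : Integrable (fun p : V × (Fin n → V) => wv p.2 * ‖rv p.2 p.1‖) (ρ.prod (pp n ρ)) := by
    refine Integrable.of_bound (C := 1) ?_ ?_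
    · exact (((measurable_wv n).comp measurable_snd).mul
        (((measurable_rv n).comp (measurable_snd.prodMk measurable_fst)).norm)).aestronglyMeasurable
    · have h1 : ∀ᵐ p : V × (Fin n → V) ∂(ρ.prod (pp n ρ)), 0 ≤ wv p.2 ∧ wv p.2 ≤ 1 :=
        Measure.quasiMeasurePreserving_snd.ae (ae_wv_le hρ n)
      have h2 : ∀ᵐ p : V × (Fin n → V) ∂(ρ.prod (pp n ρ)), ‖p.1‖ = 1 :=
        Measure.quasiMeasurePreserving_fst.ae hρ.unit
      filter_upwards [h1, h2] with p hp1 hp2
      rw [Real.norm_eq_abs, abs_of_nonneg (mul_nonneg hp1.1 (norm_nonneg _))]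
      have h3 := rv_le n p.2 p.1
      rw [hp2] at h3
      calc wv p.2 * ‖rv p.2 p.1‖ ≤ 1 * 1 := mul_le_mul hp1.2 h3 (norm_nonneg _) zero_le_one
        _ = 1 := one_mul 1
  unfold iw
  rw [integral_integral_swap hint]
  congr 1
  funext X
  rw [integral_const_mul]
  unfold gW
  simp only [rv_eq]

theorem th_j (h : Fx j ρ) : th ρ j = (∫ u, hf ρ u ∂ρ) / mm (Module.finrank ℝ V) := by
  have hjd := h.hjd
  have hj := h.hj
  have h1 : ∫ u, en j ρ * hf ρ u ∂ρ = ∫ u, mm (Module.finrank ℝ V - j) * iw j ρ (fun X => ‖rv X u‖) ∂ρ := by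
    apply integral_congr_ae
    filter_upwards [h.us.unit] with u hu
    exact key h hu
  rw [integral_const_mul, integral_const_mul, swap_iw h.us, ← en_succ h.us] at h1
  have h7 : 0 < mG (Module.finrank ℝ V - j) := mG_pos (by omega)
  have h8 : 0 < mG (Module.finrank ℝ V) := mG_pos (by omega)
  have h9 : (0 : ℝ) < √(2 / Real.pi) := Real.sqrt_pos.2 (by positivity)
  have h10 := h.pos
  unfold th cc mm
  unfold mm at h1
  rw [div_eq_div_iff (by positivity) (by positivity)]
  field_simp at h1 ⊢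
  linear_combination (-1) * h1

theorem th_one (h : Fx j ρ) : th ρ 1 = (∫ x, ∫ y, ‖ort x y‖ ∂ρ ∂ρ) / cc (Module.finrank ℝ V) 1 := by
  have hρ := h.us
  have := hρ.prob
  have hoc0 : ∀ X : Fin 0 → V, oc X = ⊤ := by
    intro X
    unfold oc
    simp
  have e0 : ∀ Φ : (Fin 0 → V) → ℝ, iw 0 ρ Φ = Φ (fun i => i.elim0) := by
    intro Φ
    unfold iw
    have h1 : ∀ X : Fin 0 → V, wv X * Φ X = Φ (fun i => i.elim0) := by
      intro X
      have h2 : X = fun i => i.elim0 := by
        funext i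
        exact i.elim0
      rw [h2]
      have h3 : wv (fun i : Fin 0 => (i.elim0 : V)) = 1 := by
        unfold wv
        simp
      rw [h3, one_mul]
    simp only [h1]
    rw [integral_const]
    simp
  have e1 : en 1 ρ = 1 := by
    rw [en_succ hρ 0, e0, hoc0]
    unfold gW
    have h1 : ∫ x, ‖(⊤ : Submodule ℝ V).starProjection x‖ ∂ρ = ∫ _x, (1 : ℝ) ∂ρ := by
      apply integral_congr_ae
      filter_upwards [hρ.unit] with x hx
      show ‖(⊤ : Submodule ℝ V).starProjection x‖ = 1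
      rw [Submodule.starProjection_top, ContinuousLinearMap.id_apply, hx]
    rw [h1, integral_const]
    simp
  have e2 : en 2 ρ = ∫ x, ∫ y, ‖ort x y‖ ∂ρ ∂ρ := by
    rw [en_succ hρ 1]
    have hg : ∀ X : Fin 1 → V, 0 ≤ gW ρ (oc X) := fun X => integral_nonneg fun _ => norm_nonneg _
    have hg1 : ∀ X : Fin 1 → V, gW ρ (oc X) ≤ 1 := by
      intro X
      unfold gW
      have h1 : ∫ x, ‖(oc X).starProjection x‖ ∂ρ ≤ ∫ _x, (1 : ℝ) ∂ρ := by
        refine integral_mono_of_nonneg (ae_of_all _ fun x => norm_nonneg _) (integrable_const _) ?_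
        filter_upwards [hρ.unit] with x hx
        rw [← hx]
        exact Submodule.norm_starProjection_apply_le _ _
      rw [integral_const] at h1
      simpa using h1
    have h2 := iw_succ hρ (n := 0) (Φ := fun X : Fin 1 → V => gW ρ (oc X)) (meas_gW ρ) (C := 1) (fun X => by
      rw [abs_of_nonneg (hg X)]
      exact hg1 X)
    have h3 : iw 1 ρ (fun X : Fin 1 → V => gW ρ (oc X)) =
        iw 0 ρ (fun X => ∫ x, ‖rv X x‖ * gW ρ (oc (Fin.cons x X : Fin 1 → V)) ∂ρ) := h2
    rw [h3, e0]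
    apply integral_congr_ae
    filter_upwards [hρ.unit] with x hx
    have h4 : ∀ y : V, rv (fun i : Fin 0 => (i.elim0 : V)) y = y := by
      intro y
      unfold rv
      simp
    rw [h4, hx, one_mul]
    unfold gW
    congr 1
    funext y
    rw [← rv_eq, rv_cons, h4, h4]
  unfold th
  rw [e1, e2, one_mul]

end Pool.Agent.HRJ
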