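import Pool.Agent.HRJ.D8a

/-!
# HRJ-D8: smoothing with the kernel `t^(2M)`

PROOF PLAN.  `W = EuclideanSpace ℝ (Fin d)`, `s_M(t) = t^(2M) / ∫ s^(2M) dν_d` (positive denominator).  `F_M(u,v) = ∫ s_M ⟪u,w⟫ F ⟪w,v⟫ d(ms ⊤)(w)`.
(1) `F_M(u,v) = ∑_{h ≤ M} ws d M h mu d (2h) F gK d (2h) ⟪u,v⟫`: `pow_expand` for `⟪u,w⟫`, `fh` (`f = F`; `F` is bounded on [-1,1]).
(2) `|F_M(u,v) - F ⟪u,v⟫| ≤ ∫ s_M ⟪u,w⟫ |F ⟪w,v⟫ - F ⟪u,v⟫|` (`∫ s_M ⟪u,w⟫ d(ms ⊤) = 1`, `ms_inner`).  `F` is uniformly continuous on [-1,1] and even: `| |⟪w,v⟫| - |⟪u,v⟫| | ≤ min(‖w-u‖, ‖w+u‖) = √(2 - 2|⟪u,w⟫|)`, so the integrand is small if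
`|⟪u,w⟫| ≥ 1 - δ`, and `∫_{|t| < 1-δ} s_M dν → 0`: `≤ (1-δ)^(2M) / ∫ t^(2M) dν`, `∫ t^(2M) dν ≥ (1-δ/2)^(2M) ν{|t| ≥ 1-δ/2}`, where `ν{|t| ≥ 1-δ/2} > 0` (from the definition of `nu`: the event contains `x > R ‖y‖`, an
open set nonempty, or: Gaussian measures charge open sets).
`ws_nonneg`: `mu_pow_nonneg`.  `ws_le_one`: `gP_abs_le`.  `ws_tendsto`: `smooth` for `F = gP d (2h)` (restricted: it is even and continuous) at `t = 1`: `mu_gK`-orthogonality leaves only the term `h`: the sum is `ws d M h gP d (2h) 1 = ws d M h` for `M ≥ h`.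
-/

set_option autoImplicit false

namespace Pool.Agent.HRJ

open MeasureTheory ProbabilityTheory Set Filter Topology Metric
open Pool.Agent.HP89 Pool.Agent.FI75 Pool.Agent.PBL
open scoped RealInnerProductSpace ENNReal

theorem ws_tendsto {d : ℕ} (hd : 3 ≤ d) (h : ℕ) : Tendsto (fun M => ws d M h) atTop (𝓝 1) := by
  have heven : ∀ t, gP d (2 * h) (-t) = gP d (2 * h) t := by
    intro t
    rw [gP_neg, Even.neg_one_pow (even_two_mul h), one_mul]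
  rw [Metric.tendsto_atTop]
  intro ε hε
  obtain ⟨M0, hM0⟩ := smooth hd (F := gP d (2 * h)) (continuous_gP d (2 * h)) heven
    (ε := ε / 2) (by linarith)
  refine ⟨max M0 h, fun M hM => ?_⟩
  have h1 := hM0 M (le_trans (le_max_left _ _) hM) 1 (by simp)
  have hMh : h ≤ M := le_trans (le_max_right _ _) hM
  rw [Finset.sum_eq_single h] at h1
  · have h2 : mu d (2 * h) (gP d (2 * h)) * gK d (2 * h) 1 = 1 := by
      have h3 : mu d (2 * h) (gP d (2 * h)) = 1 / nN d (2 * h) := nu_norm hd (2 * h)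
      have h4 := nN_pos hd (2 * h)
      rw [h3, gK, gP_one_val hd, mul_one, one_div, inv_mul_cancel₀ h4.ne']
    rw [h2, mul_one, gP_one_val hd] at h1
    rw [Real.dist_eq, abs_sub_comm]
    linarith
  · intro k _ hk
    have : mu d (2 * k) (gP d (2 * h)) = 0 := nu_orth hd (by omega)
    rw [this]
    ring
  · intro hk
    exact absurd (Finset.mem_range.2 (by omega)) hk

end Pool.Agent.HRJ
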