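import Pool.Agent.HRJ.B5

/-!
# HRJ-D8a: smoothing with the kernel `t^(2M)`

PROOF PLAN.  `W = EuclideanSpace ℝ (Fin d)`, `s_M(t) = t^(2M) / ∫ s^(2M) dν_d` (positive denominator).  `F_M(u,v) = ∫ s_M ⟪u,w⟫ F ⟪w,v⟫ d(ms ⊤)(w)`.
(1) `F_M(u,v) = ∑_{h ≤ M} ws d M h mu d (2h) F gK d (2h) ⟪u,v⟫`: `pow_expand` for `⟪u,w⟫`, `fh` (`f = F`; `F` is bounded on [-1,1]).
(2) `|F_M(u,v) - F ⟪u,v⟫| ≤ ∫ s_M ⟪u,w⟫ |F ⟪w,v⟫ - F ⟪u,v⟫|` (`∫ s_M ⟪u,w⟫ d(ms ⊤) = 1`, `ms_inner`).  `F` is uniformly continuous on [-1,1] and even: `| |⟪w,v⟫| - |⟪u,v⟫| | ≤ min(‖w-u‖, ‖w+u‖) = √(2 - 2|⟪u,w⟫|)`, so the integrand is small if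
`|⟪u,w⟫| ≥ 1 - δ`, and `∫_{|t| < 1-δ} s_M dν → 0`: `≤ (1-δ)^(2M) / ∫ t^(2M) dν`, `∫ t^(2M) dν ≥ (1-δ/2)^(2M) ν{|t| ≥ 1-δ/2}`, where `ν{|t| ≥ 1-δ/2} > 0` (from the definition of `nu`: the event contains `x > R ‖y‖`, an
open set nonempty, or: Gaussian measures charge open sets).
`ws_nonneg`: `mu_pow_nonneg`.  `ws_le_one`: `gP_abs_le`.  `ws_tendsto`: `smooth` for `F = gP d (2h)` (restricted: it is even and continuous) at `t = 1`: `mu_gK`-orthogonality leaves only the term `h`: the sum is `ws d M h gP d (2h) 1 = ws d M h` for `M ≥ h`.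
-/

set_option autoImplicit false

namespace Pool.Agent.HRJ

open MeasureTheory ProbabilityTheory Set Filter Topology Metric
open Pool.Agent.HP89 Pool.Agent.FI75 Pool.Agent.PBL
open scoped RealInnerProductSpace ENNReal

private theorem D8a_fr (d : ℕ) : Module.finrank ℝ (⊤ : Submodule ℝ (EuclideanSpace ℝ (Fin d))) = d := by
  rw [finrank_top, finrank_euclideanSpace_fin]

private theorem D8a_unit {d : ℕ} (hd : 3 ≤ d) :
    ∀ᵐ w ∂(ms (⊤ : Submodule ℝ (EuclideanSpace ℝ (Fin d)))), ‖w‖ = 1 := by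
  have h := ms_unit (⊤ : Submodule ℝ (EuclideanSpace ℝ (Fin d))) (by rw [D8a_fr]; omega)
  filter_upwards [h] with w hw using hw.1

private theorem D8a_int {d : ℕ} (hd : 3 ≤ d) {g : EuclideanSpace ℝ (Fin d) → ℝ} (hg : Continuous g) :
    Integrable g (ms (⊤ : Submodule ℝ (EuclideanSpace ℝ (Fin d)))) := by
  have hpr := ms_prob (⊤ : Submodule ℝ (EuclideanSpace ℝ (Fin d)))
  obtain ⟨C, hC⟩ := (isCompact_closedBall (0 : EuclideanSpace ℝ (Fin d)) 1).exists_bound_of_continuousOn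
    hg.continuousOn
  refine Integrable.of_bound hg.aestronglyMeasurable C ?_
  filter_upwards [D8a_unit hd] with w hw
  exact hC w (by simp [hw])

private theorem D8a_map {d : ℕ} (hd : 3 ≤ d) {v : EuclideanSpace ℝ (Fin d)} (hv : ‖v‖ = 1) :
    (ms (⊤ : Submodule ℝ (EuclideanSpace ℝ (Fin d)))).map (fun w => ⟪w, v⟫) = nu d := by
  have h := ms_inner (E := (⊤ : Submodule ℝ (EuclideanSpace ℝ (Fin d)))) (v := v) Submodule.mem_top hv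
    (by rw [D8a_fr]; omega)
  rw [D8a_fr] at h
  exact h

private theorem D8a_cap {d : ℕ} (hd : 3 ≤ d) {v : EuclideanSpace ℝ (Fin d)} (hv : ‖v‖ = 1) (a : ℝ) :
    ms (⊤ : Submodule ℝ (EuclideanSpace ℝ (Fin d))) ((fun w => ⟪w, v⟫) ⁻¹' (Ioi a)) = nu d (Ioi a) := by
  rw [← D8a_map hd hv, Measure.map_apply (by fun_prop) measurableSet_Ioi]

private theorem D8a_pos {d : ℕ} (hd : 3 ≤ d) {a : ℝ} (ha : a < 1) : 0 < (nu d).real (Ioi a) := by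
  have hpr := nu_prob d
  have hpr2 := ms_prob (⊤ : Submodule ℝ (EuclideanSpace ℝ (Fin d)))
  by_contra hcon
  have h0 : nu d (Ioi a) = 0 := by
    have h1 : (nu d).real (Ioi a) = 0 := le_antisymm (not_lt.1 hcon) measureReal_nonneg
    rwa [measureReal_eq_zero_iff] at h1
  have h2 : ms (⊤ : Submodule ℝ (EuclideanSpace ℝ (Fin d))) (sphere 0 1) = 0 := by
    refine (isCompact_sphere _ _).measure_zero_of_nhdsWithin fun v hv => ?_
    have hv1 : ‖v‖ = 1 := by simpa using hv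
    refine ⟨(fun w => ⟪w, v⟫) ⁻¹' (Ioi a), ?_, ?_⟩
    · refine mem_nhdsWithin_of_mem_nhds ?_
      refine (isOpen_Ioi.preimage (by fun_prop)).mem_nhds ?_
      rw [mem_preimage, mem_Ioi, real_inner_self_eq_norm_sq, hv1]
      linarith
    · rw [D8a_cap hd hv1, h0]
  have h3 : ms (⊤ : Submodule ℝ (EuclideanSpace ℝ (Fin d))) (sphere 0 1)ᶜ = 0 := by
    have h4 : ∀ᵐ w ∂(ms (⊤ : Submodule ℝ (EuclideanSpace ℝ (Fin d)))), w ∈ sphere (0 : EuclideanSpace ℝ (Fin d)) 1 := by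
      filter_upwards [D8a_unit hd] with w hw
      simpa using hw
    exact h4
  have h4 : ms (⊤ : Submodule ℝ (EuclideanSpace ℝ (Fin d))) univ = 0 := by
    rw [← union_compl_self (sphere (0 : EuclideanSpace ℝ (Fin d)) 1)]
    exact measure_union_null h2 h3
  rw [measure_univ] at h4
  exact one_ne_zero h4

private theorem D8a_den (d M : ℕ) : mu d 0 (fun t => t ^ (2 * M)) = ∫ t, t ^ (2 * M) ∂(nu d) := by
  rw [mu]
  simp only [gP_zero, mul_one]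

private theorem D8a_ip (d M : ℕ) : Integrable (fun t : ℝ => t ^ (2 * M)) (nu d) := by
  refine integrable_nu (C := 1) (by fun_prop) (fun t ht => ?_)
  rw [abs_pow]
  exact pow_le_one₀ (abs_nonneg _) ht

private theorem D8a_low (d M : ℕ) {a : ℝ} (ha : 0 ≤ a) :
    a ^ (2 * M) * (nu d).real (Ioi a) ≤ ∫ t, t ^ (2 * M) ∂(nu d) := by
  have hpr := nu_prob d
  refine le_trans ?_ (mul_meas_ge_le_integral_of_nonneg (Eventually.of_forall fun t => ?_) (D8a_ip d M)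
    (a ^ (2 * M)))
  · refine mul_le_mul_of_nonneg_left (measureReal_mono fun t ht => ?_) (by positivity)
    exact pow_le_pow_left₀ ha (le_of_lt ht) _
  · exact (even_two_mul M).pow_nonneg t

private theorem D8a_dpos {d : ℕ} (hd : 3 ≤ d) (M : ℕ) : 0 < ∫ t, t ^ (2 * M) ∂(nu d) := by
  refine lt_of_lt_of_le ?_ (D8a_low d M (a := 1 / 2) (by norm_num))
  have h := D8a_pos hd (a := 1 / 2) (by norm_num)
  positivity

private theorem D8a_exp {d : ℕ} (hd : 3 ≤ d) {F : ℝ → ℝ} (hF : Continuous F) (M : ℕ)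
    {u v : EuclideanSpace ℝ (Fin d)} (hu : ‖u‖ = 1) (hv : ‖v‖ = 1) :
    ∫ w, ⟪u, w⟫ ^ (2 * M) * F ⟪w, v⟫ ∂(ms (⊤ : Submodule ℝ (EuclideanSpace ℝ (Fin d)))) =
      ∑ h ∈ Finset.range (M + 1), mu d (2 * h) (fun t => t ^ (2 * M)) *
        (mu d (2 * h) F * gK d (2 * h) ⟪u, v⟫) := by
  obtain ⟨C, hC⟩ := isCompact_Icc.exists_bound_of_continuousOn (s := Icc (-1 : ℝ) 1) hF.continuousOn
  have h1 : ∀ w : EuclideanSpace ℝ (Fin d), ⟪u, w⟫ ^ (2 * M) * F ⟪w, v⟫ =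
      ∑ h ∈ Finset.range (M + 1), mu d (2 * h) (fun t => t ^ (2 * M)) * nN d (2 * h) *
        (F ⟪w, v⟫ * gP d (2 * h) ⟪u, w⟫) := by
    intro w
    rw [pow_expand hd M ⟪u, w⟫, Finset.sum_mul]
    refine Finset.sum_congr rfl fun h _ => ?_
    rw [gK]
    ring
  have h3 : ∫ w, ⟪u, w⟫ ^ (2 * M) * F ⟪w, v⟫ ∂(ms (⊤ : Submodule ℝ (EuclideanSpace ℝ (Fin d)))) =
      ∫ w, (∑ h ∈ Finset.range (M + 1), mu d (2 * h) (fun t => t ^ (2 * M)) * nN d (2 * h) *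
        (F ⟪w, v⟫ * gP d (2 * h) ⟪u, w⟫)) ∂(ms (⊤ : Submodule ℝ (EuclideanSpace ℝ (Fin d)))) :=
    integral_congr_ae (Eventually.of_forall h1)
  rw [h3, integral_finsetSum]
  · refine Finset.sum_congr rfl fun h _ => ?_
    rw [integral_const_mul]
    have h2 := fh (E := (⊤ : Submodule ℝ (EuclideanSpace ℝ (Fin d)))) (by rw [D8a_fr]; exact hd) (u := u)
      Submodule.mem_top hu (v := v) Submodule.mem_top hv hF.measurable (C := C)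
      (fun t ht => hC t (abs_le.1 ht)) (2 * h)
    rw [D8a_fr] at h2
    rw [h2, gK]
    ring
  · intro h _
    refine (D8a_int hd ?_).const_mul _
    have h5 := continuous_gP d (2 * h)
    fun_prop

private theorem D8a_near {d : ℕ} {F : ℝ → ℝ} (hev : ∀ t, F (-t) = F t) {η ε : ℝ} (hη : 0 < η)
    (hmod : ∀ x ∈ Icc (-1 : ℝ) 1, ∀ y ∈ Icc (-1 : ℝ) 1, |x - y| < η → |F x - F y| ≤ ε)
    {δ : ℝ} (hδ2 : 2 * δ < η ^ 2) {u v w : EuclideanSpace ℝ (Fin d)} (hu : ‖u‖ = 1) (hv : ‖v‖ = 1) (hw : ‖w‖ = 1)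
    (h : 1 - δ ≤ |⟪u, w⟫|) : |F ⟪w, v⟫ - F ⟪u, v⟫| ≤ ε := by
  have hmem : ∀ x : EuclideanSpace ℝ (Fin d), ‖x‖ = 1 → ⟪x, v⟫ ∈ Icc (-1 : ℝ) 1 := by
    intro x hx
    have h1 := abs_real_inner_le_norm x v
    rw [hx, hv, mul_one] at h1
    exact abs_le.1 h1
  have hkey : ∀ x : EuclideanSpace ℝ (Fin d), ‖x‖ = 1 → 1 - δ ≤ ⟪x, w⟫ → |⟪w, v⟫ - ⟪x, v⟫| < η := by
    intro x hx hxw
    have h1 : ⟪w, v⟫ - ⟪x, v⟫ = ⟪w - x, v⟫ := by rw [inner_sub_left]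
    have h2 := abs_real_inner_le_norm (w - x) v
    rw [hv, mul_one] at h2
    rw [h1]
    refine lt_of_le_of_lt h2 ?_
    have h3 := norm_sub_sq_real w x
    rw [hw, hx, real_inner_comm] at h3
    have h4 : ‖w - x‖ ^ 2 < η ^ 2 := by
      rw [h3]
      linarith
    exact lt_of_pow_lt_pow_left₀ 2 hη.le h4
  rcases le_total 0 (⟪u, w⟫ : ℝ) with h0 | h0
  · rw [abs_of_nonneg h0] at h
    exact hmod _ (hmem w hw) _ (hmem u hu) (hkey u hu h)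
  · rw [abs_of_nonpos h0] at h
    have h1 := hmod _ (hmem w hw) _ (hmem (-u) (by rw [norm_neg, hu])) (hkey (-u) (by rw [norm_neg, hu])
      (by rw [inner_neg_left]; exact h))
    rw [inner_neg_left, hev] at h1
    exact h1

private theorem D8a_est {d : ℕ} (hd : 3 ≤ d) {F : ℝ → ℝ} (hF : Continuous F) (hev : ∀ t, F (-t) = F t) {C : ℝ}
    (hC : ∀ t ∈ Icc (-1 : ℝ) 1, ‖F t‖ ≤ C) {η ε : ℝ} (hη : 0 < η)
    (hmod : ∀ x ∈ Icc (-1 : ℝ) 1, ∀ y ∈ Icc (-1 : ℝ) 1, |x - y| < η → |F x - F y| ≤ ε)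
    {δ : ℝ} (hδ2 : 2 * δ < η ^ 2)
    (M : ℕ) {u v : EuclideanSpace ℝ (Fin d)} (hu : ‖u‖ = 1) (hv : ‖v‖ = 1) :
    |∫ w, ⟪u, w⟫ ^ (2 * M) * F ⟪w, v⟫ ∂(ms (⊤ : Submodule ℝ (EuclideanSpace ℝ (Fin d)))) -
        (∫ t, t ^ (2 * M) ∂(nu d)) * F ⟪u, v⟫| ≤
      ε * (∫ t, t ^ (2 * M) ∂(nu d)) + 2 * C * (1 - δ) ^ (2 * M) := by
  have hpr2 := ms_prob (⊤ : Submodule ℝ (EuclideanSpace ℝ (Fin d)))
  have hC0 : 0 ≤ C := le_trans (norm_nonneg _) (hC 0 (by norm_num))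
  have hε : 0 ≤ ε := by
    have h1 := hmod 0 (by norm_num) 0 (by norm_num) (by simpa using hη)
    simpa using h1
  have hbd : ∀ x : EuclideanSpace ℝ (Fin d), ‖x‖ = 1 → |F ⟪x, v⟫| ≤ C := by
    intro x hx
    have h1 := abs_real_inner_le_norm x v
    rw [hx, hv, mul_one] at h1
    exact hC _ (abs_le.1 h1)
  have h1 : (∫ t, t ^ (2 * M) ∂(nu d)) =
      ∫ w, ⟪u, w⟫ ^ (2 * M) ∂(ms (⊤ : Submodule ℝ (EuclideanSpace ℝ (Fin d)))) := by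
    rw [← D8a_map hd hu, integral_map (by fun_prop) (by fun_prop)]
    refine integral_congr_ae (Eventually.of_forall fun w => ?_)
    show ⟪w, u⟫ ^ (2 * M) = ⟪u, w⟫ ^ (2 * M)
    rw [real_inner_comm]
  have hi1 : Integrable (fun w : EuclideanSpace ℝ (Fin d) => ⟪u, w⟫ ^ (2 * M) * F ⟪w, v⟫)
      (ms (⊤ : Submodule ℝ (EuclideanSpace ℝ (Fin d)))) := D8a_int hd (by fun_prop)
  have hi2 : Integrable (fun w : EuclideanSpace ℝ (Fin d) => ⟪u, w⟫ ^ (2 * M))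
      (ms (⊤ : Submodule ℝ (EuclideanSpace ℝ (Fin d)))) := D8a_int hd (by fun_prop)
  have h2 : (∫ w, ⟪u, w⟫ ^ (2 * M) * F ⟪w, v⟫ ∂(ms (⊤ : Submodule ℝ (EuclideanSpace ℝ (Fin d))))) -
      (∫ t, t ^ (2 * M) ∂(nu d)) * F ⟪u, v⟫ =
      ∫ w, (⟪u, w⟫ ^ (2 * M) * F ⟪w, v⟫ - ⟪u, w⟫ ^ (2 * M) * F ⟪u, v⟫)
        ∂(ms (⊤ : Submodule ℝ (EuclideanSpace ℝ (Fin d)))) := by
    rw [integral_sub hi1 (hi2.mul_const _), integral_mul_const, h1]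
  have h3 : ε * (∫ t, t ^ (2 * M) ∂(nu d)) + 2 * C * (1 - δ) ^ (2 * M) =
      ∫ w, (ε * ⟪u, w⟫ ^ (2 * M) + 2 * C * (1 - δ) ^ (2 * M))
        ∂(ms (⊤ : Submodule ℝ (EuclideanSpace ℝ (Fin d)))) := by
    rw [integral_add (hi2.const_mul _) (integrable_const _), integral_const_mul, h1]
    simp
  rw [h2, h3]
  refine le_trans (abs_integral_le_integral_abs) ?_
  refine integral_mono_ae ((hi1.sub (hi2.mul_const _)).abs) ((hi2.const_mul _).add (integrable_const _)) ?_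
  filter_upwards [D8a_unit hd] with w hw
  show |⟪u, w⟫ ^ (2 * M) * F ⟪w, v⟫ - ⟪u, w⟫ ^ (2 * M) * F ⟪u, v⟫| ≤
    ε * ⟪u, w⟫ ^ (2 * M) + 2 * C * (1 - δ) ^ (2 * M)
  have hp : (0 : ℝ) ≤ ⟪u, w⟫ ^ (2 * M) := (even_two_mul M).pow_nonneg _
  have hδ3 : (0 : ℝ) ≤ (1 - δ) ^ (2 * M) := (even_two_mul M).pow_nonneg _
  rw [← mul_sub, abs_mul, abs_of_nonneg hp]
  rcases le_or_gt (1 - δ) |(⟪u, w⟫ : ℝ)| with hc | hc
  · have h4 := D8a_near hev hη hmod hδ2 hu hv hw hc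
    have h5 : (⟪u, w⟫ : ℝ) ^ (2 * M) * |F ⟪w, v⟫ - F ⟪u, v⟫| ≤ ⟪u, w⟫ ^ (2 * M) * ε :=
      mul_le_mul_of_nonneg_left h4 hp
    have h6 : 0 ≤ 2 * C * (1 - δ) ^ (2 * M) := by positivity
    linarith
  · have h4 : (⟪u, w⟫ : ℝ) ^ (2 * M) ≤ (1 - δ) ^ (2 * M) := by
      rw [← (even_two_mul M).pow_abs]
      exact pow_le_pow_left₀ (abs_nonneg _) hc.le _
    have h5 : |F ⟪w, v⟫ - F ⟪u, v⟫| ≤ 2 * C := by
      have h6 := abs_sub (F ⟪w, v⟫) (F ⟪u, v⟫)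
      have h7 := hbd w hw
      have h8 := hbd u hu
      linarith
    have h6 : (⟪u, w⟫ : ℝ) ^ (2 * M) * |F ⟪w, v⟫ - F ⟪u, v⟫| ≤ (1 - δ) ^ (2 * M) * (2 * C) :=
      mul_le_mul h4 h5 (abs_nonneg _) hδ3
    have h7 : 0 ≤ ε * ⟪u, w⟫ ^ (2 * M) := mul_nonneg hε hp
    linarith

private theorem D8a_pair {d : ℕ} (hd : 3 ≤ d) {t : ℝ} (ht : |t| ≤ 1) :
    ∃ u v : EuclideanSpace ℝ (Fin d), ‖u‖ = 1 ∧ ‖v‖ = 1 ∧ ⟪u, v⟫ = t := by
  have hne : (⟨0, by omega⟩ : Fin d) ≠ ⟨1, by omega⟩ := by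
    intro h
    simpa using congrArg Fin.val h
  have ho := (EuclideanSpace.basisFun (Fin d) ℝ).orthonormal
  set e : Fin d → EuclideanSpace ℝ (Fin d) := fun i => EuclideanSpace.basisFun (Fin d) ℝ i with he
  have h0 : ‖e ⟨0, by omega⟩‖ = 1 := ho.1 _
  have h1 : ‖e ⟨1, by omega⟩‖ = 1 := ho.1 _
  have h01 : ⟪e ⟨0, by omega⟩, e ⟨1, by omega⟩⟫ = 0 := ho.2 hne
  have ht2 : 0 ≤ 1 - t ^ 2 := by
    have := (sq_le_one_iff_abs_le_one t).2 ht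
    linarith
  refine ⟨e ⟨0, by omega⟩, t • e ⟨0, by omega⟩ + √(1 - t ^ 2) • e ⟨1, by omega⟩, h0, ?_, ?_⟩
  · have h2 : ‖t • e ⟨0, by omega⟩ + √(1 - t ^ 2) • e ⟨1, by omega⟩‖ ^ 2 = 1 := by
      rw [norm_add_sq_real, norm_smul, norm_smul, h0, h1, inner_smul_left, inner_smul_right, h01, mul_one, mul_one,
        Real.norm_eq_abs, Real.norm_eq_abs, sq_abs, sq_abs, Real.sq_sqrt ht2]
      simp
    exact (pow_eq_one_iff_of_nonneg (norm_nonneg _) two_ne_zero).1 h2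
  · rw [inner_add_right, inner_smul_right, inner_smul_right, h01, real_inner_self_eq_norm_sq, h0]
    ring

theorem ws_zero_deg {d : ℕ} (hd : 3 ≤ d) (M : ℕ) : ws d M 0 = 1 := by
  have h := D8a_dpos hd M
  rw [← D8a_den] at h
  rw [ws, mul_zero]
  exact div_self h.ne'

theorem ws_nonneg {d : ℕ} (hd : 3 ≤ d) (M h : ℕ) : 0 ≤ ws d M h := by
  rw [ws]
  exact div_nonneg (mu_pow_nonneg hd _ _) (mu_pow_nonneg hd _ _)

theorem ws_le_one {d : ℕ} (hd : 3 ≤ d) (M h : ℕ) : ws d M h ≤ 1 := by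
  have h0 := D8a_dpos hd M
  rw [ws, D8a_den, div_le_one h0, mu]
  have h1 : Integrable (fun t : ℝ => t ^ (2 * M) * gP d (2 * h) t) (nu d) := by
    have h5 := continuous_gP d (2 * h)
    refine integrable_nu (C := 1) (by fun_prop) (fun t ht => ?_)
    rw [abs_mul, abs_pow]
    exact mul_le_one₀ (pow_le_one₀ (abs_nonneg _) ht) (abs_nonneg _) (gP_abs_le hd _ ht)
  refine integral_mono_ae h1 (D8a_ip d M) ?_
  filter_upwards [nu_abs d] with t ht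
  show t ^ (2 * M) * gP d (2 * h) t ≤ t ^ (2 * M)
  have h2 : gP d (2 * h) t ≤ 1 := le_trans (le_abs_self _) (gP_abs_le hd _ ht)
  exact mul_le_of_le_one_right ((even_two_mul M).pow_nonneg _) h2

theorem smooth {d : ℕ} (hd : 3 ≤ d) {F : ℝ → ℝ} (hF : Continuous F) (hev : ∀ t, F (-t) = F t) {ε : ℝ} (hε : 0 < ε) :
    ∃ M0 : ℕ, ∀ M ≥ M0, ∀ t : ℝ, |t| ≤ 1 →
      |F t - ∑ h ∈ Finset.range (M + 1), ws d M h * (mu d (2 * h) F * gK d (2 * h) t)| ≤ ε := by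
  obtain ⟨C, hC⟩ := isCompact_Icc.exists_bound_of_continuousOn (s := Icc (-1 : ℝ) 1) hF.continuousOn
  have hC0 : 0 ≤ C := le_trans (norm_nonneg _) (hC 0 (by norm_num))
  have huc := isCompact_Icc.uniformContinuousOn_of_continuous (s := Icc (-1 : ℝ) 1) hF.continuousOn
  rw [Metric.uniformContinuousOn_iff] at huc
  obtain ⟨η, hη, hmod0⟩ := huc (ε / 2) (by positivity)
  have hmod : ∀ x ∈ Icc (-1 : ℝ) 1, ∀ y ∈ Icc (-1 : ℝ) 1, |x - y| < η → |F x - F y| ≤ ε / 2 := by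
    intro x hx y hy hxy
    exact (hmod0 x hx y hy hxy).le
  obtain ⟨δ, hδ0, hδ1, hδ2⟩ : ∃ δ : ℝ, 0 < δ ∧ δ ≤ 1 / 2 ∧ 2 * δ < η ^ 2 := by
    refine ⟨min (1 / 2) (η ^ 2 / 4), lt_min (by norm_num) (by positivity), min_le_left _ _, ?_⟩
    have h1 : min (1 / 2) (η ^ 2 / 4) ≤ η ^ 2 / 4 := min_le_right _ _
    have h2 : 0 < η ^ 2 := by positivity
    linarith
  set κ : ℝ := (nu d).real (Ioi (1 - δ / 2)) with hκ
  have hκ0 : 0 < κ := D8a_pos hd (by linarith)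
  set r : ℝ := (1 - δ) / (1 - δ / 2) with hr
  have hb : 0 < 1 - δ / 2 := by linarith
  have hr0 : 0 ≤ r := div_nonneg (by linarith) hb.le
  have hr1 : r < 1 := by
    rw [hr, div_lt_one hb]
    linarith
  have hlim : Tendsto (fun M : ℕ => 2 * C / κ * r ^ (2 * M)) atTop (𝓝 0) := by
    have h1 : Tendsto (fun M : ℕ => (r ^ 2) ^ M) atTop (𝓝 0) :=
      tendsto_pow_atTop_nhds_zero_of_lt_one (by positivity) (pow_lt_one₀ hr0 hr1 two_ne_zero)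
    have h2 := h1.const_mul (2 * C / κ)
    rw [mul_zero] at h2
    refine h2.congr fun M => ?_
    rw [pow_mul]
  obtain ⟨M0, hM0⟩ := eventually_atTop.1 (hlim.eventually (ge_mem_nhds (show (0 : ℝ) < ε / 2 by positivity)))
  refine ⟨M0, fun M hM t ht => ?_⟩
  obtain ⟨u, v, hu, hv, rfl⟩ := D8a_pair hd ht
  have hD := D8a_dpos hd M
  set D : ℝ := ∫ t, t ^ (2 * M) ∂(nu d) with hDdef
  have h1 : ∑ h ∈ Finset.range (M + 1), ws d M h * (mu d (2 * h) F * gK d (2 * h) ⟪u, v⟫) =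
      (∫ w, ⟪u, w⟫ ^ (2 * M) * F ⟪w, v⟫ ∂(ms (⊤ : Submodule ℝ (EuclideanSpace ℝ (Fin d))))) / D := by
    rw [D8a_exp hd hF M hu hv, Finset.sum_div]
    refine Finset.sum_congr rfl fun h _ => ?_
    rw [ws, D8a_den]
    ring
  have h2 := D8a_est hd hF hev hC hη hmod hδ2 M hu hv
  rw [← hDdef] at h2
  set I : ℝ := ∫ w, ⟪u, w⟫ ^ (2 * M) * F ⟪w, v⟫ ∂(ms (⊤ : Submodule ℝ (EuclideanSpace ℝ (Fin d)))) with hI
  rw [h1]
  have h3 : F ⟪u, v⟫ - I / D = -((I - D * F ⟪u, v⟫) / D) := by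
    field_simp
    ring
  rw [h3, abs_neg, abs_div, abs_of_pos hD, div_le_iff₀ hD]
  refine le_trans h2 ?_
  have h4 : (1 - δ / 2) ^ (2 * M) * κ ≤ D := D8a_low d M hb.le
  have h5 := hM0 M hM
  have h6 : 2 * C * (1 - δ) ^ (2 * M) ≤ ε / 2 * D := by
    have h7 : 2 * C * (1 - δ) ^ (2 * M) = (2 * C / κ * r ^ (2 * M)) * ((1 - δ / 2) ^ (2 * M) * κ) := by
      have h9 : (1 - δ) ^ (2 * M) = r ^ (2 * M) * (1 - δ / 2) ^ (2 * M) := by
        rw [← mul_pow, hr, div_mul_cancel₀ _ hb.ne']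
      rw [h9]
      field_simp
    rw [h7]
    have h8 : 0 ≤ (1 - δ / 2) ^ (2 * M) * κ := by positivity
    exact le_trans (mul_le_mul_of_nonneg_right h5 h8) (mul_le_mul_of_nonneg_left h4 (by positivity))
  linarith

end Pool.Agent.HRJ
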