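import Pool.Agent.HRJ.C1
import Pool.Agent.HRJ.D7
import Pool.Agent.HRJ.D8

/-!
# HRJ-D9a: `θ_1 - θ_j` and the conclusion from `A = 0`

PROOF PLAN.  `d = finrank V ≥ 4`.  `quad_lim`, `lin_lim`: `smooth` integrated over `ρ ⊗ ρ`, resp. over `ρ` (`t = ⟪x, y⟫`, `|t| ≤ 1` a.e.; `∫ gK d (2h) ⟪u,y⟫ dρ(y) = ff ρ (2h) u` for unit `u`, `nrm u = u`).
`th_diff`: `quad_lim` for `F t = √(1-t²)/cc d 1 - |t|/mm d` (continuous, even): `mu d (2h) F = lh d h` (`mu_sqrt`, `mu_abs`), `∫∫ F ⟪x,y⟫ = th ρ 1 - th ρ j` (`th_one`: `‖ort x y‖ = √(1 - ⟪x,y⟫²)` for unit vectors; `th_j`).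
`th_diff_le`: `lh d h xx ρ (2h) ≤ 0` for `h` odd and for `h = 0` (`lh d 0 = 0`; `tT_two`, `rR_two`), `lh d (2(r+1)) = lam d r`, `0 ≤ ws ≤ 1`, so every partial sum is `≤ AN ρ M ≤ A`.
`xx_zero`: `AN ρ N = 0` for all `N` gives `xx ρ (4(r+1)) = 0` (`lam_pos`, `xx_nonneg`); for `h0` odd the sums of `th_diff` are `≤ ws d M h0 * (lh d h0 * xx ρ (2 h0))` for `M ≥ h0`, in the limit
`0 ≤ th ρ 1 - th ρ j ≤ lh d h0 * xx ρ (2 h0)` (`ws_tendsto`), `lh d h0 < 0`, so `xx ρ (2 h0) = 0`.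
`hf_eq`: `lin_lim` for `F = |.|`: all `ff ρ (2h) u = 0` for `h ≥ 1` (`ff_zero`), `ff_zero_deg`, `ws_zero_deg`, `mu_abs` (`tT_zero`).
-/

set_option autoImplicit false

namespace Pool.Agent.HRJ

open MeasureTheory ProbabilityTheory Set Filter Topology Metric
open Pool.Agent.HP89 Pool.Agent.FI75 Pool.Agent.PBL
open scoped RealInnerProductSpace ENNReal

variable {V : Type*} [NormedAddCommGroup V] [InnerProductSpace ℝ V] [FiniteDimensional ℝ V]
  [MeasurableSpace V] [BorelSpace V]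

variable {ρ : Measure V} {j : ℕ}

private theorem d9_inner {u y : V} (hu : ‖u‖ = 1) (hy : ‖y‖ = 1) : |⟪u, y⟫| ≤ 1 := by
  have := abs_real_inner_le_norm u y
  rw [hu, hy] at this
  linarith

private theorem d9_bdd {F : ℝ → ℝ} (hF : Continuous F) : ∃ C : ℝ, ∀ t : ℝ, |t| ≤ 1 → |F t| ≤ C := by
  obtain ⟨C, hC⟩ := (isCompact_Icc (a := (-1 : ℝ)) (b := 1)).exists_bound_of_continuousOn hF.continuousOn
  refine ⟨C, fun t ht => ?_⟩
  have := hC t (abs_le.mp ht)
  rwa [Real.norm_eq_abs] at this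

private theorem d9_int {ρ : Measure V} (hρ : US ρ) {F : ℝ → ℝ} (hF : Continuous F) {u : V} (hu : ‖u‖ = 1) :
    Integrable (fun y => F ⟪u, y⟫) ρ := by
  obtain ⟨C, hC⟩ := d9_bdd hF
  have := hρ.prob
  refine Integrable.of_bound (C := C) ?_ ?_
  · exact (hF.comp (continuous_const.inner continuous_id)).aestronglyMeasurable
  · filter_upwards [hρ.unit] with y hy
    rw [Real.norm_eq_abs]
    exact hC _ (d9_inner hu hy)

private theorem d9_gK_cont (d l : ℕ) : Continuous (gK d l) := by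
  unfold gK
  exact continuous_const.mul (continuous_gP d l)

private theorem d9_nrm {u : V} (hu : ‖u‖ = 1) : nrm u = u := by
  unfold nrm
  rw [hu, inv_one, one_smul]

private theorem d9_key {ρ : Measure V} (hρ : US ρ) (hd : 3 ≤ Module.finrank ℝ V) {F : ℝ → ℝ} (hF : Continuous F)
    (hev : ∀ t, F (-t) = F t) {ε : ℝ} (hε : 0 < ε) :
    ∃ M0 : ℕ, ∀ M ≥ M0, ∀ u : V, ‖u‖ = 1 →
      |(∫ y, F ⟪u, y⟫ ∂ρ) - ∑ i ∈ Finset.range (M + 1), ws (Module.finrank ℝ V) M i *
        (mu (Module.finrank ℝ V) (2 * i) F * ff ρ (2 * i) u)| ≤ ε := by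
  obtain ⟨M0, hM0⟩ := smooth hd hF hev hε
  refine ⟨M0, fun M hM u hu => ?_⟩
  have := hρ.prob
  have h1 : (∑ i ∈ Finset.range (M + 1), ws (Module.finrank ℝ V) M i *
        (mu (Module.finrank ℝ V) (2 * i) F * ff ρ (2 * i) u)) =
      ∫ y, (∑ i ∈ Finset.range (M + 1), ws (Module.finrank ℝ V) M i *
        (mu (Module.finrank ℝ V) (2 * i) F * gK (Module.finrank ℝ V) (2 * i) ⟪u, y⟫)) ∂ρ := by
    rw [integral_finsetSum]
    · refine Finset.sum_congr rfl fun i _ => ?_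
      rw [integral_const_mul, integral_const_mul]
      unfold ff
      rw [d9_nrm hu]
    · intro i _
      exact ((d9_int hρ (d9_gK_cont _ _) hu).const_mul _).const_mul _
  rw [h1, ← integral_sub (d9_int hρ hF hu)]
  · have h2 := norm_integral_le_of_norm_le_const (μ := ρ) (C := ε)
      (f := fun y => F ⟪u, y⟫ - (∑ i ∈ Finset.range (M + 1), ws (Module.finrank ℝ V) M i *
        (mu (Module.finrank ℝ V) (2 * i) F * gK (Module.finrank ℝ V) (2 * i) ⟪u, y⟫)))
      (by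
        filter_upwards [hρ.unit] with y hy
        rw [Real.norm_eq_abs]
        exact hM0 M hM _ (d9_inner hu hy))
    rw [Real.norm_eq_abs] at h2
    simpa using h2
  · exact integrable_finsetSum _ fun i _ => ((d9_int hρ (d9_gK_cont _ _) hu).const_mul _).const_mul _

theorem quad_lim (h : Fx j ρ) {F : ℝ → ℝ} (hF : Continuous F) (hev : ∀ t, F (-t) = F t) :
    Tendsto (fun M : ℕ => ∑ i ∈ Finset.range (M + 1), ws (Module.finrank ℝ V) M i *
      (mu (Module.finrank ℝ V) (2 * i) F * xx ρ (2 * i))) atTop (𝓝 (∫ x, ∫ y, F ⟪x, y⟫ ∂ρ ∂ρ)) := by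
  have hρ := h.us
  have hpr := hρ.prob
  have hd : 3 ≤ Module.finrank ℝ V := by
    have h1 := h.hj
    have h2 := h.hjd
    omega
  have hI1 : Integrable (fun x => ∫ y, F ⟪x, y⟫ ∂ρ) ρ := by
    obtain ⟨C, hC⟩ := d9_bdd hF
    refine Integrable.of_bound (C := C) ?_ ?_
    · have hc : Continuous (fun p : V × V => F ⟪p.1, p.2⟫) := hF.comp (continuous_fst.inner continuous_snd)
      exact (hc.stronglyMeasurable.integral_prod_right').aestronglyMeasurable
    · filter_upwards [hρ.unit] with x hx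
      have h2 := norm_integral_le_of_norm_le_const (μ := ρ) (C := C) (f := fun y => F ⟪x, y⟫)
        (by
          filter_upwards [hρ.unit] with y hy
          rw [Real.norm_eq_abs]
          exact hC _ (d9_inner hx hy))
      simpa using h2
  have hI2 : ∀ l : ℕ, Integrable (ff ρ l) ρ := by
    intro l
    refine Integrable.of_bound (C := nN (Module.finrank ℝ V) l) (ff_meas hρ l).aestronglyMeasurable ?_
    refine Filter.Eventually.of_forall fun x => ?_
    rw [Real.norm_eq_abs]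
    exact ff_bdd hρ hd l x
  rw [Metric.tendsto_atTop]
  intro ε hε
  obtain ⟨M0, hM0⟩ := d9_key hρ hd hF hev (half_pos hε)
  refine ⟨M0, fun M hM => ?_⟩
  have h1 : (∑ i ∈ Finset.range (M + 1), ws (Module.finrank ℝ V) M i *
      (mu (Module.finrank ℝ V) (2 * i) F * xx ρ (2 * i))) =
      ∫ x, (∑ i ∈ Finset.range (M + 1), ws (Module.finrank ℝ V) M i *
        (mu (Module.finrank ℝ V) (2 * i) F * ff ρ (2 * i) x)) ∂ρ := by
    rw [integral_finsetSum]
    · refine Finset.sum_congr rfl fun i _ => ?_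
      rw [integral_const_mul, integral_const_mul]
      rfl
    · intro i _
      exact ((hI2 _).const_mul _).const_mul _
  rw [dist_comm, Real.dist_eq, h1, ← integral_sub hI1]
  · have h2 := norm_integral_le_of_norm_le_const (μ := ρ) (C := ε / 2)
      (f := fun x => (∫ y, F ⟪x, y⟫ ∂ρ) - (∑ i ∈ Finset.range (M + 1), ws (Module.finrank ℝ V) M i *
        (mu (Module.finrank ℝ V) (2 * i) F * ff ρ (2 * i) x)))
      (by
        filter_upwards [hρ.unit] with x hx
        rw [Real.norm_eq_abs]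
        exact hM0 M hM x hx)
    rw [Real.norm_eq_abs] at h2
    have h3 : ε / 2 < ε := half_lt_self hε
    have h4 : ε / 2 * ρ.real Set.univ = ε / 2 := by simp
    rw [h4] at h2
    exact lt_of_le_of_lt h2 h3
  · exact integrable_finsetSum _ fun i _ => ((hI2 _).const_mul _).const_mul _

theorem lin_lim (h : Fx j ρ) {F : ℝ → ℝ} (hF : Continuous F) (hev : ∀ t, F (-t) = F t) {u : V} (hu : ‖u‖ = 1) :
    Tendsto (fun M : ℕ => ∑ i ∈ Finset.range (M + 1), ws (Module.finrank ℝ V) M i *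
      (mu (Module.finrank ℝ V) (2 * i) F * ff ρ (2 * i) u)) atTop (𝓝 (∫ y, F ⟪u, y⟫ ∂ρ)) := by
  have hρ := h.us
  have hd : 3 ≤ Module.finrank ℝ V := by
    have h1 := h.hj
    have h2 := h.hjd
    omega
  rw [Metric.tendsto_atTop]
  intro ε hε
  obtain ⟨M0, hM0⟩ := d9_key hρ hd hF hev (half_pos hε)
  refine ⟨M0, fun M hM => ?_⟩
  rw [dist_comm, Real.dist_eq]
  exact lt_of_le_of_lt (hM0 M hM u hu) (half_lt_self hε)

end Pool.Agent.HRJ
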