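import Pool.Agent.HRJ.N1a

/-!
# HRJ-N1: the very well poised sum (WZ)

PROOF PLAN.  All parameters positive, `S = 1 + a - b - c - e > 0` (so all Gamma arguments in `Cw` and all factors are positive).  Put `s a n = tw a b c e n / Cw a b c e`.
`tw (a+1) n = tw a n * (a+n)/a * (a+1+2n)/(a+1) * a/(a+2n) * ∏_{x = b,c,e} (1+a-x)/(1+a-x+n)` (induction on `n`), `Cw (a+1)/Cw a = (1+a-b)(1+a-c)(1+a-e)(1+a-b-c-e)/((1+a)(1+a-b-c)(1+a-b-e)(1+a-c-e))` (`Real.Gamma_add_one`).
Certificate: `H a n = n (n+1+2a-b-c-e)/((a+2n)(1+a-b-c-e)) * s a n`; `s (a+1) n - s a n = H a (n+1) - H a n` (rational identity, `field_simp; ring`; checked).  Sum over `n < N`: `∑ s a n ≤ ∑ s (a+1) n` (`H a N ≥ 0`, `H a 0 = 0`), hence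
`∑_{n<N} s a n ≤ ∑_{n<N} s (a+K) n` for all `K`.  As `K → ∞`: `Cw (a+K) → 1` (`Gamma (x+K+1)/(K! K^x) → 1`: `Real.tendsto_logGammaSeq` / `Real.GammaSeq_tendsto_Gamma`; the exponents add up to the same number in the numerator and in the denominator),
`tw (a+K) b c e 0 = 1`, `tw (a+K) b c e n → 0` for `n ≥ 1` (induction: the ratio is `O(1/K)`).  So the limit is 1 (`ge_of_tendsto`).
-/

set_option autoImplicit false

namespace Pool.Agent.HRJ

open MeasureTheory ProbabilityTheory Set Filter Topology Metric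
open Pool.Agent.HP89 Pool.Agent.FI75 Pool.Agent.PBL
open scoped RealInnerProductSpace ENNReal

theorem tw_nonneg {a b c e : ℝ} (ha : 0 < a) (hb : 0 < b) (hc : 0 < c) (he : 0 < e) (hS : 0 < 1 + a - b - c - e) (n : ℕ) :
    0 ≤ tw a b c e n := by
  induction n with
  | zero => simp [tw]
  | succ n ih =>
    rw [tw]
    have hn : (0 : ℝ) ≤ n := Nat.cast_nonneg n
    have h1 : 0 < 1 + a - b + n := by linarith
    have h2 : 0 < 1 + a - c + n := by linarith
    have h3 : 0 < 1 + a - e + n := by linarith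
    exact mul_nonneg ih (by positivity)

private lemma tw_shift {a b c e : ℝ} (ha : 0 < a) (hb : 0 < b) (hc : 0 < c) (he : 0 < e)
    (hS : 0 < 1 + a - b - c - e) (n : ℕ) :
    tw (a + 1) b c e n * ((a + 1) * (a + 2 * n) * ((1 + a - b + n) * (1 + a - c + n) * (1 + a - e + n))) =
      tw a b c e n * ((a + n) * (a + 1 + 2 * n) * ((1 + a - b) * (1 + a - c) * (1 + a - e))) := by
  induction n with
  | zero => simp only [tw, Nat.cast_zero]; ring
  | succ n ih =>
    have hn : (0 : ℝ) ≤ n := Nat.cast_nonneg n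
    have h1 : 0 < 1 + a - b + n := by linarith
    have h2 : 0 < 1 + a - c + n := by linarith
    have h3 : 0 < 1 + a - e + n := by linarith
    have h1' : 0 < 1 + (a + 1) - b + n := by linarith
    have h2' : 0 < 1 + (a + 1) - c + n := by linarith
    have h3' : 0 < 1 + (a + 1) - e + n := by linarith
    have k1 : (0 : ℝ) < n + 1 := by positivity
    have k2 : 0 < a + 2 * n := by positivity
    have k3 : 0 < a + 1 + 2 * n := by positivity
    rw [tw, tw]
    set T := tw (a + 1) b c e n with hT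
    set U := tw a b c e n with hU
    have hTU : T = U * ((a + n) * (a + 1 + 2 * n) * ((1 + a - b) * (1 + a - c) * (1 + a - e))) /
        ((a + 1) * (a + 2 * n) * ((1 + a - b + n) * (1 + a - c + n) * (1 + a - e + n))) := by
      rw [eq_div_iff (by positivity)]
      exact ih
    rw [hTU]
    push_cast
    have m1 : 1 + a - b + n ≠ 0 := h1.ne'
    have m2 : 1 + a - c + n ≠ 0 := h2.ne'
    have m3 : 1 + a - e + n ≠ 0 := h3.ne'
    have m1' : 1 + (a + 1) - b + n ≠ 0 := h1'.ne'
    have m2' : 1 + (a + 1) - c + n ≠ 0 := h2'.ne'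
    have m3' : 1 + (a + 1) - e + n ≠ 0 := h3'.ne'
    have m4 : a + 2 * (n : ℝ) ≠ 0 := k2.ne'
    have m5 : a + 1 + 2 * (n : ℝ) ≠ 0 := k3.ne'
    have m6 : (n : ℝ) + 1 ≠ 0 := k1.ne'
    have m7 : a + 1 ≠ 0 := by positivity
    have e1 : 1 + a - b + ((n : ℝ) + 1) = 1 + (a + 1) - b + n := by ring
    have e2 : 1 + a - c + ((n : ℝ) + 1) = 1 + (a + 1) - c + n := by ring
    have e3 : 1 + a - e + ((n : ℝ) + 1) = 1 + (a + 1) - e + n := by ring
    rw [e1, e2, e3]
    generalize 1 + (a + 1) - b + (n : ℝ) = X1 at *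
    generalize 1 + (a + 1) - c + (n : ℝ) = X2 at *
    generalize 1 + (a + 1) - e + (n : ℝ) = X3 at *
    generalize 1 + a - b + (n : ℝ) = Y1 at *
    generalize 1 + a - c + (n : ℝ) = Y2 at *
    generalize 1 + a - e + (n : ℝ) = Y3 at *
    field_simp
    ring

private lemma Cw_pos {a b c e : ℝ} (ha : 0 < a) (hb : 0 < b) (hc : 0 < c) (he : 0 < e)
    (hS : 0 < 1 + a - b - c - e) : 0 < Cw a b c e := by
  unfold Cw
  have g1 := Real.Gamma_pos_of_pos (show 0 < 1 + a - b by linarith)
  have g2 := Real.Gamma_pos_of_pos (show 0 < 1 + a - c by linarith)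
  have g3 := Real.Gamma_pos_of_pos (show 0 < 1 + a - e by linarith)
  have g4 := Real.Gamma_pos_of_pos hS
  have g5 := Real.Gamma_pos_of_pos (show 0 < 1 + a by linarith)
  have g6 := Real.Gamma_pos_of_pos (show 0 < 1 + a - b - c by linarith)
  have g7 := Real.Gamma_pos_of_pos (show 0 < 1 + a - b - e by linarith)
  have g8 := Real.Gamma_pos_of_pos (show 0 < 1 + a - c - e by linarith)
  positivity

private lemma Cw_shift {a b c e : ℝ} (ha : 0 < a) (hb : 0 < b) (hc : 0 < c) (he : 0 < e)
    (hS : 0 < 1 + a - b - c - e) :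
    Cw (a + 1) b c e * ((1 + a) * (1 + a - b - c) * (1 + a - b - e) * (1 + a - c - e)) =
      Cw a b c e * ((1 + a - b) * (1 + a - c) * (1 + a - e) * (1 + a - b - c - e)) := by
  unfold Cw
  have p1 : 0 < 1 + a - b := by linarith
  have p2 : 0 < 1 + a - c := by linarith
  have p3 : 0 < 1 + a - e := by linarith
  have p5 : 0 < 1 + a := by linarith
  have p6 : 0 < 1 + a - b - c := by linarith
  have p7 : 0 < 1 + a - b - e := by linarith
  have p8 : 0 < 1 + a - c - e := by linarith
  have g5 := Real.Gamma_pos_of_pos p5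
  have g6 := Real.Gamma_pos_of_pos p6
  have g7 := Real.Gamma_pos_of_pos p7
  have g8 := Real.Gamma_pos_of_pos p8
  have e1 : 1 + (a + 1) - b = (1 + a - b) + 1 := by ring
  have e2 : 1 + (a + 1) - c = (1 + a - c) + 1 := by ring
  have e3 : 1 + (a + 1) - e = (1 + a - e) + 1 := by ring
  have e4 : (1 + a - b) + 1 - c - e = (1 + a - b - c - e) + 1 := by ring
  have e5 : 1 + (a + 1) = (1 + a) + 1 := by ring
  have e6 : (1 + a - b) + 1 - c = (1 + a - b - c) + 1 := by ring
  have e7 : (1 + a - b) + 1 - e = (1 + a - b - e) + 1 := by ring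
  have e8 : (1 + a - c) + 1 - e = (1 + a - c - e) + 1 := by ring
  have e4' : (1 + a - b - c) + 1 - e = (1 + a - b - c - e) + 1 := by ring
  rw [e1, e2, e3, e5, e6, e7, e8, e4', Real.Gamma_add_one p1.ne', Real.Gamma_add_one p2.ne',
    Real.Gamma_add_one p3.ne', Real.Gamma_add_one hS.ne', Real.Gamma_add_one p5.ne',
    Real.Gamma_add_one p6.ne', Real.Gamma_add_one p7.ne', Real.Gamma_add_one p8.ne']
  generalize Real.Gamma (1 + a - b) = G1
  generalize Real.Gamma (1 + a - c) = G2
  generalize Real.Gamma (1 + a - e) = G3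
  generalize Real.Gamma (1 + a - b - c - e) = G4
  generalize Real.Gamma (1 + a) = G5 at *
  generalize Real.Gamma (1 + a - b - c) = G6 at *
  generalize Real.Gamma (1 + a - b - e) = G7 at *
  generalize Real.Gamma (1 + a - c - e) = G8 at *
  generalize 1 + a - b - c - e = X4 at *
  generalize 1 + a - b - c = X6 at *
  generalize 1 + a - b - e = X7 at *
  generalize 1 + a - c - e = X8 at *
  generalize 1 + a - b = X1 at *
  generalize 1 + a - c = X2 at *
  generalize 1 + a - e = X3 at *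
  generalize 1 + a = X5 at *
  field_simp

private noncomputable def HH (a b c e : ℝ) (n : ℕ) : ℝ :=
  n * (n + 1 + 2 * a - b - c - e) / ((a + 2 * n) * (1 + a - b - c - e)) * (tw a b c e n / Cw a b c e)

private lemma cert {a b c e : ℝ} (ha : 0 < a) (hb : 0 < b) (hc : 0 < c) (he : 0 < e)
    (hS : 0 < 1 + a - b - c - e) (n : ℕ) :
    tw (a + 1) b c e n / Cw (a + 1) b c e - tw a b c e n / Cw a b c e =
      HH a b c e (n + 1) - HH a b c e n := by
  have hn : (0 : ℝ) ≤ n := Nat.cast_nonneg n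
  have hC := Cw_pos ha hb hc he hS
  have hC' := Cw_pos (show 0 < a + 1 by linarith) hb hc he (show 0 < 1 + (a + 1) - b - c - e by linarith)
  have h1 := tw_shift ha hb hc he hS n
  have h2 := Cw_shift ha hb hc he hS
  have p1 : 0 < 1 + a - b := by linarith
  have p2 : 0 < 1 + a - c := by linarith
  have p3 : 0 < 1 + a - e := by linarith
  have p5 : 0 < 1 + a := by linarith
  have p6 : 0 < 1 + a - b - c := by linarith
  have p7 : 0 < 1 + a - b - e := by linarith
  have p8 : 0 < 1 + a - c - e := by linarith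
  have q1 : 0 < 1 + a - b + n := by linarith
  have q2 : 0 < 1 + a - c + n := by linarith
  have q3 : 0 < 1 + a - e + n := by linarith
  have k1 : (0 : ℝ) < n + 1 := by positivity
  have k2 : 0 < a + 2 * n := by positivity
  have k3 : 0 < a + 2 * n + 2 := by positivity
  -- the quotient at `a + 1`
  have h3 : tw (a + 1) b c e n / Cw (a + 1) b c e = tw a b c e n / Cw a b c e *
      ((a + n) * (a + 1 + 2 * n) * ((1 + a - b - c) * (1 + a - b - e) * (1 + a - c - e)) /
        ((a + 2 * n) * (1 + a - b - c - e) * ((1 + a - b + n) * (1 + a - c + n) * (1 + a - e + n)))) := by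
    have hT : tw (a + 1) b c e n = tw a b c e n *
        ((a + n) * (a + 1 + 2 * n) * ((1 + a - b) * (1 + a - c) * (1 + a - e))) /
        ((a + 1) * (a + 2 * n) * ((1 + a - b + n) * (1 + a - c + n) * (1 + a - e + n))) := by
      rw [eq_div_iff (by positivity)]; exact h1
    have hCC : Cw (a + 1) b c e = Cw a b c e *
        ((1 + a - b) * (1 + a - c) * (1 + a - e) * (1 + a - b - c - e)) /
        ((1 + a) * (1 + a - b - c) * (1 + a - b - e) * (1 + a - c - e)) := by
      rw [eq_div_iff (by positivity)]; exact h2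
    rw [hT, hCC]
    have a1 : a + 1 = 1 + a := by ring
    rw [a1]
    generalize tw a b c e n = T
    generalize Cw a b c e = C at *
    generalize 1 + a - b + (n : ℝ) = Y1 at *
    generalize 1 + a - c + (n : ℝ) = Y2 at *
    generalize 1 + a - e + (n : ℝ) = Y3 at *
    generalize a + 2 * (n : ℝ) = Y4 at *
    generalize 1 + a - b - c - e = X4 at *
    generalize 1 + a - b - c = X6 at *
    generalize 1 + a - b - e = X7 at *
    generalize 1 + a - c - e = X8 at *
    generalize 1 + a - b = X1 at *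
    generalize 1 + a - c = X2 at *
    generalize 1 + a - e = X3 at *
    generalize 1 + a = X5 at *
    field_simp
  rw [h3]
  unfold HH
  rw [tw]
  push_cast
  have key : (a + n) * (a + 1 + 2 * n) * ((1 + a - b - c) * (1 + a - b - e) * (1 + a - c - e)) -
      (a + 2 * n) * (1 + a - b - c - e) * ((1 + a - b + n) * (1 + a - c + n) * (1 + a - e + n)) =
      (n + 2 + 2 * a - b - c - e) * ((a + n) * (b + n) * (c + n) * (e + n)) -
      n * (n + 1 + 2 * a - b - c - e) * ((1 + a - b + n) * (1 + a - c + n) * (1 + a - e + n)) := by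
    ring
  have e1 : a + 2 * ((n : ℝ) + 1) = a + 2 * n + 2 := by ring
  have e2 : (n : ℝ) + 1 + 1 + 2 * a - b - c - e = n + 2 + 2 * a - b - c - e := by ring
  rw [e1, e2]
  have l1 : tw a b c e n / Cw a b c e *
      ((a + n) * (a + 1 + 2 * n) * ((1 + a - b - c) * (1 + a - b - e) * (1 + a - c - e)) /
        ((a + 2 * n) * (1 + a - b - c - e) * ((1 + a - b + n) * (1 + a - c + n) * (1 + a - e + n)))) -
      tw a b c e n / Cw a b c e = tw a b c e n / Cw a b c e *
      (((a + n) * (a + 1 + 2 * n) * ((1 + a - b - c) * (1 + a - b - e) * (1 + a - c - e)) -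
      (a + 2 * n) * (1 + a - b - c - e) * ((1 + a - b + n) * (1 + a - c + n) * (1 + a - e + n))) /
        ((a + 2 * n) * (1 + a - b - c - e) * ((1 + a - b + n) * (1 + a - c + n) * (1 + a - e + n)))) := by
    rw [sub_div, div_self (by positivity)]
    ring
  rw [l1, key]
  generalize tw a b c e n = T
  generalize Cw a b c e = C at *
  generalize 1 + a - b + (n : ℝ) = Y1 at *
  generalize 1 + a - c + (n : ℝ) = Y2 at *
  generalize 1 + a - e + (n : ℝ) = Y3 at *
  generalize a + 2 * (n : ℝ) = Y4 at *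
  generalize 1 + a - b - c - e = X4 at *
  generalize (n : ℝ) + 2 + 2 * a - b - c - e = Z1 at *
  generalize (n : ℝ) + 1 + 2 * a - b - c - e = Z2 at *
  field_simp

private lemma HH_zero (a b c e : ℝ) : HH a b c e 0 = 0 := by simp [HH]

private lemma HH_nonneg {a b c e : ℝ} (ha : 0 < a) (hb : 0 < b) (hc : 0 < c) (he : 0 < e)
    (hS : 0 < 1 + a - b - c - e) (n : ℕ) : 0 ≤ HH a b c e n := by
  have hn : (0 : ℝ) ≤ n := Nat.cast_nonneg n
  have hC := Cw_pos ha hb hc he hS
  have hT := tw_nonneg ha hb hc he hS n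
  have h1 : 0 < (n : ℝ) + 1 + 2 * a - b - c - e := by linarith
  unfold HH
  have h2 : 0 ≤ tw a b c e n / Cw a b c e := div_nonneg hT hC.le
  have h3 : 0 < a + 2 * (n : ℝ) := by positivity
  exact mul_nonneg (div_nonneg (mul_nonneg hn h1.le) (mul_pos h3 hS).le) h2

private lemma sum_step {a b c e : ℝ} (ha : 0 < a) (hb : 0 < b) (hc : 0 < c) (he : 0 < e)
    (hS : 0 < 1 + a - b - c - e) (N : ℕ) :
    ∑ n ∈ Finset.range N, tw a b c e n / Cw a b c e ≤
      ∑ n ∈ Finset.range N, tw (a + 1) b c e n / Cw (a + 1) b c e := by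
  rw [← sub_nonneg, ← Finset.sum_sub_distrib]
  have : ∑ n ∈ Finset.range N, (tw (a + 1) b c e n / Cw (a + 1) b c e - tw a b c e n / Cw a b c e) =
      ∑ n ∈ Finset.range N, (HH a b c e (n + 1) - HH a b c e n) :=
    Finset.sum_congr rfl fun n _ => cert ha hb hc he hS n
  rw [this, Finset.sum_range_sub, HH_zero, sub_zero]
  exact HH_nonneg ha hb hc he hS N

private lemma sum_steps {a b c e : ℝ} (ha : 0 < a) (hb : 0 < b) (hc : 0 < c) (he : 0 < e)
    (hS : 0 < 1 + a - b - c - e) (N K : ℕ) :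
    ∑ n ∈ Finset.range N, tw a b c e n / Cw a b c e ≤
      ∑ n ∈ Finset.range N, tw (a + K) b c e n / Cw (a + K) b c e := by
  induction K with
  | zero => simp
  | succ K ih =>
    have hK : (0 : ℝ) ≤ K := Nat.cast_nonneg K
    have h := sum_step (a := a + K) (by positivity) hb hc he (by linarith) N
    have e1 : a + ((K + 1 : ℕ) : ℝ) = a + K + 1 := by push_cast; ring
    rw [e1]
    exact ih.trans h

private lemma Cw_lim {a b c e : ℝ} (ha : 0 < a) (hb : 0 < b) (hc : 0 < c) (he : 0 < e)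
    (hS : 0 < 1 + a - b - c - e) :
    Tendsto (fun K : ℕ => Cw (a + K) b c e) atTop (𝓝 1) := by
  have p1 : 0 < 1 + a - b := by linarith
  have p2 : 0 < 1 + a - c := by linarith
  have p3 : 0 < 1 + a - e := by linarith
  have p5 : 0 < 1 + a := by linarith
  have p6 : 0 < 1 + a - b - c := by linarith
  have p7 : 0 < 1 + a - b - e := by linarith
  have p8 : 0 < 1 + a - c - e := by linarith
  have t1 := Gam_ratio_tendsto p1 p5
  have t2 := Gam_ratio_tendsto p2 p6
  have t3 := Gam_ratio_tendsto p3 p7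
  have t4 := Gam_ratio_tendsto hS p8
  have t := ((t1.mul t2).mul t3).mul t4
  simp only [mul_one] at t
  refine t.congr' ?_
  filter_upwards [eventually_gt_atTop 0] with K hK
  have hK' : (0 : ℝ) < K := by exact_mod_cast hK
  have r1 : 1 + a - (1 + a - b) = b := by ring
  have r2 : 1 + a - b - c - (1 + a - c) = -b := by ring
  have r3 : 1 + a - b - e - (1 + a - e) = -b := by ring
  have r4 : 1 + a - c - e - (1 + a - b - c - e) = b := by ring
  rw [r1, r2, r3, r4, Real.rpow_neg hK'.le]
  have hb' : (0 : ℝ) < (K : ℝ) ^ b := Real.rpow_pos_of_pos hK' b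
  unfold Cw
  have e1 : 1 + (a + (K : ℝ)) - b = 1 + a - b + K := by ring
  have e2 : 1 + (a + (K : ℝ)) - c = 1 + a - c + K := by ring
  have e3 : 1 + (a + (K : ℝ)) - e = 1 + a - e + K := by ring
  have e4 : 1 + a - b + (K : ℝ) - c - e = 1 + a - b - c - e + K := by ring
  have e5 : 1 + (a + (K : ℝ)) = 1 + a + K := by ring
  have e6 : 1 + a - b + (K : ℝ) - c = 1 + a - b - c + K := by ring
  have e7 : 1 + a - b + (K : ℝ) - e = 1 + a - b - e + K := by ring
  have e8 : 1 + a - c + (K : ℝ) - e = 1 + a - c - e + K := by ring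
  have e4' : 1 + a - b - c + (K : ℝ) - e = 1 + a - b - c - e + K := by ring
  rw [e1, e2, e3, e5, e6, e7, e8, e4']
  have g5 := Real.Gamma_pos_of_pos (show 0 < 1 + a + (K : ℝ) by linarith)
  have g6 := Real.Gamma_pos_of_pos (show 0 < 1 + a - b - c + (K : ℝ) by linarith)
  have g7 := Real.Gamma_pos_of_pos (show 0 < 1 + a - b - e + (K : ℝ) by linarith)
  have g8 := Real.Gamma_pos_of_pos (show 0 < 1 + a - c - e + (K : ℝ) by linarith)
  generalize Real.Gamma (1 + a - b + (K : ℝ)) = G1
  generalize Real.Gamma (1 + a - c + (K : ℝ)) = G2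
  generalize Real.Gamma (1 + a - e + (K : ℝ)) = G3
  generalize Real.Gamma (1 + a - b - c - e + (K : ℝ)) = G4
  generalize Real.Gamma (1 + a + (K : ℝ)) = G5 at *
  generalize Real.Gamma (1 + a - b - c + (K : ℝ)) = G6 at *
  generalize Real.Gamma (1 + a - b - e + (K : ℝ)) = G7 at *
  generalize Real.Gamma (1 + a - c - e + (K : ℝ)) = G8 at *
  generalize (K : ℝ) ^ b = Q at *
  field_simp

private lemma lin_ratio (p q : ℝ) :
    Tendsto (fun K : ℕ => (p + (K : ℝ)) / (q + (K : ℝ))) atTop (𝓝 1) := by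
  have h3 : Tendsto (fun K : ℕ => 1 + (p - q) / (q + (K : ℝ))) atTop (𝓝 (1 + 0)) := by
    refine tendsto_const_nhds.add ?_
    exact Tendsto.div_atTop tendsto_const_nhds
      (tendsto_atTop_add_const_left _ _ tendsto_natCast_atTop_atTop)
  rw [add_zero] at h3
  refine h3.congr' ?_
  have h4 : Tendsto (fun K : ℕ => q + (K : ℝ)) atTop atTop :=
    tendsto_atTop_add_const_left _ _ tendsto_natCast_atTop_atTop
  filter_upwards [h4.eventually_gt_atTop 0] with K hK
  have hK' : q + (K : ℝ) ≠ 0 := ne_of_gt hK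
  field_simp
  ring

private lemma tw_lim (a b c e : ℝ) (n : ℕ) :
    Tendsto (fun K : ℕ => tw (a + K) b c e n) atTop (𝓝 (if n = 0 then 1 else 0)) := by
  induction n with
  | zero => simp [tw]
  | succ n ih =>
    have r1 := lin_ratio (a + n) (1 + a - b + n)
    have r2 := lin_ratio (a + 2 * n + 2) (a + 2 * n)
    have h4 : Tendsto (fun K : ℕ => 1 + a - c + n + (K : ℝ)) atTop atTop :=
      tendsto_atTop_add_const_left _ _ tendsto_natCast_atTop_atTop
    have h5 : Tendsto (fun K : ℕ => 1 + a - e + n + (K : ℝ)) atTop atTop :=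
      tendsto_atTop_add_const_left _ _ tendsto_natCast_atTop_atTop
    have r3 : Tendsto (fun K : ℕ => ((b + n) * (c + n) * (e + n) / ((n : ℝ) + 1)) / (1 + a - c + n + (K : ℝ)))
        atTop (𝓝 0) := Tendsto.div_atTop tendsto_const_nhds h4
    have r4 : Tendsto (fun K : ℕ => (1 : ℝ) / (1 + a - e + n + (K : ℝ))) atTop (𝓝 0) :=
      Tendsto.div_atTop tendsto_const_nhds h5
    have t := ih.mul ((r1.mul r2).mul (r3.mul r4))
    have z : (if n = 0 then (1 : ℝ) else 0) * (1 * 1 * (0 * 0)) = 0 := by ring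
    rw [z] at t
    simp only [Nat.succ_ne_zero, if_false]
    refine t.congr fun K => ?_
    rw [tw]
    have e1 : 1 + (a + (K : ℝ)) - b + n = 1 + a - b + n + K := by ring
    have e2 : 1 + (a + (K : ℝ)) - c + n = 1 + a - c + n + K := by ring
    have e3 : 1 + (a + (K : ℝ)) - e + n = 1 + a - e + n + K := by ring
    have e4 : a + (K : ℝ) + 2 * n = a + 2 * n + K := by ring
    have e5 : a + 2 * n + (K : ℝ) + 2 = a + 2 * n + 2 + K := by ring
    have e6 : a + (K : ℝ) + n = a + n + K := by ring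
    rw [e1, e2, e3, e4, e5, e6]
    simp only [div_eq_mul_inv, mul_inv]
    ring

theorem tw_sum {a b c e : ℝ} (ha : 0 < a) (hb : 0 < b) (hc : 0 < c) (he : 0 < e) (hS : 0 < 1 + a - b - c - e) (N : ℕ) :
    ∑ n ∈ Finset.range N, tw a b c e n ≤ Cw a b c e := by
  have hC := Cw_pos ha hb hc he hS
  rcases Nat.eq_zero_or_pos N with rfl | hN
  · simpa using hC.le
  have hlim : Tendsto (fun K : ℕ => ∑ n ∈ Finset.range N, tw (a + K) b c e n / Cw (a + K) b c e) atTop
      (𝓝 (∑ n ∈ Finset.range N, (if n = 0 then (1 : ℝ) else 0) / 1)) := by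
    refine tendsto_finsetSum _ fun n _ => ?_
    exact (tw_lim a b c e n).div (Cw_lim ha hb hc he hS) one_ne_zero
  have hs : ∑ n ∈ Finset.range N, (if n = 0 then (1 : ℝ) else 0) / 1 = 1 := by
    simp [Finset.sum_ite_eq', hN.ne']
  rw [hs] at hlim
  have h := ge_of_tendsto' hlim (fun K => sum_steps ha hb hc he hS N K)
  rw [← Finset.sum_div] at h
  exact (div_le_one hC).mp h

end Pool.Agent.HRJ
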