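import Pool.Agent.HRJ.Defs

/-!
# HRJ-N1a: the very well poised sum (WZ)

PROOF PLAN.  All parameters positive, `S = 1 + a - b - c - e > 0` (so all Gamma arguments in `Cw` and all factors are positive).  Put `s a n = tw a b c e n / Cw a b c e`.
`tw (a+1) n = tw a n * (a+n)/a * (a+1+2n)/(a+1) * a/(a+2n) * ∏_{x = b,c,e} (1+a-x)/(1+a-x+n)` (induction on `n`), `Cw (a+1)/Cw a = (1+a-b)(1+a-c)(1+a-e)(1+a-b-c-e)/((1+a)(1+a-b-c)(1+a-b-e)(1+a-c-e))` (`Real.Gamma_add_one`).
Certificate: `H a n = n (n+1+2a-b-c-e)/((a+2n)(1+a-b-c-e)) * s a n`; `s (a+1) n - s a n = H a (n+1) - H a n` (rational identity, `field_simp; ring`; checked).  Sum over `n < N`: `∑ s a n ≤ ∑ s (a+1) n` (`H a N ≥ 0`, `H a 0 = 0`), hence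
`∑_{n<N} s a n ≤ ∑_{n<N} s (a+K) n` for all `K`.  As `K → ∞`: `Cw (a+K) → 1` (`Gamma (x+K+1)/(K! K^x) → 1`: `Real.tendsto_logGammaSeq` / `Real.GammaSeq_tendsto_Gamma`; the exponents add up to the same number in the numerator and in the denominator),
`tw (a+K) b c e 0 = 1`, `tw (a+K) b c e n → 0` for `n ≥ 1` (induction: the ratio is `O(1/K)`).  So the limit is 1 (`ge_of_tendsto`).
-/

set_option autoImplicit false

namespace Pool.Agent.HRJ

open MeasureTheory ProbabilityTheory Set Filter Topology Metric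
open Pool.Agent.HP89 Pool.Agent.FI75 Pool.Agent.PBL
open scoped RealInnerProductSpace ENNReal

private lemma gam_add_nat (x : ℝ) (hx : 0 < x) (n : ℕ) :
    Real.Gamma (x + (n + 1 : ℕ)) = (∏ j ∈ Finset.range (n + 1), (x + j)) * Real.Gamma x := by
  induction n with
  | zero =>
    simp [Real.Gamma_add_one hx.ne']
  | succ n ih =>
    rw [Finset.prod_range_succ]
    have h1 : x + ((n + 1 + 1 : ℕ) : ℝ) = (x + ((n + 1 : ℕ) : ℝ)) + 1 := by push_cast; ring
    have h2 : x + ((n + 1 : ℕ) : ℝ) ≠ 0 := by positivity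
    rw [h1, Real.Gamma_add_one h2, ih]
    ring

private lemma seq_eq (x : ℝ) (hx : 0 < x) (n : ℕ) (hn : 0 < n) :
    Real.Gamma (x + (n + 1 : ℕ)) = (n : ℝ) ^ x * (n.factorial : ℝ) * Real.Gamma x / Real.GammaSeq x n := by
  have hn' : (0 : ℝ) < n := by exact_mod_cast hn
  have hp : 0 < ∏ j ∈ Finset.range (n + 1), (x + j) :=
    Finset.prod_pos fun j _ => by positivity
  have h1 : (0 : ℝ) < (n : ℝ) ^ x := Real.rpow_pos_of_pos hn' x
  have h2 : (0 : ℝ) < (n.factorial : ℝ) := by exact_mod_cast n.factorial_pos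
  rw [gam_add_nat x hx n, Real.GammaSeq]
  field_simp

theorem Gam_ratio_tendsto {x y : ℝ} (hx : 0 < x) (hy : 0 < y) :
    Tendsto (fun K : ℕ => Real.Gamma (x + K) / Real.Gamma (y + K) * ((K : ℝ) ^ (y - x))) atTop (𝓝 1) := by
  have hGx := Real.Gamma_pos_of_pos hx
  have hGy := Real.Gamma_pos_of_pos hy
  have hsx := Real.GammaSeq_tendsto_Gamma x
  have hsy := Real.GammaSeq_tendsto_Gamma y
  have hA : Tendsto (fun K : ℕ => (Real.Gamma x / Real.GammaSeq x K) * (Real.GammaSeq y K / Real.Gamma y))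
      atTop (𝓝 1) := by
    have h1 : Tendsto (fun K : ℕ => Real.Gamma x / Real.GammaSeq x K) atTop
        (𝓝 (Real.Gamma x / Real.Gamma x)) := tendsto_const_nhds.div hsx hGx.ne'
    have h2 : Tendsto (fun K : ℕ => Real.GammaSeq y K / Real.Gamma y) atTop
        (𝓝 (Real.Gamma y / Real.Gamma y)) := hsy.div_const _
    rw [div_self hGx.ne'] at h1
    rw [div_self hGy.ne'] at h2
    simpa using h1.mul h2
  have hB : Tendsto (fun K : ℕ => (y + (K : ℝ)) / (x + (K : ℝ))) atTop (𝓝 1) := by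
    have h3 : Tendsto (fun K : ℕ => 1 + (y - x) / (x + (K : ℝ))) atTop (𝓝 (1 + 0)) := by
      refine tendsto_const_nhds.add ?_
      exact Tendsto.div_atTop tendsto_const_nhds
        (tendsto_atTop_add_const_left _ _ tendsto_natCast_atTop_atTop)
    rw [add_zero] at h3
    refine h3.congr fun K => ?_
    have : x + (K : ℝ) ≠ 0 := by positivity
    field_simp
    ring
  have hAB := hA.mul hB
  rw [mul_one] at hAB
  refine hAB.congr' ?_
  filter_upwards [eventually_gt_atTop 0] with K hK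
  have hK' : (0 : ℝ) < K := by exact_mod_cast hK
  have hxK : x + (K : ℝ) ≠ 0 := by positivity
  have hyK : y + (K : ℝ) ≠ 0 := by positivity
  have e1 := seq_eq x hx K hK
  have e2 := seq_eq y hy K hK
  have f1 : x + ((K + 1 : ℕ) : ℝ) = (x + (K : ℝ)) + 1 := by push_cast; ring
  have f2 : y + ((K + 1 : ℕ) : ℝ) = (y + (K : ℝ)) + 1 := by push_cast; ring
  rw [f1, Real.Gamma_add_one hxK] at e1
  rw [f2, Real.Gamma_add_one hyK] at e2
  have hpx : (0 : ℝ) < (K : ℝ) ^ x := Real.rpow_pos_of_pos hK' x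
  have hpy : (0 : ℝ) < (K : ℝ) ^ y := Real.rpow_pos_of_pos hK' y
  have hfac : (0 : ℝ) < (K.factorial : ℝ) := by exact_mod_cast K.factorial_pos
  have hqx : 0 < Real.GammaSeq x K := by
    rw [Real.GammaSeq]
    have hp : 0 < ∏ j ∈ Finset.range (K + 1), (x + j) :=
      Finset.prod_pos fun j _ => by positivity
    positivity
  have hqy : 0 < Real.GammaSeq y K := by
    rw [Real.GammaSeq]
    have hp : 0 < ∏ j ∈ Finset.range (K + 1), (y + j) :=
      Finset.prod_pos fun j _ => by positivity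
    positivity
  have g1 : Real.Gamma (x + K) = (K : ℝ) ^ x * (K.factorial : ℝ) * Real.Gamma x / Real.GammaSeq x K / (x + K) := by
    rw [← e1]; field_simp
  have g2 : Real.Gamma (y + K) = (K : ℝ) ^ y * (K.factorial : ℝ) * Real.Gamma y / Real.GammaSeq y K / (y + K) := by
    rw [← e2]; field_simp
  have g3 : (K : ℝ) ^ (y - x) = (K : ℝ) ^ y / (K : ℝ) ^ x := Real.rpow_sub hK' y x
  rw [g1, g2, g3]
  generalize (K : ℝ) ^ x = P at *
  generalize (K : ℝ) ^ y = Q at *
  generalize Real.GammaSeq x K = S at *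
  generalize Real.GammaSeq y K = T at *
  generalize Real.Gamma x = U at *
  generalize Real.Gamma y = V at *
  generalize (K.factorial : ℝ) = F at *
  field_simp

end Pool.Agent.HRJ
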