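import Pool.Agent.HRJ.N1

/-!
# HRJ-N2: the alternating very well poised sum (WZ)

PROOF PLAN.  As N1 without `e`: `s a n = ta a b c n / Ca a b c`, certificate `H a n = n/(a+2n) * s a n`, which has the sign `(-1)^n`.  So for even `N` the sum `∑_{n<N} s a n` increases under `a → a + 1` (`H a N ≥ 0`), for odd `N` it decreases; the limit is 1
(`Ca (a+K) → 1` by `Gam_ratio_tendsto`, `ta (a+K) b c n → 0` for `n ≥ 1`).
-/

set_option autoImplicit false

namespace Pool.Agent.HRJ

open MeasureTheory ProbabilityTheory Set Filter Topology Metric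
open Pool.Agent.HP89 Pool.Agent.FI75 Pool.Agent.PBL
open scoped RealInnerProductSpace ENNReal

private lemma hrjn2_sign {a b c : ℝ} (ha : 0 < a) (hb : 0 < b) (hc : 0 < c) (hS : 0 < 1 + a - b - c) (n : ℕ) :
    0 < (-1) ^ n * ta a b c n := by
  induction n with
  | zero => simp [ta]
  | succ n ih =>
    have hn : (0:ℝ) ≤ n := Nat.cast_nonneg n
    have h1 : 0 < 1 + a - b + n := by linarith
    have h2 : 0 < 1 + a - c + n := by linarith
    have hf : 0 < (a + n) * (a + 2 * n + 2) * (b + n) * (c + n) /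
      (((n : ℝ) + 1) * (a + 2 * n) * (1 + a - b + n) * (1 + a - c + n)) := by positivity
    have h3 : (-1 : ℝ) ^ (n + 1) * ta a b c (n + 1) = ((-1) ^ n * ta a b c n) * ((a + n) * (a + 2 * n + 2) * (b + n) * (c + n) /
      (((n : ℝ) + 1) * (a + 2 * n) * (1 + a - b + n) * (1 + a - c + n))) := by
      rw [pow_succ]
      simp only [ta]
      ring
    rw [h3]
    exact mul_pos ih hf

private lemma hrjn2_shift {a b c : ℝ} (ha : 0 < a) (hb : 0 < b) (hc : 0 < c) (hS : 0 < 1 + a - b - c) (n : ℕ) :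
    ta (a + 1) b c n * ((a + 1) * (a + 2 * n) * (1 + a - b + n) * (1 + a - c + n)) =
      ta a b c n * ((a + n) * (a + 1 + 2 * n) * (1 + a - b) * (1 + a - c)) := by
  induction n with
  | zero =>
    simp only [ta, Nat.cast_zero]
    ring
  | succ n ih =>
    have hn : (0:ℝ) ≤ n := Nat.cast_nonneg n
    have h1 : 0 < 1 + a - b + n := by linarith
    have h2 : 0 < 1 + a - c + n := by linarith
    have h3 : 0 < 1 + (a + 1) - b + n := by linarith
    have h4 : 0 < 1 + (a + 1) - c + n := by linarith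
    have h5 : 0 < a + 2 * n := by positivity
    have h6 : 0 < a + 1 + 2 * n := by positivity
    have h7 : (0:ℝ) < n + 1 := by positivity
    have h8 : ta (a + 1) b c n = ta a b c n * ((a + n) * (a + 1 + 2 * n) * (1 + a - b) * (1 + a - c)) /
        ((a + 1) * (a + 2 * n) * (1 + a - b + n) * (1 + a - c + n)) := by
      rw [eq_div_iff (by positivity)]
      exact ih
    simp only [ta]
    rw [h8]
    push_cast
    have h1' := h1.ne'
    have h2' := h2.ne'
    have h3' := h3.ne'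
    have h4' := h4.ne'
    have h5' := h5.ne'
    have h6' := h6.ne'
    have h7' := h7.ne'
    have ha1 : a + 1 ≠ 0 := by positivity
    field_simp
    ring

private lemma hrjn2_Ca_pos {a b c : ℝ} (ha : 0 < a) (hb : 0 < b) (hc : 0 < c) (hS : 0 < 1 + a - b - c) :
    0 < Ca a b c := by
  unfold Ca
  have h1 := Real.Gamma_pos_of_pos (show 0 < 1 + a - b by linarith)
  have h2 := Real.Gamma_pos_of_pos (show 0 < 1 + a - c by linarith)
  have h3 := Real.Gamma_pos_of_pos (show 0 < 1 + a by linarith)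
  have h4 := Real.Gamma_pos_of_pos hS
  positivity

private lemma hrjn2_Ca_shift {a b c : ℝ} (ha : 0 < a) (hb : 0 < b) (hc : 0 < c) (hS : 0 < 1 + a - b - c) :
    Ca (a + 1) b c * ((1 + a) * (1 + a - b - c)) = Ca a b c * ((1 + a - b) * (1 + a - c)) := by
  unfold Ca
  have p1 : 0 < 1 + a - b := by linarith
  have p2 : 0 < 1 + a - c := by linarith
  have p3 : 0 < 1 + a := by linarith
  have h1 := Real.Gamma_pos_of_pos p1
  have h2 := Real.Gamma_pos_of_pos p2
  have h3 := Real.Gamma_pos_of_pos p3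
  have h4 := Real.Gamma_pos_of_pos hS
  have e1 : Real.Gamma (1 + (a + 1) - b) = (1 + a - b) * Real.Gamma (1 + a - b) := by
    rw [← Real.Gamma_add_one p1.ne']; ring_nf
  have e2 : Real.Gamma (1 + (a + 1) - c) = (1 + a - c) * Real.Gamma (1 + a - c) := by
    rw [← Real.Gamma_add_one p2.ne']; ring_nf
  have e3 : Real.Gamma (1 + (a + 1)) = (1 + a) * Real.Gamma (1 + a) := by
    rw [← Real.Gamma_add_one p3.ne']; ring_nf
  have e4 : Real.Gamma (1 + (a + 1) - b - c) = (1 + a - b - c) * Real.Gamma (1 + a - b - c) := by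
    rw [← Real.Gamma_add_one hS.ne']; ring_nf
  rw [e1, e2, e3, e4]
  have h3' := h3.ne'
  have h4' := h4.ne'
  have p3' := p3.ne'
  have hS' := hS.ne'
  field_simp

private lemma hrjn2_step {a b c : ℝ} (ha : 0 < a) (hb : 0 < b) (hc : 0 < c) (hS : 0 < 1 + a - b - c) (n : ℕ) :
    ta (a + 1) b c n / Ca (a + 1) b c - ta a b c n / Ca a b c =
      ((n : ℝ) + 1) / (a + 2 * n + 2) * (ta a b c (n + 1) / Ca a b c) - (n : ℝ) / (a + 2 * n) * (ta a b c n / Ca a b c) := by
  have hn : (0:ℝ) ≤ n := Nat.cast_nonneg n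
  have p1 : 0 < 1 + a - b := by linarith
  have p2 : 0 < 1 + a - c := by linarith
  have p3 : 0 < 1 + a := by linarith
  have h1 : 0 < 1 + a - b + n := by linarith
  have h2 : 0 < 1 + a - c + n := by linarith
  have h5 : 0 < a + 2 * n := by positivity
  have h6 : 0 < a + 2 * n + 2 := by positivity
  have h7 : (0:ℝ) < n + 1 := by positivity
  have hC := hrjn2_Ca_pos ha hb hc hS
  have hC1 : Ca (a + 1) b c = Ca a b c * ((1 + a - b) * (1 + a - c)) / ((1 + a) * (1 + a - b - c)) := by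
    rw [eq_div_iff (by positivity)]
    exact hrjn2_Ca_shift ha hb hc hS
  have h8 : ta (a + 1) b c n = ta a b c n * ((a + n) * (a + 1 + 2 * n) * (1 + a - b) * (1 + a - c)) /
      ((a + 1) * (a + 2 * n) * (1 + a - b + n) * (1 + a - c + n)) := by
    rw [eq_div_iff (by positivity)]
    exact hrjn2_shift ha hb hc hS n
  rw [h8, hC1]
  simp only [ta]
  have p1' := p1.ne'
  have p2' := p2.ne'
  have p3' := p3.ne'
  have h1' := h1.ne'
  have h2' := h2.ne'
  have h5' := h5.ne'
  have h6' := h6.ne'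
  have h7' := h7.ne'
  have hC' := hC.ne'
  have hS' := hS.ne'
  have ha1 : a + 1 ≠ 0 := by positivity
  field_simp
  ring

private lemma hrjn2_sum_step {a b c : ℝ} (ha : 0 < a) (hb : 0 < b) (hc : 0 < c) (hS : 0 < 1 + a - b - c) (N : ℕ) :
    ∑ n ∈ Finset.range N, ta (a + 1) b c n / Ca (a + 1) b c - ∑ n ∈ Finset.range N, ta a b c n / Ca a b c =
      (N : ℝ) / (a + 2 * N) * (ta a b c N / Ca a b c) := by
  induction N with
  | zero => simp
  | succ n ih =>
    rw [Finset.sum_range_succ, Finset.sum_range_succ]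
    have h := hrjn2_step ha hb hc hS n
    have e : (((n + 1 : ℕ) : ℝ)) / (a + 2 * ((n + 1 : ℕ) : ℝ)) = ((n : ℝ) + 1) / (a + 2 * n + 2) := by
      push_cast
      ring_nf
    rw [e]
    linarith

private lemma hrjn2_ta_bdd_tendsto {a b c : ℝ} (n : ℕ) :
    Tendsto (fun K : ℕ => ta (a + K) b c (n + 1)) atTop (𝓝 0) := by
  have hr : ∀ n : ℕ, Tendsto (fun K : ℕ => ((a + K) + n) * ((a + K) + 2 * n + 2) * (b + n) * (c + n) /
      (((n : ℝ) + 1) * ((a + K) + 2 * n) * (1 + (a + K) - b + n) * (1 + (a + K) - c + n))) atTop (𝓝 0) := by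
    intro n
    have hK : Tendsto (fun K : ℕ => (K : ℝ)) atTop atTop := tendsto_natCast_atTop_atTop
    have hlin : ∀ s : ℝ, Tendsto (fun K : ℕ => (s + K) / (K : ℝ)) atTop (𝓝 1) := by
      intro s
      have h1 : Tendsto (fun K : ℕ => s / (K : ℝ) + 1) atTop (𝓝 (0 + 1)) :=
        (tendsto_const_div_atTop_nhds_zero_nat s).add tendsto_const_nhds
      rw [zero_add] at h1
      refine h1.congr' ?_
      filter_upwards [eventually_gt_atTop 0] with K hKp
      have hKp' : (K : ℝ) ≠ 0 := by positivity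
      field_simp
    have hinv : Tendsto (fun K : ℕ => (1 : ℝ) / (K : ℝ)) atTop (𝓝 0) := tendsto_const_div_atTop_nhds_zero_nat 1
    have hlim : Tendsto (fun K : ℕ => ((a + n) + K) / (K : ℝ) * (((a + 2 * n + 2) + K) / (K : ℝ)) * ((b + n) * (c + n)) * (1 / (K : ℝ)) /
        (((n : ℝ) + 1) * (((a + 2 * n) + K) / (K : ℝ)) * (((1 + a - b + n) + K) / (K : ℝ)) * (((1 + a - c + n) + K) / (K : ℝ)))) atTop
        (𝓝 ((1 * 1 * ((b + n) * (c + n)) * 0) / (((n : ℝ) + 1) * 1 * 1 * 1))) := by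
      refine Tendsto.div ?_ ?_ ?_
      · exact (((hlin _).mul (hlin _)).mul tendsto_const_nhds).mul hinv
      · exact (((tendsto_const_nhds).mul (hlin _)).mul (hlin _)).mul (hlin _)
      · positivity
    rw [mul_zero, zero_div] at hlim
    refine hlim.congr' ?_
    filter_upwards [eventually_gt_atTop 0, hK.eventually_gt_atTop (-(a + 2 * n)), hK.eventually_gt_atTop (-(1 + a - b + n)),
      hK.eventually_gt_atTop (-(1 + a - c + n))] with K hKp k1 k2 k3
    have hKp' : (K : ℝ) ≠ 0 := by positivity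
    have q1 : (a + 2 * n) + (K : ℝ) ≠ 0 := by intro h; linarith
    have q2 : (1 + a - b + n) + (K : ℝ) ≠ 0 := by intro h; linarith
    have q3 : (1 + a - c + n) + (K : ℝ) ≠ 0 := by intro h; linarith
    have q0 : (n : ℝ) + 1 ≠ 0 := by positivity
    have r1 : (a + K) + 2 * (n : ℝ) = (a + 2 * n) + (K : ℝ) := by ring
    have r2 : 1 + (a + K) - b + (n : ℝ) = (1 + a - b + n) + (K : ℝ) := by ring
    have r3 : 1 + (a + K) - c + (n : ℝ) = (1 + a - c + n) + (K : ℝ) := by ring
    rw [r1, r2, r3]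
    field_simp
    ring
  have hb : ∀ m : ℕ, ∃ l : ℝ, Tendsto (fun K : ℕ => ta (a + K) b c m) atTop (𝓝 l) := by
    intro m
    induction m with
    | zero => exact ⟨1, by simp only [ta]; exact tendsto_const_nhds⟩
    | succ m ih =>
      obtain ⟨l, hl⟩ := ih
      refine ⟨-(l * 0), ?_⟩
      simp only [ta]
      exact (hl.mul (hr m)).neg
  obtain ⟨l, hl⟩ := hb n
  have h := (hl.mul (hr n)).neg
  rw [mul_zero, neg_zero] at h
  simp only [ta]
  exact h

private lemma hrjn2_Ca_tendsto {a b c : ℝ} (ha : 0 < a) (hb : 0 < b) (hc : 0 < c) (hS : 0 < 1 + a - b - c) :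
    Tendsto (fun K : ℕ => Ca (a + K) b c) atTop (𝓝 1) := by
  have p1 : 0 < 1 + a - b := by linarith
  have p2 : 0 < 1 + a - c := by linarith
  have p3 : 0 < 1 + a := by linarith
  have h1 := Gam_ratio_tendsto p1 p3
  have h2 := Gam_ratio_tendsto p2 hS
  have h := h1.mul h2
  rw [mul_one] at h
  refine h.congr' ?_
  filter_upwards [eventually_gt_atTop 0] with K hK
  have hK' : (0 : ℝ) < K := by exact_mod_cast hK
  have e : (K : ℝ) ^ (1 + a - (1 + a - b)) * (K : ℝ) ^ (1 + a - b - c - (1 + a - c)) = 1 := by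
    rw [← Real.rpow_add hK']
    have : 1 + a - (1 + a - b) + (1 + a - b - c - (1 + a - c)) = 0 := by ring
    rw [this, Real.rpow_zero]
  have r1 : 1 + (a + K) - b = 1 + a - b + (K : ℝ) := by ring
  have r2 : 1 + (a + K) - c = 1 + a - c + (K : ℝ) := by ring
  have r3 : 1 + (a + K) = 1 + a + (K : ℝ) := by ring
  have r4 : 1 + (a + K) - b - c = 1 + a - b - c + (K : ℝ) := by ring
  unfold Ca
  rw [r4, r1, r2, r3]
  calc Real.Gamma (1 + a - b + K) / Real.Gamma (1 + a + K) * (K : ℝ) ^ (1 + a - (1 + a - b)) *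
        (Real.Gamma (1 + a - c + K) / Real.Gamma (1 + a - b - c + K) * (K : ℝ) ^ (1 + a - b - c - (1 + a - c)))
      = Real.Gamma (1 + a - b + K) / Real.Gamma (1 + a + K) *
        (Real.Gamma (1 + a - c + K) / Real.Gamma (1 + a - b - c + K)) *
        ((K : ℝ) ^ (1 + a - (1 + a - b)) * (K : ℝ) ^ (1 + a - b - c - (1 + a - c))) := by ring
    _ = _ := by rw [e, mul_one, div_mul_div_comm]

private lemma hrjn2_sum_tendsto {a b c : ℝ} (ha : 0 < a) (hb : 0 < b) (hc : 0 < c) (hS : 0 < 1 + a - b - c) {N : ℕ} (hN : 0 < N) :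
    Tendsto (fun K : ℕ => ∑ n ∈ Finset.range N, ta (a + K) b c n / Ca (a + K) b c) atTop (𝓝 1) := by
  obtain ⟨M, rfl⟩ : ∃ M, N = M + 1 := ⟨N - 1, by omega⟩
  have hC := hrjn2_Ca_tendsto ha hb hc hS
  have h0 : Tendsto (fun K : ℕ => ta (a + K) b c 0 / Ca (a + K) b c) atTop (𝓝 (1 / 1)) := by
    simp only [ta]
    exact tendsto_const_nhds.div hC one_ne_zero
  have hs : Tendsto (fun K : ℕ => ∑ n ∈ Finset.range M, ta (a + K) b c (n + 1) / Ca (a + K) b c) atTop
      (𝓝 (∑ n ∈ Finset.range M, (0 : ℝ) / 1)) :=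
    tendsto_finsetSum _ (fun n _ => (hrjn2_ta_bdd_tendsto n).div hC one_ne_zero)
  have h := hs.add h0
  simp only [zero_div, Finset.sum_const_zero, zero_add, div_one] at h
  refine h.congr ?_
  intro K
  rw [Finset.sum_range_succ']

private lemma hrjn2_shift_pos {a b c : ℝ} (ha : 0 < a) (hS : 0 < 1 + a - b - c) (K : ℕ) :
    0 < a + K ∧ 0 < 1 + (a + K) - b - c := by
  have hK : (0:ℝ) ≤ K := Nat.cast_nonneg K
  constructor <;> linarith

theorem ta_sum_even {a b c : ℝ} (ha : 0 < a) (hb : 0 < b) (hc : 0 < c) (hS : 0 < 1 + a - b - c) {N : ℕ} (hN : Even N) :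
    ∑ n ∈ Finset.range N, ta a b c n ≤ Ca a b c := by
  have hC := hrjn2_Ca_pos ha hb hc hS
  rcases Nat.eq_zero_or_pos N with h0 | hpos
  · subst h0
    simpa using hC.le
  have hmono : Monotone (fun K : ℕ => ∑ n ∈ Finset.range N, ta (a + K) b c n / Ca (a + K) b c) := by
    refine monotone_nat_of_le_succ (fun K => ?_)
    obtain ⟨q1, q2⟩ := hrjn2_shift_pos (b := b) (c := c) ha hS K
    have h := hrjn2_sum_step q1 hb hc q2 N
    have hs := hrjn2_sign q1 hb hc q2 N
    rw [hN.neg_one_pow, one_mul] at hs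
    have hCK := hrjn2_Ca_pos q1 hb hc q2
    have hnn : 0 ≤ (N : ℝ) / (a + K + 2 * N) * (ta (a + K) b c N / Ca (a + K) b c) := by positivity
    have e : a + ((K + 1 : ℕ) : ℝ) = a + K + 1 := by push_cast; ring
    simp only [e]
    linarith
  have hle := hmono.ge_of_tendsto (hrjn2_sum_tendsto ha hb hc hS hpos) 0
  simp only [Nat.cast_zero, add_zero] at hle
  rw [← Finset.sum_div, div_le_one hC] at hle
  exact hle

theorem ta_sum_odd {a b c : ℝ} (ha : 0 < a) (hb : 0 < b) (hc : 0 < c) (hS : 0 < 1 + a - b - c) {N : ℕ} (hN : Odd N) :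
    Ca a b c ≤ ∑ n ∈ Finset.range N, ta a b c n := by
  have hC := hrjn2_Ca_pos ha hb hc hS
  have hpos : 0 < N := hN.pos
  have hanti : Antitone (fun K : ℕ => ∑ n ∈ Finset.range N, ta (a + K) b c n / Ca (a + K) b c) := by
    refine antitone_nat_of_succ_le (fun K => ?_)
    obtain ⟨q1, q2⟩ := hrjn2_shift_pos (b := b) (c := c) ha hS K
    have h := hrjn2_sum_step q1 hb hc q2 N
    have hs := hrjn2_sign q1 hb hc q2 N
    rw [hN.neg_one_pow, neg_one_mul] at hs
    have hCK := hrjn2_Ca_pos q1 hb hc q2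
    have hnn : 0 ≤ (N : ℝ) / (a + K + 2 * N) * (-ta (a + K) b c N / Ca (a + K) b c) := by positivity
    have e2 : (N : ℝ) / (a + K + 2 * N) * (-ta (a + K) b c N / Ca (a + K) b c) =
        -((N : ℝ) / (a + K + 2 * N) * (ta (a + K) b c N / Ca (a + K) b c)) := by ring
    rw [e2] at hnn
    have e : a + ((K + 1 : ℕ) : ℝ) = a + K + 1 := by push_cast; ring
    simp only [e]
    linarith
  have hle := hanti.le_of_tendsto (hrjn2_sum_tendsto ha hb hc hS hpos) 0
  simp only [Nat.cast_zero, add_zero] at hle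
  rw [← Finset.sum_div, one_le_div hC] at hle
  exact hle

end Pool.Agent.HRJ
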