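import Pool.Agent.HRJ.N3a

/-!
# HRJ-N3: the sum over the degrees divisible by four

Notation: `a = 2m + d/2 - 1`, `b = m - 1/2`, `c = (d-p)/2`, `e = (1+a)/2 = m + d/4`; `1 + a - e = e`, so `tw a b c e n = |ta a b c n|`, `ta a b c n = (-1)^n tw a b c e n`.  `t0 = aC d p 0 (2m) * |tT d m|`.
PROOF PLAN.  `term_eq`: induction on `n`: `aC d p (n+1) (2m)/aC d p n (2m)` (Gamma recurrences) times `|tT d (m+n+1)|/|tT d (m+n)| = (2(m+n)-1)/(2(m+n)+d+1)` is the ratio in `tw`.
`sum4`: `aa d p (2(r+1)) m * (-tT d (2(r+1)))` is `t0 * tw n` with `n = 2(r+1) - m` if `m ≤ 2(r+1)` (`tT_four`: `-tT = |tT|`), else 0.  The `n` which occur have the parity of `m` and are `< N'` for `N' = 2N + 3` or so.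
`m` even: `∑_{n even < N'} tw n = (∑_{n<N'} tw + ∑_{n<N'} ta)/2 ≤ (Cw + Ca)/2` for `N'` even (`tw_sum`, `ta_sum_even`; the summands are nonnegative).  `m` odd: `∑_{n odd < N'} tw n = (∑ tw - ∑ ta)/2 ≤ (Cw - Ca)/2` for `N'` odd (`ta_sum_odd`).
Here `1 + a - b - c - e = (2p-d+2)/4 > 0`.
-/

set_option autoImplicit false

namespace Pool.Agent.HRJ

open MeasureTheory ProbabilityTheory Set Filter Topology Metric
open Pool.Agent.HP89 Pool.Agent.FI75 Pool.Agent.PBL
open scoped RealInnerProductSpace ENNReal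

private theorem n3_tw_ta {a b c e : ℝ} (he : 0 < e) (hae : 1 + a - e = e) (n : ℕ) :
    tw a b c e n = (-1) ^ n * ta a b c n := by
  induction n with
  | zero => simp [tw, ta]
  | succ n ih =>
    have h0 : (0 : ℝ) ≤ n := Nat.cast_nonneg n
    have hen : e + (n : ℝ) ≠ 0 := by positivity
    rw [tw, ta, ih, pow_succ, hae, mul_div_mul_right _ _ hen]
    ring

private theorem n3_sum {a b c e : ℝ} (ha : 0 < a) (hb : 0 < b) (hc : 0 < c) (he : 0 < e)
    (hae : 1 + a - e = e) (hS : 0 < 1 + a - b - c - e) (m N : ℕ) :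
    ∑ r ∈ Finset.range N, (if m ≤ 2 * (r + 1) then tw a b c e (2 * (r + 1) - m) else 0) ≤
      (Cw a b c e + (-1) ^ m * Ca a b c) / 2 := by
  set g : ℕ → ℝ := fun n => tw a b c e n * ((1 + (-1) ^ (n + m)) / 2) with hg
  have hg0 : ∀ n, 0 ≤ g n := by
    intro n
    refine mul_nonneg (tw_nonneg ha hb hc he hS n) ?_
    rcases neg_one_pow_eq_or ℝ (n + m) with h | h <;> rw [h] <;> norm_num
  have hS2 : 0 < 1 + a - b - c := by linarith
  have key : ∀ N' : ℕ, 2 * N ≤ N' →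
      ∑ r ∈ Finset.range N, (if m ≤ 2 * (r + 1) then tw a b c e (2 * (r + 1) - m) else 0) ≤
        (∑ n ∈ Finset.range (N' + 1), tw a b c e n +
          (-1) ^ m * ∑ n ∈ Finset.range (N' + 1), ta a b c n) / 2 := by
    intro N' hN'
    have e1 : (∑ n ∈ Finset.range (N' + 1), tw a b c e n +
          (-1) ^ m * ∑ n ∈ Finset.range (N' + 1), ta a b c n) / 2 =
        ∑ n ∈ Finset.range (N' + 1), g n := by
      rw [Finset.mul_sum, ← Finset.sum_add_distrib, Finset.sum_div]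
      refine Finset.sum_congr rfl fun n _ => ?_
      rw [hg]
      dsimp only
      rw [n3_tw_ta he hae n, pow_add]
      have h1 : ((-1 : ℝ) ^ n) * (-1) ^ n = 1 := by
        rw [← mul_pow]
        norm_num
      linear_combination (-(1 / 2) * (-1) ^ m * ta a b c n) * h1
    rw [e1, ← Finset.sum_filter]
    have e2 : ∑ r ∈ (Finset.range N).filter (fun r => m ≤ 2 * (r + 1)),
        tw a b c e (2 * (r + 1) - m) =
        ∑ r ∈ (Finset.range N).filter (fun r => m ≤ 2 * (r + 1)), g (2 * (r + 1) - m) := by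
      refine Finset.sum_congr rfl fun r hr => ?_
      rw [Finset.mem_filter] at hr
      rw [hg]
      dsimp only
      rw [Nat.sub_add_cancel hr.2, pow_mul]
      norm_num
    rw [e2, ← Finset.sum_image (s := (Finset.range N).filter (fun r => m ≤ 2 * (r + 1)))
      (g := fun r => 2 * (r + 1) - m) (f := g)]
    · refine Finset.sum_le_sum_of_subset_of_nonneg ?_ fun n _ _ => hg0 n
      intro n hn
      rw [Finset.mem_image] at hn
      obtain ⟨r, hr, rfl⟩ := hn
      rw [Finset.mem_filter, Finset.mem_range] at hr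
      rw [Finset.mem_range]
      omega
    · intro r hr r' hr' h
      simp only [Finset.coe_filter, Finset.mem_range, Set.mem_ofPred_eq] at hr hr'
      dsimp only at h
      omega
  rcases Nat.even_or_odd m with hme | hmo
  · have h1 := key (2 * N + 1) (by omega)
    have h2 := tw_sum ha hb hc he hS (2 * N + 1 + 1)
    have h3 := ta_sum_even ha hb hc hS2 (N := 2 * N + 1 + 1) ⟨N + 1, by omega⟩
    rw [hme.neg_one_pow] at h1 ⊢
    linarith
  · have h1 := key (2 * N) le_rfl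
    have h2 := tw_sum ha hb hc he hS (2 * N + 1)
    have h3 := ta_sum_odd ha hb hc hS2 (N := 2 * N + 1) ⟨N, rfl⟩
    rw [hmo.neg_one_pow] at h1 ⊢
    linarith

theorem sum4 {d p : ℕ} (hp : 3 ≤ p) (hpd : p < d) (h2 : d + 2 ≤ 2 * p) {m : ℕ} (hm : 1 ≤ m) (N : ℕ) :
    ∑ r ∈ Finset.range N, aa d p (2 * (r + 1)) m * (-tT d (2 * (r + 1))) ≤
      aC d p 0 (2 * m) * |tT d m| *
        (Cw (2 * (m : ℝ) + (d : ℝ) / 2 - 1) ((m : ℝ) - 1 / 2) (((d : ℝ) - p) / 2) ((m : ℝ) + (d : ℝ) / 4) +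
          (-1) ^ m * Ca (2 * (m : ℝ) + (d : ℝ) / 2 - 1) ((m : ℝ) - 1 / 2) (((d : ℝ) - p) / 2)) / 2 := by
  have hmR : (1 : ℝ) ≤ m := by exact_mod_cast hm
  have hpdR : (p : ℝ) < d := by exact_mod_cast hpd
  have hd3 : (3 : ℝ) < d := lt_of_le_of_lt (by exact_mod_cast hp) hpdR
  have h2R : (d : ℝ) + 2 ≤ 2 * p := by exact_mod_cast h2
  have hs := n3_sum (a := 2 * (m : ℝ) + (d : ℝ) / 2 - 1) (b := (m : ℝ) - 1 / 2)
    (c := ((d : ℝ) - p) / 2) (e := (m : ℝ) + (d : ℝ) / 4) (by linarith) (by linarith)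
    (by linarith) (by linarith) (by ring) (by linarith) m N
  have ht0 : 0 ≤ aC d p 0 (2 * m) * |tT d m| :=
    mul_nonneg (aC_pos hp hpd 0 (2 * m)).le (abs_nonneg _)
  have e1 : ∑ r ∈ Finset.range N, aa d p (2 * (r + 1)) m * (-tT d (2 * (r + 1))) =
      aC d p 0 (2 * m) * |tT d m| * ∑ r ∈ Finset.range N, (if m ≤ 2 * (r + 1) then
        tw (2 * (m : ℝ) + (d : ℝ) / 2 - 1) ((m : ℝ) - 1 / 2) (((d : ℝ) - p) / 2)
          ((m : ℝ) + (d : ℝ) / 4) (2 * (r + 1) - m) else 0) := by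
    rw [Finset.mul_sum]
    refine Finset.sum_congr rfl fun r _ => ?_
    unfold aa
    split_ifs with hr
    · have h3 : -tT d (2 * (r + 1)) = |tT d (2 * (r + 1))| :=
        (abs_of_neg (tT_four (by omega) r)).symm
      have h4 := term_eq hp hpd hm (2 * (r + 1) - m)
      rw [Nat.add_sub_cancel' hr] at h4
      rw [h3, h4]
    · rw [zero_mul, mul_zero]
  rw [e1, mul_div_assoc]
  exact mul_le_mul_of_nonneg_left hs ht0

end Pool.Agent.HRJ
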