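import Pool.Agent.HRJ.A3
import Pool.Agent.HRJ.A4
import Pool.Agent.HRJ.N2

/-!
# HRJ-N3a: the sum over the degrees divisible by four

Notation: `a = 2m + d/2 - 1`, `b = m - 1/2`, `c = (d-p)/2`, `e = (1+a)/2 = m + d/4`; `1 + a - e = e`, so `tw a b c e n = |ta a b c n|`, `ta a b c n = (-1)^n tw a b c e n`.  `t0 = aC d p 0 (2m) * |tT d m|`.
PROOF PLAN.  `term_eq`: induction on `n`: `aC d p (n+1) (2m)/aC d p n (2m)` (Gamma recurrences) times `|tT d (m+n+1)|/|tT d (m+n)| = (2(m+n)-1)/(2(m+n)+d+1)` is the ratio in `tw`.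
`sum4`: `aa d p (2(r+1)) m * (-tT d (2(r+1)))` is `t0 * tw n` with `n = 2(r+1) - m` if `m ≤ 2(r+1)` (`tT_four`: `-tT = |tT|`), else 0.  The `n` which occur have the parity of `m` and are `< N'` for `N' = 2N + 3` or so.
`m` even: `∑_{n even < N'} tw n = (∑_{n<N'} tw + ∑_{n<N'} ta)/2 ≤ (Cw + Ca)/2` for `N'` even (`tw_sum`, `ta_sum_even`; the summands are nonnegative).  `m` odd: `∑_{n odd < N'} tw n = (∑ tw - ∑ ta)/2 ≤ (Cw - Ca)/2` for `N'` odd (`ta_sum_odd`).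
Here `1 + a - b - c - e = (2p-d+2)/4 > 0`.
-/

set_option autoImplicit false

namespace Pool.Agent.HRJ

open MeasureTheory ProbabilityTheory Set Filter Topology Metric
open Pool.Agent.HP89 Pool.Agent.FI75 Pool.Agent.PBL
open scoped RealInnerProductSpace ENNReal

private theorem N3a_t (d h : ℕ) (hh : 1 ≤ h) :
    |tT d (h + 1)| = |tT d h| * ((2 * (h : ℝ) - 1) / (2 * (h : ℝ) + d + 1)) := by
  have h1 : (1 : ℝ) ≤ h := by exact_mod_cast hh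
  have hd : (0 : ℝ) ≤ d := Nat.cast_nonneg d
  unfold tT
  rw [Finset.prod_range_succ, pow_succ, abs_mul, abs_mul, abs_mul, abs_mul, abs_neg, abs_one,
    mul_one, abs_of_nonneg (div_nonneg (by linarith) (by linarith) :
      (0 : ℝ) ≤ (2 * (h : ℝ) - 1) / (2 * (h : ℝ) + d + 1))]
  ring

private theorem N3a_a {d p : ℕ} (hp : 3 ≤ p) (hpd : p < d) {m : ℕ} (hm : 1 ≤ m) (n : ℕ) :
    aC d p (n + 1) (2 * m) = aC d p n (2 * m) *
      (((n : ℝ) + ((d : ℝ) - p) / 2) / ((n : ℝ) + 1) *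
        ((2 * (m : ℝ) + 2 * n + 2 + (d : ℝ) / 2 - 1) / (2 * (m : ℝ) + 2 * n + (d : ℝ) / 2 - 1)) *
        ((2 * (m : ℝ) + n + (d : ℝ) / 2 - 1) / (2 * (m : ℝ) + n + (p : ℝ) / 2))) := by
  have hm1 : (1 : ℝ) ≤ m := by exact_mod_cast hm
  have hd : (p : ℝ) < d := by exact_mod_cast hpd
  have hp0 : (3 : ℝ) ≤ p := by exact_mod_cast hp
  have hn : (0 : ℝ) ≤ n := Nat.cast_nonneg n
  have e1 : Real.Gamma (((n + 1 : ℕ) : ℝ) + ((d : ℝ) - p) / 2) =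
      ((n : ℝ) + ((d : ℝ) - p) / 2) * Real.Gamma ((n : ℝ) + ((d : ℝ) - p) / 2) := by
    rw [← Real.Gamma_add_one (by linarith)]
    congr 1
    push_cast
    ring
  have e2 : Real.Gamma (((2 * m : ℕ) : ℝ) + ((n + 1 : ℕ) : ℝ) + (d : ℝ) / 2 - 1) =
      (2 * (m : ℝ) + n + (d : ℝ) / 2 - 1) * Real.Gamma (2 * (m : ℝ) + n + (d : ℝ) / 2 - 1) := by
    rw [← Real.Gamma_add_one (by linarith)]
    congr 1
    push_cast
    ring
  have e3 : Real.Gamma (((2 * m : ℕ) : ℝ) + ((n + 1 : ℕ) : ℝ) + (p : ℝ) / 2) =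
      (2 * (m : ℝ) + n + (p : ℝ) / 2) * Real.Gamma (2 * (m : ℝ) + n + (p : ℝ) / 2) := by
    rw [← Real.Gamma_add_one (by linarith)]
    congr 1
    push_cast
    ring
  have e4 : (((n + 1).factorial : ℕ) : ℝ) = ((n : ℝ) + 1) * (n.factorial : ℝ) := by
    rw [Nat.factorial_succ]
    push_cast
    ring
  have e5 : ((2 * m : ℕ) : ℝ) = 2 * (m : ℝ) := by push_cast; ring
  unfold aC
  rw [e1, e2, e3, e4, e5]
  have g1 : Real.Gamma (((d : ℝ) - p) / 2) ≠ 0 := (Real.Gamma_pos_of_pos (by linarith)).ne'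
  have g2 : Real.Gamma ((d : ℝ) / 2) ≠ 0 := (Real.Gamma_pos_of_pos (by linarith)).ne'
  have g3 : Real.Gamma (2 * (m : ℝ) + n + (p : ℝ) / 2) ≠ 0 :=
    (Real.Gamma_pos_of_pos (by linarith)).ne'
  have g4 : ((n.factorial : ℕ) : ℝ) ≠ 0 := by exact_mod_cast n.factorial_ne_zero
  have g5 : (n : ℝ) + 1 ≠ 0 := by linarith
  have g6 : 2 * (m : ℝ) + 2 * n + (d : ℝ) / 2 - 1 ≠ 0 := by
    have : 0 < 2 * (m : ℝ) + 2 * n + (d : ℝ) / 2 - 1 := by linarith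
    exact this.ne'
  have g7 : 2 * (m : ℝ) + n + (p : ℝ) / 2 ≠ 0 := by
    have : 0 < 2 * (m : ℝ) + n + (p : ℝ) / 2 := by linarith
    exact this.ne'
  have e6 : 2 * (m : ℝ) + 2 * ((n + 1 : ℕ) : ℝ) + (d : ℝ) / 2 - 1 =
      2 * (m : ℝ) + 2 * n + 2 + (d : ℝ) / 2 - 1 := by
    push_cast
    ring
  rw [e6]
  generalize Real.Gamma ((n : ℝ) + ((d : ℝ) - p) / 2) = A at *
  generalize Real.Gamma (((d : ℝ) - p) / 2) = B at *
  generalize Real.Gamma ((d : ℝ) / 2) = C at *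
  generalize Real.Gamma (2 * (m : ℝ) + n + (p : ℝ) / 2) = D at *
  generalize Real.Gamma (2 * (m : ℝ) + n + (d : ℝ) / 2 - 1) = E at *
  generalize Real.Gamma ((p : ℝ) / 2) = G at *
  generalize (n.factorial : ℝ) = H at *
  generalize hx : 2 * (m : ℝ) + 2 * n + (d : ℝ) / 2 - 1 = x at *
  generalize hy : 2 * (m : ℝ) + n + (p : ℝ) / 2 = y at *
  generalize 2 * (m : ℝ) + n + (d : ℝ) / 2 - 1 = z at *
  generalize 2 * (m : ℝ) + 2 * n + 2 + (d : ℝ) / 2 - 1 = t at *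
  generalize (n : ℝ) + ((d : ℝ) - p) / 2 = u at *
  field_simp

theorem term_eq {d p : ℕ} (hp : 3 ≤ p) (hpd : p < d) {m : ℕ} (hm : 1 ≤ m) (n : ℕ) :
    aC d p n (2 * m) * |tT d (m + n)| = aC d p 0 (2 * m) * |tT d m| *
      tw (2 * (m : ℝ) + (d : ℝ) / 2 - 1) ((m : ℝ) - 1 / 2) (((d : ℝ) - p) / 2) ((m : ℝ) + (d : ℝ) / 4) n := by
  have hm1 : (1 : ℝ) ≤ m := by exact_mod_cast hm
  have hd : (p : ℝ) < d := by exact_mod_cast hpd
  have hp0 : (3 : ℝ) ≤ p := by exact_mod_cast hp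
  induction n with
  | zero => simp [tw]
  | succ n ih =>
    have hn : (0 : ℝ) ≤ n := Nat.cast_nonneg n
    rw [N3a_a hp hpd hm n, ← add_assoc, N3a_t d (m + n) (by omega), tw]
    have e1 : aC d p n (2 * m) *
        (((n : ℝ) + ((d : ℝ) - p) / 2) / ((n : ℝ) + 1) *
          ((2 * (m : ℝ) + 2 * n + 2 + (d : ℝ) / 2 - 1) / (2 * (m : ℝ) + 2 * n + (d : ℝ) / 2 - 1)) *
          ((2 * (m : ℝ) + n + (d : ℝ) / 2 - 1) / (2 * (m : ℝ) + n + (p : ℝ) / 2))) *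
        (|tT d (m + n)| * ((2 * ((m + n : ℕ) : ℝ) - 1) / (2 * ((m + n : ℕ) : ℝ) + d + 1))) =
        (aC d p n (2 * m) * |tT d (m + n)|) *
        ((((n : ℝ) + ((d : ℝ) - p) / 2) / ((n : ℝ) + 1) *
          ((2 * (m : ℝ) + 2 * n + 2 + (d : ℝ) / 2 - 1) / (2 * (m : ℝ) + 2 * n + (d : ℝ) / 2 - 1)) *
          ((2 * (m : ℝ) + n + (d : ℝ) / 2 - 1) / (2 * (m : ℝ) + n + (p : ℝ) / 2))) *
          ((2 * ((m + n : ℕ) : ℝ) - 1) / (2 * ((m + n : ℕ) : ℝ) + d + 1))) := by ring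
    rw [e1, ih, mul_assoc]
    congr 1
    congr 1
    push_cast
    have k1 : (n : ℝ) + 1 ≠ 0 := by linarith
    have k2 : 2 * (m : ℝ) + 2 * n + (d : ℝ) / 2 - 1 ≠ 0 := by
      have : 0 < 2 * (m : ℝ) + 2 * n + (d : ℝ) / 2 - 1 := by linarith
      exact this.ne'
    have k3 : 2 * (m : ℝ) + n + (p : ℝ) / 2 ≠ 0 := by
      have : 0 < 2 * (m : ℝ) + n + (p : ℝ) / 2 := by linarith
      exact this.ne'
    have k4 : 2 * ((m : ℝ) + n) + d + 1 ≠ 0 := by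
      have : 0 < 2 * ((m : ℝ) + n) + d + 1 := by linarith
      exact this.ne'
    have k5 : (m : ℝ) + (d : ℝ) / 4 + n ≠ 0 := by
      have : 0 < (m : ℝ) + (d : ℝ) / 4 + n := by linarith
      exact this.ne'
    have r1 : 1 + (2 * (m : ℝ) + (d : ℝ) / 2 - 1) - ((m : ℝ) + (d : ℝ) / 4) + n =
        (m : ℝ) + (d : ℝ) / 4 + n := by ring
    have r2 : 1 + (2 * (m : ℝ) + (d : ℝ) / 2 - 1) - ((m : ℝ) - 1 / 2) + n =
        (2 * ((m : ℝ) + n) + d + 1) / 2 := by ring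
    have r3 : 1 + (2 * (m : ℝ) + (d : ℝ) / 2 - 1) - ((d : ℝ) - p) / 2 + n =
        2 * (m : ℝ) + n + (p : ℝ) / 2 := by ring
    have r4 : 2 * (m : ℝ) + (d : ℝ) / 2 - 1 + 2 * n = 2 * (m : ℝ) + 2 * n + (d : ℝ) / 2 - 1 := by ring
    have r5 : 2 * (m : ℝ) + (d : ℝ) / 2 - 1 + n = 2 * (m : ℝ) + n + (d : ℝ) / 2 - 1 := by ring
    have r6 : 2 * (m : ℝ) + (d : ℝ) / 2 - 1 + 2 * n + 2 =
        2 * (m : ℝ) + 2 * n + 2 + (d : ℝ) / 2 - 1 := by ring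
    have r7 : (m : ℝ) - 1 / 2 + n = (2 * ((m : ℝ) + n) - 1) / 2 := by ring
    rw [r1, r2, r3, r6, r4, r5, r7]
    generalize 2 * (m : ℝ) + 2 * n + 2 + (d : ℝ) / 2 - 1 = t at *
    generalize 2 * (m : ℝ) + 2 * n + (d : ℝ) / 2 - 1 = x at *
    generalize 2 * (m : ℝ) + n + (p : ℝ) / 2 = y at *
    generalize 2 * (m : ℝ) + n + (d : ℝ) / 2 - 1 = z at *
    generalize 2 * ((m : ℝ) + n) + d + 1 = s at *
    generalize (m : ℝ) + (d : ℝ) / 4 + n = v at *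
    generalize 2 * ((m : ℝ) + n) - 1 = q at *
    field_simp
    ring

end Pool.Agent.HRJ
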