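import Pool.Agent.HRJ.N4a
import Pool.Agent.HRJ.A3
import Pool.Agent.HRJ.A4

/-!
# HRJ-N4: the values of the sums

Notation as in N3.  PROOF PLAN.  `mm_gG`: `mG p = √2 Γ((p+1)/2)/Γ(p/2)`: from `mG_mul`-type recursion or from `mG_mul_Irad`, `Irad_eq` (HP89.A4).
`val_Ca`: `|tT d m| = (1/2) (1/2)_(m-1) Γ((d+1)/2)/Γ(m+(d+1)/2)` (induction), likewise for `p`; `Ca = Γ(m+(d+1)/2) Γ(2m+p/2)/(Γ(2m+d/2) Γ(m+(p+1)/2))`, `aC d p 0 (2m) = Γ(p/2) Γ(2m+d/2)/(Γ(d/2) Γ(2m+p/2))`; so the product `aC d p 0 (2m) |tT d m| Ca = |tT p m| Γ((d+1)/2) Γ(p/2)/(Γ(d/2) Γ((p+1)/2)) =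
|tT p m| mm p/mm d`, times `nn p m`: `rR_eq`.
`val_Cw`: `Cw/Ca = Γ(1+a-e) Γ(1+a-b-c-e)/(Γ(1+a-b-e) Γ(1+a-c-e)) = rr d p m` (`1+a-e = m+d/4`, `1+a-b-c-e = (2p-d+2)/4`, `1+a-b-e = (d+2)/4`, `1+a-c-e = m+p/2-d/4`).
-/

set_option autoImplicit false

namespace Pool.Agent.HRJ

open MeasureTheory ProbabilityTheory Set Filter Topology Metric
open Pool.Agent.HP89 Pool.Agent.FI75 Pool.Agent.PBL
open scoped RealInnerProductSpace ENNReal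

private theorem tT_succ (p m : ℕ) : tT p (m + 1) = -(tT p m * ((2 * (m : ℝ) - 1) / (2 * (m : ℝ) + p + 1))) := by
  unfold tT
  rw [Finset.prod_range_succ, pow_succ]
  ring

private theorem tT_Gam (d m : ℕ) : |tT d m| * Real.Gamma ((m : ℝ) + ((d : ℝ) + 1) / 2) =
    (∏ i ∈ Finset.range m, |2 * (i : ℝ) - 1| / 2) * Real.Gamma (((d : ℝ) + 1) / 2) := by
  induction m with
  | zero => simp [tT]
  | succ m ih =>
    have h0 : (0 : ℝ) ≤ m := m.cast_nonneg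
    have hd : (0 : ℝ) ≤ d := d.cast_nonneg
    have h1 : (m : ℝ) + ((d : ℝ) + 1) / 2 ≠ 0 := by positivity
    have h2 : (0 : ℝ) < 2 * (m : ℝ) + d + 1 := by positivity
    have e1 : ((m + 1 : ℕ) : ℝ) + ((d : ℝ) + 1) / 2 = ((m : ℝ) + ((d : ℝ) + 1) / 2) + 1 := by
      push_cast
      ring
    rw [e1, Real.Gamma_add_one h1, tT_succ, abs_neg, abs_mul, abs_div, abs_of_pos h2, Finset.prod_range_succ]
    have e2 : (∏ i ∈ Finset.range m, |2 * (i : ℝ) - 1| / 2) * (|2 * (m : ℝ) - 1| / 2) *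
        Real.Gamma (((d : ℝ) + 1) / 2) = (|2 * (m : ℝ) - 1| / 2) * ((∏ i ∈ Finset.range m, |2 * (i : ℝ) - 1| / 2) *
        Real.Gamma (((d : ℝ) + 1) / 2)) := by ring
    rw [e2, ← ih]
    field_simp
    ring

theorem val_Ca {d p : ℕ} (hp : 3 ≤ p) (hpd : p < d) {m : ℕ} (hm : 1 ≤ m) :
    nn p m * (aC d p 0 (2 * m) * |tT d m| *
      Ca (2 * (m : ℝ) + (d : ℝ) / 2 - 1) ((m : ℝ) - 1 / 2) (((d : ℝ) - p) / 2)) = vv d p m := by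
  have hp' : (3 : ℝ) ≤ p := by exact_mod_cast hp
  have hd' : (p : ℝ) < d := by exact_mod_cast hpd
  have hm' : (1 : ℝ) ≤ m := by exact_mod_cast hm
  have g1 : 0 < Real.Gamma ((p : ℝ) / 2) := Real.Gamma_pos_of_pos (by linarith)
  have g2 : 0 < Real.Gamma ((d : ℝ) / 2) := Real.Gamma_pos_of_pos (by linarith)
  have g3 : 0 < Real.Gamma (((d : ℝ) - p) / 2) := Real.Gamma_pos_of_pos (by linarith)
  have g4 : 0 < Real.Gamma (2 * (m : ℝ) + (d : ℝ) / 2) := Real.Gamma_pos_of_pos (by linarith)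
  have g5 : 0 < Real.Gamma (2 * (m : ℝ) + (p : ℝ) / 2) := Real.Gamma_pos_of_pos (by linarith)
  have g6 : 0 < Real.Gamma ((m : ℝ) + ((d : ℝ) + 1) / 2) := Real.Gamma_pos_of_pos (by linarith)
  have g7 : 0 < Real.Gamma ((m : ℝ) + ((p : ℝ) + 1) / 2) := Real.Gamma_pos_of_pos (by linarith)
  have g8 : 0 < Real.Gamma (((d : ℝ) + 1) / 2) := Real.Gamma_pos_of_pos (by linarith)
  have g9 : 0 < Real.Gamma (((p : ℝ) + 1) / 2) := Real.Gamma_pos_of_pos (by linarith)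
  have hA : aC d p 0 (2 * m) = Real.Gamma ((p : ℝ) / 2) / Real.Gamma ((d : ℝ) / 2) *
      (Real.Gamma (2 * (m : ℝ) + (d : ℝ) / 2) / Real.Gamma (2 * (m : ℝ) + (p : ℝ) / 2)) := by
    have e1 : 2 * (m : ℝ) + (d : ℝ) / 2 = (2 * (m : ℝ) + (d : ℝ) / 2 - 1) + 1 := by ring
    have hne : (2 * (m : ℝ) + (d : ℝ) / 2 - 1) ≠ 0 := by
      have : 0 < 2 * (m : ℝ) + (d : ℝ) / 2 - 1 := by linarith
      exact this.ne'
    rw [e1, Real.Gamma_add_one hne]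
    unfold aC
    have e2 : (((0 : ℕ) : ℝ) + ((d : ℝ) - p) / 2) = ((d : ℝ) - p) / 2 := by simp
    have e3 : (((2 * m : ℕ) : ℝ) + 2 * ((0 : ℕ) : ℝ) + (d : ℝ) / 2 - 1) = 2 * (m : ℝ) + (d : ℝ) / 2 - 1 := by
      push_cast
      ring
    have e4 : (((2 * m : ℕ) : ℝ) + ((0 : ℕ) : ℝ) + (d : ℝ) / 2 - 1) = 2 * (m : ℝ) + (d : ℝ) / 2 - 1 := by
      push_cast
      ring
    have e5 : (((2 * m : ℕ) : ℝ) + ((0 : ℕ) : ℝ) + (p : ℝ) / 2) = 2 * (m : ℝ) + (p : ℝ) / 2 := by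
      push_cast
      ring
    rw [e2, e3, e4, e5, Nat.factorial_zero, Nat.cast_one, one_mul, div_self g3.ne', one_mul]
  have hC : Ca (2 * (m : ℝ) + (d : ℝ) / 2 - 1) ((m : ℝ) - 1 / 2) (((d : ℝ) - p) / 2) =
      Real.Gamma ((m : ℝ) + ((d : ℝ) + 1) / 2) * Real.Gamma (2 * (m : ℝ) + (p : ℝ) / 2) /
        (Real.Gamma (2 * (m : ℝ) + (d : ℝ) / 2) * Real.Gamma ((m : ℝ) + ((p : ℝ) + 1) / 2)) := by
    unfold Ca
    congr 1
    · congr 1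
      · congr 1
        ring
      · congr 1
        ring
    · congr 1
      · congr 1
        ring
      · congr 1
        ring
  have hT : |tT d m| * Real.Gamma ((m : ℝ) + ((d : ℝ) + 1) / 2) * Real.Gamma (((p : ℝ) + 1) / 2) =
      |tT p m| * Real.Gamma ((m : ℝ) + ((p : ℝ) + 1) / 2) * Real.Gamma (((d : ℝ) + 1) / 2) := by
    rw [tT_Gam d m, tT_Gam p m]
    ring
  have hR : |rR p m| = nn p m * |tT p m| := by
    rw [rR_eq hp m, abs_mul, abs_neg, abs_of_pos (nn_pos hp hm)]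
  have hM : mm p / mm d = Real.Gamma (((d : ℝ) + 1) / 2) * Real.Gamma ((p : ℝ) / 2) /
      (Real.Gamma ((d : ℝ) / 2) * Real.Gamma (((p : ℝ) + 1) / 2)) := by
    rw [mm_gG (show 1 ≤ p by omega), mm_gG (show 1 ≤ d by omega)]
    unfold gG
    have e1 : (p : ℝ) / 2 + 1 / 2 = ((p : ℝ) + 1) / 2 := by ring
    have e2 : (d : ℝ) / 2 + 1 / 2 = ((d : ℝ) + 1) / 2 := by ring
    rw [e1, e2]
    have hpi : √Real.pi ≠ 0 := (Real.sqrt_pos.mpr Real.pi_pos).ne'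
    field_simp
  unfold vv
  rw [hA, hC, hR, hM]
  have key : Real.Gamma ((p : ℝ) / 2) / Real.Gamma ((d : ℝ) / 2) *
      (Real.Gamma (2 * (m : ℝ) + (d : ℝ) / 2) / Real.Gamma (2 * (m : ℝ) + (p : ℝ) / 2)) * |tT d m| *
      (Real.Gamma ((m : ℝ) + ((d : ℝ) + 1) / 2) * Real.Gamma (2 * (m : ℝ) + (p : ℝ) / 2) /
        (Real.Gamma (2 * (m : ℝ) + (d : ℝ) / 2) * Real.Gamma ((m : ℝ) + ((p : ℝ) + 1) / 2))) =
      |tT p m| * (Real.Gamma (((d : ℝ) + 1) / 2) * Real.Gamma ((p : ℝ) / 2) /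
      (Real.Gamma ((d : ℝ) / 2) * Real.Gamma (((p : ℝ) + 1) / 2))) := by
    have k1 : |tT d m| * Real.Gamma ((m : ℝ) + ((d : ℝ) + 1) / 2) / Real.Gamma ((m : ℝ) + ((p : ℝ) + 1) / 2) =
        |tT p m| * Real.Gamma (((d : ℝ) + 1) / 2) / Real.Gamma (((p : ℝ) + 1) / 2) := by
      rw [div_eq_div_iff g7.ne' g9.ne', hT]
      ring
    calc _ = Real.Gamma ((p : ℝ) / 2) / Real.Gamma ((d : ℝ) / 2) *
        (|tT d m| * Real.Gamma ((m : ℝ) + ((d : ℝ) + 1) / 2) / Real.Gamma ((m : ℝ) + ((p : ℝ) + 1) / 2)) := by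
          field_simp
      _ = _ := by
          rw [k1]
          field_simp
  rw [key]
  ring

theorem val_Cw {d p : ℕ} (hp : 3 ≤ p) (hpd : p < d) (h2 : d + 2 ≤ 2 * p) {m : ℕ} (hm : 1 ≤ m) :
    Cw (2 * (m : ℝ) + (d : ℝ) / 2 - 1) ((m : ℝ) - 1 / 2) (((d : ℝ) - p) / 2) ((m : ℝ) + (d : ℝ) / 4) =
      rr d p m * Ca (2 * (m : ℝ) + (d : ℝ) / 2 - 1) ((m : ℝ) - 1 / 2) (((d : ℝ) - p) / 2) := by
  have e1 : 1 + (2 * (m : ℝ) + (d : ℝ) / 2 - 1) - ((m : ℝ) + (d : ℝ) / 4) = (m : ℝ) + (d : ℝ) / 4 := by ring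
  have e2 : 1 + (2 * (m : ℝ) + (d : ℝ) / 2 - 1) - ((m : ℝ) - 1 / 2) - (((d : ℝ) - p) / 2) -
      ((m : ℝ) + (d : ℝ) / 4) = (2 * (p : ℝ) - d + 2) / 4 := by ring
  have e3 : 1 + (2 * (m : ℝ) + (d : ℝ) / 2 - 1) - ((m : ℝ) - 1 / 2) - ((m : ℝ) + (d : ℝ) / 4) =
      ((d : ℝ) + 2) / 4 := by ring
  have e4 : 1 + (2 * (m : ℝ) + (d : ℝ) / 2 - 1) - (((d : ℝ) - p) / 2) - ((m : ℝ) + (d : ℝ) / 4) =
      (m : ℝ) + (p : ℝ) / 2 - (d : ℝ) / 4 := by ring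
  unfold Cw rr Ca
  rw [e1, e2, e3, e4, div_mul_div_comm]
  congr 1
  · ring
  · ring

end Pool.Agent.HRJ
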