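import Pool.Agent.HRJ.B1

/-!
# HRJ-N4a: the values of the sums

Notation as in N3.  PROOF PLAN.  `mm_gG`: `mG p = √2 Γ((p+1)/2)/Γ(p/2)`: from `mG_mul`-type recursion or from `mG_mul_Irad`, `Irad_eq` (HP89.A4).
`val_Ca`: `|tT d m| = (1/2) (1/2)_(m-1) Γ((d+1)/2)/Γ(m+(d+1)/2)` (induction), likewise for `p`; `Ca = Γ(m+(d+1)/2) Γ(2m+p/2)/(Γ(2m+d/2) Γ(m+(p+1)/2))`, `aC d p 0 (2m) = Γ(p/2) Γ(2m+d/2)/(Γ(d/2) Γ(2m+p/2))`; so the product `aC d p 0 (2m) |tT d m| Ca = |tT p m| Γ((d+1)/2) Γ(p/2)/(Γ(d/2) Γ((p+1)/2)) =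
|tT p m| mm p/mm d`, times `nn p m`: `rR_eq`.
`val_Cw`: `Cw/Ca = Γ(1+a-e) Γ(1+a-b-c-e)/(Γ(1+a-b-e) Γ(1+a-c-e)) = rr d p m` (`1+a-e = m+d/4`, `1+a-b-c-e = (2p-d+2)/4`, `1+a-b-e = (d+2)/4`, `1+a-c-e = m+p/2-d/4`).
-/

set_option autoImplicit false

namespace Pool.Agent.HRJ

open MeasureTheory ProbabilityTheory Set Filter Topology Metric
open Pool.Agent.HP89 Pool.Agent.FI75 Pool.Agent.PBL
open scoped RealInnerProductSpace ENNReal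

theorem mG_gG {p : ℕ} (hp : 1 ≤ p) : mG p = √2 * gG ((p : ℝ) / 2) := by
  obtain ⟨n, rfl⟩ : ∃ n, p = n + 1 := ⟨p - 1, by omega⟩
  have h := mG_mul_Irad n
  have hI := Irad_pos n
  rw [Irad_eq (n + 1)] at h
  have h0 : (0 : ℝ) ≤ n := n.cast_nonneg
  have hG : 0 < Real.Gamma (((n : ℝ) + 1) / 2) := Real.Gamma_pos_of_pos (by linarith)
  have e1 : (1 / 2 : ℝ) ^ (-(((n + 1 : ℕ) : ℝ) + 1) / 2) = (1 / 2 : ℝ) ^ (-((n : ℝ) + 1) / 2) * √2 := by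
    have e2 : -(((n + 1 : ℕ) : ℝ) + 1) / 2 = -((n : ℝ) + 1) / 2 + (-(1 / 2)) := by
      push_cast
      ring
    rw [e2, Real.rpow_add (by norm_num), Real.rpow_neg (by norm_num), ← Real.sqrt_eq_rpow,
      ← Real.sqrt_inv]
    norm_num
  have e3 : (((n + 1 : ℕ) : ℝ) + 1) / 2 = ((n : ℝ) + 1) / 2 + 1 / 2 := by
    push_cast
    ring
  rw [e1, e3] at h
  have h2 : (1 / 2 : ℝ) ^ (-((n : ℝ) + 1) / 2) * √2 * (1 / 2) * Real.Gamma (((n : ℝ) + 1) / 2 + 1 / 2) =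
      √2 * gG (((n : ℝ) + 1) / 2) * Irad n := by
    rw [Irad_eq]
    unfold gG
    field_simp
  rw [h2] at h
  have h3 := mul_right_cancel₀ hI.ne' h
  rw [h3]
  push_cast
  rfl

theorem mm_gG {p : ℕ} (hp : 1 ≤ p) : mm p = 1 / (√Real.pi * gG ((p : ℝ) / 2)) := by
  unfold mm
  have h2 : √2 ≠ 0 := by positivity
  rw [mG_gG hp, Real.sqrt_div (by norm_num), div_div, ← mul_assoc, mul_comm (√Real.pi) (√2), mul_assoc,
    div_mul_eq_div_div, div_self h2]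

end Pool.Agent.HRJ
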