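import Pool.Agent.HRJ.N3
import Pool.Agent.HRJ.N4

/-!
# HRJ-N5: `Θ_p ≤ Th d p`

The denominators `1 - R` are at least `1 - 3/(d²-1)`; with the sum over the degrees divisible by
four and its values, `Sm d p N m ≤ vv d p m * (rr d p m + (-1)^m)/(2 (1 - 3/(d²-1)))`.  The values
for `m = 1, 2` are computed by recurrences, and for `m ≥ 2` the bound decreases in `m`.
-/

set_option autoImplicit false

namespace Pool.Agent.HRJ

open MeasureTheory ProbabilityTheory Set Filter Topology Metric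
open Pool.Agent.HP89 Pool.Agent.FI75 Pool.Agent.PBL
open scoped RealInnerProductSpace ENNReal

private theorem N5_gG_pos {x : ℝ} (hx : 0 < x) : 0 < gG x := by
  unfold gG
  exact div_pos (Real.Gamma_pos_of_pos (by linarith)) (Real.Gamma_pos_of_pos hx)

private theorem N5_mm_pos {p : ℕ} (hp : 1 ≤ p) : 0 < mm p := by
  rw [mm_gG hp]
  have h1 : (1 : ℝ) ≤ p := by exact_mod_cast hp
  exact div_pos one_pos (mul_pos (Real.sqrt_pos.2 Real.pi_pos) (N5_gG_pos (by linarith)))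

theorem vv_one {d p : ℕ} (hp : 3 ≤ p) (hpd : p < d) : vv d p 1 = v2 d p := by
  have h1 : (3 : ℝ) ≤ p := by exact_mod_cast hp
  have h2 : (p : ℝ) < d := by exact_mod_cast hpd
  have hr : |rR p 1| = 1 / ((p : ℝ) - 1) := by
    unfold rR
    rw [Finset.prod_range_one, pow_one, abs_mul, abs_neg, abs_one, one_mul]
    rw [abs_of_nonneg (div_nonneg (by norm_num) (by push_cast; linarith))]
    congr 1
    · norm_num
    · norm_num
  unfold vv v2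
  rw [hr, mm_gG (by omega : 1 ≤ p), mm_gG (by omega : 1 ≤ d)]
  have hgp : gG ((p : ℝ) / 2) ≠ 0 := (N5_gG_pos (by linarith)).ne'
  have hgd : gG ((d : ℝ) / 2) ≠ 0 := (N5_gG_pos (by linarith)).ne'
  have hpi : √Real.pi ≠ 0 := (Real.sqrt_pos.2 Real.pi_pos).ne'
  have hp1 : (p : ℝ) - 1 ≠ 0 := by linarith
  field_simp

theorem rr_one {d p : ℕ} (hp : 3 ≤ p) (hpd : p < d) (h2 : d + 2 ≤ 2 * p) : rr d p 1 = r2 d p := by
  have h1 : (3 : ℝ) ≤ p := by exact_mod_cast hp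
  have h3 : (p : ℝ) < d := by exact_mod_cast hpd
  have h4 : (d : ℝ) + 2 ≤ 2 * p := by exact_mod_cast h2
  unfold rr r2 gG
  have e1 : ((1 : ℕ) : ℝ) + (d : ℝ) / 4 = ((d : ℝ) + 2) / 4 + 1 / 2 := by push_cast; ring
  have e2 : ((1 : ℕ) : ℝ) + (p : ℝ) / 2 - (d : ℝ) / 4 = (2 * (p : ℝ) - d + 2) / 4 + 1 / 2 := by
    push_cast; ring
  rw [e1, e2]
  have g1 : Real.Gamma (((d : ℝ) + 2) / 4) ≠ 0 := (Real.Gamma_pos_of_pos (by linarith)).ne'
  have g2 : Real.Gamma ((2 * (p : ℝ) - d + 2) / 4) ≠ 0 := (Real.Gamma_pos_of_pos (by linarith)).ne'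
  have g3 : Real.Gamma ((2 * (p : ℝ) - d + 2) / 4 + 1 / 2) ≠ 0 :=
    (Real.Gamma_pos_of_pos (by linarith)).ne'
  rw [div_div_div_eq]

private theorem N5_vv_nonneg {d p : ℕ} (hp : 3 ≤ p) (hpd : p < d) (m : ℕ) : 0 ≤ vv d p m := by
  unfold vv
  exact mul_nonneg (abs_nonneg _)
    (div_nonneg (N5_mm_pos (by omega)).le (N5_mm_pos (by omega)).le)

private theorem N5_rr_pos {d p : ℕ} (hp : 3 ≤ p) (hpd : p < d) (h2 : d + 2 ≤ 2 * p) (m : ℕ) :
    0 < rr d p m := by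
  have h1 : (3 : ℝ) ≤ p := by exact_mod_cast hp
  have h3 : (p : ℝ) < d := by exact_mod_cast hpd
  have h4 : (d : ℝ) + 2 ≤ 2 * p := by exact_mod_cast h2
  have hm : (0 : ℝ) ≤ m := Nat.cast_nonneg m
  unfold rr
  exact div_pos (mul_pos (Real.Gamma_pos_of_pos (by linarith)) (Real.Gamma_pos_of_pos (by linarith)))
    (mul_pos (Real.Gamma_pos_of_pos (by linarith)) (Real.Gamma_pos_of_pos (by linarith)))

private theorem N5_vv_succ {d p : ℕ} (hp : 3 ≤ p) (m : ℕ) :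
    vv d p (m + 1) = vv d p m * ((2 * (m : ℝ) + 1) / (2 * (m : ℝ) + p - 1)) := by
  have h1 : (3 : ℝ) ≤ p := by exact_mod_cast hp
  have hm : (0 : ℝ) ≤ m := Nat.cast_nonneg m
  have hr : |rR p (m + 1)| = |rR p m| * ((2 * (m : ℝ) + 1) / (2 * (m : ℝ) + p - 1)) := by
    unfold rR
    rw [Finset.prod_range_succ, abs_mul, abs_mul, abs_mul, abs_pow, abs_neg, abs_one, one_pow,
      abs_pow, abs_neg, abs_one, one_pow, one_mul, one_mul,
      abs_of_nonneg (div_nonneg (by linarith : (0 : ℝ) ≤ 2 * (m : ℝ) + 1)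
        (by linarith : (0 : ℝ) ≤ 2 * (m : ℝ) + p - 1))]
  unfold vv
  rw [hr]
  ring

private theorem N5_rr_succ {d p : ℕ} (hp : 3 ≤ p) (hpd : p < d) (h2 : d + 2 ≤ 2 * p) (m : ℕ) :
    rr d p (m + 1) = rr d p m * ((4 * (m : ℝ) + d) / (4 * (m : ℝ) + 2 * p - d)) := by
  have h1 : (3 : ℝ) ≤ p := by exact_mod_cast hp
  have h3 : (p : ℝ) < d := by exact_mod_cast hpd
  have h4 : (d : ℝ) + 2 ≤ 2 * p := by exact_mod_cast h2
  have hm : (0 : ℝ) ≤ m := Nat.cast_nonneg m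
  unfold rr
  have e1 : ((m + 1 : ℕ) : ℝ) + (d : ℝ) / 4 = ((m : ℝ) + (d : ℝ) / 4) + 1 := by push_cast; ring
  have e2 : ((m + 1 : ℕ) : ℝ) + (p : ℝ) / 2 - (d : ℝ) / 4 =
      ((m : ℝ) + (p : ℝ) / 2 - (d : ℝ) / 4) + 1 := by push_cast; ring
  have a1 : (m : ℝ) + (d : ℝ) / 4 ≠ 0 := by
    have : 0 < (m : ℝ) + (d : ℝ) / 4 := by linarith
    exact this.ne'
  have a2 : (m : ℝ) + (p : ℝ) / 2 - (d : ℝ) / 4 ≠ 0 := by
    have : 0 < (m : ℝ) + (p : ℝ) / 2 - (d : ℝ) / 4 := by linarith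
    exact this.ne'
  have a3 : 4 * (m : ℝ) + 2 * p - d ≠ 0 := by
    have : 0 < 4 * (m : ℝ) + 2 * p - d := by linarith
    exact this.ne'
  rw [e1, e2, Real.Gamma_add_one a1, Real.Gamma_add_one a2]
  have g1 : Real.Gamma (((d : ℝ) + 2) / 4) ≠ 0 := (Real.Gamma_pos_of_pos (by linarith)).ne'
  have g2 : Real.Gamma ((m : ℝ) + (p : ℝ) / 2 - (d : ℝ) / 4) ≠ 0 :=
    (Real.Gamma_pos_of_pos (by linarith)).ne'
  have e3 : (4 * (m : ℝ) + d) / (4 * (m : ℝ) + 2 * p - d) =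
      ((m : ℝ) + (d : ℝ) / 4) / ((m : ℝ) + (p : ℝ) / 2 - (d : ℝ) / 4) := by
    rw [div_eq_div_iff a3 a2]
    ring
  rw [e3]
  generalize (m : ℝ) + (d : ℝ) / 4 = x at *
  generalize (m : ℝ) + (p : ℝ) / 2 - (d : ℝ) / 4 = y at *
  field_simp

private theorem N5_step {d p : ℕ} (hp : 3 ≤ p) (hpd : p < d) (h2 : d + 2 ≤ 2 * p) (m : ℕ) :
    vv d p (m + 1) * (rr d p (m + 1) + 1) ≤ vv d p m * (rr d p m + 1) := by
  have h1 : (3 : ℝ) ≤ p := by exact_mod_cast hp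
  have h3 : (p : ℝ) < d := by exact_mod_cast hpd
  have h4 : (d : ℝ) + 2 ≤ 2 * p := by exact_mod_cast h2
  have hm : (0 : ℝ) ≤ m := Nat.cast_nonneg m
  rw [N5_vv_succ hp, N5_rr_succ hp hpd h2, mul_assoc]
  refine mul_le_mul_of_nonneg_left ?_ (N5_vv_nonneg hp hpd m)
  have hr := N5_rr_pos hp hpd h2 m
  have b1 : 0 < 2 * (m : ℝ) + p - 1 := by linarith
  have b2 : 0 < 4 * (m : ℝ) + 2 * p - d := by linarith
  have c1 : (2 * (m : ℝ) + 1) / (2 * (m : ℝ) + p - 1) ≤ 1 := by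
    rw [div_le_one b1]; linarith
  have c2 : (2 * (m : ℝ) + 1) / (2 * (m : ℝ) + p - 1) *
      ((4 * (m : ℝ) + d) / (4 * (m : ℝ) + 2 * p - d)) ≤ 1 := by
    rw [div_mul_div_comm, div_le_one (mul_pos b1 b2)]
    nlinarith [mul_nonneg (by linarith : (0 : ℝ) ≤ 4 * (m : ℝ) + p)
      (by linarith : (0 : ℝ) ≤ 2 * (p : ℝ) - d - 2)]
  calc (2 * (m : ℝ) + 1) / (2 * (m : ℝ) + p - 1) *
        (rr d p m * ((4 * (m : ℝ) + d) / (4 * (m : ℝ) + 2 * p - d)) + 1)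
      = rr d p m * ((2 * (m : ℝ) + 1) / (2 * (m : ℝ) + p - 1) *
          ((4 * (m : ℝ) + d) / (4 * (m : ℝ) + 2 * p - d))) +
          (2 * (m : ℝ) + 1) / (2 * (m : ℝ) + p - 1) := by ring
    _ ≤ rr d p m * 1 + 1 := add_le_add (mul_le_mul_of_nonneg_left c2 hr.le) c1
    _ = rr d p m + 1 := by ring

private theorem N5_two {d p : ℕ} (hp : 3 ≤ p) (hpd : p < d) (h2 : d + 2 ≤ 2 * p) :
    vv d p 2 * (rr d p 2 + 1) =
      3 * v2 d p / ((p : ℝ) + 1) * (r2 d p * ((d : ℝ) + 4) / (2 * (p : ℝ) - d + 4) + 1) := by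
  have f1 : vv d p 2 = vv d p 1 * ((2 * ((1 : ℕ) : ℝ) + 1) / (2 * ((1 : ℕ) : ℝ) + p - 1)) :=
    N5_vv_succ hp 1
  have f2 : rr d p 2 = rr d p 1 * ((4 * ((1 : ℕ) : ℝ) + d) / (4 * ((1 : ℕ) : ℝ) + 2 * p - d)) :=
    N5_rr_succ hp hpd h2 1
  rw [f1, f2, vv_one hp hpd, rr_one hp hpd h2]
  have e1 : 2 * ((1 : ℕ) : ℝ) + 1 = 3 := by norm_num
  have e2 : 2 * ((1 : ℕ) : ℝ) + p - 1 = (p : ℝ) + 1 := by push_cast; ring
  have e3 : 4 * ((1 : ℕ) : ℝ) + d = (d : ℝ) + 4 := by push_cast; ring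
  have e4 : 4 * ((1 : ℕ) : ℝ) + 2 * p - d = 2 * (p : ℝ) - d + 4 := by push_cast; ring
  rw [e1, e2, e3, e4]
  ring

private theorem N5_ge {d p : ℕ} (hp : 3 ≤ p) (hpd : p < d) (h2 : d + 2 ≤ 2 * p) {m : ℕ}
    (hm : 2 ≤ m) : vv d p m * (rr d p m + 1) ≤ vv d p 2 * (rr d p 2 + 1) := by
  induction m, hm using Nat.le_induction with
  | base => exact le_rfl
  | succ m hm ih => exact (N5_step hp hpd h2 m).trans ih

private theorem N5_num {d p : ℕ} (hp : 3 ≤ p) (hpd : p < d) (h2 : d + 2 ≤ 2 * p) {m : ℕ}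
    (hm : 1 ≤ m) : vv d p m * (rr d p m + (-1) ^ m) ≤
      max (v2 d p * (r2 d p - 1))
        (3 * v2 d p / ((p : ℝ) + 1) * (r2 d p * ((d : ℝ) + 4) / (2 * (p : ℝ) - d + 4) + 1)) := by
  rcases Nat.lt_or_ge 1 m with h | h
  · refine le_trans ?_ (le_max_right _ _)
    rw [← N5_two hp hpd h2]
    refine le_trans ?_ (N5_ge hp hpd h2 h)
    refine mul_le_mul_of_nonneg_left ?_ (N5_vv_nonneg hp hpd m)
    have h5 : ((-1 : ℝ)) ^ m ≤ 1 := by
      rcases neg_one_pow_eq_or ℝ m with h6 | h6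
      · exact h6.le
      · rw [h6]; norm_num
    linarith
  · obtain rfl : m = 1 := by omega
    refine le_trans (le_of_eq ?_) (le_max_left _ _)
    rw [vv_one hp hpd, rr_one hp hpd h2, pow_one]
    ring

theorem Sm_le {d p : ℕ} (hp : 3 ≤ p) (hpd : p < d) (h2 : d + 2 ≤ 2 * p) (N : ℕ) {m : ℕ} (hm : 1 ≤ m) :
    Sm d p N m ≤ Th d p := by
  have h1 : (3 : ℝ) ≤ p := by exact_mod_cast hp
  have h4 : (4 : ℝ) ≤ d := by exact_mod_cast (by omega : 4 ≤ d)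
  have hd3 : 3 ≤ d := by omega
  set κ : ℝ := 1 - 3 / ((d : ℝ) ^ 2 - 1) with hκ
  have hd2 : (15 : ℝ) ≤ (d : ℝ) ^ 2 - 1 := by nlinarith
  have hκ0 : 0 < κ := by
    have : 3 / ((d : ℝ) ^ 2 - 1) ≤ 3 / 15 := div_le_div_of_nonneg_left (by norm_num) (by norm_num) hd2
    rw [hκ]
    linarith
  set S : ℝ := ∑ r ∈ Finset.range N, aa d p (2 * (r + 1)) m * (-tT d (2 * (r + 1))) with hS
  have hsum : ∑ r ∈ Finset.range N,
      aa d p (2 * (r + 1)) m * (-tT d (2 * (r + 1)) / (1 - rR d (2 * (r + 1)))) ≤ S / κ := by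
    rw [hS, Finset.sum_div]
    refine Finset.sum_le_sum fun r _ => ?_
    rw [mul_div_assoc]
    refine mul_le_mul_of_nonneg_left ?_ (aa_nonneg hp hpd _ _)
    refine div_le_div_of_nonneg_left (by linarith [tT_four hd3 r]) hκ0 ?_
    rw [hκ]
    linarith [rR_four_le hd3 r]
  have hn := nn_pos hp hm
  unfold Sm
  refine (mul_le_mul_of_nonneg_left hsum hn.le).trans ?_
  have h5 := sum4 hp hpd h2 hm N
  rw [← hS] at h5
  have h6 : nn p m * S ≤ vv d p m * (rr d p m + (-1) ^ m) / 2 := by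
    refine (mul_le_mul_of_nonneg_left h5 hn.le).trans (le_of_eq ?_)
    rw [val_Cw hp hpd h2 hm, ← val_Ca hp hpd hm]
    ring
  have h7 := N5_num hp hpd h2 hm
  unfold Th
  rw [← hκ]
  calc nn p m * (S / κ) = nn p m * S / κ := by ring
    _ ≤ (vv d p m * (rr d p m + (-1) ^ m) / 2) / κ := div_le_div_of_nonneg_right h6 hκ0.le
    _ = vv d p m * (rr d p m + (-1) ^ m) / (2 * κ) := by rw [div_div]
    _ ≤ _ := div_le_div_of_nonneg_right h7 (by positivity)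

end Pool.Agent.HRJ
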