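import Pool.Agent.HRJ.Defs

/-!
# HRJ-N6a: the function `g(x) = Γ(x + 1/2)/Γ(x)`

PROOF PLAN.  `gG_mul`: `Γ(x+1) = x Γ(x)`.  `gG_add_one`.  `gG_sq`: `x - 1/2 ≤ g(x)² ≤ x`: log-convexity of Gamma (`Real.convexOn_log_Gamma`; or `Real.Gamma_mul_add_mul_le_rpow_Gamma_mul_rpow_Gamma`, `Γ(x+1/2)² ≤ Γ(x) Γ(x+1)`), the lower bound from `g(x) = (x-1/2)/g(x-1/2)`.
`up` : `J(x) = g(x)^4 (x+1/2)/x^3 ≤ 1`: `J(x+1)/J(x) = (x+1/2)^3 (x+3/2)/(x (x+1)^3) ≥ 1` and `J(x+n) → 1` (`gG_sq`).  It is equivalent to `g(x)²/x ≤ g(x+1/2)²/(x+1/2)` by `gG_mul`.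
`down`: `L(x) = g(x)^4 (x+1/4)/(x^2 (x-1/4)) ≥ 1` (`x > 1/4`): `L(x+1)/L(x) ≤ 1` (`(x+1/2)^4 (x+5/4)(x-1/4) ≤ x^2 (x+1)^2 (x+3/4)(x+1/4)`: the difference RHS - LHS is a polynomial with nonnegative coefficients in `x` after simplification, check) and `L(x+n) → 1`;
equivalent to `g(x+1/2)²/(x+1/4) ≤ g(x)²/(x-1/4)`.
`up_n`, `down_n`: induction on the number of half steps.
-/

set_option autoImplicit false

namespace Pool.Agent.HRJ

open MeasureTheory ProbabilityTheory Set Filter Topology Metric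
open Pool.Agent.HP89 Pool.Agent.FI75 Pool.Agent.PBL
open scoped RealInnerProductSpace ENNReal

private lemma gG_sq_le {x : ℝ} (hx : 0 < x) : gG x ^ 2 ≤ x := by
  have h1 : 0 < Real.Gamma x := Real.Gamma_pos_of_pos hx
  have h2 : 0 < Real.Gamma (x + 1) := Real.Gamma_pos_of_pos (by linarith)
  have h3 : 0 < Real.Gamma (x + 1 / 2) := Real.Gamma_pos_of_pos (by linarith)
  have h4 := Real.Gamma_mul_add_mul_le_rpow_Gamma_mul_rpow_Gamma (s := x) (t := x + 1) (a := 1 / 2) (b := 1 / 2)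
    hx (by linarith) (by norm_num) (by norm_num) (by norm_num)
  rw [show (1 / 2 : ℝ) * x + 1 / 2 * (x + 1) = x + 1 / 2 by ring] at h4
  have h5 : (Real.Gamma x ^ (1 / 2 : ℝ) * Real.Gamma (x + 1) ^ (1 / 2 : ℝ)) ^ 2 = Real.Gamma x * Real.Gamma (x + 1) := by
    rw [mul_pow, ← Real.sqrt_eq_rpow, ← Real.sqrt_eq_rpow, Real.sq_sqrt h1.le, Real.sq_sqrt h2.le]
  have h6 : Real.Gamma (x + 1 / 2) ^ 2 ≤ Real.Gamma x * Real.Gamma (x + 1) := by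
    rw [← h5]
    exact pow_le_pow_left₀ h3.le h4 2
  rw [Real.Gamma_add_one hx.ne'] at h6
  unfold gG
  rw [div_pow, div_le_iff₀ (by positivity)]
  calc Real.Gamma (x + 1 / 2) ^ 2 ≤ Real.Gamma x * (x * Real.Gamma x) := h6
    _ = x * Real.Gamma x ^ 2 := by ring

theorem gG_pos {x : ℝ} (hx : 0 < x) : 0 < gG x := by
  unfold gG
  exact div_pos (Real.Gamma_pos_of_pos (by linarith)) (Real.Gamma_pos_of_pos hx)

theorem gG_mul {x : ℝ} (hx : 0 < x) : gG x * gG (x + 1 / 2) = x := by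
  have h1 : 0 < Real.Gamma x := Real.Gamma_pos_of_pos hx
  have h3 : 0 < Real.Gamma (x + 1 / 2) := Real.Gamma_pos_of_pos (by linarith)
  unfold gG
  rw [show x + 1 / 2 + 1 / 2 = x + 1 by ring, Real.Gamma_add_one hx.ne']
  field_simp

theorem gG_sq {x : ℝ} (hx : 1 / 2 < x) : x - 1 / 2 ≤ gG x ^ 2 ∧ gG x ^ 2 ≤ x := by
  refine ⟨?_, gG_sq_le (by linarith)⟩
  have h0 : 0 < x - 1 / 2 := by linarith
  have h1 := gG_mul h0
  rw [show x - 1 / 2 + 1 / 2 = x by ring] at h1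
  have h2 := gG_sq_le h0
  have h3 : (x - 1 / 2) ^ 2 = gG (x - 1 / 2) ^ 2 * gG x ^ 2 := by rw [← mul_pow, h1]
  have h4 : gG (x - 1 / 2) ^ 2 * gG x ^ 2 ≤ (x - 1 / 2) * gG x ^ 2 :=
    mul_le_mul_of_nonneg_right h2 (sq_nonneg _)
  have h5 : (x - 1 / 2) * (x - 1 / 2) ≤ (x - 1 / 2) * gG x ^ 2 := by nlinarith
  exact le_of_mul_le_mul_left h5 h0

end Pool.Agent.HRJ
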