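import Pool.Agent.HRJ.D10
import Pool.Agent.PBL.R2
import Pool.Agent.PBL.R3

/-!
# HRJ-Z1: bodies

PROOF PLAN.  `ball_of_const` (PBL.R3) with `m = 1` (as in `PBL.ball_one`, PBL/R4.lean); for the hypothesis `hconst`: `chain_measures` (PBL.R2, `m = 1`) gives `ρ : ℕ → Measure V` with `Ch j ρ` and `supp (D n) = c hf (ρ n)`; as in the proof of
`PBL.chain_const` (`hhf`, by `hf_det`) `hf (ρ (n+1)) = hf (ρ n)` on the unit sphere, and `ρ (n+1) = Nop j (ρ n)` (`Ch.step`), so `Fx j (ρ n)`; `half_const`.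
-/

set_option autoImplicit false

namespace Pool.Agent.HRJ

open MeasureTheory ProbabilityTheory Set Filter Topology Metric
open Pool.Agent.HP89 Pool.Agent.FI75 Pool.Agent.PBL
open scoped RealInnerProductSpace ENNReal

open scoped Pointwise
variable {V : Type*} [NormedAddCommGroup V] [InnerProductSpace ℝ V] [FiniteDimensional ℝ V]
  [MeasurableSpace V] [BorelSpace V]

theorem ball_half {j : ℕ} (hj : 2 ≤ j) (hjd : 2 * j ≤ Module.finrank ℝ V)
    (C : ℕ → Set V) (hC : ∀ i, CC (C i)) (hint : (interior (C 0)).Nonempty)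
    (hpb : IsPB j (C 0) (C 1)) {c : ℝ} (hc : 0 < c) {x : V}
    (hH : C 1 = (fun y => c • y + x) '' C 0) : ∃ (y : V) (r : ℝ), 0 < r ∧ C 0 = closedBall y r := by
  have hj1 : 1 ≤ j := by omega
  have hjd' : j < Module.finrank ℝ V := by omega
  have hd1 : 1 ≤ Module.finrank ℝ V := by omega
  refine ball_of_const hj1 hjd' le_rfl ?_ C hC hint (fun i hi => ?_) hc hH
  · intro D hD hper s hs hpb' hne n u v hu hv
    obtain ⟨ρ, hch, -, hgen⟩ := chain_measures hj1 hjd' le_rfl D hD hper s hs hpb' hne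
    have hfix : ∀ w : V, ‖w‖ = 1 → hf (ρ (n + 1)) w = hf (ρ n) w := by
      obtain ⟨a, ha0, h1⟩ := hgen n
      obtain ⟨a', ha0', h2⟩ := hgen (n + 1)
      have h3 : ∀ w, ‖w‖ = 1 → a' * hf (ρ (n + 1)) w = a * hf (ρ n) w := by
        intro w hw
        rw [← h1 w hw, ← h2 w hw, hper n]
      have h4 : a' = a := hf_det hd1 (hch.us _) (hch.us _) h3
      subst h4
      intro w hw
      exact mul_left_cancel₀ ha0.ne' (h3 w hw)
    have hF : Fx j (ρ n) :=
      ⟨hch.us n, hj, hjd, hch.pos n, fun w hw => by rw [← hch.step n]; exact hfix w hw⟩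
    obtain ⟨a, ha0, h1⟩ := hgen n
    rw [h1 u hu, h1 v hv, half_const hF hu hv]
  · have hi0 : i = 0 := by omega
    subst hi0
    exact hpb

end Pool.Agent.HRJ
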